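import Pool.Agent.Helper66.N9.An11
import Pool.Agent.Helper72.N9.An7

/-! AN: the analytic part of the pinned core theorem. -/

namespace N9

theorem an : ST_AN := an_of_far far

end N9
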