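import Pool.Agent.Helper66.N9.Key

/-! MP_9b91d1_co, block AN (analysis): statement (helper66). -/

namespace N9

open scoped Quaternion

/-- Input data of the analytic part.  `x k` are the vertices of the polytope
`{y | ∀ i, ⟨p i, y⟩ ≤ h i}`; `eta k i` local heights at `x k`; `tri k` the triangles at `x k`. -/
structure AData (I K : Type) [Fintype I] [Fintype K] where
  p : I → V3
  q : I → V3
  h : I → ℝ
  x : K → V3
  eta : K → I → ℝ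
  tri : K → Finset (Finset I)

variable {I K : Type} [Fintype I] [Fintype K]

/-- (A0) unit vectors, positive heights, boundedness -/
def AData.A0 (D : AData I K) : Prop :=
  (∀ i, nsq (D.p i) = 1) ∧ (∀ i, nsq (D.q i) = 1) ∧ (∀ i, 0 < D.h i) ∧
  ∃ c : ℝ, 0 < c ∧ ∀ y : V3, ∃ i, c * Real.sqrt (nsq y) ≤ ip (D.p i) y

/-- (A1) -/
def AData.A1 (D : AData I K) : Prop :=
  (∀ k, ∀ t ∈ D.tri k, ∀ i ∈ t, ip (D.p i) (D.x k) = D.h i) ∧
  (∀ k i, ip (D.p i) (D.x k) ≠ D.h i → D.eta k i = 0)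

/-- (A2) contraction on the triangles -/
def AData.A2 (D : AData I K) : Prop :=
  ∀ k, ∀ t ∈ D.tri k, ∀ i ∈ t, ∀ j ∈ t, ip (D.p i) (D.p j) ≤ ip (D.q i) (D.q j)

/-- (A3) structure of the polytope away from the vertices -/
def AData.A3 (D : AData I K) : Prop :=
  ∃ r : ℝ, 0 < r ∧ ∃ d : ℝ, 0 < d ∧
    (∀ k k', k ≠ k' → (4 * r) ^ 2 ≤ nsq (D.x k - D.x k')) ∧
    ∀ y : V3, (∀ i, ip (D.p i) y - D.h i ≤ d) →
      (∃ k, nsq (y - D.x k) < r ^ 2 ∧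
        ∀ i, ip (D.p i) (D.x k) ≠ D.h i → ip (D.p i) y - D.h i ≤ -d) ∨
      (∃ k, ∃ t ∈ D.tri k, ∃ s ⊆ t, (∀ i, i ∉ s → ip (D.p i) y - D.h i ≤ -d) ∧
        ∀ k', nsq (y - D.x k') < (2 * r) ^ 2 → ∀ i ∈ s, ip (D.p i) (D.x k') = D.h i)

/-- (A4) local structure at the vertices -/
def AData.A4 (D : AData I K) : Prop :=
  ∀ k, ∃ d : ℝ, 0 < d ∧ ∀ y : V3,
    (∀ i, ip (D.p i) (D.x k) = D.h i → ip (D.p i) y - D.eta k i ≤ d) →
    ∃ t ∈ D.tri k, ∀ i, ip (D.p i) (D.x k) = D.h i → i ∉ t → ip (D.p i) y - D.eta k i ≤ -d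

/-- (A5) every `i` is a facet -/
def AData.A5 (D : AData I K) : Prop :=
  ∀ i, ∃ y : V3, ip (D.p i) y = D.h i ∧ ∀ j, j ≠ i → ip (D.p j) y < D.h j

/-- geometric realisation of the triangles -/
def AData.real (D : AData I K) : Set (I → ℝ) :=
  {a | (∀ i, 0 ≤ a i) ∧ ∑ i, a i = 1 ∧ ∃ k, ∃ t ∈ D.tri k, ∀ i, i ∉ t → a i = 0}

/-- (A6) topological hypothesis: homotopy through nonvanishing maps -/
def AData.A6 (D : AData I K) : Prop :=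
  ∃ H : ℝ × (I → ℝ) → V3, ContinuousOn H (Set.Icc 0 1 ×ˢ D.real) ∧
    ∀ a ∈ D.real, H (0, a) = ∑ i, a i • D.q i ∧ H (1, a) = ∑ i, a i • D.p i ∧
      ∀ t ∈ Set.Icc (0 : ℝ) 1, H (t, a) ≠ 0

/-- AN -/
def ST_AN : Prop :=
  ∀ (I K : Type) [Fintype I] [Fintype K] (D : AData I K),
    D.A0 → D.A1 → D.A2 → D.A3 → D.A4 → D.A5 → D.A6 →
    ∃ y : ℍ[ℝ], y ≠ 0 ∧ ∀ i, im (D.p i) * y = y * im (D.q i)

end N9
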