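import Pool.Agent.Helper66.N9.Key3

/-! KEY5: algebra. -/

namespace N9

open MeasureTheory
open scoped Quaternion

theorem norm_im' (v : V3) : ‖im v‖ = Real.sqrt (nsq v) := by
  rw [← norm_im, Real.sqrt_sq (norm_nonneg _)]

theorem im_sum {κ : Type*} (s : Finset κ) (c : κ → ℝ) (q : κ → V3) :
    im (∑ k ∈ s, c k • q k) = ∑ k ∈ s, c k • im (q k) := by
  have : im (∑ k ∈ s, c k • q k) = imL (∑ k ∈ s, c k • q k) := rfl
  rw [this, map_sum]
  refine Finset.sum_congr rfl (fun k _ => ?_)
  rw [map_smul]; rfl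

theorem key5 : ST_KEY5 := by
  refine ⟨?_, ?_, ?_⟩
  · intro p q u
    refine (real_inner_le_norm _ _).trans (le_of_eq ?_)
    rw [norm_mul, norm_mul, norm_im', norm_im']
    ring
  · intro p q u hpq
    rw [norm_sub_sq_real, norm_qmul_sq, norm_qmul_sq, norm_im, norm_im, ← hpq]
    ring
  · intro F u x κ s c q p h
    unfold crossT
    simp_rw [h, im_sum]
    have e1 : ∀ i : Fin 3, inner ℝ (e i * u x) (u x * ∑ k ∈ s, (c k * p k i) • im (q k))
        = ∑ k ∈ s, c k * (p k i * inner ℝ (e i * u x) (u x * im (q k))) := by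
      intro i
      rw [Finset.mul_sum, inner_sum]
      refine Finset.sum_congr rfl (fun k _ => ?_)
      rw [mul_smul_comm, inner_smul_right]; ring
    simp_rw [e1]
    rw [Finset.sum_comm]
    refine Finset.sum_congr rfl (fun k _ => ?_)
    rw [im_grd (p k), Finset.sum_mul, sum_inner, Finset.mul_sum]
    refine Finset.sum_congr rfl (fun i _ => ?_)
    rw [smul_mul_assoc, inner_smul_left]
    simp

end N9
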