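import Pool.Agent.Helper66.N9.Div

/-! KEY6: softmax calculus. -/

namespace N9

open MeasureTheory

theorem cov {κ : Type*} [Fintype κ] (a p q : κ → ℝ) (h : ∑ o, a o = 1) :
    (1 / 2) * ∑ o, ∑ o', a o * a o' * ((p o - p o') * (q o - q o'))
      = ∑ o, a o * (p o * q o) - (∑ o, a o * p o) * (∑ o, a o * q o) := by
  have e1 : ∀ o o', a o * a o' * ((p o - p o') * (q o - q o'))
      = (a o * (p o * q o)) * a o' + a o * (a o' * (p o' * q o'))
        - (a o * p o) * (a o' * q o') - (a o * q o) * (a o' * p o') := by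
    intro o o'; ring
  simp_rw [e1, Finset.sum_sub_distrib, Finset.sum_add_distrib, ← Finset.mul_sum,
    ← Finset.sum_mul, h]
  ring

section pdr

theorem pd_exp {g : V3 → ℝ} {x : V3} (hg : DifferentiableAt ℝ g x) (i : Fin 3) :
    pd i (fun y => Real.exp (g y)) x = Real.exp (g x) * pd i g x := by
  unfold pd
  rw [hg.hasFDerivAt.exp.fderiv]; simp

theorem pd_log {g : V3 → ℝ} {x : V3} (hg : DifferentiableAt ℝ g x) (h0 : g x ≠ 0) (i : Fin 3) :
    pd i (fun y => Real.log (g y)) x = (g x)⁻¹ * pd i g x := by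
  unfold pd
  rw [(hg.hasFDerivAt.log h0).fderiv]; simp

theorem pd_sub {E : Type*} [NormedAddCommGroup E] [NormedSpace ℝ E] {f g : V3 → E} {x : V3}
    (hf : DifferentiableAt ℝ f x)
    (hg : DifferentiableAt ℝ g x) (i : Fin 3) :
    pd i (fun y => f y - g y) x = pd i f x - pd i g x := by
  unfold pd
  rw [fderiv_fun_sub hf hg]; rfl

theorem pd_const {E : Type*} [NormedAddCommGroup E] [NormedSpace ℝ E] (c : E) (x : V3)
    (i : Fin 3) : pd i (fun _ => c) x = 0 := by
  simp [pd]

theorem pd_apply {P : V3 → V3} {x : V3} (hP : DifferentiableAt ℝ P x) (i j : Fin 3) :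
    pd i (fun y => P y j) x = pd i P x j := by
  have := pd_comp_clm (ContinuousLinearMap.proj (R := ℝ) (φ := fun _ : Fin 3 => ℝ) j) hP i
  simpa using this

end pdr

variable {ι : Type*} [Fintype ι] (G : ι → V3 → ℝ)

theorem Zf_pos (x : V3) : 0 < Zf G x := by
  unfold Zf
  have : 0 ≤ ∑ u, Real.exp (G u x) := Finset.sum_nonneg (fun _ _ => (Real.exp_pos _).le)
  linarith

theorem aw_pos (o : Option ι) (x : V3) : 0 < aw G o x := by
  cases o with
  | none => exact div_pos one_pos (Zf_pos G x)
  | some u => exact div_pos (Real.exp_pos _) (Zf_pos G x)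

theorem aw_sum (x : V3) : ∑ o, aw G o x = 1 := by
  rw [Fintype.sum_option]
  simp only [aw]
  rw [← Finset.sum_div, ← add_div]
  exact div_self (Zf_pos G x).ne'

theorem aw_eq (u : ι) (x : V3) :
    aw G (some u) x = Real.exp (G u x - Real.log (Zf G x)) := by
  rw [Real.exp_sub, Real.exp_log (Zf_pos G x)]; rfl

theorem Zf_contDiff {n : WithTop ℕ∞} (hG : ∀ u, ContDiff ℝ n (G u)) : ContDiff ℝ n (Zf G) := by
  unfold Zf
  exact contDiff_const.add (ContDiff.sum (fun u _ => (hG u).exp))

theorem logZ_contDiff {n : WithTop ℕ∞} (hG : ∀ u, ContDiff ℝ n (G u)) :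
    ContDiff ℝ n (fun y => Real.log (Zf G y)) :=
  (Zf_contDiff G hG).log (fun x => (Zf_pos G x).ne')

theorem aw_contDiff {n : WithTop ℕ∞} (hG : ∀ u, ContDiff ℝ n (G u)) (u : ι) :
    ContDiff ℝ n (fun y => aw G (some u) y) := by
  simp_rw [aw_eq]
  exact ((hG u).sub (logZ_contDiff G hG)).exp

theorem pd_logZ (hG : ∀ u, ContDiff ℝ 1 (G u)) (x : V3) (i : Fin 3) :
    pd i (fun y => Real.log (Zf G y)) x = ∑ u, aw G (some u) x * pd i (G u) x := by
  have hd : ∀ u, DifferentiableAt ℝ (G u) x := fun u => (hG u).differentiable (by norm_num) x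
  have hZ : DifferentiableAt ℝ (Zf G) x := (Zf_contDiff G hG).differentiable (by norm_num) x
  rw [pd_log hZ (Zf_pos G x).ne']
  have e1 : pd i (Zf G) x = ∑ u, Real.exp (G u x) * pd i (G u) x := by
    have : Zf G = fun y => (fun _ => (1 : ℝ)) y + (fun y => ∑ u, Real.exp (G u y)) y := rfl
    rw [this, pd_add (differentiableAt_const _)
      (DifferentiableAt.fun_sum (fun u _ => (hd u).exp)), pd_const, zero_add,
      pd_sum _ _ (fun u _ => (hd u).exp)]
    exact Finset.sum_congr rfl (fun u _ => pd_exp (hd u) i)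
  rw [e1, Finset.mul_sum]
  refine Finset.sum_congr rfl (fun u _ => ?_)
  simp only [aw]
  rw [div_eq_inv_mul]; ring

theorem pd_aw (hG : ∀ u, ContDiff ℝ 1 (G u)) (u : ι) (x : V3) (i : Fin 3) :
    pd i (fun y => aw G (some u) y) x
      = aw G (some u) x * (pd i (G u) x - ∑ w, aw G (some w) x * pd i (G w) x) := by
  have hd : DifferentiableAt ℝ (G u) x := (hG u).differentiable (by norm_num) x
  have hl : DifferentiableAt ℝ (fun y => Real.log (Zf G y)) x :=
    (logZ_contDiff G hG).differentiable (by norm_num) x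
  have e1 : (fun y => aw G (some u) y)
      = fun y => Real.exp ((fun y => G u y - Real.log (Zf G y)) y) := by
    funext y; exact aw_eq G u y
  rw [e1, pd_exp (g := fun y => G u y - Real.log (Zf G y)) (hd.sub hl), pd_sub hd hl,
    pd_logZ G hG, ← aw_eq]

/-- bilinear sum over `Option` -/
theorem cov_ext (x : V3) (P Q : ι → V3 → V3) (i j : Fin 3) :
    (1 / 2) * ∑ o, ∑ o', aw G o x * aw G o' x *
        ((ext0 P o x i - ext0 P o' x i) * (ext0 Q o x j - ext0 Q o' x j))
      = ∑ u, aw G (some u) x * (P u x i * Q u x j)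
        - (∑ u, aw G (some u) x * P u x i) * (∑ u, aw G (some u) x * Q u x j) := by
  rw [cov (fun o => aw G o x) (fun o => ext0 P o x i) (fun o => ext0 Q o x j) (aw_sum G x)]
  simp only [Fintype.sum_option, ext0, Pi.zero_apply, mul_zero, zero_add]

theorem pd_awQ (hG : ∀ u, ContDiff ℝ 1 (G u)) (Q : ι → V3 → V3) (hQ : ∀ u, ContDiff ℝ 1 (Q u))
    (x : V3) (i j : Fin 3) :
    pd i (fun y => ∑ u, aw G (some u) y * Q u y j) x
      = ∑ u, aw G (some u) x * pd i (fun y => Q u y j) x
        + (∑ u, aw G (some u) x * (grd (G u) x i * Q u x j)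
          - (∑ u, aw G (some u) x * grd (G u) x i) * (∑ u, aw G (some u) x * Q u x j)) := by
  have ha : ∀ u, DifferentiableAt ℝ (fun y => aw G (some u) y) x :=
    fun u => (aw_contDiff G hG u).differentiable (by norm_num) x
  have hq : ∀ u, DifferentiableAt ℝ (fun y => Q u y j) x :=
    fun u => ((contDiff_pi.1 (hQ u)) j).differentiable (by norm_num) x
  rw [pd_sum _ (fun u y => aw G (some u) y * Q u y j) (fun u _ => (ha u).mul (hq u))]
  have e1 : ∀ u, pd i (fun y => aw G (some u) y * Q u y j) x
      = aw G (some u) x * pd i (fun y => Q u y j) x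
        + (aw G (some u) x * (grd (G u) x i * Q u x j)
          - (∑ w, aw G (some w) x * grd (G w) x i) * (aw G (some u) x * Q u x j)) := by
    intro u
    have := pd_smul (ha u) (hq u) i
    simp only [smul_eq_mul] at this
    rw [this, pd_aw G hG]
    simp only [grd]
    ring
  simp_rw [e1, Finset.sum_add_distrib, Finset.sum_sub_distrib, ← Finset.mul_sum]

theorem avg_apply (lam : ℝ) (P : ι → V3 → V3) (x : V3) (j : Fin 3) :
    avg G lam P x j = lam * ∑ u, aw G (some u) x * P u x j := by
  simp [avg, Finset.sum_apply]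

theorem avg_contDiff {n : WithTop ℕ∞} (hG : ∀ u, ContDiff ℝ n (G u)) (lam : ℝ)
    (P : ι → V3 → V3) (hP : ∀ u, ContDiff ℝ n (P u)) : ContDiff ℝ n (avg G lam P) := by
  rw [contDiff_pi]
  intro j
  simp_rw [avg_apply]
  exact contDiff_const.mul (ContDiff.sum (fun u _ => (aw_contDiff G hG u).mul
    ((contDiff_pi.1 (hP u)) j)))

theorem pd_avg (hG : ∀ u, ContDiff ℝ 1 (G u)) (lam : ℝ) (Q : ι → V3 → V3)
    (hQ : ∀ u, ContDiff ℝ 1 (Q u)) (x : V3) (i j : Fin 3) :
    pd i (fun y => avg G lam Q y j) x
      = lam * (∑ u, aw G (some u) x * pd i (fun y => Q u y j) x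
        + (∑ u, aw G (some u) x * (grd (G u) x i * Q u x j)
          - (∑ u, aw G (some u) x * grd (G u) x i) * (∑ u, aw G (some u) x * Q u x j))) := by
  simp_rw [avg_apply]
  have hd : DifferentiableAt ℝ (fun y => ∑ u, aw G (some u) y * Q u y j) x :=
    DifferentiableAt.fun_sum (fun u _ =>
      ((aw_contDiff G hG u).differentiable (by norm_num) x).mul
        (((contDiff_pi.1 (hQ u)) j).differentiable (by norm_num) x))
  have h := pd_smul (r := fun _ => lam) (differentiableAt_const _) hd i
  simp only [smul_eq_mul] at h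
  rw [h, pd_const, zero_mul, add_zero, pd_awQ G hG Q hQ]

theorem key6 : ST_KEY6 := by
  intro ι _ G lam Qf hG hQ x
  have hG1 : ∀ u, ContDiff ℝ 1 (G u) := fun u => (hG u).of_le (by norm_num)
  have hgr : ∀ u, ContDiff ℝ 1 (grd (G u)) := by
    intro u
    rw [contDiff_pi]
    intro i
    exact pd_contDiff (hG u) (by norm_num) i
  refine ⟨fun o => aw_pos G o x, aw_sum G x, ?_, ?_, ?_, ?_⟩
  · intro i
    rw [pd_logZ G hG1]
    simp [grd, Finset.sum_apply]
  · unfold dv
    simp_rw [pd_avg G hG1 lam (fun u => grd (G u)) hgr x]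
    have e1 : ∀ o o', aw G o x * aw G o' x *
          nsq (ext0 (fun u => grd (G u)) o x - ext0 (fun u => grd (G u)) o' x)
        = ∑ i, aw G o x * aw G o' x *
          ((ext0 (fun u => grd (G u)) o x i - ext0 (fun u => grd (G u)) o' x i)
            * (ext0 (fun u => grd (G u)) o x i - ext0 (fun u => grd (G u)) o' x i)) := by
      intro o o'
      unfold nsq
      rw [Finset.mul_sum]
      refine Finset.sum_congr rfl (fun i _ => ?_)
      simp only [Pi.sub_apply]; ring
    have e2 : (1 / 2) * ∑ o, ∑ o', aw G o x * aw G o' x *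
          nsq (ext0 (fun u => grd (G u)) o x - ext0 (fun u => grd (G u)) o' x)
        = ∑ i, (∑ u, aw G (some u) x * (grd (G u) x i * grd (G u) x i)
          - (∑ u, aw G (some u) x * grd (G u) x i) * (∑ u, aw G (some u) x * grd (G u) x i)) := by
      simp_rw [e1]
      have : ∑ o, ∑ o', ∑ i : Fin 3, aw G o x * aw G o' x *
          ((ext0 (fun u => grd (G u)) o x i - ext0 (fun u => grd (G u)) o' x i)
            * (ext0 (fun u => grd (G u)) o x i - ext0 (fun u => grd (G u)) o' x i))
          = ∑ i : Fin 3, ∑ o, ∑ o', aw G o x * aw G o' x *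
          ((ext0 (fun u => grd (G u)) o x i - ext0 (fun u => grd (G u)) o' x i)
            * (ext0 (fun u => grd (G u)) o x i - ext0 (fun u => grd (G u)) o' x i)) := by
        rw [Finset.sum_comm' (s := Finset.univ) (t := fun _ => Finset.univ)
          (t' := Finset.univ) (s' := fun _ => Finset.univ) (by simp)]
        rw [Finset.sum_comm]
        simp_rw [Finset.sum_comm (s := (Finset.univ : Finset (Option ι)))
          (t := (Finset.univ : Finset (Fin 3)))]
      rw [this, Finset.mul_sum]
      refine Finset.sum_congr rfl (fun i _ => ?_)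
      exact cov_ext G x (fun u => grd (G u)) (fun u => grd (G u)) i i
    rw [e2, ← Finset.mul_sum, Finset.sum_add_distrib, Finset.sum_comm]
    simp_rw [← Finset.mul_sum]
  · intro i
    funext j
    have hav : ContDiff ℝ 1 (avg G lam Qf) := avg_contDiff G hG1 lam Qf hQ
    rw [← pd_apply (hav.differentiable (by norm_num) x) i j, pd_avg G hG1 lam Qf hQ x i j]
    simp only [Pi.add_apply, Pi.smul_apply, Finset.sum_apply, smul_eq_mul, Pi.sub_apply]
    have e3 : ∀ o o', aw G o x * aw G o' x *
        (ext0 (fun u => grd (G u)) o x i - ext0 (fun u => grd (G u)) o' x i) *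
          (ext0 Qf o x j - ext0 Qf o' x j)
        = aw G o x * aw G o' x *
        ((ext0 (fun u => grd (G u)) o x i - ext0 (fun u => grd (G u)) o' x i) *
          (ext0 Qf o x j - ext0 Qf o' x j)) := by
      intro o o'; ring
    simp_rw [e3]
    rw [cov_ext G x (fun u => grd (G u)) Qf i j]
    simp_rw [pd_apply ((hQ _).differentiable (by norm_num) x) i j]
    ring
  · have key : ∀ P : ι → V3 → V3, nsq (avg G lam P x)
        = lam ^ 2 * (∑ u, aw G (some u) x * nsq (P u x)
          - (1 / 2) * ∑ o, ∑ o', aw G o x * aw G o' x * nsq (ext0 P o x - ext0 P o' x)) := by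
      intro P
      have h3 := fun i => cov_ext G x P P i i
      have e1 : ∑ o, ∑ o', aw G o x * aw G o' x * nsq (ext0 P o x - ext0 P o' x)
          = ∑ i, ∑ o, ∑ o', aw G o x * aw G o' x *
            ((ext0 P o x i - ext0 P o' x i) * (ext0 P o x i - ext0 P o' x i)) := by
        simp only [nsq, Fin.sum_univ_three, Pi.sub_apply, ← Finset.sum_add_distrib]
        refine Finset.sum_congr rfl (fun o _ => Finset.sum_congr rfl (fun o' _ => ?_))
        ring
      have e2 : ∑ u, aw G (some u) x * nsq (P u x)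
          = ∑ i, ∑ u, aw G (some u) x * (P u x i * P u x i) := by
        simp only [nsq, Fin.sum_univ_three, ← Finset.sum_add_distrib]
        refine Finset.sum_congr rfl (fun o _ => ?_)
        ring
      have e3 : nsq (avg G lam P x)
          = ∑ i, lam ^ 2 * ((∑ u, aw G (some u) x * P u x i) * (∑ u, aw G (some u) x * P u x i)) := by
        unfold nsq
        simp_rw [avg_apply]
        exact Finset.sum_congr rfl (fun i _ => by ring)
      rw [e1, Finset.mul_sum]
      simp_rw [h3]
      rw [e2, e3, ← Finset.mul_sum, ← Finset.sum_sub_distrib]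
      congr 1
      exact Finset.sum_congr rfl (fun i _ => by ring)
    rw [key Qf, key (fun u => grd (G u))]
    have e4 : ∑ o, ∑ o', aw G o x * aw G o' x *
            (nsq (ext0 Qf o x - ext0 Qf o' x)
              - nsq (ext0 (fun u => grd (G u)) o x - ext0 (fun u => grd (G u)) o' x))
        = ∑ o, ∑ o', aw G o x * aw G o' x * nsq (ext0 Qf o x - ext0 Qf o' x)
          - ∑ o, ∑ o', aw G o x * aw G o' x *
            nsq (ext0 (fun u => grd (G u)) o x - ext0 (fun u => grd (G u)) o' x) := by
      simp only [mul_sub, Finset.sum_sub_distrib]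
    have e5 : ∑ u, aw G (some u) x * (nsq (Qf u x) - nsq (grd (G u) x))
        = ∑ u, aw G (some u) x * nsq (Qf u x) - ∑ u, aw G (some u) x * nsq (grd (G u) x) := by
      simp only [mul_sub, Finset.sum_sub_distrib]
    rw [e4, e5]
    ring

end N9
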