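import Pool.Agent.Helper66.N9.Key2
import Pool.Agent.Helper66.N9.Key5
import Pool.Agent.Helper66.N9.Key6

/-! Euclidean norm on `V3` through imaginary quaternions. -/

namespace N9

open scoped Quaternion

/-- Euclidean norm -/
noncomputable def vn (v : V3) : ℝ := ‖im v‖

theorem vn_sq (v : V3) : vn v ^ 2 = nsq v := norm_im v

theorem vn_nonneg (v : V3) : 0 ≤ vn v := norm_nonneg _

theorem vn_eq_sqrt (v : V3) : vn v = Real.sqrt (nsq v) := norm_im' v

theorem im_add (v w : V3) : im (v + w) = im v + im w := imL.map_add v w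
theorem im_sub (v w : V3) : im (v - w) = im v - im w := imL.map_sub v w
theorem im_smul (a : ℝ) (v : V3) : im (a • v) = a • im v := imL.map_smul a v
theorem im_neg (v : V3) : im (-v) = - im v := imL.map_neg v
@[simp] theorem im_zero : im (0 : V3) = 0 := imL.map_zero

theorem ip_im (v w : V3) : inner ℝ (im v) (im w) = ip v w := by
  rw [inner_exp]
  simp [ip, Fin.sum_univ_three]

theorem ip_self (v : V3) : ip v v = nsq v := by
  unfold ip nsq; exact Finset.sum_congr rfl (fun i _ => by ring)

theorem ip_comm (v w : V3) : ip v w = ip w v := by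
  unfold ip; exact Finset.sum_congr rfl (fun i _ => by ring)

theorem ip_add (u v w : V3) : ip u (v + w) = ip u v + ip u w := by
  rw [← ip_im, im_add, inner_add_right, ip_im, ip_im]

theorem ip_sub (u v w : V3) : ip u (v - w) = ip u v - ip u w := by
  rw [← ip_im, im_sub, inner_sub_right, ip_im, ip_im]

theorem ip_smul (a : ℝ) (u v : V3) : ip u (a • v) = a * ip u v := by
  rw [← ip_im, im_smul, inner_smul_right, ip_im]

theorem add_ip (u v w : V3) : ip (u + v) w = ip u w + ip v w := by
  rw [ip_comm, ip_add, ip_comm w u, ip_comm w v]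

theorem sub_ip (u v w : V3) : ip (u - v) w = ip u w - ip v w := by
  rw [ip_comm, ip_sub, ip_comm w u, ip_comm w v]

theorem smul_ip (a : ℝ) (u v : V3) : ip (a • u) v = a * ip u v := by
  rw [ip_comm, ip_smul, ip_comm]

@[simp] theorem ip_zero (u : V3) : ip u 0 = 0 := by simp [ip]
@[simp] theorem zero_ip (u : V3) : ip 0 u = 0 := by simp [ip]

theorem ip_sum {κ : Type*} (s : Finset κ) (u : V3) (f : κ → V3) :
    ip u (∑ k ∈ s, f k) = ∑ k ∈ s, ip u (f k) := by
  classical
  induction s using Finset.induction_on with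
  | empty => simp
  | insert a s ha ih => rw [Finset.sum_insert ha, Finset.sum_insert ha, ip_add, ih]

theorem sum_ip {κ : Type*} (s : Finset κ) (u : V3) (f : κ → V3) :
    ip (∑ k ∈ s, f k) u = ∑ k ∈ s, ip (f k) u := by
  rw [ip_comm, ip_sum]; exact Finset.sum_congr rfl (fun k _ => ip_comm _ _)

theorem abs_ip_le (v w : V3) : |ip v w| ≤ vn v * vn w := by
  rw [← ip_im]; exact abs_real_inner_le_norm _ _

theorem ip_le (v w : V3) : ip v w ≤ vn v * vn w := (le_abs_self _).trans (abs_ip_le v w)

theorem nsq_nonneg (v : V3) : 0 ≤ nsq v := by rw [← vn_sq]; exact sq_nonneg _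

theorem nsq_add (v w : V3) : nsq (v + w) = nsq v + 2 * ip v w + nsq w := by
  rw [← ip_self, add_ip, ip_add, ip_add, ip_self, ip_self, ip_comm w v]; ring

theorem nsq_sub (v w : V3) : nsq (v - w) = nsq v - 2 * ip v w + nsq w := by
  rw [← ip_self, sub_ip, ip_sub, ip_sub, ip_self, ip_self, ip_comm w v]; ring

theorem nsq_smul (a : ℝ) (v : V3) : nsq (a • v) = a ^ 2 * nsq v := by
  rw [← ip_self, smul_ip, ip_smul, ip_self]; ring

@[simp] theorem nsq_zero : nsq (0 : V3) = 0 := by simp [nsq]

theorem vn_add_le (v w : V3) : vn (v + w) ≤ vn v + vn w := by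
  unfold vn; rw [im_add]; exact norm_add_le _ _

theorem vn_sub_le (v w : V3) : vn (v - w) ≤ vn v + vn w := by
  unfold vn; rw [im_sub]; exact norm_sub_le _ _

theorem vn_smul (a : ℝ) (v : V3) : vn (a • v) = |a| * vn v := by
  unfold vn; rw [im_smul, norm_smul, Real.norm_eq_abs]

@[simp] theorem vn_zero : vn (0 : V3) = 0 := by simp [vn]

theorem vn_neg (v : V3) : vn (-v) = vn v := by
  unfold vn; rw [im_neg, norm_neg]

theorem vn_sum_le {κ : Type*} (s : Finset κ) (f : κ → V3) :
    vn (∑ k ∈ s, f k) ≤ ∑ k ∈ s, vn (f k) := by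
  classical
  induction s using Finset.induction_on with
  | empty => simp
  | insert a s ha ih =>
    rw [Finset.sum_insert ha, Finset.sum_insert ha]
    exact (vn_add_le _ _).trans (by linarith)

theorem abs_apply_le (v : V3) (i : Fin 3) : |v i| ≤ vn v := by
  rw [vn_eq_sqrt]
  apply Real.abs_le_sqrt
  unfold nsq
  exact Finset.single_le_sum (f := fun j => v j ^ 2) (fun j _ => sq_nonneg _) (Finset.mem_univ i)

theorem vn_le_sum (v : V3) : vn v ≤ ∑ i, |v i| := by
  rw [vn_eq_sqrt]
  apply Real.sqrt_le_iff.2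
  constructor
  · exact Finset.sum_nonneg (fun i _ => abs_nonneg _)
  · unfold nsq
    simp only [Fin.sum_univ_three]
    nlinarith [abs_nonneg (v 0), abs_nonneg (v 1), abs_nonneg (v 2), sq_abs (v 0), sq_abs (v 1),
      sq_abs (v 2), mul_nonneg (abs_nonneg (v 0)) (abs_nonneg (v 1)),
      mul_nonneg (abs_nonneg (v 0)) (abs_nonneg (v 2)),
      mul_nonneg (abs_nonneg (v 1)) (abs_nonneg (v 2))]

theorem vn_le_norm (v : V3) : vn v ≤ 3 * ‖v‖ := by
  refine (vn_le_sum v).trans ?_
  calc ∑ i, |v i| ≤ ∑ _i : Fin 3, ‖v‖ := Finset.sum_le_sum (fun i _ => by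
        have := norm_le_pi_norm v i
        rwa [Real.norm_eq_abs] at this)
    _ = 3 * ‖v‖ := by simp

theorem norm_le_vn (v : V3) : ‖v‖ ≤ vn v := by
  rw [pi_norm_le_iff_of_nonneg (vn_nonneg v)]
  intro i
  rw [Real.norm_eq_abs]; exact abs_apply_le v i

theorem vn_pos_of_ne {v : V3} (h : v ≠ 0) : 0 < vn v := by
  unfold vn
  rw [norm_pos_iff]
  intro h0
  apply h
  funext i
  have h1 : (im v).imI = 0 ∧ (im v).imJ = 0 ∧ (im v).imK = 0 := by rw [h0]; simp
  fin_cases i
  · exact h1.1
  · exact h1.2.1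
  · exact h1.2.2

theorem vn_continuous : Continuous vn := by
  unfold vn; exact (imL.continuous).norm

theorem nsq_continuous : Continuous nsq := by
  unfold nsq; exact continuous_finsetSum _ (fun i _ => (continuous_apply i).pow 2)

theorem nsq_contDiff {n : WithTop ℕ∞} : ContDiff ℝ n nsq := by
  unfold nsq
  exact ContDiff.sum (fun i _ => (contDiff_apply ℝ ℝ i).pow 2)

theorem ip_contDiff {n : WithTop ℕ∞} (u : V3) : ContDiff ℝ n (ip u) := by
  unfold ip
  exact ContDiff.sum (fun i _ => contDiff_const.mul (contDiff_apply ℝ ℝ i))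

theorem pd_coord (i j : Fin 3) (x : V3) :
    pd i (fun y : V3 => y j) x = if i = j then 1 else 0 := by
  unfold pd
  have h : HasFDerivAt (fun y : V3 => y j) (ContinuousLinearMap.proj (R := ℝ)
      (φ := fun _ : Fin 3 => ℝ) j) x :=
    (ContinuousLinearMap.proj (R := ℝ) (φ := fun _ : Fin 3 => ℝ) j).hasFDerivAt
  rw [h.fderiv]
  simp only [ContinuousLinearMap.proj_apply, Pi.single_apply]
  by_cases hij : i = j
  · subst hij; simp
  · rw [if_neg hij, if_neg (Ne.symm hij)]

theorem pd_ip (u : V3) (i : Fin 3) (x : V3) : pd i (ip u) x = u i := by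
  have h0 : ip u = fun y => ∑ j, (fun y : V3 => u j • y j) y := by
    funext y; simp [ip]
  have hd : ∀ j : Fin 3, DifferentiableAt ℝ (fun y : V3 => y j) x := fun j =>
    (contDiff_apply ℝ ℝ j (n := 1)).differentiable (by norm_num) x
  rw [h0, pd_sum Finset.univ (fun j => fun y : V3 => u j • y j)
    (fun j _ => (hd j).const_smul (u j))]
  have h1 : ∀ j, pd i (fun y : V3 => u j • y j) x = if i = j then u j else 0 := by
    intro j
    have := pd_smul (r := fun _ : V3 => u j) (f := fun y : V3 => y j) (x := x)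
      (differentiableAt_const _) (hd j) i
    rw [this, pd_coord, pd_const]
    by_cases hij : i = j <;> simp [hij]
  simp_rw [h1]
  simp

theorem pd_mul {f g : V3 → ℝ} {x : V3} (hf : DifferentiableAt ℝ f x)
    (hg : DifferentiableAt ℝ g x) (i : Fin 3) :
    pd i (fun y => f y * g y) x = f x * pd i g x + pd i f x * g x := by
  have := pd_smul hf hg i
  simpa [smul_eq_mul] using this

theorem pd_neg {E : Type*} [NormedAddCommGroup E] [NormedSpace ℝ E] (f : V3 → E) (x : V3)
    (i : Fin 3) : pd i (fun y => - f y) x = - pd i f x := by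
  unfold pd; rw [fderiv_fun_neg]; rfl

theorem pd_comp_real {φ : ℝ → ℝ} {g : V3 → ℝ} {x : V3} (hφ : DifferentiableAt ℝ φ (g x))
    (hg : DifferentiableAt ℝ g x) (i : Fin 3) :
    pd i (fun y => φ (g y)) x = deriv φ (g x) * pd i g x := by
  unfold pd
  have h := hφ.hasDerivAt.comp_hasFDerivAt x hg.hasFDerivAt
  have h0 : (fun y => φ (g y)) = φ ∘ g := rfl
  rw [h0, h.fderiv]; simp

theorem pd_nsq_sub (c : V3) (i : Fin 3) (x : V3) :
    pd i (fun y => nsq (y - c)) x = 2 * (x i - c i) := by
  have h0 : (fun y : V3 => nsq (y - c)) = fun y => ∑ j, (fun y : V3 => (y j - c j) * (y j - c j)) y := by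
    funext y; unfold nsq
    exact Finset.sum_congr rfl (fun j _ => by simp only [Pi.sub_apply]; ring)
  have hd : ∀ j : Fin 3, DifferentiableAt ℝ (fun y : V3 => y j - c j) x := fun j =>
    ((contDiff_apply ℝ ℝ j (n := 1)).differentiable (by norm_num) x).sub_const _
  rw [h0, pd_sum Finset.univ (fun j => fun y : V3 => (y j - c j) * (y j - c j))
    (fun j _ => (hd j).mul (hd j))]
  have h2 : ∀ j, pd i (fun y : V3 => y j - c j) x = if i = j then 1 else 0 := by
    intro j
    have h3 := pd_sub (f := fun y : V3 => y j) (g := fun _ => c j) (x := x)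
      ((contDiff_apply ℝ ℝ j (n := 1)).differentiable (by norm_num) x)
      (differentiableAt_const _) i
    rw [h3, pd_coord, pd_const, sub_zero]
  have h1 : ∀ j, pd i (fun y : V3 => (y j - c j) * (y j - c j)) x
      = if i = j then 2 * (x j - c j) else 0 := by
    intro j
    rw [pd_mul (hd j) (hd j), h2]
    by_cases hij : i = j
    · simp only [hij, if_true]; ring
    · simp [hij]
  simp_rw [h1]
  simp

theorem pd_congr {E : Type*} [NormedAddCommGroup E] [NormedSpace ℝ E] {f g : V3 → E} {x : V3}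
    (h : f =ᶠ[nhds x] g) (i : Fin 3) : pd i f x = pd i g x := by
  unfold pd; rw [h.fderiv_eq]

theorem dv_congr {f g : V3 → V3} {x : V3} (h : f =ᶠ[nhds x] g) : dv f x = dv g x := by
  unfold dv
  refine Finset.sum_congr rfl (fun i _ => pd_congr ?_ i)
  filter_upwards [h] with y hy
  rw [hy]

theorem pd_shift {E : Type*} [NormedAddCommGroup E] [NormedSpace ℝ E] (f : V3 → E) (c x : V3)
    (i : Fin 3) : pd i (fun y => f (y - c)) x = pd i f (x - c) := by
  unfold pd; rw [fderiv_comp_sub]

end N9
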