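import Pool.Agent.Helper66.N9.Gal

/-! KEY1. -/

namespace N9

open MeasureTheory
open scoped Quaternion

theorem cmp_cont (g : V3 → ℍ[ℝ]) (hg : Continuous g) (l : Fin 4) :
    Continuous (fun x => cmp (g x) l) := by
  have h1 := Quaternion.continuous_re.comp hg
  have h2 := Quaternion.continuous_imI.comp hg
  have h3 := Quaternion.continuous_imJ.comp hg
  have h4 := Quaternion.continuous_imK.comp hg
  fin_cases l
  · exact h1
  · exact h2
  · exact h3
  · exact h4

/-- approximation of a continuous field by admissible target polynomials -/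
theorem approx (R : ℝ) (hR : 0 < R) (g : V3 → ℍ[ℝ]) (hg : Continuous g) (δ : ℝ) (hδ : 0 < δ) :
    ∃ N : ℕ, ∀ n ≥ N, ∃ d : Cf, sup4 et d ∧
      ∫ x in box R, ‖g x - fld R et (Bn n) d x‖ ^ 2 < δ := by
  have h := fun l : Fin 4 => dens R hR (et l) (fun x => cmp (g x) l) (cmp_cont g hg l) (δ / 4)
    (by positivity)
  choose N hN using h
  refine ⟨Finset.univ.sup N, fun n hn => ?_⟩
  have h2 := fun l : Fin 4 => hN l n ((Finset.le_sup (Finset.mem_univ l)).trans hn)
  choose c hc1 hc2 using h2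
  refine ⟨c, fun j k hk => hc1 j k hk, ?_⟩
  have hpt : ∀ x, ‖g x - fld R et (Bn n) c x‖ ^ 2
      = ∑ l, (cmp (g x) l - ∑ k ∈ Bn n, c l k * eb R (et l) k x) ^ 2 := by
    intro x
    have : g x - fld R et (Bn n) c x
        = mk4 (fun l => cmp (g x) l - ∑ k ∈ Bn n, c l k * eb R (et l) k x) := by
      conv_lhs => rw [← mk4_cmp (g x)]
      unfold fld
      rw [← mk4_sub]
      rfl
    rw [this, norm_mk4]
  simp_rw [hpt]
  rw [integral_finsetSum]
  · calc ∑ l, ∫ x in box R, (cmp (g x) l - ∑ k ∈ Bn n, c l k * eb R (et l) k x) ^ 2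
        < ∑ _l : Fin 4, δ / 4 := Finset.sum_lt_sum_of_nonempty (by simp) (fun l _ => hc2 l)
      _ = δ := by simp; ring
  · intro l _
    apply integrableOn_box
    exact ((cmp_cont g hg l).sub (continuous_finsetSum _ (fun k _ =>
      continuous_const.mul (eb_cont R _ k)))).pow 2

/-- source basis vector -/
noncomputable def bs (R : ℝ) (τ : Fin 4 × (Fin 3 → ℕ)) (x : V3) : ℍ[ℝ] :=
  mk4 (Pi.single τ.1 (eb R (es τ.1) τ.2 x))

theorem bs_cont (R : ℝ) (τ : Fin 4 × (Fin 3 → ℕ)) : Continuous (bs R τ) := by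
  have : bs R τ = fun x => mk4L (Pi.single τ.1 (eb R (es τ.1) τ.2 x)) := rfl
  rw [this]
  apply mk4L.continuous.comp
  apply continuous_pi
  intro j
  by_cases hj : j = τ.1
  · subst hj
    simpa using eb_cont R _ _
  · simp only [Pi.single_eq_of_ne hj]
    exact continuous_const

theorem fld_es_eq (R : ℝ) (n : ℕ) (d : Cf) (hd : sup4 es d) (x : V3) :
    fld R es (Bn n) d x = ∑ τ ∈ SF n, d τ.1 τ.2 • bs R τ x := by
  have hb : ∀ τ : Fin 4 × (Fin 3 → ℕ), d τ.1 τ.2 • bs R τ x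
      = mk4L (d τ.1 τ.2 • Pi.single τ.1 (eb R (es τ.1) τ.2 x)) := by
    intro τ
    rw [map_smul]; rfl
  simp_rw [hb]
  rw [← map_sum]
  rw [mk4L_apply]
  unfold fld
  congr 1
  funext j
  rw [Finset.sum_apply]
  unfold SF
  rw [Finset.sum_filter, Finset.sum_product_right]
  refine Finset.sum_congr rfl (fun k _ => ?_)
  rw [Finset.sum_eq_single j]
  · by_cases h : adm (es j) k
    · simp [h]
    · simp [h, hd j k h]
  · intro j' _ hj'
    by_cases h : adm (es j') k
    · simp [h, Pi.single_eq_of_ne hj'.symm]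
    · simp [h]
  · intro h; exact absurd (Finset.mem_univ j) h

theorem int_mono_box (R : ℝ) (f g : V3 → ℝ) (hf : Continuous f) (hg : Continuous g)
    (h : ∀ x ∈ box R, f x ≤ g x) : ∫ x in box R, f x ≤ ∫ x in box R, g x :=
  setIntegral_mono_on (integrableOn_box hf R) (integrableOn_box hg R) (box_meas R) h

theorem int_add_box (R : ℝ) (f g : V3 → ℝ) (hf : Continuous f) (hg : Continuous g) :
    ∫ x in box R, (f x + g x) = (∫ x in box R, f x) + ∫ x in box R, g x :=
  integral_add (integrableOn_box hf R) (integrableOn_box hg R)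

theorem half_sq (p q : ℍ[ℝ]) : -(inner ℝ p q : ℝ) ≤ ‖p‖ ^ 2 / 2 + ‖q‖ ^ 2 / 2 := by
  have := norm_add_sq_real p q
  nlinarith [sq_nonneg ‖p + q‖]

theorem half_sq' (p q : ℍ[ℝ]) : (inner ℝ p q : ℝ) ≤ ‖p‖ ^ 2 / 2 + ‖q‖ ^ 2 / 2 := by
  have := norm_sub_sq_real p q
  nlinarith [sq_nonneg ‖p - q‖]

theorem key1 : ST_KEY1 := by
  intro R hR F hF ε hε
  classical
  -- bound of F
  obtain ⟨M0, hM0⟩ := (box_compact R).exists_bound_of_continuousOn (im_cont F hF).continuousOn
  set M : ℝ := max M0 0 with hM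
  have hMn : 0 ≤ M := le_max_right _ _
  have hMb : ∀ x ∈ box R, ‖im (F x)‖ ^ 2 ≤ M ^ 2 := by
    intro x hx
    exact pow_le_pow_left₀ (norm_nonneg _) ((hM0 x hx).trans (le_max_left _ _)) 2
  set w : ℝ := Real.pi / R with hw
  have hwp : 0 < w := div_pos Real.pi_pos hR
  -- choice of m
  obtain ⟨m, hm⟩ := exists_nat_gt (4 * M ^ 4 / (w ^ 2 * ε))
  have hm2 : 2 * M ^ 4 / (w ^ 2 * ((m:ℝ) + 1) ^ 2) < ε / 2 := by
    have h1 : 4 * M ^ 4 < m * (w ^ 2 * ε) := by
      rwa [div_lt_iff₀ (by positivity)] at hm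
    rw [div_lt_iff₀ (by positivity)]
    have h2 : (m:ℝ) ≤ ((m:ℝ) + 1) ^ 2 := by nlinarith [(Nat.cast_nonneg m : (0:ℝ) ≤ m)]
    have h3 : 0 < w ^ 2 * ε := by positivity
    nlinarith
  set K : ℝ := ((SF m).card : ℝ) with hK
  have hK0 : 0 ≤ K := Nat.cast_nonneg _
  have hR3 : 0 < (R / 2) ^ 3 := by positivity
  set δ : ℝ := ε * (R / 2) ^ 3 / (8 * (K + 1)) with hδ
  have hδ0 : 0 < δ := by positivity
  have hδ2 : 2 * K * δ / (R / 2) ^ 3 < ε / 2 := by
    rw [hδ, div_lt_iff₀ hR3]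
    rw [show 2 * K * (ε * (R / 2) ^ 3 / (8 * (K + 1)))
      = (ε * (R / 2) ^ 3) * (2 * K / (8 * (K + 1))) by ring]
    have : 2 * K / (8 * (K + 1)) < 1 / 2 := by
      rw [div_lt_iff₀ (by positivity)]; nlinarith
    have h3 : 0 < ε * (R / 2) ^ 3 := by positivity
    nlinarith
  -- approximants
  have hap := fun σ : Fin 4 × (Fin 3 → ℕ) => approx R hR (fun x => bs R σ x * im (F x))
    ((bs_cont R σ).mul (im_cont F hF)) δ hδ0
  choose N hN using hap
  set n : ℕ := max m ((SF m).sup N) with hn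
  have hd := fun σ : SF m => hN σ.1 n
    ((Finset.le_sup σ.2).trans (le_max_right _ _))
  choose d hd1 hd2 using hd
  obtain ⟨c, hc1, ⟨j0, k0, hk0, hc0⟩, hc2, hc3⟩ := galerkin R F hF n
  have hdc := dc_sup R c hc1
  have hP := hc3 (dc R c) hdc
  -- the fields
  set Φ := fld R es (Bn n) c with hΦ
  have hΦc : Continuous Φ := fld_cont R es _ _
  set P := fld R et (Bn n) (dc R c) with hPd
  have hPc : Continuous P := fld_cont R et _ _
  set Q : V3 → ℍ[ℝ] := fun x => Φ x * im (F x) with hQ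
  have hQc : Continuous Q := hΦc.mul (im_cont F hF)
  have hL : ∀ x, LF R F n c x = P x + Q x := fun x => rfl
  have hLc := LF_cont R F hF n c
  have hΦQ : ∀ x ∈ box R, ‖Q x‖ ^ 2 ≤ M ^ 2 * ‖Φ x‖ ^ 2 := by
    intro x hx
    simp only [hQ]
    rw [norm_mul, mul_pow, mul_comm]
    exact mul_le_mul_of_nonneg_right (hMb x hx) (sq_nonneg _)
  -- norms
  have hBmn : Bn m ⊆ Bn n := by
    intro k hk
    rw [mem_Bn] at hk ⊢
    intro i
    exact (hk i).trans (le_max_left _ _)
  have ha0 : ∫ x in box R, ‖Φ x‖ ^ 2 = ∑ k ∈ Bn n, nu0 R k * ∑ j, c j k ^ 2 :=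
    int_fld' R hR es (Bn n) c hc1
  have ha0pos : 0 < ∫ x in box R, ‖Φ x‖ ^ 2 := by
    rw [ha0]
    apply Finset.sum_pos'
    · intro k _
      exact mul_nonneg (nu0_pos R hR k).le (Finset.sum_nonneg (fun j _ => sq_nonneg _))
    · refine ⟨k0, hk0, mul_pos (nu0_pos R hR k0) ?_⟩
      apply Finset.sum_pos' (fun j _ => sq_nonneg _)
      exact ⟨j0, Finset.mem_univ _, by positivity⟩
  set a0 := ∫ x in box R, ‖Φ x‖ ^ 2 with ha0d
  -- E1
  have E1 : ∫ x in box R, ‖P x‖ ^ 2 ≤ M ^ 2 * a0 := by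
    have h1 : ∫ x in box R, ‖P x‖ ^ 2 ≤ ∫ x in box R,
        (inner ℝ (LF R F n c x) (P x) + (‖Q x‖ ^ 2 / 2 + ‖P x‖ ^ 2 / 2)) := by
      apply int_mono_box
      · exact hPc.norm.pow 2
      · exact (hLc.inner hPc).add (((hQc.norm.pow 2).div_const _).add
          ((hPc.norm.pow 2).div_const _))
      · intro x _
        rw [hL, inner_add_left, real_inner_self_eq_norm_sq]
        have := half_sq (Q x) (P x)
        linarith
    have h2 : ∫ x in box R, (inner ℝ (LF R F n c x) (P x) + (‖Q x‖ ^ 2 / 2 + ‖P x‖ ^ 2 / 2))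
        = 0 + ((∫ x in box R, ‖Q x‖ ^ 2) / 2 + (∫ x in box R, ‖P x‖ ^ 2) / 2) := by
      have c1 : Continuous (fun x => (inner ℝ (LF R F n c x) (P x) : ℝ)) := hLc.inner hPc
      have c2 : Continuous (fun x => ‖Q x‖ ^ 2 / 2) := (hQc.norm.pow 2).div_const _
      have c3 : Continuous (fun x => ‖P x‖ ^ 2 / 2) := (hPc.norm.pow 2).div_const _
      have c23 : Continuous (fun x => ‖Q x‖ ^ 2 / 2 + ‖P x‖ ^ 2 / 2) := c2.add c3
      rw [int_add_box R _ _ c1 c23, int_add_box R _ _ c2 c3, integral_div, integral_div, hP]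
    have h3 : ∫ x in box R, ‖Q x‖ ^ 2 ≤ M ^ 2 * a0 := by
      rw [ha0d, ← integral_const_mul]
      exact int_mono_box R _ _ (hQc.norm.pow 2) (continuous_const.mul (hΦc.norm.pow 2)) hΦQ
    linarith
  -- E2
  have E2 : ∀ dd : Cf, sup4 et dd → ∫ x in box R, ‖LF R F n c x‖ ^ 2
      ≤ ∫ x in box R, ‖Q x - fld R et (Bn n) dd x‖ ^ 2 := by
    intro dd hdd
    have hG := hc3 dd hdd
    set G := fld R et (Bn n) dd with hGd
    have hGc : Continuous G := fld_cont R et _ _
    have h1 : ∫ x in box R, ‖LF R F n c x‖ ^ 2 ≤ ∫ x in box R,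
        (inner ℝ (LF R F n c x) (P x) + (inner ℝ (LF R F n c x) (G x)
          + (‖LF R F n c x‖ ^ 2 / 2 + ‖Q x - G x‖ ^ 2 / 2))) := by
      apply int_mono_box
      · exact hLc.norm.pow 2
      · exact (hLc.inner hPc).add ((hLc.inner hGc).add (((hLc.norm.pow 2).div_const _).add
          (((hQc.sub hGc).norm.pow 2).div_const _)))
      · intro x _
        have e1 : ‖LF R F n c x‖ ^ 2 = inner ℝ (LF R F n c x) (P x)
            + (inner ℝ (LF R F n c x) (G x) + inner ℝ (LF R F n c x) (Q x - G x)) := by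
          rw [← inner_add_right, ← inner_add_right, ← real_inner_self_eq_norm_sq]
          congr 1
          rw [hL]; abel
        rw [e1]
        have := half_sq' (LF R F n c x) (Q x - G x)
        linarith
    have h2 : ∫ x in box R, (inner ℝ (LF R F n c x) (P x) + (inner ℝ (LF R F n c x) (G x)
          + (‖LF R F n c x‖ ^ 2 / 2 + ‖Q x - G x‖ ^ 2 / 2)))
        = 0 + (0 + ((∫ x in box R, ‖LF R F n c x‖ ^ 2) / 2
          + (∫ x in box R, ‖Q x - G x‖ ^ 2) / 2)) := by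
      have c1 : Continuous (fun x => (inner ℝ (LF R F n c x) (P x) : ℝ)) := hLc.inner hPc
      have c2 : Continuous (fun x => (inner ℝ (LF R F n c x) (G x) : ℝ)) := hLc.inner hGc
      have c3 : Continuous (fun x => ‖LF R F n c x‖ ^ 2 / 2) := (hLc.norm.pow 2).div_const _
      have c4 : Continuous (fun x => ‖Q x - G x‖ ^ 2 / 2) :=
        ((hQc.sub hGc).norm.pow 2).div_const _
      have c34 : Continuous (fun x => ‖LF R F n c x‖ ^ 2 / 2 + ‖Q x - G x‖ ^ 2 / 2) := c3.add c4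
      have c234 : Continuous (fun x => (inner ℝ (LF R F n c x) (G x) : ℝ)
        + (‖LF R F n c x‖ ^ 2 / 2 + ‖Q x - G x‖ ^ 2 / 2)) := c2.add c34
      rw [int_add_box R _ _ c1 c234, int_add_box R _ _ c2 c34, int_add_box R _ _ c3 c4,
        integral_div, integral_div, hP, hG]
    linarith
  -- low and high parts
  set cl : Cf := fun j k => if k ∈ Bn m then c j k else 0 with hcl
  set ch : Cf := fun j k => if k ∈ Bn m then 0 else c j k with hch
  have hclh : c = cl + ch := by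
    funext j k
    simp only [hcl, hch, Pi.add_apply]
    split_ifs <;> simp
  have hcl1 : sup4 es cl := by
    intro j k hk
    simp only [hcl]
    split_ifs
    · exact hc1 j k hk
    · rfl
  have hch1 : sup4 es ch := by
    intro j k hk
    simp only [hch]
    split_ifs
    · rfl
    · exact hc1 j k hk
  have hΦlh : ∀ x, Φ x = fld R es (Bn n) cl x + fld R es (Bn n) ch x := by
    intro x
    rw [← fld_add, ← hclh]
  have hah : ∫ x in box R, ‖fld R es (Bn n) ch x‖ ^ 2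
      ≤ (M ^ 2 / (w ^ 2 * ((m:ℝ) + 1) ^ 2)) * a0 := by
    rw [int_fld' R hR es (Bn n) ch hch1]
    have h1 : ∑ k ∈ Bn n, nu0 R k * ∑ j, ch j k ^ 2
        ≤ (1 / (w ^ 2 * ((m:ℝ) + 1) ^ 2)) * ∫ x in box R, ‖P x‖ ^ 2 := by
      rw [hPd, int_fld' R hR et (Bn n) (dc R c) hdc, Finset.mul_sum]
      apply Finset.sum_le_sum
      intro k _
      by_cases hk : k ∈ Bn m
      · have : ∑ j, ch j k ^ 2 = 0 := by
          apply Finset.sum_eq_zero
          intro j _
          simp [hch, hk]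
        rw [this, mul_zero]
        apply mul_nonneg (by positivity)
        exact mul_nonneg (nu0_pos R hR k).le (Finset.sum_nonneg (fun j _ => sq_nonneg _))
      · have h2 : ∑ j, ch j k ^ 2 = ∑ j, c j k ^ 2 := by
          apply Finset.sum_congr rfl
          intro j _
          simp [hch, hk]
        rw [h2, dc_norm, ← hw]
        have h3 : ((m:ℝ) + 1) ^ 2 ≤ ∑ i, (k i : ℝ) ^ 2 := by
          rw [mem_Bn] at hk
          push Not at hk
          obtain ⟨i, hi⟩ := hk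
          have h4 : ((m:ℝ) + 1) ≤ k i := by exact_mod_cast hi
          calc ((m:ℝ) + 1) ^ 2 ≤ (k i : ℝ) ^ 2 := by
                apply pow_le_pow_left₀ (by positivity) h4
            _ ≤ _ := Finset.single_le_sum (f := fun i => (k i : ℝ) ^ 2)
                (fun i _ => sq_nonneg _) (Finset.mem_univ i)
        have h5 : 0 ≤ ∑ j, c j k ^ 2 := Finset.sum_nonneg (fun j _ => sq_nonneg _)
        have h6 := (nu0_pos R hR k).le
        rw [show (1 / (w ^ 2 * ((m:ℝ) + 1) ^ 2)) * (nu0 R k * (w ^ 2 * (∑ i, (k i : ℝ) ^ 2)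
            * ∑ j, c j k ^ 2)) = (nu0 R k * ∑ j, c j k ^ 2)
            * ((∑ i, (k i : ℝ) ^ 2) / ((m:ℝ) + 1) ^ 2) by
          field_simp]
        have h7 : 1 ≤ (∑ i, (k i : ℝ) ^ 2) / ((m:ℝ) + 1) ^ 2 := by
          rw [le_div_iff₀ (by positivity)]; linarith
        have h8 : 0 ≤ nu0 R k * ∑ j, c j k ^ 2 := mul_nonneg h6 h5
        nlinarith
    calc _ ≤ (1 / (w ^ 2 * ((m:ℝ) + 1) ^ 2)) * ∫ x in box R, ‖P x‖ ^ 2 := h1
      _ ≤ (1 / (w ^ 2 * ((m:ℝ) + 1) ^ 2)) * (M ^ 2 * a0) :=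
          mul_le_mul_of_nonneg_left E1 (by positivity)
      _ = _ := by ring
  -- low part as a sum over SF m
  have hlow : ∀ x, fld R es (Bn n) cl x = ∑ τ ∈ SF m, c τ.1 τ.2 • bs R τ x := by
    intro x
    rw [fld_es_eq R n cl hcl1]
    have hsub : SF m ⊆ SF n := by
      intro τ hτ
      unfold SF at hτ ⊢
      rw [Finset.mem_filter, Finset.mem_product] at hτ ⊢
      exact ⟨⟨hτ.1.1, hBmn hτ.1.2⟩, hτ.2⟩
    rw [← Finset.sum_subset hsub]
    · apply Finset.sum_congr rfl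
      intro τ hτ
      unfold SF at hτ
      rw [Finset.mem_filter, Finset.mem_product] at hτ
      simp only [hcl]
      rw [if_pos hτ.1.2]
    · intro τ hτ hτ'
      have : τ.2 ∉ Bn m := by
        intro h
        apply hτ'
        unfold SF at hτ ⊢
        rw [Finset.mem_filter, Finset.mem_product] at hτ ⊢
        exact ⟨⟨hτ.1.1, h⟩, hτ.2⟩
      simp only [hcl]
      rw [if_neg this, zero_smul]
  -- the approximant
  set dd : Cf := ∑ σ : SF m, c σ.1.1 σ.1.2 • d σ with hdd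
  have hdd1 : sup4 et dd := by
    intro j k hk
    rw [hdd, Finset.sum_apply, Finset.sum_apply]
    apply Finset.sum_eq_zero
    intro σ _
    simp only [Pi.smul_apply, smul_eq_mul]
    rw [hd1 σ j k hk, mul_zero]
  have hfdd : ∀ x, fld R et (Bn n) dd x
      = ∑ σ : SF m, c σ.1.1 σ.1.2 • fld R et (Bn n) (d σ) x := by
    intro x
    let f : Cf →ₗ[ℝ] ℍ[ℝ] :=
      { toFun := fun c => fld R et (Bn n) c x
        map_add' := fun a b => fld_add R et (Bn n) a b x
        map_smul' := fun a b => fld_smul R et (Bn n) a b x }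
    have : fld R et (Bn n) dd x = f dd := rfl
    rw [this, hdd, map_sum]
    apply Finset.sum_congr rfl
    intro σ _
    rw [map_smul]
    rfl
  have hcsq : ∑ σ : SF m, c σ.1.1 σ.1.2 ^ 2 ≤ a0 / (R / 2) ^ 3 := by
    rw [le_div_iff₀ hR3, ha0]
    have h1 : ∑ σ : SF m, c σ.1.1 σ.1.2 ^ 2 = ∑ σ ∈ SF m, c σ.1 σ.2 ^ 2 :=
      Finset.sum_coe_sort (SF m) (fun σ => c σ.1 σ.2 ^ 2)
    have h2 : ∑ σ ∈ SF m, c σ.1 σ.2 ^ 2 ≤ ∑ k ∈ Bn n, ∑ j, c j k ^ 2 := by
      have h3 : ∑ k ∈ Bn n, ∑ j, c j k ^ 2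
          = ∑ σ ∈ (Finset.univ : Finset (Fin 4)) ×ˢ Bn n, c σ.1 σ.2 ^ 2 := by
        rw [Finset.sum_product_right]
      rw [h3]
      apply Finset.sum_le_sum_of_subset_of_nonneg
      · intro σ hσ
        unfold SF at hσ
        rw [Finset.mem_filter, Finset.mem_product] at hσ
        rw [Finset.mem_product]
        exact ⟨hσ.1.1, hBmn hσ.1.2⟩
      · intro σ _ _
        exact sq_nonneg _
    rw [h1]
    calc (∑ σ ∈ SF m, c σ.1 σ.2 ^ 2) * (R / 2) ^ 3
        ≤ (∑ k ∈ Bn n, ∑ j, c j k ^ 2) * (R / 2) ^ 3 :=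
          mul_le_mul_of_nonneg_right h2 hR3.le
      _ = ∑ k ∈ Bn n, (R / 2) ^ 3 * ∑ j, c j k ^ 2 := by
          rw [Finset.sum_mul]
          exact Finset.sum_congr rfl (fun k _ => by ring)
      _ ≤ ∑ k ∈ Bn n, nu0 R k * ∑ j, c j k ^ 2 := by
          apply Finset.sum_le_sum
          intro k _
          exact mul_le_mul_of_nonneg_right (nu0_ge R hR k)
            (Finset.sum_nonneg (fun j _ => sq_nonneg _))
  have hE4 : ∫ x in box R, ‖fld R es (Bn n) cl x * im (F x) - fld R et (Bn n) dd x‖ ^ 2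
      ≤ K * δ / (R / 2) ^ 3 * a0 := by
    set g : SF m → V3 → ℍ[ℝ] := fun σ x => bs R σ.1 x * im (F x) - fld R et (Bn n) (d σ) x with hg
    have hgc : ∀ σ, Continuous (g σ) := fun σ =>
      ((bs_cont R σ.1).mul (im_cont F hF)).sub (fld_cont R et _ _)
    have h1 : ∀ x, ‖fld R es (Bn n) cl x * im (F x) - fld R et (Bn n) dd x‖ ^ 2
        ≤ K * ∑ σ : SF m, c σ.1.1 σ.1.2 ^ 2 * ‖g σ x‖ ^ 2 := by
      intro x
      have h2 : fld R es (Bn n) cl x * im (F x) - fld R et (Bn n) dd x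
          = ∑ σ : SF m, c σ.1.1 σ.1.2 • g σ x := by
        rw [hlow, hfdd, ← Finset.sum_coe_sort (SF m) (fun τ => c τ.1 τ.2 • bs R τ x),
          Finset.sum_mul, ← Finset.sum_sub_distrib]
        apply Finset.sum_congr rfl
        intro σ _
        simp only [hg]
        rw [smul_sub, smul_mul_assoc]
      rw [h2]
      calc ‖∑ σ : SF m, c σ.1.1 σ.1.2 • g σ x‖ ^ 2
          ≤ (∑ σ : SF m, ‖c σ.1.1 σ.1.2 • g σ x‖) ^ 2 :=
            pow_le_pow_left₀ (norm_nonneg _) (norm_sum_le _ _) 2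
        _ ≤ (Finset.univ : Finset (SF m)).card * ∑ σ : SF m, ‖c σ.1.1 σ.1.2 • g σ x‖ ^ 2 :=
            sq_sum_le_card_mul_sum_sq
        _ = K * ∑ σ : SF m, c σ.1.1 σ.1.2 ^ 2 * ‖g σ x‖ ^ 2 := by
            rw [Finset.card_univ, Fintype.card_coe]
            congr 1
            apply Finset.sum_congr rfl
            intro σ _
            rw [norm_smul, mul_pow, Real.norm_eq_abs, sq_abs]
    have hdc' : Continuous (fun x => fld R es (Bn n) cl x * im (F x) - fld R et (Bn n) dd x) :=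
      ((fld_cont R es _ _).mul (im_cont F hF)).sub (fld_cont R et _ _)
    calc ∫ x in box R, ‖fld R es (Bn n) cl x * im (F x) - fld R et (Bn n) dd x‖ ^ 2
        ≤ ∫ x in box R, K * ∑ σ : SF m, c σ.1.1 σ.1.2 ^ 2 * ‖g σ x‖ ^ 2 := by
          apply int_mono_box
          · exact hdc'.norm.pow 2
          · exact continuous_const.mul (continuous_finsetSum _ (fun σ _ =>
              continuous_const.mul ((hgc σ).norm.pow 2)))
          · intro x _; exact h1 x
      _ = K * ∑ σ : SF m, c σ.1.1 σ.1.2 ^ 2 * ∫ x in box R, ‖g σ x‖ ^ 2 := by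
          rw [integral_const_mul, integral_finsetSum]
          · congr 1
            apply Finset.sum_congr rfl
            intro σ _
            rw [integral_const_mul]
          · intro σ _
            exact integrableOn_box (continuous_const.mul ((hgc σ).norm.pow 2)) R
      _ ≤ K * ∑ σ : SF m, c σ.1.1 σ.1.2 ^ 2 * δ := by
          apply mul_le_mul_of_nonneg_left _ hK0
          apply Finset.sum_le_sum
          intro σ _
          exact mul_le_mul_of_nonneg_left (hd2 σ).le (sq_nonneg _)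
      _ = K * δ * ∑ σ : SF m, c σ.1.1 σ.1.2 ^ 2 := by
          rw [← Finset.sum_mul]; ring
      _ ≤ K * δ * (a0 / (R / 2) ^ 3) :=
          mul_le_mul_of_nonneg_left hcsq (mul_nonneg hK0 hδ0.le)
      _ = _ := by ring
  -- conclusion
  refine ⟨Φ, fld_contDiff R es _ _, BC_fld R hR _ _, ha0pos, ?_⟩
  have hLL : ∀ x, Lop F Φ x = LF R F n c x := fun x => LF_eq R F n c x
  simp_rw [hLL]
  have hfin : ∫ x in box R, ‖Q x - fld R et (Bn n) dd x‖ ^ 2
      ≤ 2 * M ^ 2 * (∫ x in box R, ‖fld R es (Bn n) ch x‖ ^ 2)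
        + 2 * ∫ x in box R, ‖fld R es (Bn n) cl x * im (F x) - fld R et (Bn n) dd x‖ ^ 2 := by
    have hc1' : Continuous (fun x => ‖fld R es (Bn n) ch x‖ ^ 2) := (fld_cont R es _ _).norm.pow 2
    have hc2' : Continuous (fun x =>
        ‖fld R es (Bn n) cl x * im (F x) - fld R et (Bn n) dd x‖ ^ 2) :=
      (((fld_cont R es _ _).mul (im_cont F hF)).sub (fld_cont R et _ _)).norm.pow 2
    have hc1'' : Continuous (fun x => 2 * M ^ 2 * ‖fld R es (Bn n) ch x‖ ^ 2) :=
      continuous_const.mul hc1'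
    have hc2'' : Continuous (fun x =>
        2 * ‖fld R es (Bn n) cl x * im (F x) - fld R et (Bn n) dd x‖ ^ 2) :=
      continuous_const.mul hc2'
    rw [← integral_const_mul, ← integral_const_mul, ← int_add_box R _ _ hc1'' hc2'']
    apply int_mono_box
    · exact (hQc.sub (fld_cont R et _ _)).norm.pow 2
    · exact (continuous_const.mul hc1').add (continuous_const.mul hc2')
    · intro x hx
      have h1 : Q x - fld R et (Bn n) dd x = fld R es (Bn n) ch x * im (F x)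
          + (fld R es (Bn n) cl x * im (F x) - fld R et (Bn n) dd x) := by
        simp only [hQ]
        rw [hΦlh x, add_mul]; abel
      rw [h1]
      set A := fld R es (Bn n) ch x * im (F x) with hA
      set B := fld R es (Bn n) cl x * im (F x) - fld R et (Bn n) dd x with hB
      have h2 : ‖A + B‖ ^ 2 ≤ 2 * ‖A‖ ^ 2 + 2 * ‖B‖ ^ 2 := by
        have e1 := norm_add_sq_real A B
        have e2 := half_sq' A B
        linarith
      have h3 : ‖A‖ ^ 2 ≤ M ^ 2 * ‖fld R es (Bn n) ch x‖ ^ 2 := by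
        rw [hA, norm_mul, mul_pow, mul_comm]
        exact mul_le_mul_of_nonneg_right (hMb x hx) (sq_nonneg _)
      calc ‖A + B‖ ^ 2 ≤ 2 * ‖A‖ ^ 2 + 2 * ‖B‖ ^ 2 := h2
        _ ≤ _ := by nlinarith
  calc ∫ x in box R, ‖LF R F n c x‖ ^ 2
      ≤ ∫ x in box R, ‖Q x - fld R et (Bn n) dd x‖ ^ 2 := E2 dd hdd1
    _ ≤ 2 * M ^ 2 * ((M ^ 2 / (w ^ 2 * ((m:ℝ) + 1) ^ 2)) * a0)
        + 2 * (K * δ / (R / 2) ^ 3 * a0) := by
        refine hfin.trans (add_le_add ?_ ?_)
        · exact mul_le_mul_of_nonneg_left hah (by positivity)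
        · exact mul_le_mul_of_nonneg_left hE4 (by norm_num)
    _ = (2 * M ^ 4 / (w ^ 2 * ((m:ℝ) + 1) ^ 2) + 2 * K * δ / (R / 2) ^ 3) * a0 := by ring
    _ < ε * a0 := by
        apply mul_lt_mul_of_pos_right _ ha0pos
        linarith

end N9
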