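import Pool.Agent.Helper66.N9.Div

/-! KEY4: completion of the square. -/

namespace N9

open MeasureTheory
open scoped Quaternion

theorem key4 : ST_KEY4 := by
  intro R hR W hW hW0 u hu
  have hWi : ∀ i, ContDiff ℝ 1 (fun y => W y i) := fun i => (contDiff_pi.1 hW) i
  have hn : ContDiff ℝ 1 (fun y => ‖u y‖ ^ 2) := hu.norm_sq ℝ
  set f : Fin 3 → V3 → ℝ := fun i x => W x i * ‖u x‖ ^ 2 with hfdef
  have hf : ∀ i, ContDiff ℝ 1 (f i) := fun i => (hWi i).mul hn
  have hud : Differentiable ℝ u := hu.differentiable (by norm_num)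
  have hWd : ∀ i, Differentiable ℝ (fun y => W y i) :=
    fun i => (hWi i).differentiable (by norm_num)
  have hpd : ∀ i x, pd i (f i) x
      = W x i * (2 * inner ℝ (pd i u x) (u x)) + pd i (fun y => W y i) x * ‖u x‖ ^ 2 := by
    intro i x
    have e1 : f i = fun y => (fun y => W y i) y • (fun y => (inner ℝ (u y) (u y) : ℝ)) y := by
      funext y
      simp only [hfdef, real_inner_self_eq_norm_sq, smul_eq_mul]
    have hinn : DifferentiableAt ℝ (fun y => (inner ℝ (u y) (u y) : ℝ)) x :=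
      (hud x).inner ℝ (hud x)
    rw [e1, pd_smul (hWd i x) hinn i, pd_inner (hud x) (hud x) i]
    rw [real_inner_comm (pd i u x) (u x)]
    simp only [real_inner_self_eq_norm_sq, smul_eq_mul]
    ring
  have hz : ∫ x in box R, ∑ i, pd i (f i) x = 0 := by
    apply div_box_zero R hR f hf
    intro i x hx hxi
    simp only [hfdef]
    rw [hW0 i x hx hxi]; ring
  have hpt : ∀ x, (∑ i, ‖pd i u x + W x i • u x‖ ^ 2 + (dv W x - nsq (W x)) * ‖u x‖ ^ 2)
      = ∑ i, ‖pd i u x‖ ^ 2 + ∑ i, pd i (f i) x := by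
    intro x
    have e1 : ∀ i, ‖pd i u x + W x i • u x‖ ^ 2
        = ‖pd i u x‖ ^ 2 + 2 * (W x i * inner ℝ (pd i u x) (u x)) + (W x i) ^ 2 * ‖u x‖ ^ 2 := by
      intro i
      rw [norm_add_sq_real, inner_smul_right, norm_smul, mul_pow, Real.norm_eq_abs, sq_abs]
    simp_rw [e1, hpd]
    simp only [dv, nsq, Fin.sum_univ_three]
    ring
  simp_rw [hpt]
  have c1 : Continuous (fun x => ∑ i, ‖pd i u x‖ ^ 2) :=
    continuous_finsetSum _ (fun i _ => (pd_cont hu i).norm.pow 2)
  have c2 : Continuous (fun x => ∑ i, pd i (f i) x) :=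
    continuous_finsetSum _ (fun i _ => pd_cont (hf i) i)
  rw [integral_add (integrableOn_box c1 R) (integrableOn_box c2 R), hz, add_zero]

end N9
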