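import Pool.Agent.Helper66.N9.An0
import Pool.Agent.Helper66.N9.Key1
import Pool.Agent.Helper66.N9.Key4

/-! The vector field inequality and the final contradiction lemma. -/

namespace N9

open MeasureTheory
open scoped Quaternion

/-- cross term for a fixed quaternion -/
noncomputable def cr (F : V3 → V3) (x : V3) (a : ℍ[ℝ]) : ℝ :=
  ∑ i, inner ℝ (e i * a) (a * im (pd i F x))

/-- potential of the vector field `Y` relative to `W` -/
noncomputable def DD (W Y : V3 → V3) (x : V3) : ℝ := dv Y x - 2 * ip (W x) (Y x) - nsq (Y x)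

theorem dv_add {W Y : V3 → V3} {x : V3} (hW : DifferentiableAt ℝ W x)
    (hY : DifferentiableAt ℝ Y x) : dv (fun y => W y + Y y) x = dv W x + dv Y x := by
  unfold dv
  rw [← Finset.sum_add_distrib]
  refine Finset.sum_congr rfl (fun i _ => ?_)
  have h1 : DifferentiableAt ℝ (fun y => W y i) x := (differentiableAt_pi.1 hW) i
  have h2 : DifferentiableAt ℝ (fun y => Y y i) x := (differentiableAt_pi.1 hY) i
  have := pd_add h1 h2 i
  simpa using this

theorem dv_cont {W : V3 → V3} (hW : ContDiff ℝ 1 W) : Continuous (dv W) := by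
  unfold dv
  exact continuous_finsetSum _ (fun i _ => pd_cont ((contDiff_pi.1 hW) i) i)

theorem ip_cont {W Y : V3 → V3} (hW : Continuous W) (hY : Continuous Y) :
    Continuous (fun x => ip (W x) (Y x)) := by
  unfold ip
  exact continuous_finsetSum _ (fun i _ => ((continuous_apply i).comp hW).mul
    ((continuous_apply i).comp hY))

theorem DD_cont {W Y : V3 → V3} (hW : ContDiff ℝ 1 W) (hY : ContDiff ℝ 1 Y) :
    Continuous (DD W Y) := by
  unfold DD
  exact ((dv_cont hY).sub (continuous_const.mul (ip_cont hW.continuous hY.continuous))).sub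
    (nsq_continuous.comp hY.continuous)

theorem vfi (R : ℝ) (hR : 0 < R) (W Y : V3 → V3) (hW : ContDiff ℝ 1 W) (hY : ContDiff ℝ 1 Y)
    (hW0 : ∀ i x, x ∈ box R → (x i = 0 ∨ x i = R) → W x i = 0)
    (hY0 : ∀ i x, x ∈ box R → (x i = 0 ∨ x i = R) → Y x i = 0)
    (g : V3 → ℍ[ℝ]) (hg : ContDiff ℝ 1 g) :
    ∫ x in box R, DD W Y x * ‖g x‖ ^ 2 ≤ ∫ x in box R, ∑ i, ‖pd i g x + W x i • g x‖ ^ 2 := by
  have h1 := key4 R hR W hW hW0 g hg
  have h2 := key4 R hR (fun y => W y + Y y) (hW.add hY)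
    (fun i x hx hxi => by
      show W x i + Y x i = 0
      rw [hW0 i x hx hxi, hY0 i x hx hxi, add_zero]) g hg
  have cW : ∀ (V : V3 → V3), ContDiff ℝ 1 V →
      Continuous (fun x => ∑ i, ‖pd i g x + V x i • g x‖ ^ 2) := by
    intro V hV
    refine continuous_finsetSum _ (fun i _ => ?_)
    exact ((pd_cont hg i).add (((continuous_apply i).comp hV.continuous).smul
      hg.continuous)).norm.pow 2
  have cV : ∀ (V : V3 → V3), ContDiff ℝ 1 V →
      Continuous (fun x => (dv V x - nsq (V x)) * ‖g x‖ ^ 2) := by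
    intro V hV
    exact ((dv_cont hV).sub (nsq_continuous.comp hV.continuous)).mul (hg.continuous.norm.pow 2)
  have hWY : ContDiff ℝ 1 (fun y => W y + Y y) := hW.add hY
  rw [integral_add (integrableOn_box (cW W hW) R) (integrableOn_box (cV W hW) R)] at h1
  rw [integral_add (integrableOn_box (cW _ hWY) R) (integrableOn_box (cV _ hWY) R)] at h2
  have h3 : 0 ≤ ∫ x in box R, ∑ i, ‖pd i g x + (W x + Y x) i • g x‖ ^ 2 := by
    apply setIntegral_nonneg measurableSet_Icc
    intro x _
    exact Finset.sum_nonneg (fun i _ => sq_nonneg _)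
  have h4 : ∫ x in box R, DD W Y x * ‖g x‖ ^ 2
      = (∫ x in box R, (dv (fun y => W y + Y y) x - nsq (W x + Y x)) * ‖g x‖ ^ 2)
        - ∫ x in box R, (dv W x - nsq (W x)) * ‖g x‖ ^ 2 := by
    rw [← integral_sub (integrableOn_box (cV _ hWY) R) (integrableOn_box (cV W hW) R)]
    congr 1
    funext x
    rw [dv_add (hW.differentiable (by norm_num) x) (hY.differentiable (by norm_num) x), nsq_add]
    unfold DD
    ring
  rw [h4]
  linarith

/-- centred cube -/
def cube (R : ℝ) : Set V3 := {x | ∀ j, |x j| ≤ R}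

theorem cube_compact (R : ℝ) : IsCompact (cube R) := by
  have : cube R = Set.Icc (fun _ => -R) (fun _ => R) := by
    ext x
    simp only [cube, Set.mem_ofPred_eq, Set.mem_Icc, Pi.le_def, abs_le]
    constructor
    · intro h; exact ⟨fun j => (h j).1, fun j => (h j).2⟩
    · intro h j; exact ⟨h.1 j, h.2 j⟩
  rw [this]; exact isCompact_Icc

theorem contDiff_shift {E : Type*} [NormedAddCommGroup E] [NormedSpace ℝ E] {f : V3 → E}
    {n : WithTop ℕ∞} (hf : ContDiff ℝ n f) (c : V3) : ContDiff ℝ n (fun y => f (y - c)) :=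
  hf.comp (contDiff_id.sub contDiff_const)

theorem dv_shift (f : V3 → V3) (c x : V3) : dv (fun y => f (y - c)) x = dv f (x - c) := by
  unfold dv
  exact Finset.sum_congr rfl (fun i _ => pd_shift (fun y => f y i) c x i)

theorem DD_shift (W Y : V3 → V3) (c x : V3) :
    DD (fun y => W (y - c)) (fun y => Y (y - c)) x = DD W Y (x - c) := by
  unfold DD; rw [dv_shift]

theorem cr_shift (F : V3 → V3) (c x : V3) (a : ℍ[ℝ]) :
    cr (fun y => F (y - c)) x a = cr F (x - c) a := by
  unfold cr; simp_rw [pd_shift]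

/-- final contradiction lemma on the box `[0,R]^3` -/
theorem np0 {I : Type} [Fintype I] (p q : I → V3) (hp : ∀ i, nsq (p i) = 1)
    (hq : ∀ i, nsq (q i) = 1) (R : ℝ) (hR : 0 < R) (F W Y0 : V3 → V3) (Y : I → V3 → V3)
    (hF : ContDiff ℝ 1 F) (hW : ContDiff ℝ 1 W) (hY0 : ContDiff ℝ 1 Y0)
    (hY : ∀ i, ContDiff ℝ 1 (Y i))
    (hF0 : ∀ i x, x ∈ box R → x i = 0 → F x i ≤ 0) (hF1 : ∀ i x, x ∈ box R → x i = R → 0 ≤ F x i)
    (hWb : ∀ i x, x ∈ box R → (x i = 0 ∨ x i = R) → W x i = 0)
    (hY0b : ∀ i x, x ∈ box R → (x i = 0 ∨ x i = R) → Y0 x i = 0)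
    (hYb : ∀ l i x, x ∈ box R → (x i = 0 ∨ x i = R) → Y l x i = 0)
    (b0 b : ℝ) (hb0 : 0 ≤ b0) (hb : 0 ≤ b) (hsum : b0 + 4 * Fintype.card I * b ≤ 1)
    (δ : ℝ) (hδ : 0 < δ)
    (hpos : ∀ x ∈ box R, ∀ a : ℍ[ℝ], δ * ‖a‖ ^ 2 ≤ b0 * (DD W Y0 x * ‖a‖ ^ 2)
      + b * ∑ i, DD W (Y i) x * ‖im (p i) * a - a * im (q i)‖ ^ 2
      + (dv W x - nsq (W x) + nsq (F x)) * ‖a‖ ^ 2 - cr F x a) : False := by
  obtain ⟨u, hu, hbc, hupos, hLu⟩ := key1 R hR F hF.continuous δ hδ
  have hu2 : ContDiff ℝ 2 u := hu.of_le le_top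
  have hu1 : ContDiff ℝ 1 u := hu.of_le le_top
  have k2 := key2 R hR F hF hF0 hF1 u hu2 hbc
  have k4 := key4 R hR W hW hWb u hu1
  -- gradient energies
  set E := ∫ x in box R, ∑ i, ‖pd i u x + W x i • u x‖ ^ 2 with hE
  have hEnn : 0 ≤ E := by
    apply setIntegral_nonneg measurableSet_Icc
    intro x _
    exact Finset.sum_nonneg (fun i _ => sq_nonneg _)
  have v0 : ∫ x in box R, DD W Y0 x * ‖u x‖ ^ 2 ≤ E := vfi R hR W Y0 hW hY0 hWb hY0b u hu1
  have cE : Continuous (fun x => ∑ i, ‖pd i u x + W x i • u x‖ ^ 2) := by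
    refine continuous_finsetSum _ (fun i _ => ?_)
    exact ((pd_cont hu1 i).add (((continuous_apply i).comp hW.continuous).smul
      hu1.continuous)).norm.pow 2
  have vl : ∀ l, ∫ x in box R, DD W (Y l) x * ‖im (p l) * u x - u x * im (q l)‖ ^ 2 ≤ 4 * E := by
    intro l
    set L : ℍ[ℝ] →L[ℝ] ℍ[ℝ] := (ContinuousLinearMap.mul ℝ ℍ[ℝ]) (im (p l))
      - (ContinuousLinearMap.mul ℝ ℍ[ℝ]).flip (im (q l)) with hL
    have hLa : ∀ a, L a = im (p l) * a - a * im (q l) := by intro a; simp [hL]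
    have hg : ContDiff ℝ 1 (fun x => L (u x)) := L.contDiff.comp hu1
    have h1 := vfi R hR W (Y l) hW (hY l) hWb (hYb l) (fun x => L (u x)) hg
    simp only [hLa] at h1
    refine h1.trans ?_
    rw [hE, ← integral_const_mul]
    apply integral_mono
    · have c1 : Continuous (fun x => ∑ i, ‖pd i (fun x => L (u x)) x + W x i • L (u x)‖ ^ 2) := by
        refine continuous_finsetSum _ (fun i _ => ?_)
        exact ((pd_cont hg i).add (((continuous_apply i).comp hW.continuous).smul
          hg.continuous)).norm.pow 2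
      simp only [hLa] at c1
      exact integrableOn_box c1 R
    · exact integrableOn_box (continuous_const.mul cE) R
    · intro x
      simp only
      rw [Finset.mul_sum]
      refine Finset.sum_le_sum (fun i _ => ?_)
      have e1 : pd i (fun x => im (p l) * u x - u x * im (q l)) x = L (pd i u x) := by
        have := pd_comp_clm L (hu1.differentiable (by norm_num) x) i
        simp only [hLa] at this ⊢
        exact this
      rw [e1, ← hLa (u x), ← map_smul, ← map_add, hLa]
      set w := pd i u x + W x i • u x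
      have n1 : ‖im (p l)‖ = 1 := by
        rw [norm_im', hp]; simp
      have n2 : ‖im (q l)‖ = 1 := by
        rw [norm_im', hq]; simp
      have h2 : ‖im (p l) * w - w * im (q l)‖ ≤ 2 * ‖w‖ := by
        refine (norm_sub_le _ _).trans ?_
        rw [norm_mul, norm_mul, n1, n2]; linarith
      nlinarith [norm_nonneg (im (p l) * w - w * im (q l)), norm_nonneg w]
  -- continuity of everything
  have cn : Continuous (fun x => ‖u x‖ ^ 2) := hu1.continuous.norm.pow 2
  have c0 : Continuous (fun x => DD W Y0 x * ‖u x‖ ^ 2) := (DD_cont hW hY0).mul cn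
  have cl : ∀ l, Continuous (fun x => DD W (Y l) x * ‖im (p l) * u x - u x * im (q l)‖ ^ 2) := by
    intro l
    exact (DD_cont hW (hY l)).mul (((continuous_const.mul hu1.continuous).sub
      (hu1.continuous.mul continuous_const)).norm.pow 2)
  have cD : Continuous (fun x => ∑ i, ‖pd i u x‖ ^ 2) :=
    continuous_finsetSum _ (fun i _ => (pd_cont hu1 i).norm.pow 2)
  have cW : Continuous (fun x => (dv W x - nsq (W x)) * ‖u x‖ ^ 2) :=
    ((dv_cont hW).sub (nsq_continuous.comp hW.continuous)).mul cn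
  have cF : Continuous (fun x => nsq (F x) * ‖u x‖ ^ 2 - cr F x (u x)) := by
    apply ((nsq_continuous.comp hF.continuous).mul cn).sub
    unfold cr
    refine continuous_finsetSum _ (fun i _ => ?_)
    apply Continuous.inner
    · exact continuous_const.mul hu1.continuous
    · exact hu1.continuous.mul (imL.continuous.comp (pd_cont hF i))
  have k2' : (∫ x in box R, ∑ i, ‖pd i u x‖ ^ 2)
      + ∫ x in box R, (nsq (F x) * ‖u x‖ ^ 2 - cr F x (u x)) ≤ ∫ x in box R, ‖Lop F u x‖ ^ 2 := by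
    rw [← integral_add (integrableOn_box cD R) (integrableOn_box cF R)]
    refine le_trans (le_of_eq ?_) k2
    congr 1
    funext x
    unfold cr crossT
    ring
  rw [integral_add (integrableOn_box cE R) (integrableOn_box cW R)] at k4
  have hmono : δ * ∫ x in box R, ‖u x‖ ^ 2
      ≤ b0 * (∫ x in box R, DD W Y0 x * ‖u x‖ ^ 2)
        + b * ∑ l, (∫ x in box R, DD W (Y l) x * ‖im (p l) * u x - u x * im (q l)‖ ^ 2)
        + (∫ x in box R, (dv W x - nsq (W x)) * ‖u x‖ ^ 2)
        + ∫ x in box R, (nsq (F x) * ‖u x‖ ^ 2 - cr F x (u x)) := by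
    have i1 : IntegrableOn (fun x => b0 * (DD W Y0 x * ‖u x‖ ^ 2)) (box R) :=
      integrableOn_box (continuous_const.mul c0) R
    have i2 : IntegrableOn (fun x => b * ∑ l, DD W (Y l) x
        * ‖im (p l) * u x - u x * im (q l)‖ ^ 2) (box R) :=
      integrableOn_box (continuous_const.mul (continuous_finsetSum _ (fun l _ => cl l))) R
    have j1 : Continuous (fun x => b0 * (DD W Y0 x * ‖u x‖ ^ 2)
        + b * ∑ l, DD W (Y l) x * ‖im (p l) * u x - u x * im (q l)‖ ^ 2) :=
      (continuous_const.mul c0).add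
        (continuous_const.mul (continuous_finsetSum _ (fun l _ => cl l)))
    have j2 : Continuous (fun x => (b0 * (DD W Y0 x * ‖u x‖ ^ 2)
        + b * ∑ l, DD W (Y l) x * ‖im (p l) * u x - u x * im (q l)‖ ^ 2)
        + (dv W x - nsq (W x)) * ‖u x‖ ^ 2) := j1.add cW
    rw [← integral_finsetSum _ (fun l _ => integrableOn_box (cl l) R), ← integral_const_mul,
      ← integral_const_mul, ← integral_const_mul, ← integral_add i1 i2,
      ← integral_add (integrableOn_box j1 R) (integrableOn_box cW R),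
      ← integral_add (integrableOn_box j2 R) (integrableOn_box cF R)]
    apply setIntegral_mono_on
    · exact integrableOn_box (continuous_const.mul cn) R
    · exact integrableOn_box (j2.add cF) R
    · exact measurableSet_Icc
    · intro x hx
      have := hpos x hx (u x)
      linarith
  have hsumE : b * ∑ l, (∫ x in box R, DD W (Y l) x * ‖im (p l) * u x - u x * im (q l)‖ ^ 2)
      ≤ 4 * Fintype.card I * b * E := by
    have : ∑ l, (∫ x in box R, DD W (Y l) x * ‖im (p l) * u x - u x * im (q l)‖ ^ 2)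
        ≤ ∑ _l : I, 4 * E := Finset.sum_le_sum (fun l _ => vl l)
    rw [Finset.sum_const, Finset.card_univ, nsmul_eq_mul] at this
    calc _ ≤ b * (Fintype.card I * (4 * E)) := mul_le_mul_of_nonneg_left this hb
      _ = _ := by ring
  have h0E : b0 * (∫ x in box R, DD W Y0 x * ‖u x‖ ^ 2) ≤ b0 * E :=
    mul_le_mul_of_nonneg_left v0 hb0
  have hfin : (b0 + 4 * Fintype.card I * b) * E ≤ E := by
    have := mul_le_mul_of_nonneg_right hsum hEnn
    linarith
  have : (b0 + 4 * Fintype.card I * b) * E = b0 * E + 4 * Fintype.card I * b * E := by ring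
  linarith

/-- final contradiction lemma on the centred cube -/
theorem np {I : Type} [Fintype I] (p q : I → V3) (hp : ∀ i, nsq (p i) = 1)
    (hq : ∀ i, nsq (q i) = 1) (R : ℝ) (hR : 0 < R) (F W Y0 : V3 → V3) (Y : I → V3 → V3)
    (hF : ContDiff ℝ 1 F) (hW : ContDiff ℝ 1 W) (hY0 : ContDiff ℝ 1 Y0)
    (hY : ∀ i, ContDiff ℝ 1 (Y i))
    (hFb : ∀ i, ∀ x ∈ cube R, |x i| = R → 0 ≤ x i * F x i)
    (hWb : ∀ i, ∀ x ∈ cube R, |x i| = R → W x i = 0)
    (hY0b : ∀ i, ∀ x ∈ cube R, |x i| = R → Y0 x i = 0)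
    (hYb : ∀ l i, ∀ x ∈ cube R, |x i| = R → Y l x i = 0)
    (b0 b : ℝ) (hb0 : 0 ≤ b0) (hb : 0 ≤ b) (hsum : b0 + 4 * Fintype.card I * b ≤ 1)
    (δ : ℝ) (hδ : 0 < δ)
    (hpos : ∀ x ∈ cube R, ∀ a : ℍ[ℝ], δ * ‖a‖ ^ 2 ≤ b0 * (DD W Y0 x * ‖a‖ ^ 2)
      + b * ∑ i, DD W (Y i) x * ‖im (p i) * a - a * im (q i)‖ ^ 2
      + (dv W x - nsq (W x) + nsq (F x)) * ‖a‖ ^ 2 - cr F x a) : False := by
  set c : V3 := fun _ => R with hc
  have hmem : ∀ x, x ∈ box (2 * R) → x - c ∈ cube R := by
    intro x hx j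
    have h1 := hx.1 j
    have h2 := hx.2 j
    simp only [Pi.zero_apply] at h1
    simp only [hc, Pi.sub_apply]
    rw [abs_le]; constructor <;> linarith
  have habs : ∀ x i, (x i = 0 ∨ x i = 2 * R) → |(x - c) i| = R := by
    intro x i h
    simp only [hc, Pi.sub_apply]
    rcases h with h | h
    · rw [h]; rw [zero_sub, abs_neg, abs_of_pos hR]
    · rw [h]; rw [show 2 * R - R = R by ring, abs_of_pos hR]
  refine np0 p q hp hq (2 * R) (by linarith) (fun y => F (y - c)) (fun y => W (y - c))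
    (fun y => Y0 (y - c)) (fun l y => Y l (y - c)) (contDiff_shift hF c) (contDiff_shift hW c)
    (contDiff_shift hY0 c) (fun l => contDiff_shift (hY l) c) ?_ ?_ ?_ ?_ ?_ b0 b hb0 hb hsum δ hδ ?_
  · intro i x hx hxi
    have h1 := hFb i (x - c) (hmem x hx) (habs x i (Or.inl hxi))
    have h2 : (x - c) i = -R := by simp [hc, hxi]
    rw [h2] at h1
    by_contra hcon
    push Not at hcon
    nlinarith
  · intro i x hx hxi
    have h1 := hFb i (x - c) (hmem x hx) (habs x i (Or.inr hxi))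
    have h2 : (x - c) i = R := by simp [hc, hxi]; ring
    rw [h2] at h1
    by_contra hcon
    push Not at hcon
    nlinarith
  · intro i x hx hxi
    exact hWb i (x - c) (hmem x hx) (habs x i hxi)
  · intro i x hx hxi
    exact hY0b i (x - c) (hmem x hx) (habs x i hxi)
  · intro l i x hx hxi
    exact hYb l i (x - c) (hmem x hx) (habs x i hxi)
  · intro x hx a
    have := hpos (x - c) (hmem x hx) a
    rw [DD_shift, dv_shift, cr_shift]
    simp_rw [DD_shift]
    exact this

end N9
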