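import Pool.Agent.Helper66.N9.An1

/-! AN: small auxiliary facts. -/

namespace N9

open scoped Quaternion

/-- radial bump -/
noncomputable def bump (r t : ℝ) : ℝ := 1 - Real.smoothTransition ((t - 3 / 2 * r ^ 2) / r ^ 2)

theorem bump_contDiff (r : ℝ) {n : ℕ∞} : ContDiff ℝ n (bump r) := by
  unfold bump
  exact contDiff_const.sub (Real.smoothTransition.contDiff.comp
    ((contDiff_id.sub contDiff_const).div_const _))

theorem bump_one {r t : ℝ} (hr : 0 < r) (h : t ≤ 3 / 2 * r ^ 2) : bump r t = 1 := by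
  unfold bump
  rw [Real.smoothTransition.zero_of_nonpos, sub_zero]
  exact div_nonpos_of_nonpos_of_nonneg (by linarith) (by positivity)

theorem bump_zero {r t : ℝ} (hr : 0 < r) (h : 5 / 2 * r ^ 2 ≤ t) : bump r t = 0 := by
  unfold bump
  rw [Real.smoothTransition.one_of_one_le, sub_self]
  rw [le_div_iff₀ (by positivity)]; linarith

theorem bump_deriv_in {r t : ℝ} (hr : 0 < r) (h : t < 3 / 2 * r ^ 2) : deriv (bump r) t = 0 := by
  have : bump r =ᶠ[nhds t] fun _ => 1 := by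
    filter_upwards [gt_mem_nhds h] with y hy
    exact bump_one hr (le_of_lt hy)
  rw [this.deriv_eq]; simp

theorem bump_deriv_out {r t : ℝ} (hr : 0 < r) (h : 5 / 2 * r ^ 2 < t) : deriv (bump r) t = 0 := by
  have : bump r =ᶠ[nhds t] fun _ => 0 := by
    filter_upwards [lt_mem_nhds h] with y hy
    exact bump_zero hr (le_of_lt hy)
  rw [this.deriv_eq]; simp

theorem common_bound {κ : Type} [Fintype κ] (f : κ → V3 → ℝ) (hf : ∀ k, Continuous (f k))
    (R : ℝ) : ∃ C : ℝ, 1 ≤ C ∧ ∀ k, ∀ y ∈ cube R, |f k y| ≤ C := by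
  have h : ∀ k, ∃ C : ℝ, 0 ≤ C ∧ ∀ y ∈ cube R, |f k y| ≤ C := by
    intro k
    obtain ⟨C, hC⟩ := (cube_compact R).exists_bound_of_continuousOn (hf k).continuousOn
    refine ⟨max C 0, le_max_right _ _, fun y hy => (le_trans (hC y hy) (le_max_left _ _))⟩
  choose C hC0 hC using h
  refine ⟨1 + ∑ k, C k, ?_, ?_⟩
  · have := Finset.sum_nonneg (fun k (_ : k ∈ (Finset.univ : Finset κ)) => hC0 k)
    linarith
  · intro k y hy
    have h1 := Finset.single_le_sum (f := C) (fun k _ => hC0 k) (Finset.mem_univ k)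
    have h2 := hC k y hy
    linarith

theorem exists_pos_le {κ : Type} [Fintype κ] (f : κ → ℝ) (hf : ∀ k, 0 < f k) :
    ∃ d : ℝ, 0 < d ∧ d ≤ 1 ∧ ∀ k, d ≤ f k := by
  have h0 : 0 ≤ ∑ k, (f k)⁻¹ := Finset.sum_nonneg (fun k _ => (inv_pos.2 (hf k)).le)
  refine ⟨(1 + ∑ k, (f k)⁻¹)⁻¹, by positivity, ?_, ?_⟩
  · exact inv_le_one_of_one_le₀ (by linarith)
  · intro k
    have h1 := Finset.single_le_sum (f := fun k => (f k)⁻¹) (fun k _ => (inv_pos.2 (hf k)).le)
      (Finset.mem_univ k)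
    rw [inv_le_comm₀ (by positivity) (hf k)]
    linarith

theorem g2_le (p q : V3) (hp : nsq p = 1) (hq : nsq q = 1) (a : ℍ[ℝ]) :
    ‖im p * a - a * im q‖ ^ 2 ≤ 4 * ‖a‖ ^ 2 := by
  have n1 : ‖im p‖ = 1 := by rw [norm_im', hp]; simp
  have n2 : ‖im q‖ = 1 := by rw [norm_im', hq]; simp
  have h2 : ‖im p * a - a * im q‖ ≤ 2 * ‖a‖ := by
    refine (norm_sub_le _ _).trans ?_
    rw [norm_mul, norm_mul, n1, n2]; linarith
  nlinarith [norm_nonneg (im p * a - a * im q), norm_nonneg a]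

end N9
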