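import Pool.Agent.Helper66.N9.An8
import Pool.Agent.Helper66.N9.An5a

/-! Assembly of AN from the far field. -/

namespace N9

open Filter
open scoped Quaternion

theorem pow_exp_tendsto (n : ℕ) (a : ℝ) (ha : 0 < a) :
    Tendsto (fun s : ℝ => s ^ n * Real.exp (-(a * s))) atTop (nhds 0) := by
  have h1 := (Real.tendsto_pow_mul_exp_neg_atTop_nhds_zero n).comp
    (tendsto_id.const_mul_atTop ha)
  have h2 := h1.const_mul ((a ^ n)⁻¹)
  rw [mul_zero] at h2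
  refine h2.congr (fun s => ?_)
  simp only [Function.comp, id]
  rw [mul_pow]
  have : a ^ n ≠ 0 := (pow_pos ha n).ne'
  field_simp

theorem event_small (n : ℕ) (a B η : ℝ) (ha : 0 < a) (hη : 0 < η) :
    ∀ᶠ s : ℝ in atTop, B * (s ^ n * Real.exp (-(a * s))) < η := by
  have h := (pow_exp_tendsto n a ha).const_mul B
  rw [mul_zero] at h
  exact h.eventually_lt_const hη

section

variable {I K : Type} [Fintype I] [Fintype K] (D : AData I K)

/-- the region where `W = 0` -/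
theorem caseB (r s C R : ℝ) (hs : 1 ≤ s) (hC : 1 ≤ C) (hp : ∀ i, nsq (D.p i) = 1)
    (hq : ∀ i, nsq (D.q i) = 1) (hB : Bds D r C R) (y : V3) (hy : y ∈ cube R)
    (lam eps : ℝ) (hZ : 1 < eps * Zf (Gp D r s) y)
    (Y0 : V3 → V3) (hY0 : ContDiff ℝ 1 Y0) (κ0 : ℝ) (hκ0 : 0 < κ0) (hκ01 : κ0 ≤ 1)
    (CY : ℝ) (hCY : |dv Y0 y| ≤ CY) (hCY2 : nsq (Y0 y) ≤ CY)
    (V : I → V3 → V3) (hV : ∀ i, ContDiff ℝ 1 (V i)) (CV : ℝ) (hCV : 1 ≤ CV)
    (hVn : ∀ i, vn (V i y) ≤ CV) (hVd : ∀ i, |dv (V i) y| ≤ CV)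
    (κ : ℝ) (hκ : 0 < κ) (hκ1 : κ ≤ 1)
    (b : ℝ) (hb : 0 < b) (hbN : 8 * Fintype.card I * b ≤ 1)
    (hsL : 1 + CY + CV + 2 * C * CV + CV ^ 2 ≤ s)
    (F : V3 → V3) (a : ℍ[ℝ]) (hF : s ^ 16 * ‖a‖ ^ 2 ≤ nsq (F y) * ‖a‖ ^ 2 - cr F y a) :
    1 * ‖a‖ ^ 2 ≤ 1 / 2 * (DD (Wf (Gp D r s) lam eps) (fun y => κ0 • Y0 y) y * ‖a‖ ^ 2)
      + b * ∑ i, DD (Wf (Gp D r s) lam eps) (fun y => κ • (aw (Gp D r s) none y • V i y)) y
          * ‖im (D.p i) * a - a * im (D.q i)‖ ^ 2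
      + (dv (Wf (Gp D r s) lam eps) y - nsq (Wf (Gp D r s) lam eps y) + nsq (F y)) * ‖a‖ ^ 2
      - cr F y a := by
  set G := Gp D r s with hG
  have hG1 : ∀ u, ContDiff ℝ 1 (G u) := fun u => Gp_contDiff D r s u
  set A2 := ‖a‖ ^ 2 with hA2
  have hA0 : 0 ≤ A2 := sq_nonneg _
  have hWe : Wf G lam eps =ᶠ[nhds y] fun _ => (0 : V3) := by
    have hc : Continuous (fun z => eps * Zf G z) :=
      continuous_const.mul (Zf_contDiff G hG1).continuous
    filter_upwards [hc.continuousAt.eventually_const_lt hZ] with z hz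
    exact Wf_zero G lam eps hz.le
  have hWy : Wf G lam eps y = 0 := hWe.eq_of_nhds
  have hdW : dv (Wf G lam eps) y = 0 := by
    rw [dv_congr hWe]; unfold dv; simp [pd]
  have hDD0 := DD_smul (Wf G lam eps) Y0 κ0 y (hY0.differentiable (by norm_num) y)
  rw [hWy, zero_ip, mul_zero, sub_zero] at hDD0
  have hn0 := nsq_nonneg (Y0 y)
  have hCY0 : 0 ≤ CY := hn0.trans hCY2
  have h0 : -(2 * CY) ≤ DD (Wf G lam eps) (fun y => κ0 • Y0 y) y := by
    rw [hDD0]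
    have h1 := (abs_le.1 hCY).1
    have h2 : -CY ≤ κ0 * dv Y0 y := by nlinarith
    have h3 : κ0 ^ 2 * nsq (Y0 y) ≤ 1 * CY := by
      apply mul_le_mul _ hCY2 hn0 (by norm_num)
      nlinarith
    linarith
  set a0 := aw G none y with ha0
  have ha0p : 0 < a0 := aw_pos G none y
  have ha01 : a0 ≤ 1 := aw_le_one G none y
  have hPb : ∀ i, vn (grd (G i) y) ≤ 2 * C * s ^ 8 := P_bound D r s C R hs hC hp hB y hy
  have hW0 : vn (W0 G y) ≤ 2 * C * s ^ 8 := vn_W0 G y _ hPb (by positivity)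
  set LL := CV + 2 * C * s ^ 8 * CV + CV ^ 2 with hLL
  have hLL0 : 0 ≤ LL := by positivity
  have hi : ∀ i, -LL ≤ DD (Wf G lam eps) (fun y => κ • (aw G none y • V i y)) y := by
    intro i
    rw [DD_tube G hG1 (Wf G lam eps) (V i) κ y ((hV i).differentiable (by norm_num) y), hWy,
      zero_ip, ← ha0]
    have h1 := (abs_le.1 (hVd i)).1
    have h2 : ip (W0 G y) (V i y) ≤ 2 * C * s ^ 8 * CV :=
      (ip_le _ _).trans (mul_le_mul hW0 (hVn i) (vn_nonneg _) (by positivity))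
    have h3 : nsq (V i y) ≤ CV ^ 2 := by
      rw [← vn_sq]; exact pow_le_pow_left₀ (vn_nonneg _) (hVn i) 2
    have h3' := nsq_nonneg (V i y)
    have hκa : κ * a0 ≤ 1 := by nlinarith
    have hκa0 : 0 ≤ κ * a0 := by positivity
    have h4 : -(CV + 2 * C * s ^ 8 * CV) ≤ dv (V i) y - ip (W0 G y) (V i y) := by linarith
    have h5 : -(CV + 2 * C * s ^ 8 * CV) ≤ κ * a0 * (dv (V i) y - ip (W0 G y) (V i y)) := by
      have h6 : κ * a0 * (-(CV + 2 * C * s ^ 8 * CV))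
          ≤ κ * a0 * (dv (V i) y - ip (W0 G y) (V i y)) := mul_le_mul_of_nonneg_left h4 hκa0
      have h7 : 0 ≤ CV + 2 * C * s ^ 8 * CV := by positivity
      nlinarith
    have h8 : κ ^ 2 * (a0 ^ 2 * nsq (V i y)) ≤ 1 * CV ^ 2 := by
      have : κ ^ 2 * (a0 ^ 2 * nsq (V i y)) = (κ * a0) ^ 2 * nsq (V i y) := by ring
      rw [this]
      apply mul_le_mul _ h3 h3' (by norm_num)
      nlinarith
    linarith
  have hsum : -(LL * A2) ≤ b * ∑ i, DD (Wf G lam eps) (fun y => κ • (aw G none y • V i y)) y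
          * ‖im (D.p i) * a - a * im (D.q i)‖ ^ 2 := by
    have h1 : ∀ i, -(LL * (4 * A2)) ≤ DD (Wf G lam eps) (fun y => κ • (aw G none y • V i y)) y
          * ‖im (D.p i) * a - a * im (D.q i)‖ ^ 2 := by
      intro i
      have hg := g2_le _ _ (hp i) (hq i) a
      have hg0 := sq_nonneg ‖im (D.p i) * a - a * im (D.q i)‖
      have h2 := mul_le_mul_of_nonneg_right (hi i) hg0
      have h3 := mul_le_mul_of_nonneg_left hg hLL0
      linarith
    have h2 := Finset.sum_le_sum (fun i (_ : i ∈ (Finset.univ : Finset I)) => h1 i)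
    rw [Finset.sum_const, Finset.card_univ, nsmul_eq_mul] at h2
    have h3 := mul_le_mul_of_nonneg_left h2 hb.le
    have h4 : (8 * (Fintype.card I : ℝ) * b) * (LL * A2 / 2) ≤ 1 * (LL * A2 / 2) :=
      mul_le_mul_of_nonneg_right hbN (by positivity)
    have h5 : 0 ≤ LL * A2 := by positivity
    linarith
  rw [hdW, hWy, nsq_zero]
  have h1 : 1 / 2 * (-(2 * CY) * A2) ≤ 1 / 2 * (DD (Wf G lam eps) (fun y => κ0 • Y0 y) y * A2) :=
    mul_le_mul_of_nonneg_left (mul_le_mul_of_nonneg_right h0 hA0) (by norm_num)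
  have hbig : 1 + CY + LL ≤ s ^ 16 := by
    have e1 : 1 ≤ s ^ 8 := one_le_pow₀ hs
    have e2 : s ≤ s ^ 8 := by
      have : s ^ 1 ≤ s ^ 8 := pow_le_pow_right₀ hs (by norm_num)
      simpa using this
    have e3 : (1 + CY + CV + 2 * C * CV + CV ^ 2) * s ^ 8 ≤ s ^ 8 * s ^ 8 :=
      mul_le_mul_of_nonneg_right (hsL.trans e2) (by positivity)
    have e4 : s ^ 8 * s ^ 8 = s ^ 16 := by ring
    have e5 : 0 ≤ (1 + CY + CV + CV ^ 2) * (s ^ 8 - 1) := by
      have : 0 ≤ s ^ 8 - 1 := by linarith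
      positivity
    rw [hLL]
    nlinarith
  have h2 := mul_le_mul_of_nonneg_right hbig hA0
  linarith

end

end N9
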