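import Mathlib

/-! AN from the far field: numerical conclusions. -/

namespace N9

/-- parts of the lower bound for `s` -/
theorem bs_parts (s0 s1 x1 x2 x3 x4 C c x5 x6 x7 s : ℝ) (hs0 : 1 ≤ s0) (hs1 : 1 ≤ s1)
    (h1 : 0 ≤ x1) (h2 : 0 ≤ x2) (h3 : 0 ≤ x3) (h4 : 0 ≤ x4) (hC : 0 ≤ C) (hc : 0 ≤ c)
    (h5 : 0 ≤ x5) (h6 : 0 ≤ x6) (h7 : 0 ≤ x7)
    (h : 1 + s0 + s1 + 4 + x1 + x2 + x3 + x4 + C + c + x5 + x6 + x7 ≤ s) :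
    4 ≤ s ∧ s0 ≤ s ∧ s1 ≤ s ∧ x1 ≤ s ∧ x2 ≤ s ∧ x3 ≤ s ∧ x4 ≤ s ∧ C + c ≤ s ∧ x5 ≤ s ∧ x6 ≤ s ∧
      x7 ≤ s := by
  refine ⟨?_, ?_, ?_, ?_, ?_, ?_, ?_, ?_, ?_, ?_, ?_⟩ <;> linarith

/-- numerical conclusion in the ball -/
theorem caseA1 (A2 a0 σ κ0 κ b δq CY dY nY Q lam C hm c1 s N ω B1 η Sg : ℝ) (g : ℝ)
    (hA : 0 ≤ A2) (ha1 : a0 ≤ 1) (hσ0 : 0 ≤ σ) (hσ1 : σ ≤ 1) (hκ0 : 0 < κ0)
    (hκ01 : κ0 ≤ 1) (hκ : 0 < κ) (hb : 0 < b) (hdY : -CY ≤ dY) (hnY : nY ≤ CY) (hnY0 : 0 ≤ nY)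
    (hQ : 0 ≤ Q) (hlam : 1 ≤ lam) (hm0 : 0 < hm) (hc1 : 0 < c1) (hs : 1 ≤ s) (hN : 0 ≤ N)
    (hω : 0 ≤ ω) (h1a : 1 - a0 ≤ N * ω) (hκCY : κ0 * CY ≤ b * κ * δq / 16)
    (hη : η ≤ b * κ * δq / 16)
    (htiny : (B1 + 16 * lam ^ 2 * C ^ 2 * N + 13 * lam * C ^ 2 * N) * (s ^ 16 * ω) ≤ η)
    (hg : δq * A2 ≤ g) (hSg : g / 4 ≤ Sg) :
    b * κ * δq / 8 * A2 ≤ (κ0 / 2 * dY - κ0 ^ 2 / 2 * nY
      + κ0 * (1 - σ) * lam * c1 * (hm / 4) * s ^ 8 * (1 - a0)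
      - 16 * lam ^ 2 * C ^ 2 * s ^ 2 * (1 - a0)
      + σ * (lam ^ 2 / 2 * Q - 13 * lam * C ^ 2 * s ^ 16 * (1 - a0))
      - B1 * s ^ 16 * ω) * A2 + b * κ * Sg := by
  have e1 : -(κ0 * CY) ≤ κ0 / 2 * dY - κ0 ^ 2 / 2 * nY := by
    have h1 : κ0 / 2 * (-CY) ≤ κ0 / 2 * dY := mul_le_mul_of_nonneg_left hdY (by positivity)
    have h2 : κ0 ^ 2 / 2 * nY ≤ κ0 / 2 * CY := by
      have : κ0 ^ 2 ≤ κ0 := by
        rw [pow_two]; exact mul_le_of_le_one_right hκ0.le hκ01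
      exact mul_le_mul (by linarith) hnY hnY0 (by positivity)
    linarith
  have e2 : 0 ≤ κ0 * (1 - σ) * lam * c1 * (hm / 4) * s ^ 8 * (1 - a0) := by
    have h1 : 0 ≤ 1 - σ := by linarith
    have h2 : 0 ≤ 1 - a0 := by linarith
    positivity
  have e3 : 16 * lam ^ 2 * C ^ 2 * s ^ 2 * (1 - a0) ≤ 16 * lam ^ 2 * C ^ 2 * N * (s ^ 16 * ω) := by
    have h1 : s ^ 2 ≤ s ^ 16 := pow_le_pow_right₀ hs (by norm_num)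
    have h2 : s ^ 2 * (1 - a0) ≤ s ^ 16 * (N * ω) :=
      mul_le_mul h1 h1a (by linarith) (by positivity)
    have := mul_le_mul_of_nonneg_left h2 (by positivity : 0 ≤ 16 * lam ^ 2 * C ^ 2)
    linarith
  have e4 : -(13 * lam * C ^ 2 * N * (s ^ 16 * ω))
      ≤ σ * (lam ^ 2 / 2 * Q - 13 * lam * C ^ 2 * s ^ 16 * (1 - a0)) := by
    have h1 : 13 * lam * C ^ 2 * s ^ 16 * (1 - a0) ≤ 13 * lam * C ^ 2 * s ^ 16 * (N * ω) :=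
      mul_le_mul_of_nonneg_left h1a (by positivity)
    have h2 : 0 ≤ σ * (lam ^ 2 / 2 * Q) := by positivity
    have h3 : σ * (13 * lam * C ^ 2 * s ^ 16 * (N * ω)) ≤ 1 * (13 * lam * C ^ 2 * s ^ 16 * (N * ω)) :=
      mul_le_mul_of_nonneg_right hσ1 (by positivity)
    have h4 : σ * (13 * lam * C ^ 2 * s ^ 16 * (1 - a0))
        ≤ σ * (13 * lam * C ^ 2 * s ^ 16 * (N * ω)) := mul_le_mul_of_nonneg_left h1 hσ0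
    linarith
  have e5 : -(b * κ * δq / 8) ≤ κ0 / 2 * dY - κ0 ^ 2 / 2 * nY
      + κ0 * (1 - σ) * lam * c1 * (hm / 4) * s ^ 8 * (1 - a0)
      - 16 * lam ^ 2 * C ^ 2 * s ^ 2 * (1 - a0)
      + σ * (lam ^ 2 / 2 * Q - 13 * lam * C ^ 2 * s ^ 16 * (1 - a0))
      - B1 * s ^ 16 * ω := by linarith
  have e6 := mul_le_mul_of_nonneg_right e5 hA
  have e7 : b * κ * (δq * A2 / 4) ≤ b * κ * Sg := by
    apply mul_le_mul_of_nonneg_left _ (by positivity); linarith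
  linarith

/-- numerical conclusion outside the ball, `M ≤ 1` -/
theorem caseA2 (A2 a0 σ κ0 CY dY nY Q lam C hm c1 s ω B1 η Sg : ℝ)
    (hA : 0 ≤ A2) (ha1 : a0 ≤ 1) (hσ0 : 0 ≤ σ) (hσ1 : σ ≤ 1 / 2) (hσs : σ * s ^ 12 ≤ 6)
    (hκ0 : 0 < κ0) (hdY : c1 ≤ dY) (hnY : nY ≤ CY) (hnY0 : 0 ≤ nY)
    (hQ : 0 ≤ Q) (hlam : 1 ≤ lam) (hm0 : 0 < hm) (hc1 : 0 < c1) (hs : 1 ≤ s)
    (hκCY : κ0 * CY ≤ c1 / 2) (hη : η ≤ κ0 * c1 / 8) (htiny : B1 * (s ^ 16 * ω) ≤ η)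
    (hsL : 78 * lam * C ^ 2 + 16 * lam ^ 2 * C ^ 2 ≤ κ0 * lam * c1 * hm / 8 * s)
    (hSg : 0 ≤ Sg) :
    κ0 * c1 / 8 * A2 ≤ (κ0 / 2 * dY - κ0 ^ 2 / 2 * nY
      + κ0 * (1 - σ) * lam * c1 * (hm / 4) * s ^ 8 * (1 - a0)
      - 16 * lam ^ 2 * C ^ 2 * s ^ 2 * (1 - a0)
      + σ * (lam ^ 2 / 2 * Q - 13 * lam * C ^ 2 * s ^ 16 * (1 - a0))
      - B1 * s ^ 16 * ω) * A2 + Sg := by
  have hCY0 : 0 ≤ CY := hnY0.trans hnY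
  have ha : 0 ≤ 1 - a0 := by linarith
  have e1 : κ0 * c1 / 4 ≤ κ0 / 2 * dY - κ0 ^ 2 / 2 * nY := by
    have h1 : κ0 / 2 * c1 ≤ κ0 / 2 * dY := mul_le_mul_of_nonneg_left hdY (by positivity)
    have h2 : κ0 ^ 2 / 2 * nY ≤ κ0 / 2 * (κ0 * CY) := by
      have := mul_le_mul_of_nonneg_left hnY (by positivity : 0 ≤ κ0 ^ 2 / 2)
      linarith
    have h3 := mul_le_mul_of_nonneg_left hκCY (by positivity : 0 ≤ κ0 / 2)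
    linarith
  have p7 : s ^ 4 ≤ s ^ 7 := pow_le_pow_right₀ hs (by norm_num)
  have p2 : s ^ 2 ≤ s ^ 7 := pow_le_pow_right₀ hs (by norm_num)
  have e2 : 16 * lam ^ 2 * C ^ 2 * s ^ 2 * (1 - a0) + 78 * lam * C ^ 2 * s ^ 4 * (1 - a0)
      ≤ κ0 * (1 - σ) * lam * c1 * (hm / 4) * s ^ 8 * (1 - a0) := by
    have h1 : 16 * lam ^ 2 * C ^ 2 * s ^ 2 + 78 * lam * C ^ 2 * s ^ 4
        ≤ (78 * lam * C ^ 2 + 16 * lam ^ 2 * C ^ 2) * s ^ 7 := by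
      have h2 := mul_le_mul_of_nonneg_left p2 (by positivity : 0 ≤ 16 * lam ^ 2 * C ^ 2)
      have h3 := mul_le_mul_of_nonneg_left p7 (by positivity : 0 ≤ 78 * lam * C ^ 2)
      linarith
    have h2 : (78 * lam * C ^ 2 + 16 * lam ^ 2 * C ^ 2) * s ^ 7
        ≤ κ0 * lam * c1 * hm / 8 * s * s ^ 7 := mul_le_mul_of_nonneg_right hsL (by positivity)
    have h3 : κ0 * lam * c1 * hm / 8 * s * s ^ 7 ≤ κ0 * (1 - σ) * lam * c1 * (hm / 4) * s ^ 8 := by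
      have h4 : 1 / 2 ≤ 1 - σ := by linarith
      have h5 := mul_le_mul_of_nonneg_left h4 (by positivity : 0 ≤ κ0 * lam * c1 * (hm / 4) * s ^ 8)
      have e : s ^ 8 = s * s ^ 7 := by ring
      rw [e] at h5 ⊢
      linarith
    have := mul_le_mul_of_nonneg_right ((h1.trans h2).trans h3) ha
    linarith
  have e4 : -(78 * lam * C ^ 2 * s ^ 4 * (1 - a0))
      ≤ σ * (lam ^ 2 / 2 * Q - 13 * lam * C ^ 2 * s ^ 16 * (1 - a0)) := by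
    have h2 : 0 ≤ σ * (lam ^ 2 / 2 * Q) := by positivity
    have h3 := mul_le_mul_of_nonneg_right hσs
      (by positivity : 0 ≤ 13 * lam * C ^ 2 * s ^ 4 * (1 - a0))
    have e : σ * s ^ 12 * (13 * lam * C ^ 2 * s ^ 4 * (1 - a0))
        = σ * (13 * lam * C ^ 2 * s ^ 16 * (1 - a0)) := by ring
    rw [e] at h3
    linarith
  have e5 : κ0 * c1 / 8 ≤ κ0 / 2 * dY - κ0 ^ 2 / 2 * nY
      + κ0 * (1 - σ) * lam * c1 * (hm / 4) * s ^ 8 * (1 - a0)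
      - 16 * lam ^ 2 * C ^ 2 * s ^ 2 * (1 - a0)
      + σ * (lam ^ 2 / 2 * Q - 13 * lam * C ^ 2 * s ^ 16 * (1 - a0))
      - B1 * s ^ 16 * ω := by linarith
  have e6 := mul_le_mul_of_nonneg_right e5 hA
  linarith

/-- numerical conclusion outside the ball, `1 ≤ M ≤ cs` -/
theorem caseA3 (A2 a0 σ κ0 CY dY nY Q lam C hm c1 c5 s ω B1 η Sg : ℝ)
    (hA : 0 ≤ A2) (ha1 : a0 ≤ 1) (ha00 : 0 ≤ a0) (hσ0 : 0 ≤ σ) (hσ1 : σ ≤ 1) (hσs : 1 ≤ σ * s ^ 12)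
    (hκ0 : 0 < κ0) (hdY : c1 ≤ dY) (hnY : nY ≤ CY) (hnY0 : 0 ≤ nY)
    (hQ : c5 ^ 2 * s ^ 16 ≤ Q) (hlam : 1 ≤ lam) (hm0 : 0 < hm) (hc1 : 0 < c1) (hs : 1 ≤ s)
    (hlam5 : 26 * C ^ 2 + 2 ≤ lam * c5 ^ 2)
    (hκCY : κ0 * CY ≤ c1 / 2) (hη : η ≤ κ0 * c1 / 8) (htiny : B1 * (s ^ 16 * ω) ≤ η)
    (hsL : 16 * lam ^ 2 * C ^ 2 ≤ s)
    (hSg : 0 ≤ Sg) :
    κ0 * c1 / 8 * A2 ≤ (κ0 / 2 * dY - κ0 ^ 2 / 2 * nY
      + κ0 * (1 - σ) * lam * c1 * (hm / 4) * s ^ 8 * (1 - a0)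
      - 16 * lam ^ 2 * C ^ 2 * s ^ 2 * (1 - a0)
      + σ * (lam ^ 2 / 2 * Q - 13 * lam * C ^ 2 * s ^ 16 * (1 - a0))
      - B1 * s ^ 16 * ω) * A2 + Sg := by
  have hCY0 : 0 ≤ CY := hnY0.trans hnY
  have ha : 0 ≤ 1 - a0 := by linarith
  have e1 : κ0 * c1 / 4 ≤ κ0 / 2 * dY - κ0 ^ 2 / 2 * nY := by
    have h1 : κ0 / 2 * c1 ≤ κ0 / 2 * dY := mul_le_mul_of_nonneg_left hdY (by positivity)
    have h2 : κ0 ^ 2 / 2 * nY ≤ κ0 / 2 * (κ0 * CY) := by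
      have := mul_le_mul_of_nonneg_left hnY (by positivity : 0 ≤ κ0 ^ 2 / 2)
      linarith
    have h3 := mul_le_mul_of_nonneg_left hκCY (by positivity : 0 ≤ κ0 / 2)
    linarith
  have e2 : 0 ≤ κ0 * (1 - σ) * lam * c1 * (hm / 4) * s ^ 8 * (1 - a0) := by
    have h1 : 0 ≤ 1 - σ := by linarith
    positivity
  have e3 : 16 * lam ^ 2 * C ^ 2 * s ^ 2 * (1 - a0) ≤ s ^ 4 := by
    have h1 : 16 * lam ^ 2 * C ^ 2 * s ^ 2 * (1 - a0) ≤ 16 * lam ^ 2 * C ^ 2 * s ^ 2 * 1 :=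
      mul_le_mul_of_nonneg_left (by linarith) (by positivity)
    have h2 : 16 * lam ^ 2 * C ^ 2 * s ^ 2 ≤ s * s ^ 2 := mul_le_mul_of_nonneg_right hsL (by positivity)
    have h3 : s * s ^ 2 = s ^ 3 := by ring
    have h4 : s ^ 3 ≤ s ^ 4 := pow_le_pow_right₀ hs (by norm_num)
    linarith
  have e4 : s ^ 4 ≤ σ * (lam ^ 2 / 2 * Q - 13 * lam * C ^ 2 * s ^ 16 * (1 - a0)) := by
    have h1 : s ^ 16 ≤ lam ^ 2 / 2 * Q - 13 * lam * C ^ 2 * s ^ 16 * (1 - a0) := by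
      have h2 := mul_le_mul_of_nonneg_left hQ (by positivity : 0 ≤ lam ^ 2 / 2)
      have h3 : 13 * lam * C ^ 2 * s ^ 16 * (1 - a0) ≤ 13 * lam * C ^ 2 * s ^ 16 * 1 :=
        mul_le_mul_of_nonneg_left (by linarith) (by positivity)
      have h4 := mul_le_mul_of_nonneg_left hlam5 (by positivity : 0 ≤ lam * s ^ 16 / 2)
      have h5 : s ^ 16 ≤ lam * s ^ 16 := by
        have : 0 ≤ s ^ 16 := by positivity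
        exact le_mul_of_one_le_left this hlam
      linarith
    have h2 := mul_le_mul_of_nonneg_left h1 hσ0
    have h3 := mul_le_mul_of_nonneg_right hσs (by positivity : 0 ≤ s ^ 4)
    have e : σ * s ^ 12 * s ^ 4 = σ * s ^ 16 := by ring
    rw [e] at h3
    linarith
  have e5 : κ0 * c1 / 8 ≤ κ0 / 2 * dY - κ0 ^ 2 / 2 * nY
      + κ0 * (1 - σ) * lam * c1 * (hm / 4) * s ^ 8 * (1 - a0)
      - 16 * lam ^ 2 * C ^ 2 * s ^ 2 * (1 - a0)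
      + σ * (lam ^ 2 / 2 * Q - 13 * lam * C ^ 2 * s ^ 16 * (1 - a0))
      - B1 * s ^ 16 * ω := by
    have : 0 < κ0 * c1 := by positivity
    linarith
  have e6 := mul_le_mul_of_nonneg_right e5 hA
  linarith

end N9
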