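import Pool.Agent.Helper66.N9.An9
import Pool.Agent.Helper66.N9.An10
import Pool.Agent.Helper66.N9.An11a

/-! AN from the far field: final assembly. -/

namespace N9

open Filter
open scoped Quaternion

theorem an_of_far (hfar : ST_FAR) : ST_AN := by
  intro I K _ _ D hA0 hA1 hA2 hA3 hA4 hA5 hA6
  classical
  by_contra hno
  push Not at hno
  have hA0' := hA0
  obtain ⟨hp, hq, hh, cP, hcP, hbd⟩ := hA0
  obtain ⟨δq, hδq, hδqa⟩ := exists_delta D.p D.q hno
  -- R1
  set H := ∑ i, D.h i with hH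
  have hHnn : 0 ≤ H := Finset.sum_nonneg (fun i _ => (hh i).le)
  have hHi : ∀ i, D.h i ≤ H := fun i =>
    Finset.single_le_sum (f := D.h) (fun j _ => (hh j).le) (Finset.mem_univ i)
  set R1 := (1 + H) / cP with hR1def
  have hR1 : 0 < R1 := by positivity
  have hR1b : ∀ y, R1 ^ 2 ≤ nsq y → ∃ i, 1 ≤ ip (D.p i) y - D.h i := by
    intro y hy
    obtain ⟨i, hi⟩ := hbd y
    refine ⟨i, ?_⟩
    have h1 : R1 ≤ Real.sqrt (nsq y) := Real.le_sqrt_of_sq_le hy
    have h2 : cP * R1 = 1 + H := by rw [hR1def]; field_simp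
    have h3 := mul_le_mul_of_nonneg_left h1 hcP.le
    have := hHi i
    linarith only [h1, h2, h3, this, hi]
  obtain ⟨hm, hm0, hm1, hmh⟩ := exists_pos_le D.h hh
  -- tubes
  choose f hf hfj using hA5
  choose V hVc hVf r1 hr1 d2 hd2 κ1 hκ1 C1 hC1 hVb hVp using
    (fun i => tube_exists D.p hp D.h hh i (f i) (hf i) (hfj i) R1 hR1)
  obtain ⟨dm, hdm, hdm1, hdml⟩ := exists_pos_le d2 hd2
  obtain ⟨κ, hκ, hκ1', hκl⟩ := exists_pos_le κ1 hκ1
  obtain ⟨rm, hrm, hrm1, hrml⟩ := exists_pos_le r1 hr1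
  set CV := 1 + ∑ i, C1 i with hCV
  have hC1nn : ∀ i, 0 ≤ C1 i := fun i => by have := hC1 i; linarith only [this]
  have hCV1 : 1 ≤ CV := by
    have := Finset.sum_nonneg (fun i (_ : i ∈ (Finset.univ : Finset I)) => hC1nn i)
    linarith only [this, hCV]
  have hCVi : ∀ i, C1 i ≤ CV := by
    intro i
    have := Finset.single_le_sum (f := C1) (fun j _ => hC1nn j) (Finset.mem_univ i)
    linarith only [this, hCV]
  set r0 := min rm (min (hm / 4) (R1 / 2)) with hr0
  have hr0p : 0 < r0 := lt_min hrm (lt_min (by positivity) (by positivity))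
  have hr0a : r0 ≤ rm := min_le_left _ _
  have hr0b : r0 ≤ hm / 4 := (min_le_right _ _).trans (min_le_left _ _)
  have hr0c : r0 ≤ R1 / 2 := (min_le_right _ _).trans (min_le_right _ _)
  obtain ⟨Y0, hY0c, hY0f, c1, hc1, CY, hCY, hY0b, hY0r, hY0φ⟩ := Y0_exists R1 r0 hR1 hr0p
  obtain ⟨r, hr, c, hc, hc2, om, hom, hom1, C, hC, s0, hs0, hBds, hCls⟩ :=
    classify D (2 * R1) hA1 hA3 hA4
  have hBds' : Bds D r C (2 * R1) := hBds
  have hCls' : Cls D r c om C s0 (2 * R1) := hCls
  set om' := min om (min (hm / 4) (dm / 2)) with hom'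
  have hom'p : 0 < om' := lt_min hom (lt_min (by positivity) (by positivity))
  have hom'a : om' ≤ om := min_le_left _ _
  have hom'b : om' ≤ hm / 4 := (min_le_right _ _).trans (min_le_left _ _)
  have hom'c : om' ≤ dm / 2 := (min_le_right _ _).trans (min_le_right _ _)
  obtain ⟨lam0, hlam01, hfar2⟩ := hfar I K D hA0' hA6 R1 hR1 hR1b r c om C s0 hr hc hc2 hom hom1
    hC hs0 hCls' hBds'
  obtain ⟨KK, hKK1, hKK⟩ := sg1_deriv
  set c5 := hm / (16 * R1) with hc5
  have hc5p : 0 < c5 := by positivity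
  set lam := max lam0 (max (2 * KK) ((26 * C ^ 2 + 2) / c5 ^ 2)) with hlam
  have hlama : lam0 ≤ lam := le_max_left _ _
  have hlamb : 2 * KK ≤ lam := (le_max_left _ _).trans (le_max_right _ _)
  have hlamc : (26 * C ^ 2 + 2) / c5 ^ 2 ≤ lam := (le_max_right _ _).trans (le_max_right _ _)
  have hlam1 : 1 ≤ lam := hlam01.trans hlama
  have hlam5 : 26 * C ^ 2 + 2 ≤ lam * c5 ^ 2 := by
    rwa [div_le_iff₀ (by positivity)] at hlamc
  obtain ⟨s1, hs1, hfar3⟩ := hfar2 lam hlama
  set N : ℝ := (Fintype.card I : ℝ) with hN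
  have hN0 : 0 ≤ N := Nat.cast_nonneg _
  set b := 1 / (8 * (N + 1)) with hb
  have hbp : 0 < b := by positivity
  have hb1 : b ≤ 1 := by
    rw [hb, div_le_one (by positivity)]; linarith only [hN0]
  have hbN : 8 * N * b ≤ 1 := by
    rw [hb, mul_one_div, div_le_one (by positivity)]; linarith only [hN0]
  have hCY0 : 0 < CY := by linarith only [hCY]
  set κ0 := min 1 (min (c1 / (2 * CY)) (b * κ * δq / (16 * CY))) with hκ0
  have hκ0p : 0 < κ0 := lt_min one_pos (lt_min (by positivity) (by positivity))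
  have hκ01 : κ0 ≤ 1 := min_le_left _ _
  have hκ0a : κ0 * CY ≤ c1 / 2 := by
    have h1 : κ0 ≤ c1 / (2 * CY) := (min_le_right _ _).trans (min_le_left _ _)
    rw [le_div_iff₀ (by positivity)] at h1
    linarith only [h1]
  have hκ0b : κ0 * CY ≤ b * κ * δq / 16 := by
    have h1 : κ0 ≤ b * κ * δq / (16 * CY) := (min_le_right _ _).trans (min_le_right _ _)
    rw [le_div_iff₀ (by positivity)] at h1
    linarith only [h1]
  set C5 := N * (hm / 4 + 6 * C * (2 * R1)) with hC5
  set B1 := (C5 + 3 * C * CV * N + 10 * C ^ 2 * N ^ 2) * lam ^ 2 with hB1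
  set η := min (b * κ * δq / 16) (min (κ0 * c1 / 8) (hm / 16)) with hη
  have hηp : 0 < η := lt_min (by positivity) (lt_min (by positivity) (by positivity))
  have hηa : η ≤ b * κ * δq / 16 := min_le_left _ _
  have hηb : η ≤ κ0 * c1 / 8 := (min_le_right _ _).trans (min_le_left _ _)
  have hηc : η ≤ hm / 16 := (min_le_right _ _).trans (min_le_right _ _)
  have hC50 : 0 ≤ C5 := by positivity
  have hB10 : 0 ≤ B1 := by positivity
  set Bt := B1 + 16 * lam ^ 2 * C ^ 2 * N + 13 * lam * C ^ 2 * N + C5 + N with hBt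
  set Bs := 1 + s0 + s1 + 4 + 2 * C / dm + 12 * C * (2 * R1 + 1) / hm + 4 * C / hm + 24 * C * CV
    + C + c + (1 + CY + CV + 2 * C * CV + CV ^ 2)
    + (78 * lam * C ^ 2 + 16 * lam ^ 2 * C ^ 2) / (κ0 * lam * c1 * hm / 8)
    + 16 * lam ^ 2 * C ^ 2 with hBs
  obtain ⟨s, hsB, htiny, hexp⟩ := ((eventually_ge_atTop Bs).and
    ((event_small 16 om' Bt η hom'p hηp).and (event_small 12 c 1 1 hc one_pos))).exists
  have hC0 : 0 < C := by linarith only [hC]
  have q1 : 0 ≤ 2 * C / dm := by positivity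
  have q2 : 0 ≤ 12 * C * (2 * R1 + 1) / hm := by positivity
  have q3 : 0 ≤ 4 * C / hm := by positivity
  have q4 : 0 ≤ 24 * C * CV := by positivity
  have q5 : 0 ≤ 1 + CY + CV + 2 * C * CV + CV ^ 2 := by positivity
  have q6 : 0 ≤ (78 * lam * C ^ 2 + 16 * lam ^ 2 * C ^ 2) / (κ0 * lam * c1 * hm / 8) := by
    positivity
  have q7 : 0 ≤ 16 * lam ^ 2 * C ^ 2 := by positivity
  obtain ⟨hs4, hss0, hss1, hx1, hx2, hx3, hsCV', hCc, hsLB, hx6, hsL3⟩ := bs_parts s0 s1
    (2 * C / dm) (12 * C * (2 * R1 + 1) / hm) (4 * C / hm) (24 * C * CV) C c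
    (1 + CY + CV + 2 * C * CV + CV ^ 2)
    ((78 * lam * C ^ 2 + 16 * lam ^ 2 * C ^ 2) / (κ0 * lam * c1 * hm / 8)) (16 * lam ^ 2 * C ^ 2) s
    hs0 hs1 q1 q2 q3 q4 hC0.le hc.le q5 q6 q7 hsB
  have hsone : 1 ≤ s := by linarith only [hs4]
  have hspos : 0 < s := by linarith only [hs4]
  have hs17 : s ≤ s ^ 7 := by
    have : s ^ 1 ≤ s ^ 7 := pow_le_pow_right₀ hsone (by norm_num)
    simpa using this
  have hs18 : s ≤ s ^ 8 := by
    have : s ^ 1 ≤ s ^ 8 := pow_le_pow_right₀ hsone (by norm_num)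
    simpa using this
  have hsd : 2 * C ≤ s ^ 7 * dm := by
    have h1 : 2 * C / dm ≤ s ^ 7 := hx1.trans hs17
    rwa [div_le_iff₀ hdm] at h1
  have hs7 : 12 * C * (2 * R1 + 1) ≤ s ^ 7 * hm := by
    have h1 : 12 * C * (2 * R1 + 1) / hm ≤ s ^ 7 := hx2.trans hs17
    rwa [div_le_iff₀ hm0] at h1
  have hs7' : 2 * C ≤ s ^ 7 * (hm / 2) := by
    have h1 : 4 * C / hm ≤ s ^ 7 := hx3.trans hs17
    rw [div_le_iff₀ hm0] at h1
    linarith only [h1]
  have hsCV : 24 * C * CV ≤ s ^ 8 := hsCV'.trans hs18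
  have hsL2 : 78 * lam * C ^ 2 + 16 * lam ^ 2 * C ^ 2 ≤ κ0 * lam * c1 * hm / 8 * s := by
    have h1 : (78 * lam * C ^ 2 + 16 * lam ^ 2 * C ^ 2) / (κ0 * lam * c1 * hm / 8) ≤ s := hx6
    rw [div_le_iff₀ (by positivity)] at h1
    linarith only [h1]
  set ω := Real.exp (-(om' * s)) with hω
  have hω0 : 0 < ω := Real.exp_pos _
  have hs16 : 1 ≤ s ^ 16 := one_le_pow₀ hsone
  have hsω : ω ≤ s ^ 16 * ω := by
    have := mul_le_mul_of_nonneg_right hs16 hω0.le
    linarith only [this]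
  have hsω0 : 0 ≤ s ^ 16 * ω := by positivity
  have ht1 : B1 * (s ^ 16 * ω) ≤ η := by
    have h1 : 0 ≤ (16 * lam ^ 2 * C ^ 2 * N + 13 * lam * C ^ 2 * N + C5 + N) * (s ^ 16 * ω) := by
      positivity
    have : Bt * (s ^ 16 * ω) = B1 * (s ^ 16 * ω)
      + (16 * lam ^ 2 * C ^ 2 * N + 13 * lam * C ^ 2 * N + C5 + N) * (s ^ 16 * ω) := by
      rw [hBt]; ring
    linarith only [h1, this, htiny]
  have ht2 : (B1 + 16 * lam ^ 2 * C ^ 2 * N + 13 * lam * C ^ 2 * N) * (s ^ 16 * ω) ≤ η := by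
    have h1 : 0 ≤ (C5 + N) * (s ^ 16 * ω) := by positivity
    have : Bt * (s ^ 16 * ω) = (B1 + 16 * lam ^ 2 * C ^ 2 * N + 13 * lam * C ^ 2 * N)
      * (s ^ 16 * ω) + (C5 + N) * (s ^ 16 * ω) := by rw [hBt]; ring
    linarith only [h1, this, htiny]
  have ht3 : (C5 + N) * (s ^ 16 * ω) ≤ η := by
    have h1 : 0 ≤ (B1 + 16 * lam ^ 2 * C ^ 2 * N + 13 * lam * C ^ 2 * N) * (s ^ 16 * ω) := by
      positivity
    have : Bt * (s ^ 16 * ω) = (B1 + 16 * lam ^ 2 * C ^ 2 * N + 13 * lam * C ^ 2 * N)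
      * (s ^ 16 * ω) + (C5 + N) * (s ^ 16 * ω) := by rw [hBt]; ring
    linarith only [h1, this, htiny]
  have ht4 : C5 * ω ≤ hm / 16 := by
    have h1 : C5 * ω ≤ C5 * (s ^ 16 * ω) := mul_le_mul_of_nonneg_left hsω hC50
    have h2 : 0 ≤ N * (s ^ 16 * ω) := by positivity
    linarith only [h1, h2, ht3, hηc]
  have ht5 : N * ω ≤ 1 / 2 := by
    have h1 : N * ω ≤ N * (s ^ 16 * ω) := mul_le_mul_of_nonneg_left hsω hN0
    have h2 : 0 ≤ C5 * (s ^ 16 * ω) := by positivity
    linarith only [h1, h2, ht3, hηc, hm1]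
  set G := Gp D r s with hG
  have hG2 : ∀ u, ContDiff ℝ 2 (G u) := fun u => Gp_contDiff D r s u
  have hG1 : ∀ u, ContDiff ℝ 1 (G u) := fun u => Gp_contDiff D r s u
  set eps := (s ^ 12)⁻¹ with heps
  have hepsp : 0 < eps := by positivity
  obtain ⟨F, hFc, hF1, hF2, hF3⟩ := hfar3 s hss1
  have hWc : ContDiff ℝ 1 (Wf G lam eps) := Wf_contDiff G lam eps hG2
  have hWz : ∀ y, c * s ≤ Real.log (Zf G y) → 1 < eps * Zf G y := by
    intro y hy
    have h1 : Real.exp (c * s) ≤ Zf G y := by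
      rw [← Real.exp_log (Zf_pos G y)]; exact Real.exp_le_exp.2 hy
    have h2 : s ^ 12 < Real.exp (c * s) := by
      rw [one_mul, Real.exp_neg] at hexp
      rwa [← div_eq_mul_inv, div_lt_one (Real.exp_pos _)] at hexp
    rw [heps, inv_mul_eq_div, lt_div_iff₀ (by positivity), one_mul]
    linarith only [h1, h2]
  have hout : ∀ y ∈ cube (2 * R1), R1 ^ 2 ≤ nsq y → c * s ≤ Real.log (Zf G y) := by
    intro y hy hn
    obtain ⟨i, hi⟩ := hR1b y hn
    refine le_trans ?_ (G_le_log G i y)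
    have h1 : G i y = s ^ 8 * (ip (D.p i) y - D.h i) - s * bpot D r i y := rfl
    rw [h1]
    have h2 := (abs_le.1 (hBds i y hy).1).2
    have h3 : s ^ 8 * 1 ≤ s ^ 8 * (ip (D.p i) y - D.h i) :=
      mul_le_mul_of_nonneg_left hi (by positivity)
    have h4 : s * bpot D r i y ≤ s * C := mul_le_mul_of_nonneg_left h2 hspos.le
    have h5 : (C + c) * s ≤ s ^ 7 * s := by
      apply mul_le_mul_of_nonneg_right _ hspos.le
      exact hCc.trans hs17
    have e : s ^ 8 = s ^ 7 * s := by ring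
    rw [e] at h3 ⊢
    linarith only [h3, h4, h5]
  have hface : ∀ (i : Fin 3) (y : V3), |y i| = 2 * R1 → R1 ^ 2 ≤ nsq y := by
    intro i y hy
    have h1 := face_nsq hy
    have h2 : 0 ≤ R1 ^ 2 := sq_nonneg _
    linarith only [h1, h2]
  set δ := min (b * κ * δq / 8) (min (κ0 * c1 / 8) 1) with hδ
  have hδp : 0 < δ := lt_min (by positivity) (lt_min (by positivity) one_pos)
  have hδa : δ ≤ b * κ * δq / 8 := min_le_left _ _
  have hδb : δ ≤ κ0 * c1 / 8 := (min_le_right _ _).trans (min_le_left _ _)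
  have hδc : δ ≤ 1 := (min_le_right _ _).trans (min_le_right _ _)
  have hYc : ContDiff ℝ 1 (fun y => κ0 • Y0 y) := ContDiff.const_smul κ0 hY0c
  have hYi : ∀ i, ContDiff ℝ 1 (fun y => κ • (aw G none y • V i y)) := by
    intro i
    have h1 : ContDiff ℝ 1 (fun y => aw G none y • V i y) :=
      ContDiff.smul (aw_none_contDiff G hG1) (hVc i)
    exact ContDiff.const_smul κ h1
  refine np D.p D.q hp hq (2 * R1) (by positivity) F (Wf G lam eps) (fun y => κ0 • Y0 y)
    (fun i y => κ • (aw G none y • V i y)) hFc hWc hYc hYi hF3 ?_ ?_ ?_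
    (1 / 2) b (by norm_num) hbp.le ?_ δ hδp ?_
  · intro i y hy hyi
    rw [Wf_zero G lam eps (hWz y (hout y hy (hface i y hyi))).le]; rfl
  · intro i y hy hyi
    simp only [Pi.smul_apply, smul_eq_mul]
    rw [hY0f i y hyi, mul_zero]
  · intro l i y hy hyi
    simp only [Pi.smul_apply, smul_eq_mul]
    rw [hVf l i y hyi, mul_zero, mul_zero]
  · rw [← hN]
    linarith only [hbN]
  intro y hy a
  set A2 := ‖a‖ ^ 2 with hA2'
  have hA : 0 ≤ A2 := sq_nonneg _
  by_cases hM : c * s ≤ Real.log (Zf G y)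
  · -- far region
    have hB := caseB D r s C (2 * R1) hsone hC hp hq hBds' y hy lam eps (hWz y hM) Y0 hY0c κ0 hκ0p
      hκ01 CY (hY0b y hy).1 (hY0b y hy).2 V hVc CV hCV1 (fun i => ((hVb i y hy).2).trans (hCVi i))
      (fun i => ((hVb i y hy).1).trans (hCVi i)) κ hκ hκ1' b hbp hbN hsLB F a (hF2 y hy hM a)
    have h1 : δ * A2 ≤ 1 * A2 := mul_le_mul_of_nonneg_right hδc hA
    exact h1.trans hB
  · push Not at hM
    have hyR : nsq y < R1 ^ 2 := by
      by_contra hcon
      push Not at hcon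
      exact absurd (hout y hy hcon) (not_le.2 hM)
    obtain ⟨S, ⟨k, t, ht, hSt⟩, hS0, hS2⟩ := hCls s hss0 y hy (by
      have h1 : 0 < c * s := mul_pos hc hspos
      linarith only [h1, hM])
    obtain ⟨φ, hφ, hφ1, hYφ⟩ := hY0φ y hyR
    have hVp' := fun i => hVp i y hyR
    choose hVa hVb' ψ hψ0 hVψ hψd using hVp'
    have hmain := main_low D r s C (2 * R1) om' hsone hC (by positivity) hp hq hBds' hm hm0 hmh hs7
      hom'b y hy S (fun i hi => by
        refine (aw_le_exp G i y).trans (Real.exp_le_exp.2 ?_)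
        have h1 := hS0 i hi
        have h2 : om' * s ≤ om * s := mul_le_mul_of_nonneg_right hom'a hspos.le
        linarith only [h1, h2])
      (fun i j hi hj => hA2 k t ht i (hSt i hi) j (hSt j hj)) hS2 lam eps KK hlam1 hlamb hepsp.le
      hKK Y0 hY0c κ0 hκ0p hκ01 c1 φ hc1 hφ hφ1 hYφ V hVc f ψ hVψ CV hCV1
      (fun i => ((hVb i y hy).2).trans (hCVi i)) dm hdm hsd hom'c (fun i hi => by
        rcases hψd i hi with h | h
        · left; intro j hj; have k1 := h j hj; have k2 := hdml i; linarith only [k1, k2]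
        · right; have := hdml i; linarith only [this, h]) κ hκ hκ1' κ1 hκl b hbp hb1 hbN hsCV F
      (hF1 y hy hM) a
    refine le_trans ?_ hmain
    have hN2 : (Fintype.card I * (hm / 4 + 6 * C * (2 * R1)) + 3 * C * CV * Fintype.card I
          + 10 * C ^ 2 * (Fintype.card I : ℝ) ^ 2) * lam ^ 2 = B1 := by
      rw [hB1, hC5, hN]
    rw [hN2]
    have ha01 : aw G none y ≤ 1 := aw_le_one G none y
    have ha0p : 0 < aw G none y := aw_pos G none y
    have ht0 : 0 ≤ eps * Zf G y := mul_nonneg hepsp.le (Zf_pos G y).le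
    have hσ0 : 0 ≤ sg1 (eps * Zf G y) := sg1_nonneg ht0
    have hσ1 : sg1 (eps * Zf G y) ≤ 1 := sg1_le_one
    have hQ0 : 0 ≤ nsq (W0 G y) := nsq_nonneg _
    have hnY0 : 0 ≤ nsq (Y0 y) := nsq_nonneg _
    have hdYa := (abs_le.1 (hY0b y hy).1).1
    have hnY := (hY0b y hy).2
    have hterm0 : ∀ i, 0 ≤ dv (V i) y - κ1 i * nsq (V i y) := fun i => by
      have := hVa i; linarith only [this]
    by_cases hball : nsq y ≤ r0 ^ 2
    · -- in the ball
      have hyv : vn y ≤ r0 := by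
        have : vn y ^ 2 ≤ r0 ^ 2 := by rw [vn_sq]; exact hball
        exact le_of_sq_le_sq this hr0p.le
      have hwt : ∀ j, aw G (some j) y ≤ ω := by
        intro j
        apply w_tiny D r s C (2 * R1) om' hsone hBds' y hy j (hm / 2) (by positivity) _ hs7'
          (by linarith only [hom'b])
        have h1 : vn (D.p j) = 1 := by rw [vn_eq_sqrt, hp]; simp
        have h2 := ip_le (D.p j) y
        rw [h1, one_mul] at h2
        have := hmh j
        linarith only [h2, hyv, hr0b, this, hm0]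
      have h1a : 1 - aw G none y ≤ N * ω := by
        rw [← aw_some_sum G y]
        refine (Finset.sum_le_sum (fun j _ => hwt j)).trans (le_of_eq ?_)
        rw [Finset.sum_const, Finset.card_univ, nsmul_eq_mul]
      have ha0h : 1 / 2 ≤ aw G none y := by linarith only [h1a, ht5]
      have hSg : (∑ i, ‖im (D.p i) * a - a * im (D.q i)‖ ^ 2) / 4
          ≤ ∑ i, aw G none y * (dv (V i) y - κ1 i * nsq (V i y))
            * ‖im (D.p i) * a - a * im (D.q i)‖ ^ 2 := by
        rw [Finset.sum_div]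
        refine Finset.sum_le_sum (fun i _ => ?_)
        have h1 := hVb' i (by
          refine hball.trans ?_
          have : r0 ≤ r1 i := hr0a.trans (hrml i)
          exact pow_le_pow_left₀ hr0p.le this 2)
        have h2 : 1 / 2 * (1 / 2) ≤ aw G none y * (dv (V i) y - κ1 i * nsq (V i y)) :=
          mul_le_mul ha0h h1 (by norm_num) ha0p.le
        have := mul_le_mul_of_nonneg_right h2 (sq_nonneg ‖im (D.p i) * a - a * im (D.q i)‖)
        linarith only [this]
      have hres := caseA1 A2 (aw G none y) (sg1 (eps * Zf G y)) κ0 κ b δq CY (dv Y0 y) (nsq (Y0 y))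
        (nsq (W0 G y)) lam C hm c1 s N ω B1 η _ _ hA ha01 hσ0 hσ1 hκ0p hκ01 hκ hbp hdYa hnY hnY0
        hQ0 hlam1 hm0 hc1 hsone hN0 hω0.le h1a hκ0b hηa ht2 (hδqa a) hSg
      have h1 : δ * A2 ≤ b * κ * δq / 8 * A2 := mul_le_mul_of_nonneg_right hδa hA
      linarith only [h1, hres]
    · push Not at hball
      have hdY := hY0r y hyR hball.le
      have hSg0 : 0 ≤ b * κ * ∑ i, aw G none y * (dv (V i) y - κ1 i * nsq (V i y))
            * ‖im (D.p i) * a - a * im (D.q i)‖ ^ 2 := by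
        apply mul_nonneg (by positivity)
        apply Finset.sum_nonneg
        intro i _
        exact mul_nonneg (mul_nonneg ha0p.le (hterm0 i)) (sq_nonneg _)
      have h1 : δ * A2 ≤ κ0 * c1 / 8 * A2 := mul_le_mul_of_nonneg_right hδb hA
      by_cases hM1 : Real.log (Zf G y) ≤ 1
      · have hZ3 : Zf G y ≤ 3 := by
          have h2 : Zf G y ≤ Real.exp 1 := by
            rw [← Real.exp_log (Zf_pos G y)]; exact Real.exp_le_exp.2 hM1
          have := Real.exp_one_lt_d9
          linarith only [h2, this]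
        have hσs : sg1 (eps * Zf G y) * s ^ 12 ≤ 6 := by
          have h2 := sg1_le_two ht0
          have h3 : eps * Zf G y * s ^ 12 = Zf G y := by
            rw [heps]; field_simp
          have h4 := mul_le_mul_of_nonneg_right h2 (by positivity : 0 ≤ s ^ 12)
          have h5 : 2 * (eps * Zf G y) * s ^ 12 = 2 * Zf G y := by rw [mul_assoc, h3]
          linarith only [h4, h5, hZ3]
        have hσh : sg1 (eps * Zf G y) ≤ 1 / 2 := by
          have h2 : (12 : ℝ) ≤ s ^ 12 := by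
            have : (4:ℝ) ^ 12 ≤ s ^ 12 := pow_le_pow_left₀ (by norm_num) hs4 12
            linarith only [this, (by norm_num : (12:ℝ) ≤ 4 ^ 12)]
          have h3 := mul_le_mul_of_nonneg_left h2 hσ0
          linarith only [h3, hσs]
        have hres := caseA2 A2 (aw G none y) (sg1 (eps * Zf G y)) κ0 CY (dv Y0 y) (nsq (Y0 y))
          (nsq (W0 G y)) lam C hm c1 s ω B1 η _ hA ha01 hσ0 hσh hσs hκ0p hdY hnY hnY0 hQ0 hlam1 hm0
          hc1 hsone hκ0a hηb ht1 hsL2 hSg0
        linarith only [hres, h1]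
      · push Not at hM1
        have ha0h : aw G none y ≤ 1 / 2 := by
          rw [aw_none_eq]
          have h2 : Real.exp (-Real.log (Zf G y)) ≤ Real.exp (-1) := Real.exp_le_exp.2 (by linarith only [hM1])
          have h3 : Real.exp (-1) ≤ 1 / 2 := by
            rw [Real.exp_neg, inv_le_comm₀ (Real.exp_pos _) (by norm_num)]
            have := Real.exp_one_gt_d9
            linarith only [this]
          linarith only [h2, h3]
        have hσs : 1 ≤ sg1 (eps * Zf G y) * s ^ 12 := by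
          by_cases ht : eps * Zf G y ≤ 1
          · have h2 := sg1_ge ht
            have h3 := one_le_Zf G y
            have h4 := mul_le_mul_of_nonneg_right h2 (by positivity : 0 ≤ s ^ 12)
            have h5 : eps * Zf G y * s ^ 12 = Zf G y := by rw [heps]; field_simp
            linarith only [h3, h4, h5]
          · push Not at ht
            rw [sg1_one ht.le, one_mul]
            exact one_le_pow₀ hsone
        have hW := W0_low D r s C (2 * R1) hm om' hsone hC (by positivity) hp hBds' hm0 hmh hs7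
          hom'b y hy
        have hyv : vn y ≤ R1 := by
          have : vn y ^ 2 ≤ R1 ^ 2 := by rw [vn_sq]; exact hyR.le
          exact le_of_sq_le_sq this hR1.le
        have hWn : c5 * s ^ 8 ≤ vn (W0 G y) := by
          have h2 : hm / 16 * s ^ 8 ≤ ip (W0 G y) y := by
            have h3 : hm / 4 * s ^ 8 * (1 / 2) ≤ hm / 4 * s ^ 8 * (1 - aw G none y) :=
              mul_le_mul_of_nonneg_left (by linarith only [ha0h]) (by positivity)
            have h4 : C5 * s ^ 8 * ω ≤ hm / 16 * s ^ 8 := by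
              have := mul_le_mul_of_nonneg_right ht4 (by positivity : 0 ≤ s ^ 8)
              linarith only [this]
            have h5 : (Fintype.card I : ℝ) * (hm / 4 + 6 * C * (2 * R1)) = C5 := by
              rw [hC5]
            rw [h5] at hW
            linarith only [hW, h3, h4]
          have h3 := ip_le (W0 G y) y
          have h4 : vn (W0 G y) * vn y ≤ vn (W0 G y) * R1 :=
            mul_le_mul_of_nonneg_left hyv (vn_nonneg _)
          have h5 : hm / 16 * s ^ 8 ≤ vn (W0 G y) * R1 := by linarith only [h2, h3, h4]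
          have h6 : c5 * s ^ 8 = hm / 16 * s ^ 8 / R1 := by rw [hc5]; field_simp
          rw [h6, div_le_iff₀ hR1]
          exact h5
        have hQ5 : c5 ^ 2 * s ^ 16 ≤ nsq (W0 G y) := by
          rw [← vn_sq]
          have := pow_le_pow_left₀ (by positivity) hWn 2
          have e : (c5 * s ^ 8) ^ 2 = c5 ^ 2 * s ^ 16 := by ring
          rw [e] at this
          exact this
        have hres := caseA3 A2 (aw G none y) (sg1 (eps * Zf G y)) κ0 CY (dv Y0 y) (nsq (Y0 y))
          (nsq (W0 G y)) lam C hm c1 c5 s ω B1 η _ hA ha01 ha0p.le hσ0 hσ1 hσs hκ0p hdY hnY hnY0 hQ5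
          hlam1 hm0 hc1 hsone hlam5 hκ0a hηb ht1 hsL3 hSg0
        linarith only [hres, h1]

end N9
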