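import Pool.Agent.Helper66.N9.An1

/-! Softmax potentials: exact expression and lower bound of the potential. -/

namespace N9

open scoped Quaternion

section

variable {ι : Type} [Fintype ι] (G : ι → V3 → ℝ) (lam : ℝ) (Q : ι → V3)

/-- difference of gradients -/
noncomputable def dP (o o' : Option ι) (x : V3) : V3 :=
  ext0 (fun u => grd (G u)) o x - ext0 (fun u => grd (G u)) o' x

/-- difference of the constant vectors `Q` -/
noncomputable def dQ (o o' : Option ι) (x : V3) : V3 :=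
  ext0 (fun u (_ : V3) => Q u) o x - ext0 (fun u (_ : V3) => Q u) o' x

theorem cr_avg (hG : ∀ u, ContDiff ℝ 2 (G u)) (x : V3) (a : ℍ[ℝ]) :
    cr (avg G lam (fun u _ => Q u)) x a
      = lam * (1 / 2 * ∑ o, ∑ o', aw G o x * aw G o' x *
          inner ℝ (im (dP G o o' x) * a) (a * im (dQ Q o o' x))) := by
  obtain ⟨_, _, _, _, h5, _⟩ := key6 ι G lam (fun u _ => Q u) hG (fun u => contDiff_const) x
  have h : ∀ i, pd i (avg G lam (fun u _ => Q u)) x
      = ∑ k ∈ (Finset.univ : Finset (Option ι × Option ι)),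
        ((lam * (1 / 2) * (aw G k.1 x * aw G k.2 x)) * dP G k.1 k.2 x i) • dQ Q k.1 k.2 x := by
    intro i
    rw [h5 i]
    simp only [pd_const, smul_zero, Finset.sum_const_zero, zero_add]
    rw [Fintype.sum_prod_type, Finset.smul_sum, Finset.smul_sum]
    refine Finset.sum_congr rfl (fun o _ => ?_)
    rw [Finset.smul_sum, Finset.smul_sum]
    refine Finset.sum_congr rfl (fun o' _ => ?_)
    rw [smul_smul, smul_smul]
    unfold dP dQ
    congr 1
    ring
  have h2 := key5.2.2 (avg G lam (fun u _ => Q u)) (fun _ => a) x (Option ι × Option ι)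
    Finset.univ (fun k => lam * (1 / 2) * (aw G k.1 x * aw G k.2 x))
    (fun k => dQ Q k.1 k.2 x) (fun k => dP G k.1 k.2 x) h
  have h3 : crossT (avg G lam (fun u _ => Q u)) (fun _ => a) x
      = cr (avg G lam (fun u _ => Q u)) x a := rfl
  rw [← h3, h2, Fintype.sum_prod_type, Finset.mul_sum, Finset.mul_sum]
  refine Finset.sum_congr rfl (fun o _ => ?_)
  rw [Finset.mul_sum, Finset.mul_sum]
  refine Finset.sum_congr rfl (fun o' _ => ?_)
  ring

/-- pair term -/
noncomputable def pt (o o' : Option ι) (x : V3) (a : ℍ[ℝ]) : ℝ :=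
  lam * (nsq (dP G o o' x) * ‖a‖ ^ 2 - inner ℝ (im (dP G o o' x) * a) (a * im (dQ Q o o' x)))
    + lam ^ 2 * (nsq (dP G o o' x) - nsq (dQ Q o o' x)) * ‖a‖ ^ 2

theorem vid (hG : ∀ u, ContDiff ℝ 2 (G u)) (x : V3) (a : ℍ[ℝ]) :
    (dv (avg G lam (fun u => grd (G u))) x - nsq (avg G lam (fun u => grd (G u)) x)
        + nsq (avg G lam (fun u _ => Q u) x)) * ‖a‖ ^ 2 - cr (avg G lam (fun u _ => Q u)) x a
      = 1 / 2 * ∑ o, ∑ o', aw G o x * aw G o' x * pt G lam Q o o' x a
        + lam ^ 2 * (∑ u, aw G (some u) x * (nsq (Q u) - nsq (grd (G u) x))) * ‖a‖ ^ 2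
        + lam * (∑ u, aw G (some u) x * dv (grd (G u)) x) * ‖a‖ ^ 2 := by
  obtain ⟨_, _, _, h4, _, h6⟩ := key6 ι G lam (fun u _ => Q u) hG (fun u => contDiff_const) x
  rw [cr_avg G lam Q hG]
  have e1 : 1 / 2 * ∑ o, ∑ o', aw G o x * aw G o' x * pt G lam Q o o' x a
      = lam * (1 / 2 * ∑ o, ∑ o', aw G o x * aw G o' x * nsq (dP G o o' x)) * ‖a‖ ^ 2
        - lam * (1 / 2 * ∑ o, ∑ o', aw G o x * aw G o' x *
          inner ℝ (im (dP G o o' x) * a) (a * im (dQ Q o o' x)))
        - lam ^ 2 * (1 / 2 * ∑ o, ∑ o', aw G o x * aw G o' x *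
            (nsq (dQ Q o o' x) - nsq (dP G o o' x))) * ‖a‖ ^ 2 := by
    simp only [Finset.mul_sum, Finset.sum_mul, ← Finset.sum_sub_distrib]
    refine Finset.sum_congr rfl (fun o _ => Finset.sum_congr rfl (fun o' _ => ?_))
    unfold pt; ring
  have h6' : nsq (avg G lam (fun u _ => Q u) x) - nsq (avg G lam (fun u => grd (G u)) x)
      = lam ^ 2 * (∑ u, aw G (some u) x * (nsq (Q u) - nsq (grd (G u) x))
        - 1 / 2 * ∑ o, ∑ o', aw G o x * aw G o' x *
            (nsq (dQ Q o o' x) - nsq (dP G o o' x))) := h6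
  have h4' : dv (avg G lam (fun u => grd (G u))) x
      = lam * (∑ u, aw G (some u) x * dv (grd (G u)) x
        + 1 / 2 * ∑ o, ∑ o', aw G o x * aw G o' x * nsq (dP G o o' x)) := h4
  rw [e1, h4']
  have h7 : nsq (avg G lam (fun u _ => Q u) x) = nsq (avg G lam (fun u => grd (G u)) x)
      + lam ^ 2 * (∑ u, aw G (some u) x * (nsq (Q u) - nsq (grd (G u) x))
        - 1 / 2 * ∑ o, ∑ o', aw G o x * aw G o' x *
            (nsq (dQ Q o o' x) - nsq (dP G o o' x))) := by linarith
  rw [h7]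
  ring

omit [Fintype ι] in
theorem dP_self (o : Option ι) (x : V3) : dP G o o x = 0 := by unfold dP; rw [sub_self]
omit [Fintype ι] in
theorem dP_swap (o o' : Option ι) (x : V3) : dP G o o' x = - dP G o' o x := by
  unfold dP; rw [neg_sub]
omit [Fintype ι] in
theorem dQ_swap (o o' : Option ι) (x : V3) : dQ Q o o' x = - dQ Q o' o x := by
  unfold dQ; rw [neg_sub]
omit [Fintype ι] in
theorem dQ_self (o : Option ι) (x : V3) : dQ Q o o x = 0 := by unfold dQ; rw [sub_self]

theorem nsq_neg (v : V3) : nsq (-v) = nsq v := by simp [nsq]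

theorem pt_self (o : Option ι) (x : V3) (a : ℍ[ℝ]) : pt G lam Q o o x a = 0 := by
  unfold pt; rw [dP_self, dQ_self]; simp

theorem pt_swap (o o' : Option ι) (x : V3) (a : ℍ[ℝ]) :
    pt G lam Q o o' x a = pt G lam Q o' o x a := by
  unfold pt; rw [dP_swap, dQ_swap, nsq_neg, nsq_neg, im_neg, im_neg, neg_mul, mul_neg,
    inner_neg_neg]

/-- splitting of a symmetric double sum over `Option ι` -/
theorem split_sum (x : V3) (f : Option ι → Option ι → ℝ) (h0 : f none none = 0)
    (hs : ∀ o o', f o o' = f o' o) :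
    1 / 2 * ∑ o, ∑ o', aw G o x * aw G o' x * f o o'
      = ∑ u, aw G none x * aw G (some u) x * f none (some u)
        + 1 / 2 * ∑ u, ∑ v, aw G (some u) x * aw G (some v) x * f (some u) (some v) := by
  simp only [Fintype.sum_option, h0, mul_zero, zero_add, Finset.sum_add_distrib]
  have e1 : ∑ u, aw G (some u) x * aw G none x * f (some u) none
      = ∑ u, aw G none x * aw G (some u) x * f none (some u) := by
    refine Finset.sum_congr rfl (fun u _ => ?_)
    rw [hs (some u) none]; ring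
  rw [e1]; ring

theorem aw_le_one (o : Option ι) (x : V3) : aw G o x ≤ 1 := by
  rw [← aw_sum G x]
  exact Finset.single_le_sum (f := fun o => aw G o x) (fun o _ => (aw_pos G o x).le)
    (Finset.mem_univ o)

theorem aw_some_sum (x : V3) : ∑ u, aw G (some u) x = 1 - aw G none x := by
  have := aw_sum G x
  rw [Fintype.sum_option] at this
  linarith

end

/-- parallelogram type inequality -/
theorem half_sq_sub (x y : ℍ[ℝ]) : ‖x‖ ^ 2 / 2 - ‖y‖ ^ 2 ≤ ‖x - y‖ ^ 2 := by
  have h : ‖x‖ ≤ ‖x - y‖ + ‖y‖ := by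
    have := norm_add_le (x - y) y
    simpa using this
  nlinarith [norm_nonneg x, norm_nonneg y, norm_nonneg (x - y), sq_nonneg (‖x - y‖ - ‖y‖)]

/-- lower bound of a pair term -/
theorem pair_low (lam A : ℝ) (hlam : 0 ≤ lam) (v w : V3) (a : ℍ[ℝ]) (hA : A = ‖a‖ ^ 2) :
    (lam / 2 + lam ^ 2) * (nsq v - nsq w) * A
      ≤ lam * (nsq v * A - inner ℝ (im v * a) (a * im w)) + lam ^ 2 * (nsq v - nsq w) * A := by
  have h1 : inner ℝ (im v * a) (a * im w) ≤ (nsq v + nsq w) / 2 * A := by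
    refine (real_inner_le_norm _ _).trans ?_
    rw [norm_mul, norm_mul]
    change vn v * ‖a‖ * (‖a‖ * vn w) ≤ _
    rw [← vn_sq, ← vn_sq, hA]
    nlinarith [mul_nonneg (sq_nonneg ‖a‖) (sq_nonneg (vn v - vn w))]
  nlinarith

theorem zero_low (lam A T s : ℝ) (hlam : 0 ≤ lam) (p q B : V3) (a : ℍ[ℝ]) (hA : A = ‖a‖ ^ 2) :
    lam * (T ^ 2 / 4 * ‖im p * a - a * im q‖ ^ 2 - s ^ 2 * nsq B * A / 2
        + (nsq (T • p - s • B) - nsq (T • q)) * A / 2)
      ≤ lam * (nsq (T • p - s • B) * A - inner ℝ (im (T • p - s • B) * a) (a * im (T • q))) := by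
  apply mul_le_mul_of_nonneg_left _ hlam
  set P := T • p - s • B with hP
  set Qv := T • q with hQ
  have h1 : ‖im P * a - a * im Qv‖ ^ 2
      = nsq P * A - 2 * inner ℝ (im P * a) (a * im Qv) + nsq Qv * A := by
    rw [norm_sub_sq_real, norm_qmul_sq, norm_qmul_sq, norm_im, norm_im, hA]; ring
  have h2 : im P * a - a * im Qv = (T • (im p * a - a * im q)) - s • (im B * a) := by
    rw [hP, hQ, im_sub, im_smul, im_smul, im_smul, sub_mul, smul_mul_assoc, smul_mul_assoc,
      mul_smul_comm, smul_sub]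
    abel
  have h3 := half_sq_sub (T • (im p * a - a * im q)) (s • (im B * a))
  rw [← h2, norm_smul, norm_smul, mul_pow, mul_pow, Real.norm_eq_abs, Real.norm_eq_abs, sq_abs,
    sq_abs, norm_qmul_sq (im B), norm_im, ← hA] at h3
  nlinarith

end N9
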