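import Pool.Agent.Helper66.N9.An2

/-! Lower bound of the softmax potential (uncut fields). -/

namespace N9

open scoped Quaternion

theorem pt_none {ι : Type} (G : ι → V3 → ℝ) (lam : ℝ) (Q : ι → V3) (u : ι) (x : V3)
    (a : ℍ[ℝ]) : pt G lam Q none (some u) x a
      = lam * (nsq (grd (G u) x) * ‖a‖ ^ 2 - inner ℝ (im (grd (G u) x) * a) (a * im (Q u)))
        + lam ^ 2 * (nsq (grd (G u) x) - nsq (Q u)) * ‖a‖ ^ 2 := by
  have e1 : dP G none (some u) x = - grd (G u) x := by simp [dP, ext0]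
  have e2 : dQ Q none (some u) x = - Q u := by simp [dQ, ext0]
  unfold pt
  rw [e1, e2, nsq_neg, nsq_neg, im_neg, im_neg, neg_mul, mul_neg, inner_neg_neg]

theorem pt_some {ι : Type} (G : ι → V3 → ℝ) (lam : ℝ) (hlam : 0 ≤ lam) (Q : ι → V3) (u v : ι)
    (x : V3) (a : ℍ[ℝ]) :
    (lam / 2 + lam ^ 2) * (nsq (grd (G u) x - grd (G v) x) - nsq (Q u - Q v)) * ‖a‖ ^ 2
      ≤ pt G lam Q (some u) (some v) x a := by
  have e1 : dP G (some u) (some v) x = grd (G u) x - grd (G v) x := by simp [dP, ext0]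
  have e2 : dQ Q (some u) (some v) x = Q u - Q v := by simp [dQ, ext0]
  unfold pt
  rw [e1, e2]
  exact pair_low lam _ hlam _ _ a rfl

theorem nat_le_sq (N : ℕ) : (N : ℝ) ≤ (N : ℝ) ^ 2 := by
  have : N ≤ N ^ 2 := Nat.le_self_pow (by norm_num) N
  exact_mod_cast this

theorem v1low {ι : Type} [Fintype ι] (G : ι → V3 → ℝ) (hG : ∀ u, ContDiff ℝ 2 (G u))
    (lam T s C ω : ℝ) (hlam : 1 ≤ lam) (hs : 1 ≤ s) (hsT : s ≤ T) (hC : 1 ≤ C) (hω : 0 ≤ ω)
    (p q : ι → V3) (hp : ∀ u, nsq (p u) = 1) (hq : ∀ u, nsq (q u) = 1) (x : V3) (B : ι → V3)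
    (hP : ∀ u, grd (G u) x = T • p u - s • B u) (hB : ∀ u, vn (B u) ≤ C)
    (hdv : ∀ u, |dv (grd (G u)) x| ≤ s * C) (S : ι → Prop)
    (hS0 : ∀ u, ¬ S u → aw G (some u) x ≤ ω)
    (hS1 : ∀ u v, S u → S v → ip (p u) (p v) ≤ ip (q u) (q v))
    (hS2 : ∀ u v, S u → S v → T * |ip (p u) (B v)| ≤ C * s) (a : ℍ[ℝ]) :
    ∑ u, lam * (aw G none x * aw G (some u) x) * (T ^ 2 / 4)
        * ‖im (p u) * a - a * im (q u)‖ ^ 2
      - lam ^ 2 * (16 * C ^ 2 * s ^ 2 * (1 - aw G none x)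
        + 10 * C ^ 2 * (Fintype.card ι : ℝ) ^ 2 * T ^ 2 * ω) * ‖a‖ ^ 2
      ≤ (dv (avg G lam (fun u => grd (G u))) x - nsq (avg G lam (fun u => grd (G u)) x)
        + nsq (avg G lam (fun u _ => T • q u) x)) * ‖a‖ ^ 2
        - cr (avg G lam (fun u _ => T • q u)) x a := by
  classical
  rw [vid G lam (fun u => T • q u) hG x a]
  rw [split_sum G x (fun o o' => pt G lam (fun u => T • q u) o o' x a)
    (pt_self G lam _ none x a) (fun o o' => pt_swap G lam _ o o' x a)]
  set A := ‖a‖ ^ 2 with hA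
  have hA0 : 0 ≤ A := sq_nonneg _
  set w : ι → ℝ := fun u => aw G (some u) x with hw
  set w0 := aw G none x with hw0
  have hw0p : 0 < w0 := aw_pos G none x
  have hw01 : w0 ≤ 1 := aw_le_one G none x
  have hwp : ∀ u, 0 < w u := fun u => aw_pos G (some u) x
  have hw1 : ∀ u, w u ≤ 1 := fun u => aw_le_one G (some u) x
  have hwsum : ∑ u, w u = 1 - w0 := aw_some_sum G x
  have hT0 : 0 < T := by linarith
  have hs0 : 0 < s := by linarith
  have hl0 : 0 ≤ lam := by linarith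
  have hCC : C ≤ C ^ 2 := le_self_pow₀ hC (by norm_num)
  have hll : lam ≤ lam ^ 2 := le_self_pow₀ hlam (by norm_num)
  -- the quantity E
  set E : ι → ℝ := fun u => nsq (T • p u - s • B u) - nsq (T • q u) with hE
  have hEval : ∀ u, E u = -(2 * T * s * ip (p u) (B u)) + s ^ 2 * nsq (B u) := by
    intro u
    simp only [hE]
    rw [nsq_sub, nsq_smul, nsq_smul, nsq_smul, hp, hq, smul_ip, ip_smul]; ring
  have hB2 : ∀ u, nsq (B u) ≤ C ^ 2 := by
    intro u; rw [← vn_sq]; exact pow_le_pow_left₀ (vn_nonneg _) (hB u) 2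
  have hip : ∀ u v, |ip (p u) (B v)| ≤ C := by
    intro u v
    have h1 : vn (p u) = 1 := by rw [vn_eq_sqrt, hp]; simp
    have := abs_ip_le (p u) (B v)
    rw [h1, one_mul] at this
    exact this.trans (hB v)
  have hE1 : ∀ u, w u * |E u| ≤ 3 * C ^ 2 * s ^ 2 * w u + 3 * C ^ 2 * T ^ 2 * ω := by
    intro u
    have habs : |E u| ≤ 2 * s * (T * |ip (p u) (B u)|) + s ^ 2 * C ^ 2 := by
      rw [hEval]
      refine (abs_add_le _ _).trans ?_
      rw [abs_neg, abs_mul, abs_mul (s ^ 2), abs_of_pos (by positivity : (0:ℝ) < 2 * T * s),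
        abs_of_pos (by positivity : (0:ℝ) < s ^ 2), abs_of_nonneg (nsq_nonneg _)]
      have := hB2 u
      have h2 : s ^ 2 * nsq (B u) ≤ s ^ 2 * C ^ 2 := mul_le_mul_of_nonneg_left this (by positivity)
      linarith
    by_cases hSu : S u
    · have h1 := hS2 u u hSu hSu
      have h2 : |E u| ≤ 3 * C ^ 2 * s ^ 2 := by
        have : 2 * s * (T * |ip (p u) (B u)|) ≤ 2 * s * (C * s) :=
          mul_le_mul_of_nonneg_left h1 (by positivity)
        have hq := mul_le_mul_of_nonneg_left hCC (by positivity : 0 ≤ 2 * s ^ 2)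
        linarith only [habs, this, hq]
      have h3 : w u * |E u| ≤ w u * (3 * C ^ 2 * s ^ 2) :=
        mul_le_mul_of_nonneg_left h2 (hwp u).le
      have h4 : 0 ≤ 3 * C ^ 2 * T ^ 2 * ω := by positivity
      linarith
    · have h1 := hS0 u hSu
      have h2 : |E u| ≤ 3 * C ^ 2 * T ^ 2 := by
        have h3 : T * |ip (p u) (B u)| ≤ T * C := mul_le_mul_of_nonneg_left (hip u u) hT0.le
        have h4 : 2 * s * (T * |ip (p u) (B u)|) ≤ 2 * T * (T * C) := by
          have h5 : 2 * s ≤ 2 * T := by linarith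
          exact mul_le_mul h5 h3 (by positivity) (by positivity)
        have h6 : s ^ 2 * C ^ 2 ≤ T ^ 2 * C ^ 2 :=
          mul_le_mul_of_nonneg_right (pow_le_pow_left₀ hs0.le hsT 2) (by positivity)
        have h8 : 2 * T * (T * C) ≤ 2 * T ^ 2 * C ^ 2 := by
          have : T ^ 2 * C ≤ T ^ 2 * C ^ 2 := mul_le_mul_of_nonneg_left hCC (by positivity)
          linarith only [this]
        linarith only [habs, h4, h6, h8]
      have h3 : w u * |E u| ≤ ω * (3 * C ^ 2 * T ^ 2) :=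
        mul_le_mul h1 h2 (abs_nonneg _) hω
      have h4 : 0 ≤ 3 * C ^ 2 * s ^ 2 * w u := by
        have := (hwp u).le
        positivity
      linarith
  -- per vertex bound
  have hu : ∀ u, lam * (w0 * w u) * (T ^ 2 / 4) * ‖im (p u) * a - a * im (q u)‖ ^ 2
      - lam ^ 2 * (6 * C ^ 2 * s ^ 2 * w u + 5 * C ^ 2 * T ^ 2 * ω) * A
      ≤ w0 * w u * pt G lam (fun u => T • q u) none (some u) x a
        + lam ^ 2 * (w u * (nsq (T • q u) - nsq (grd (G u) x))) * A
        + lam * (w u * dv (grd (G u)) x) * A := by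
    intro u
    rw [pt_none, hP u]
    have z := zero_low lam A T s hl0 (p u) (q u) (B u) a hA
    have hdv' : -(s * C) ≤ dv (grd (G u)) x := (abs_le.1 (hdv u)).1
    have hw0u : 0 ≤ w0 * w u := mul_nonneg hw0p.le (hwp u).le
    have z1 := mul_le_mul_of_nonneg_left z hw0u
    have hEu : nsq (T • p u - s • B u) - nsq (T • q u) = E u := rfl
    have hEu2 : nsq (T • q u) - nsq (T • p u - s • B u) = - E u := by rw [← hEu]; ring
    rw [hEu] at z1
    rw [hEu, hEu2]
    set g2 := ‖im (p u) * a - a * im (q u)‖ ^ 2 with hg2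
    set X := nsq (T • p u - s • B u) * A - inner ℝ (im (T • p u - s • B u) * a) (a * im (T • q u))
      with hX
    have hwE := hE1 u
    have hEle : E u ≤ |E u| := le_abs_self _
    have hEge : -|E u| ≤ E u := neg_abs_le _
    -- a: w0 w u lam E A / 2
    have t1 : -(lam / 2 * (w u * |E u|) * A) ≤ w0 * w u * (lam * (E u * A / 2)) := by
      have h1 : -(w u * |E u|) ≤ w0 * w u * E u := by
        have h2 : -|E u| * (w0 * w u) ≤ E u * (w0 * w u) := mul_le_mul_of_nonneg_right hEge hw0u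
        have h3 : w0 * (w u * |E u|) ≤ 1 * (w u * |E u|) :=
          mul_le_mul_of_nonneg_right hw01 (mul_nonneg (hwp u).le (abs_nonneg _))
        linarith
      have h4 : 0 ≤ lam / 2 * A := by positivity
      have := mul_le_mul_of_nonneg_left h1 h4
      linarith
    have t2 : -(lam ^ 2 * (w u * |E u|) * A) ≤ w0 * w u * (lam ^ 2 * E u * A)
        + lam ^ 2 * (w u * -E u) * A := by
      have h1 : (1 - w0) * (w u * E u) ≤ w u * |E u| := by
        have h2 : w u * E u ≤ w u * |E u| := mul_le_mul_of_nonneg_left hEle (hwp u).le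
        have h3 : (1 - w0) * (w u * E u) ≤ (1 - w0) * (w u * |E u|) :=
          mul_le_mul_of_nonneg_left h2 (by linarith)
        have h4 : (1 - w0) * (w u * |E u|) ≤ 1 * (w u * |E u|) :=
          mul_le_mul_of_nonneg_right (by linarith) (mul_nonneg (hwp u).le (abs_nonneg _))
        linarith
      have h5 : 0 ≤ lam ^ 2 * A := by positivity
      have := mul_le_mul_of_nonneg_left h1 h5
      linarith
    have t3 : -(lam * (s * C) * w u * A) ≤ lam * (w u * dv (grd (G u)) x) * A := by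
      have h1 : 0 ≤ lam * w u * A := by
        have := (hwp u).le
        positivity
      have := mul_le_mul_of_nonneg_left hdv' h1
      linarith
    have t4 : w0 * w u * (lam * (s ^ 2 * nsq (B u) * A / 2)) ≤ lam * (s ^ 2 * C ^ 2 / 2) * w u * A := by
      have h1 : w0 * (w u * (lam * (s ^ 2 * nsq (B u) * A / 2)))
          ≤ 1 * (w u * (lam * (s ^ 2 * nsq (B u) * A / 2))) := by
        apply mul_le_mul_of_nonneg_right hw01
        have h2 := (hwp u).le
        have h3 := nsq_nonneg (B u)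
        positivity
      have h2 : w u * (lam * (s ^ 2 * nsq (B u) * A / 2)) ≤ w u * (lam * (s ^ 2 * C ^ 2 * A / 2)) := by
        apply mul_le_mul_of_nonneg_left _ (hwp u).le
        apply mul_le_mul_of_nonneg_left _ hl0
        have := mul_le_mul_of_nonneg_left (hB2 u) (by positivity : 0 ≤ s ^ 2 * A / 2)
        linarith
      linarith
    have t5 : lam / 2 * (w u * |E u|) * A + lam ^ 2 * (w u * |E u|) * A
        ≤ 3 / 2 * lam ^ 2 * (3 * C ^ 2 * s ^ 2 * w u + 3 * C ^ 2 * T ^ 2 * ω) * A := by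
      have h1 : lam / 2 + lam ^ 2 ≤ 3 / 2 * lam ^ 2 := by linarith only [hll]
      have h0 : 0 ≤ w u * |E u| * A := mul_nonneg (mul_nonneg (hwp u).le (abs_nonneg _)) hA0
      have h2 := mul_le_mul_of_nonneg_right h1 h0
      have h3 := mul_le_mul_of_nonneg_left hwE (by positivity : 0 ≤ 3 / 2 * lam ^ 2 * A)
      linarith
    have t6 : lam * (s * C) * w u * A + lam * (s ^ 2 * C ^ 2 / 2) * w u * A
        ≤ 3 / 2 * lam ^ 2 * (C ^ 2 * s ^ 2 * w u) * A := by
      have h1 : s * C ≤ s ^ 2 * C ^ 2 := by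
        have h := le_self_pow₀ (one_le_mul_of_one_le_of_one_le hs hC) (two_ne_zero)
        rwa [mul_pow] at h
      have h2 : lam ≤ lam ^ 2 := hll
      have h3 : s * C + s ^ 2 * C ^ 2 / 2 ≤ 3 / 2 * (C ^ 2 * s ^ 2) := by linarith only [h1]
      have h4 : lam * (s * C + s ^ 2 * C ^ 2 / 2) ≤ lam ^ 2 * (3 / 2 * (C ^ 2 * s ^ 2)) :=
        mul_le_mul h2 h3 (by positivity) (by positivity)
      have h5 := mul_le_mul_of_nonneg_right h4 (mul_nonneg (hwp u).le hA0)
      linarith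
    have t7 : 0 ≤ lam ^ 2 * (C ^ 2 * T ^ 2 * ω) * A := by positivity
    linarith
  -- pair bound
  have hK : ∀ u v, -(8 * C * s ^ 2 * (w u * w v) + 4 * T ^ 2 * ω)
      ≤ w u * w v * (nsq (grd (G u) x - grd (G v) x) - nsq (T • q u - T • q v)) := by
    intro u v
    have hww : 0 ≤ w u * w v := mul_nonneg (hwp u).le (hwp v).le
    have e1 : grd (G u) x - grd (G v) x = T • (p u - p v) - s • (B u - B v) := by
      rw [hP, hP, smul_sub, smul_sub]; abel
    have e2 : T • q u - T • q v = T • (q u - q v) := by rw [smul_sub]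
    have e3 : nsq (p u - p v) = 2 - 2 * ip (p u) (p v) := by rw [nsq_sub, hp, hp]; ring
    have e4 : nsq (q u - q v) = 2 - 2 * ip (q u) (q v) := by rw [nsq_sub, hq, hq]; ring
    by_cases hSS : S u ∧ S v
    · obtain ⟨hSu, hSv⟩ := hSS
      have k1 : -(8 * C * s ^ 2) ≤ nsq (grd (G u) x - grd (G v) x) - nsq (T • q u - T • q v) := by
        rw [e1, e2, nsq_sub, nsq_smul, nsq_smul, nsq_smul, e3, e4, smul_ip, ip_smul, sub_ip, ip_sub,
          ip_sub]
        have h1 := hS1 u v hSu hSv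
        have a1 := hS2 u u hSu hSu
        have a2 := hS2 u v hSu hSv
        have a3 := hS2 v u hSv hSu
        have a4 := hS2 v v hSv hSv
        have b1 : T * ip (p u) (B u) ≤ C * s := (mul_le_mul_of_nonneg_left (le_abs_self _) hT0.le).trans a1
        have b2 : -(C * s) ≤ T * ip (p u) (B v) := by
          have := mul_le_mul_of_nonneg_left (neg_abs_le (ip (p u) (B v))) hT0.le
          linarith
        have b3 : -(C * s) ≤ T * ip (p v) (B u) := by
          have := mul_le_mul_of_nonneg_left (neg_abs_le (ip (p v) (B u))) hT0.le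
          linarith
        have b4 : T * ip (p v) (B v) ≤ C * s := (mul_le_mul_of_nonneg_left (le_abs_self _) hT0.le).trans a4
        have c1 : 0 ≤ T ^ 2 * (ip (q u) (q v) - ip (p u) (p v)) :=
          mul_nonneg (by positivity) (by linarith)
        have c2 : 0 ≤ s ^ 2 * nsq (B u - B v) := mul_nonneg (by positivity) (nsq_nonneg _)
        have c3 : T * (ip (p u) (B u) - ip (p u) (B v) - (ip (p v) (B u) - ip (p v) (B v)))
            ≤ 4 * (C * s) := by linarith
        have c4 := mul_le_mul_of_nonneg_left c3 (by positivity : 0 ≤ 2 * s)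
        linarith only [c1, c2, c4]
      have k2 := mul_le_mul_of_nonneg_left k1 hww
      have k3 : 0 ≤ 4 * T ^ 2 * ω := by positivity
      linarith
    · have hle : w u * w v ≤ ω := by
        by_cases hSu : S u
        · have hSv : ¬ S v := fun h => hSS ⟨hSu, h⟩
          have := hS0 v hSv
          calc w u * w v ≤ 1 * ω := mul_le_mul (hw1 u) this (hwp v).le (by norm_num)
            _ = ω := one_mul _
        · have := hS0 u hSu
          calc w u * w v ≤ ω * 1 := mul_le_mul this (hw1 v) (hwp v).le hω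
            _ = ω := mul_one _
      have k1 : -(4 * T ^ 2) ≤ nsq (grd (G u) x - grd (G v) x) - nsq (T • q u - T • q v) := by
        have h1 := nsq_nonneg (grd (G u) x - grd (G v) x)
        rw [e2, nsq_smul, e4]
        have h2 : -1 ≤ ip (q u) (q v) := by
          have h3 : vn (q u) = 1 := by rw [vn_eq_sqrt, hq]; simp
          have h4 : vn (q v) = 1 := by rw [vn_eq_sqrt, hq]; simp
          have := abs_ip_le (q u) (q v)
          rw [h3, h4, one_mul] at this
          exact (abs_le.1 this).1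
        have h5 := mul_le_mul_of_nonneg_left h2 (sq_nonneg T)
        linarith only [h1, h5]
      have k2 := mul_le_mul_of_nonneg_left k1 hww
      have k3 : 4 * T ^ 2 * (w u * w v) ≤ 4 * T ^ 2 * ω :=
        mul_le_mul_of_nonneg_left hle (by positivity)
      have k4 : 0 ≤ 8 * C * s ^ 2 * (w u * w v) := by positivity
      linarith
  have hpair : -(lam ^ 2 * (6 * C * s ^ 2 * (1 - w0) + 3 * (Fintype.card ι : ℝ) ^ 2 * T ^ 2 * ω) * A)
      ≤ 1 / 2 * ∑ u, ∑ v, w u * w v * pt G lam (fun u => T • q u) (some u) (some v) x a := by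
    have h1 : ∀ u v, -(3 / 2 * lam ^ 2 * (8 * C * s ^ 2 * (w u * w v) + 4 * T ^ 2 * ω) * A)
        ≤ w u * w v * pt G lam (fun u => T • q u) (some u) (some v) x a := by
      intro u v
      have hww : 0 ≤ w u * w v := mul_nonneg (hwp u).le (hwp v).le
      have h2 := mul_le_mul_of_nonneg_left
        (pt_some G lam hl0 (fun u => T • q u) u v x a) hww
      have h3 := mul_le_mul_of_nonneg_left (hK u v) (by positivity : 0 ≤ (lam / 2 + lam ^ 2) * A)
      have h4 : (lam / 2 + lam ^ 2) ≤ 3 / 2 * lam ^ 2 := by linarith only [hll]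
      have h5 : 0 ≤ (8 * C * s ^ 2 * (w u * w v) + 4 * T ^ 2 * ω) * A := by positivity
      have h6 := mul_le_mul_of_nonneg_right h4 h5
      have h7 : w u * w v * ((lam / 2 + lam ^ 2) * (nsq (grd (G u) x - grd (G v) x)
          - nsq (T • q u - T • q v)) * ‖a‖ ^ 2) = (lam / 2 + lam ^ 2) * A * (w u * w v *
          (nsq (grd (G u) x - grd (G v) x) - nsq (T • q u - T • q v))) := by rw [← hA]; ring
      rw [h7] at h2
      linarith
    have h2 : ∑ u : ι, ∑ v : ι, -(3 / 2 * lam ^ 2 * (8 * C * s ^ 2 * (w u * w v)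
        + 4 * T ^ 2 * ω) * A)
        ≤ ∑ u, ∑ v, w u * w v * pt G lam (fun u => T • q u) (some u) (some v) x a :=
      Finset.sum_le_sum (fun u _ => Finset.sum_le_sum (fun v _ => h1 u v))
    have h3 : ∑ u : ι, ∑ v : ι, -(3 / 2 * lam ^ 2 * (8 * C * s ^ 2 * (w u * w v)
        + 4 * T ^ 2 * ω) * A)
        = -(3 / 2 * lam ^ 2 * (8 * C * s ^ 2 * (1 - w0) ^ 2
          + 4 * T ^ 2 * ω * (Fintype.card ι : ℝ) ^ 2) * A) := by
      have e1 : ∑ u : ι, ∑ v : ι, (w u * w v) = (1 - w0) ^ 2 := by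
        rw [← hwsum, sq, Finset.sum_mul_sum]
      have e2 : ∑ _u : ι, ∑ _v : ι, (4 * T ^ 2 * ω)
          = 4 * T ^ 2 * ω * (Fintype.card ι : ℝ) ^ 2 := by
        simp only [Finset.sum_const, Finset.card_univ, nsmul_eq_mul]; ring
      calc _ = -(3 / 2 * lam ^ 2 * (8 * C * s ^ 2 * ∑ u : ι, ∑ v : ι, (w u * w v)
          + ∑ _u : ι, ∑ _v : ι, (4 * T ^ 2 * ω)) * A) := by
            simp only [Finset.sum_neg_distrib, Finset.mul_sum, Finset.sum_mul,
              ← Finset.sum_add_distrib]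
        _ = _ := by rw [e1, e2]
    rw [h3] at h2
    have h4 : (1 - w0) ^ 2 ≤ 1 - w0 := by
      have h5 := mul_nonneg (sub_nonneg.2 hw01) hw0p.le
      linarith only [h5]
    have h5 := mul_le_mul_of_nonneg_left h4 (by positivity : 0 ≤ 6 * lam ^ 2 * C * s ^ 2 * A)
    linarith
  have hsumu : ∑ u, (lam * (w0 * w u) * (T ^ 2 / 4) * ‖im (p u) * a - a * im (q u)‖ ^ 2
      - lam ^ 2 * (6 * C ^ 2 * s ^ 2 * w u + 5 * C ^ 2 * T ^ 2 * ω) * A)
      ≤ ∑ u, (w0 * w u * pt G lam (fun u => T • q u) none (some u) x a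
        + lam ^ 2 * (w u * (nsq (T • q u) - nsq (grd (G u) x))) * A
        + lam * (w u * dv (grd (G u)) x) * A) := Finset.sum_le_sum (fun u _ => hu u)
  rw [Finset.sum_sub_distrib, Finset.sum_add_distrib, Finset.sum_add_distrib] at hsumu
  have e1 : ∑ u, lam ^ 2 * (6 * C ^ 2 * s ^ 2 * w u + 5 * C ^ 2 * T ^ 2 * ω) * A
      = lam ^ 2 * (6 * C ^ 2 * s ^ 2 * (1 - w0) + 5 * C ^ 2 * T ^ 2 * ω * Fintype.card ι) * A := by
    rw [← hwsum, ← Finset.sum_mul, ← Finset.mul_sum, Finset.sum_add_distrib, ← Finset.mul_sum]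
    simp only [Finset.sum_const, Finset.card_univ, nsmul_eq_mul]
    ring
  have e2 : ∑ u, lam ^ 2 * (w u * (nsq (T • q u) - nsq (grd (G u) x))) * A
      = lam ^ 2 * (∑ u, w u * (nsq (T • q u) - nsq (grd (G u) x))) * A := by
    rw [← Finset.sum_mul, ← Finset.mul_sum]
  have e3 : ∑ u, lam * (w u * dv (grd (G u)) x) * A
      = lam * (∑ u, w u * dv (grd (G u)) x) * A := by
    rw [← Finset.sum_mul, ← Finset.mul_sum]
  rw [e1, e2, e3] at hsumu
  have hN := nat_le_sq (Fintype.card ι)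
  have hN0 : (0 : ℝ) ≤ (Fintype.card ι : ℝ) := Nat.cast_nonneg _
  have f1 : 5 * C ^ 2 * T ^ 2 * ω * Fintype.card ι ≤ 5 * C ^ 2 * T ^ 2 * ω * (Fintype.card ι : ℝ) ^ 2 :=
    mul_le_mul_of_nonneg_left hN (by positivity)
  have f2 : 3 * (Fintype.card ι : ℝ) ^ 2 * T ^ 2 * ω ≤ 3 * C ^ 2 * (Fintype.card ι : ℝ) ^ 2 * T ^ 2 * ω := by
    have h1 : 1 ≤ C ^ 2 := one_le_pow₀ hC
    have h2 : 0 ≤ 3 * (Fintype.card ι : ℝ) ^ 2 * T ^ 2 * ω := by positivity
    linarith only [mul_le_mul_of_nonneg_right h1 h2]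
  have f3 : 6 * C * s ^ 2 * (1 - w0) ≤ 6 * C ^ 2 * s ^ 2 * (1 - w0) := by
    have h2 : 0 ≤ 6 * s ^ 2 * (1 - w0) := by
      have : 0 ≤ 1 - w0 := by linarith
      positivity
    linarith only [mul_le_mul_of_nonneg_right hCC h2]
  have hfin : lam ^ 2 * (6 * C ^ 2 * s ^ 2 * (1 - w0) + 5 * C ^ 2 * T ^ 2 * ω * Fintype.card ι) * A
      + lam ^ 2 * (6 * C * s ^ 2 * (1 - w0) + 3 * (Fintype.card ι : ℝ) ^ 2 * T ^ 2 * ω) * A
      ≤ lam ^ 2 * (16 * C ^ 2 * s ^ 2 * (1 - w0)
        + 10 * C ^ 2 * (Fintype.card ι : ℝ) ^ 2 * T ^ 2 * ω) * A := by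
    have g0 : 0 ≤ 4 * C ^ 2 * s ^ 2 * (1 - w0) := by
      have : 0 ≤ 1 - w0 := by linarith
      positivity
    have g1 : 0 ≤ 2 * C ^ 2 * (Fintype.card ι : ℝ) ^ 2 * T ^ 2 * ω := by positivity
    have g2 : (6 * C ^ 2 * s ^ 2 * (1 - w0) + 5 * C ^ 2 * T ^ 2 * ω * Fintype.card ι)
        + (6 * C * s ^ 2 * (1 - w0) + 3 * (Fintype.card ι : ℝ) ^ 2 * T ^ 2 * ω)
        ≤ 16 * C ^ 2 * s ^ 2 * (1 - w0) + 10 * C ^ 2 * (Fintype.card ι : ℝ) ^ 2 * T ^ 2 * ω := by
      linarith
    have g3 := mul_le_mul_of_nonneg_left g2 (by positivity : 0 ≤ lam ^ 2 * A)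
    linarith
  linarith

end N9
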