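import Pool.Agent.Helper66.N9.An3

/-! The cut-off of the field `W`. -/

namespace N9

open scoped Quaternion

/-- smooth function: `t` for `t ≤ 1/2`, `1` for `t ≥ 1` -/
noncomputable def sg1 (t : ℝ) : ℝ := t + (1 - t) * Real.smoothTransition (2 * t - 1)

theorem sg1_contDiff {n : ℕ∞} : ContDiff ℝ n sg1 := by
  unfold sg1
  exact contDiff_id.add ((contDiff_const.sub contDiff_id).mul
    (Real.smoothTransition.contDiff.comp ((contDiff_const.mul contDiff_id).sub contDiff_const)))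

theorem sg1_one {t : ℝ} (h : 1 ≤ t) : sg1 t = 1 := by
  unfold sg1
  rw [Real.smoothTransition.one_of_one_le (by linarith)]; ring

theorem sg1_half {t : ℝ} (h : t ≤ 1 / 2) : sg1 t = t := by
  unfold sg1
  rw [Real.smoothTransition.zero_of_nonpos (by linarith)]; ring

theorem sg1_ge {t : ℝ} (h : t ≤ 1) : t ≤ sg1 t := by
  unfold sg1
  have := Real.smoothTransition.nonneg (2 * t - 1)
  have := mul_nonneg (by linarith : 0 ≤ 1 - t) this
  linarith

theorem sg1_nonneg {t : ℝ} (h : 0 ≤ t) : 0 ≤ sg1 t := by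
  by_cases h1 : t ≤ 1
  · exact h.trans (sg1_ge h1)
  · rw [sg1_one (by linarith)]; norm_num

theorem sg1_le_one {t : ℝ} : sg1 t ≤ 1 := by
  by_cases h1 : t ≤ 1
  · unfold sg1
    have := Real.smoothTransition.le_one (2 * t - 1)
    nlinarith
  · rw [sg1_one (by linarith)]

theorem sg1_le_two {t : ℝ} (h : 0 ≤ t) : sg1 t ≤ 2 * t := by
  by_cases h1 : t ≤ 1 / 2
  · rw [sg1_half h1]; linarith
  · have := sg1_le_one (t := t); linarith

theorem sg1_deriv : ∃ K : ℝ, 1 ≤ K ∧ ∀ t, 0 ≤ t → t * |deriv sg1 t| ≤ K * sg1 t := by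
  have hc : Continuous (fun t => |deriv sg1 t|) :=
    ((sg1_contDiff (n := 1)).continuous_deriv (by norm_num)).abs
  obtain ⟨K0, hK0⟩ := (isCompact_Icc (a := (0:ℝ)) (b := 1)).bddAbove_image hc.continuousOn
  have hK : ∀ t ∈ Set.Icc (0 : ℝ) 1, |deriv sg1 t| ≤ K0 := fun t ht =>
    hK0 (Set.mem_image_of_mem _ ht)
  have hK00 : 0 ≤ K0 := (abs_nonneg _).trans (hK 0 ⟨le_rfl, by norm_num⟩)
  refine ⟨1 + 2 * K0, by linarith, ?_⟩
  intro t ht
  have hs := sg1_nonneg ht
  by_cases h1 : 1 < t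
  · have : deriv sg1 t = 0 := by
      have : sg1 =ᶠ[nhds t] fun _ => 1 := by
        filter_upwards [lt_mem_nhds h1] with y hy
        exact sg1_one hy.le
      rw [this.deriv_eq]; simp
    rw [this]; simp; positivity
  · push Not at h1
    have hk := hK t ⟨ht, h1⟩
    by_cases h2 : t < 1 / 2
    · have : deriv sg1 t = 1 := by
        have : sg1 =ᶠ[nhds t] fun y => y := by
          filter_upwards [gt_mem_nhds h2] with y hy
          exact sg1_half hy.le
        rw [this.deriv_eq]; simp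
      rw [this, sg1_half h2.le]; simp; nlinarith
    · push Not at h2
      have h3 := sg1_ge h1
      have h4 : t * |deriv sg1 t| ≤ 1 * K0 := mul_le_mul h1 hk (abs_nonneg _) (by norm_num)
      nlinarith

section

variable {ι : Type} [Fintype ι] (G : ι → V3 → ℝ) (lam eps : ℝ)

/-- the cut-off field -/
noncomputable def Wf (y : V3) : V3 :=
  (1 - sg1 (eps * Zf G y)) • avg G lam (fun u => grd (G u)) y

theorem grd_contDiff {g : V3 → ℝ} (hg : ContDiff ℝ 2 g) : ContDiff ℝ 1 (grd g) := by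
  rw [contDiff_pi]
  intro i
  exact pd_contDiff hg (by norm_num) i

theorem Wf_contDiff (hG : ∀ u, ContDiff ℝ 2 (G u)) : ContDiff ℝ 1 (Wf G lam eps) := by
  have hG1 : ∀ u, ContDiff ℝ 1 (G u) := fun u => (hG u).of_le (by norm_num)
  have h1 : ContDiff ℝ 1 (fun y => 1 - sg1 (eps * Zf G y)) :=
    contDiff_const.sub ((sg1_contDiff (n := 1)).comp (contDiff_const.mul (Zf_contDiff G hG1)))
  exact h1.smul (avg_contDiff G hG1 lam _ (fun u => grd_contDiff (hG u)))

theorem Wf_zero {y : V3} (h : 1 ≤ eps * Zf G y) : Wf G lam eps y = 0 := by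
  unfold Wf; rw [sg1_one h]; simp

theorem pd_Zf (hG : ∀ u, ContDiff ℝ 2 (G u)) (hlam : lam ≠ 0) (x : V3) (i : Fin 3) :
    pd i (Zf G) x = Zf G x * (avg G lam (fun u => grd (G u)) x i / lam) := by
  have hG1 : ∀ u, ContDiff ℝ 1 (G u) := fun u => (hG u).of_le (by norm_num)
  have hZ : DifferentiableAt ℝ (Zf G) x := (Zf_contDiff G hG1).differentiable (by norm_num) x
  have h1 := pd_log hZ (Zf_pos G x).ne' i
  rw [pd_logZ G hG1] at h1
  rw [avg_apply]
  have h2 : pd i (Zf G) x = Zf G x * ∑ u, aw G (some u) x * pd i (G u) x := by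
    rw [h1, ← mul_assoc, mul_inv_cancel₀ (Zf_pos G x).ne', one_mul]
  rw [h2]
  field_simp
  rfl

theorem dv_Wf (hG : ∀ u, ContDiff ℝ 2 (G u)) (hlam : lam ≠ 0) (x : V3) :
    dv (Wf G lam eps) x
      = (1 - sg1 (eps * Zf G x)) * dv (avg G lam (fun u => grd (G u))) x
        - (eps * Zf G x) * deriv sg1 (eps * Zf G x) / lam
          * nsq (avg G lam (fun u => grd (G u)) x) := by
  have hG1 : ∀ u, ContDiff ℝ 1 (G u) := fun u => (hG u).of_le (by norm_num)
  have hZ : DifferentiableAt ℝ (Zf G) x := (Zf_contDiff G hG1).differentiable (by norm_num) x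
  have hA : ContDiff ℝ 1 (avg G lam (fun u => grd (G u))) :=
    avg_contDiff G hG1 lam _ (fun u => grd_contDiff (hG u))
  have hs : ∀ t, DifferentiableAt ℝ sg1 t := fun t =>
    (sg1_contDiff (n := 1)).differentiable (by norm_num) t
  have heZ : DifferentiableAt ℝ (fun y => eps * Zf G y) x := hZ.const_mul eps
  have h1 : ∀ i, pd i (fun y => Wf G lam eps y i) x
      = (1 - sg1 (eps * Zf G x)) * pd i (fun y => avg G lam (fun u => grd (G u)) y i) x
        - (eps * Zf G x) * deriv sg1 (eps * Zf G x) / lam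
          * (avg G lam (fun u => grd (G u)) x i) ^ 2 := by
    intro i
    have hAi : DifferentiableAt ℝ (fun y => avg G lam (fun u => grd (G u)) y i) x :=
      ((contDiff_pi.1 hA) i).differentiable (by norm_num) x
    have hc : DifferentiableAt ℝ (fun y => 1 - sg1 (eps * Zf G y)) x :=
      (differentiableAt_const _).sub ((hs _).comp x heZ)
    have e1 : (fun y => Wf G lam eps y i) = fun y => (fun y => 1 - sg1 (eps * Zf G y)) y
        * (fun y => avg G lam (fun u => grd (G u)) y i) y := by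
      funext y; simp [Wf]
    rw [e1, pd_mul hc hAi]
    have e2 : pd i (fun y => 1 - sg1 (eps * Zf G y)) x
        = - (deriv sg1 (eps * Zf G x) * (eps * pd i (Zf G) x)) := by
      rw [pd_sub (f := fun _ : V3 => (1:ℝ)) (g := fun y => sg1 (eps * Zf G y))
        (differentiableAt_const _) ((hs _).comp x heZ), pd_const, zero_sub,
        pd_comp_real (hs _) heZ]
      have h3 := pd_mul (f := fun _ : V3 => eps) (g := Zf G) (x := x) (differentiableAt_const _) hZ i
      rw [h3, pd_const, zero_mul, add_zero]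
    rw [e2, pd_Zf G lam hG hlam]
    ring
  unfold dv
  simp_rw [h1]
  rw [Finset.sum_sub_distrib, ← Finset.mul_sum, ← Finset.mul_sum]
  rfl

theorem wcut (hG : ∀ u, ContDiff ℝ 2 (G u)) (hlam : 0 < lam) (heps : 0 ≤ eps) (K : ℝ)
    (hK : ∀ t, 0 ≤ t → t * |deriv sg1 t| ≤ K * sg1 t) (x : V3) :
    sg1 (eps * Zf G x) * ((1 - K / lam) * nsq (avg G lam (fun u => grd (G u)) x)
        - dv (avg G lam (fun u => grd (G u))) x)
      ≤ (dv (Wf G lam eps) x - nsq (Wf G lam eps x))
        - (dv (avg G lam (fun u => grd (G u))) x - nsq (avg G lam (fun u => grd (G u)) x)) := by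
  rw [dv_Wf G lam eps hG hlam.ne']
  have e1 : nsq (Wf G lam eps x) = (1 - sg1 (eps * Zf G x)) ^ 2
      * nsq (avg G lam (fun u => grd (G u)) x) := by
    unfold Wf; rw [nsq_smul]
  rw [e1]
  set t := eps * Zf G x with ht
  have ht0 : 0 ≤ t := mul_nonneg heps (Zf_pos G x).le
  set A := nsq (avg G lam (fun u => grd (G u)) x) with hA
  have hA0 : 0 ≤ A := nsq_nonneg _
  have hs0 := sg1_nonneg ht0
  have hs1 := sg1_le_one (t := t)
  have h1 : t * deriv sg1 t ≤ K * sg1 t :=
    (mul_le_mul_of_nonneg_left (le_abs_self _) ht0).trans (hK t ht0)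
  have h2 : t * deriv sg1 t / lam * A ≤ K * sg1 t / lam * A := by
    apply mul_le_mul_of_nonneg_right _ hA0
    exact div_le_div_of_nonneg_right h1 hlam.le
  have h3 : 0 ≤ sg1 t * (1 - sg1 t) * A := mul_nonneg (mul_nonneg hs0 (by linarith)) hA0
  have h4 : K * sg1 t / lam * A = sg1 t * (K / lam * A) := by ring
  rw [h4] at h2
  nlinarith

theorem dvA_le (T s C : ℝ) (hlam : 0 ≤ lam) (hs : 1 ≤ s) (hsT : s ≤ T) (hC : 1 ≤ C)
    (hG : ∀ u, ContDiff ℝ 2 (G u)) (x : V3) (hPb : ∀ u, vn (grd (G u) x) ≤ 2 * C * T)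
    (hdv : ∀ u, |dv (grd (G u)) x| ≤ s * C) :
    dv (avg G lam (fun u => grd (G u))) x ≤ lam * (13 * C ^ 2 * T ^ 2 * (1 - aw G none x)) := by
  obtain ⟨_, _, _, h4, _, _⟩ := key6 ι G lam (fun u _ => (0 : V3)) hG (fun u => contDiff_const) x
  have h4' : dv (avg G lam (fun u => grd (G u))) x
      = lam * (∑ u, aw G (some u) x * dv (grd (G u)) x
        + 1 / 2 * ∑ o, ∑ o', aw G o x * aw G o' x * nsq (dP G o o' x)) := h4
  rw [h4']
  apply mul_le_mul_of_nonneg_left _ hlam
  rw [split_sum G x (fun o o' => nsq (dP G o o' x)) (by rw [dP_self]; simp)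
    (fun o o' => by rw [dP_swap, nsq_neg])]
  set w : ι → ℝ := fun u => aw G (some u) x with hw
  set w0 := aw G none x with hw0
  have hw0p : 0 < w0 := aw_pos G none x
  have hw01 : w0 ≤ 1 := aw_le_one G none x
  have hwp : ∀ u, 0 < w u := fun u => aw_pos G (some u) x
  have hwsum : ∑ u, w u = 1 - w0 := aw_some_sum G x
  have hT : 0 < T := by linarith
  have n1 : ∀ u, nsq (dP G none (some u) x) ≤ 4 * C ^ 2 * T ^ 2 := by
    intro u
    have : dP G none (some u) x = - grd (G u) x := by simp [dP, ext0]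
    rw [this, nsq_neg, ← vn_sq]
    have h0 := vn_nonneg (grd (G u) x)
    have := pow_le_pow_left₀ h0 (hPb u) 2
    nlinarith
  have n2 : ∀ u v, nsq (dP G (some u) (some v) x) ≤ 16 * C ^ 2 * T ^ 2 := by
    intro u v
    have : dP G (some u) (some v) x = grd (G u) x - grd (G v) x := by simp [dP, ext0]
    rw [this, ← vn_sq]
    have h1 := vn_sub_le (grd (G u) x) (grd (G v) x)
    have h2 : vn (grd (G u) x - grd (G v) x) ≤ 4 * C * T := by
      have := hPb u; have := hPb v; linarith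
    have := pow_le_pow_left₀ (vn_nonneg _) h2 2
    nlinarith
  have s1 : ∑ u, w u * dv (grd (G u)) x ≤ s * C * (1 - w0) := by
    rw [← hwsum, Finset.mul_sum]
    refine Finset.sum_le_sum (fun u _ => ?_)
    have := mul_le_mul_of_nonneg_left ((le_abs_self _).trans (hdv u)) (hwp u).le
    linarith
  have s2 : ∑ u, w0 * w u * nsq (dP G none (some u) x) ≤ 4 * C ^ 2 * T ^ 2 * (1 - w0) := by
    rw [← hwsum, Finset.mul_sum]
    refine Finset.sum_le_sum (fun u _ => ?_)
    have h1 : w0 * w u * nsq (dP G none (some u) x) ≤ 1 * w u * (4 * C ^ 2 * T ^ 2) := by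
      apply mul_le_mul _ (n1 u) (nsq_nonneg _) (by have := (hwp u).le; positivity)
      exact mul_le_mul_of_nonneg_right hw01 (hwp u).le
    linarith
  have s3 : ∑ u, ∑ v, w u * w v * nsq (dP G (some u) (some v) x)
      ≤ 16 * C ^ 2 * T ^ 2 * (1 - w0) := by
    have h1 : ∑ u, ∑ v, w u * w v * nsq (dP G (some u) (some v) x)
        ≤ ∑ u, ∑ v, w u * w v * (16 * C ^ 2 * T ^ 2) :=
      Finset.sum_le_sum (fun u _ => Finset.sum_le_sum (fun v _ =>
        mul_le_mul_of_nonneg_left (n2 u v) (mul_nonneg (hwp u).le (hwp v).le)))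
    have h2 : ∑ u, ∑ v, w u * w v * (16 * C ^ 2 * T ^ 2) = (1 - w0) ^ 2 * (16 * C ^ 2 * T ^ 2) := by
      rw [← hwsum, sq (∑ u, w u), Finset.sum_mul_sum]
      simp only [Finset.sum_mul]
    rw [h2] at h1
    have h3 : (1 - w0) ^ 2 ≤ 1 - w0 := by nlinarith
    have := mul_le_mul_of_nonneg_right h3 (by positivity : 0 ≤ 16 * C ^ 2 * T ^ 2)
    linarith
  have s4 : s * C * (1 - w0) ≤ C ^ 2 * T ^ 2 * (1 - w0) := by
    apply mul_le_mul_of_nonneg_right _ (by linarith)
    have h1 : s ≤ T ^ 2 := by nlinarith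
    have h2 : C ≤ C ^ 2 := by nlinarith
    calc s * C ≤ T ^ 2 * C ^ 2 := mul_le_mul h1 h2 (by positivity) (by positivity)
      _ = _ := by ring
  linarith

end

end N9
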