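import Pool.Agent.Helper66.N9.An4
import Pool.Agent.Helper66.N9.An5a
import Pool.Agent.Helper66.N9.AnStmt

/-! The potentials and the classification of the active indices. -/

namespace N9

open scoped Quaternion

section

variable {I K : Type} [Fintype I] [Fintype K] (D : AData I K) (r s : ℝ)

/-- local offsets -/
noncomputable def bpot (i : I) (y : V3) : ℝ := ∑ k, D.eta k i * bump r (nsq (y - D.x k))

/-- potentials -/
noncomputable def Gp (i : I) (y : V3) : ℝ :=
  s ^ 8 * (ip (D.p i) y - D.h i) - s * bpot D r i y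

theorem bpot_contDiff (i : I) {n : ℕ∞} : ContDiff ℝ n (bpot D r i) := by
  unfold bpot
  exact ContDiff.sum (fun k _ => contDiff_const.mul ((bump_contDiff r).comp
    (nsq_contDiff.comp (contDiff_id.sub contDiff_const))))

theorem Gp_contDiff (i : I) {n : ℕ∞} : ContDiff ℝ n (Gp D r s i) := by
  unfold Gp
  exact (contDiff_const.mul ((ip_contDiff _).sub contDiff_const)).sub
    (contDiff_const.mul (bpot_contDiff D r i))

theorem grd_bpot (i : I) (y : V3) : grd (bpot D r i) y
    = ∑ k, (D.eta k i * (2 * deriv (bump r) (nsq (y - D.x k)))) • (y - D.x k) := by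
  funext l
  simp only [grd, Finset.sum_apply, Pi.smul_apply, smul_eq_mul, Pi.sub_apply]
  unfold bpot
  have hn : ∀ k, DifferentiableAt ℝ (fun y => nsq (y - D.x k)) y := fun k =>
    (nsq_contDiff.comp (contDiff_id.sub contDiff_const) : ContDiff ℝ 1
      (fun y => nsq (y - D.x k))).differentiable (by norm_num) y
  have hb : ∀ t, DifferentiableAt ℝ (bump r) t := fun t =>
    (bump_contDiff r (n := 1)).differentiable (by norm_num) t
  have hd : ∀ k, DifferentiableAt ℝ (fun y => bump r (nsq (y - D.x k))) y := fun k =>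
    (hb _).comp y (hn k)
  rw [pd_sum Finset.univ (fun k y => D.eta k i * bump r (nsq (y - D.x k)))
    (fun k _ => (hd k).const_mul _)]
  refine Finset.sum_congr rfl (fun k _ => ?_)
  have h1 := pd_mul (f := fun _ : V3 => D.eta k i) (g := fun y => bump r (nsq (y - D.x k)))
    (differentiableAt_const _) (hd k) l
  rw [h1, pd_const, zero_mul, add_zero, pd_comp_real (hb _) (hn k), pd_nsq_sub]
  ring

theorem grd_Gp (i : I) (y : V3) :
    grd (Gp D r s i) y = s ^ 8 • D.p i - s • grd (bpot D r i) y := by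
  funext l
  simp only [grd, Pi.sub_apply, Pi.smul_apply, smul_eq_mul]
  unfold Gp
  have h1 : DifferentiableAt ℝ (fun y => ip (D.p i) y) y :=
    (ip_contDiff (D.p i) (n := 1)).differentiable (by norm_num) y
  have h2 : DifferentiableAt ℝ (bpot D r i) y :=
    (bpot_contDiff D r i (n := 1)).differentiable (by norm_num) y
  rw [pd_sub (f := fun y => s ^ 8 * (ip (D.p i) y - D.h i)) (g := fun y => s * bpot D r i y)
    ((h1.sub_const _).const_mul _) (h2.const_mul _)]
  have h3 := pd_mul (f := fun _ : V3 => s ^ 8) (g := fun y => ip (D.p i) y - D.h i)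
    (x := y) (differentiableAt_const _) (h1.sub_const _) l
  have h4 := pd_mul (f := fun _ : V3 => s) (g := bpot D r i) (x := y)
    (differentiableAt_const _) h2 l
  rw [h3, h4, pd_const, pd_const, pd_sub (f := fun y => ip (D.p i) y) (g := fun _ => D.h i) h1
    (differentiableAt_const _), pd_const]
  have h5 : pd l (fun y => ip (D.p i) y) y = D.p i l := pd_ip (D.p i) l y
  rw [h5]; ring

theorem dv_grd_Gp (i : I) (y : V3) :
    dv (grd (Gp D r s i)) y = - (s * dv (grd (bpot D r i)) y) := by
  have hB : ContDiff ℝ 1 (grd (bpot D r i)) := grd_contDiff (bpot_contDiff D r i (n := 2))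
  have e1 : ∀ j, (fun y => grd (Gp D r s i) y j)
      = fun y => (fun _ => s ^ 8 * D.p i j) y - (fun y => s * grd (bpot D r i) y j) y := by
    intro j; funext y
    rw [grd_Gp]; simp
  unfold dv
  rw [Finset.mul_sum, ← Finset.sum_neg_distrib]
  refine Finset.sum_congr rfl (fun j _ => ?_)
  have h2 : DifferentiableAt ℝ (fun y => grd (bpot D r i) y j) y :=
    ((contDiff_pi.1 hB) j).differentiable (by norm_num) y
  rw [e1, pd_sub (differentiableAt_const _) (h2.const_mul s), pd_const]
  have h4 := pd_mul (f := fun _ : V3 => s) (g := fun y => grd (bpot D r i) y j) (x := y)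
    (differentiableAt_const _) h2 j
  rw [h4, pd_const]; ring

theorem pbounds (R : ℝ) : ∃ C : ℝ, 1 ≤ C ∧ ∀ i, ∀ y ∈ cube R,
    |bpot D r i y| ≤ C ∧ vn (grd (bpot D r i) y) ≤ C ∧ |dv (grd (bpot D r i)) y| ≤ C ∧
    ∀ k, |D.eta k i * (2 * deriv (bump r) (nsq (y - D.x k)))| ≤ C := by
  obtain ⟨C1, h1, h1'⟩ := common_bound (fun i => bpot D r i)
    (fun i => (bpot_contDiff D r i (n := 0)).continuous) R
  obtain ⟨C2, h2, h2'⟩ := common_bound (fun i y => vn (grd (bpot D r i) y))
    (fun i => vn_continuous.comp (grd_contDiff (bpot_contDiff D r i (n := 2))).continuous) R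
  obtain ⟨C3, h3, h3'⟩ := common_bound (fun i y => dv (grd (bpot D r i)) y)
    (fun i => dv_cont (grd_contDiff (bpot_contDiff D r i (n := 2)))) R
  obtain ⟨C4, h4, h4'⟩ := common_bound
    (fun (ik : I × K) y => D.eta ik.2 ik.1 * (2 * deriv (bump r) (nsq (y - D.x ik.2))))
    (fun ik => continuous_const.mul (continuous_const.mul
      (((bump_contDiff r (n := 1)).continuous_deriv (by norm_num)).comp
        (nsq_continuous.comp (continuous_id.sub continuous_const))))) R
  refine ⟨C1 + C2 + C3 + C4, by linarith, ?_⟩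
  intro i y hy
  refine ⟨?_, ?_, ?_, ?_⟩
  · have := h1' i y hy; linarith
  · have := h2' i y hy
    simp only [abs_of_nonneg (vn_nonneg _)] at this
    linarith
  · have := h3' i y hy; linarith
  · intro k
    have := h4' (i, k) y hy
    simp only at this
    linarith

theorem G_le_log (G : I → V3 → ℝ) (i : I) (y : V3) : G i y ≤ Real.log (Zf G y) := by
  rw [Real.le_log_iff_exp_le (Zf_pos G y)]
  unfold Zf
  have := Finset.single_le_sum (f := fun u => Real.exp (G u y)) (fun u _ => (Real.exp_pos _).le)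
    (Finset.mem_univ i)
  linarith

theorem one_le_Zf (G : I → V3 → ℝ) (y : V3) : 1 ≤ Zf G y := by
  unfold Zf
  have : 0 ≤ ∑ u, Real.exp (G u y) := Finset.sum_nonneg (fun _ _ => (Real.exp_pos _).le)
  linarith

theorem aw_le_exp (G : I → V3 → ℝ) (i : I) (y : V3) : aw G (some i) y ≤ Real.exp (G i y) := by
  simp only [aw]
  rw [div_le_iff₀ (Zf_pos G y)]
  have h1 := one_le_Zf G y
  have h2 := Real.exp_pos (G i y)
  nlinarith

/-- classification of the active indices -/
theorem classify (R : ℝ) (h1 : D.A1) (h3 : D.A3) (h4 : D.A4) :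
    ∃ r : ℝ, 0 < r ∧ ∃ c : ℝ, 0 < c ∧ c ≤ 1 / 2 ∧ ∃ om : ℝ, 0 < om ∧ om ≤ 1 ∧
    ∃ C : ℝ, 1 ≤ C ∧ ∃ s0 : ℝ, 1 ≤ s0 ∧
    (∀ i, ∀ y ∈ cube R, |bpot D r i y| ≤ C ∧ vn (grd (bpot D r i) y) ≤ C ∧
      |dv (grd (bpot D r i)) y| ≤ C) ∧
    ∀ s : ℝ, s0 ≤ s → ∀ y ∈ cube R, Real.log (Zf (Gp D r s) y) ≤ 2 * c * s →
      ∃ S : I → Prop, (∃ k, ∃ t ∈ D.tri k, ∀ i, S i → i ∈ t) ∧
        (∀ i, ¬ S i → Gp D r s i y ≤ -(om * s)) ∧
        (∀ i j, S i → S j → s ^ 8 * |ip (D.p i) (grd (bpot D r j) y)| ≤ C * s) := by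
  obtain ⟨r, hr, d, hd, hdist, hstr⟩ := h3
  choose dk hdk hloc using h4
  obtain ⟨d1, hd1, hd11, hd1k⟩ := exists_pos_le dk hdk
  obtain ⟨C0, hC0, hb⟩ := pbounds D r R
  set NK : ℝ := (Fintype.card K : ℝ) with hNK
  have hNK0 : 0 ≤ NK := Nat.cast_nonneg _
  refine ⟨r, hr, d1 / 2, by positivity, by linarith, d1, hd1, hd11,
    C0 + 3 * NK * C0 ^ 2, by nlinarith [mul_nonneg hNK0 (sq_nonneg C0)],
    1 + (3 * C0 + 3) / d, by have : 0 ≤ (3 * C0 + 3) / d := by positivity
                             linarith, ?_, ?_⟩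
  · intro i y hy
    obtain ⟨a1, a2, a3, _⟩ := hb i y hy
    have : 0 ≤ 3 * NK * C0 ^ 2 := by positivity
    exact ⟨by linarith, by linarith, by linarith⟩
  intro s hs y hy hM
  have hs1 : 1 ≤ s := by
    have : 0 ≤ (3 * C0 + 3) / d := by positivity
    linarith
  have hs0 : 0 < s := by linarith
  have hsd : 3 * C0 + 3 ≤ s ^ 7 * d := by
    have h1 : (3 * C0 + 3) / d ≤ s := by linarith
    have h2 : s ≤ s ^ 7 := by
      have : s ^ 1 ≤ s ^ 7 := pow_le_pow_right₀ hs1 (by norm_num)
      simpa using this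
    rw [div_le_iff₀ hd] at h1
    nlinarith
  have hT : s ^ 8 = s * s ^ 7 := by ring
  have hT0 : 0 < s ^ 8 := by positivity
  have hGle : ∀ i, Gp D r s i y ≤ d1 * s := by
    intro i
    have := G_le_log (Gp D r s) i y
    linarith
  have hG : ∀ i, Gp D r s i y = s ^ 8 * (ip (D.p i) y - D.h i) - s * bpot D r i y := fun i => rfl
  have hbi : ∀ i, |bpot D r i y| ≤ C0 := fun i => (hb i y hy).1
  -- every constraint is nearly satisfied
  have hle : ∀ i, ip (D.p i) y - D.h i ≤ d := by
    intro i
    have h1 := hGle i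
    rw [hG] at h1
    have h2 : s * bpot D r i y ≤ s * C0 := mul_le_mul_of_nonneg_left ((le_abs_self _).trans (hbi i)) hs0.le
    have h3 : s ^ 8 * (ip (D.p i) y - D.h i) ≤ s ^ 8 * d := by
      have h4 : s * (C0 + 1) ≤ s * (s ^ 7 * d) := mul_le_mul_of_nonneg_left (by linarith) hs0.le
      have h5 : d1 * s ≤ 1 * s := mul_le_mul_of_nonneg_right hd11 hs0.le
      rw [hT] at h1 ⊢
      nlinarith
    exact le_of_mul_le_mul_left h3 hT0
  have hfar : ∀ i, ip (D.p i) y - D.h i ≤ -d → Gp D r s i y ≤ -(d1 * s) := by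
    intro i hi
    rw [hG]
    have h1 : s ^ 8 * (ip (D.p i) y - D.h i) ≤ s ^ 8 * (-d) := mul_le_mul_of_nonneg_left hi hT0.le
    have h2 : -(s * C0) ≤ s * bpot D r i y := by
      have := mul_le_mul_of_nonneg_left (abs_le.1 (hbi i)).1 hs0.le
      linarith
    have h3 : s * (C0 + 1) ≤ s * (s ^ 7 * d) := mul_le_mul_of_nonneg_left (by linarith) hs0.le
    have h5 : d1 * s ≤ 1 * s := mul_le_mul_of_nonneg_right hd11 hs0.le
    rw [hT] at h1 ⊢
    nlinarith
  rcases hstr y hle with ⟨k, hk, hna⟩ | ⟨k, t, ht, s₀, hs₀t, hs₀, hact⟩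
  · -- near a vertex
    have hother : ∀ k', k' ≠ k → 5 / 2 * r ^ 2 < nsq (y - D.x k') := by
      intro k' hk'
      have h1 := hdist k k' (Ne.symm hk')
      rw [← vn_sq] at h1 hk ⊢
      have h2 : vn (y - D.x k) < r := lt_of_pow_lt_pow_left₀ 2 hr.le hk
      have h3 : 4 * r ≤ vn (D.x k - D.x k') := le_of_sq_le_sq h1 (vn_nonneg _)
      have h4 : vn (D.x k - D.x k') ≤ vn (y - D.x k) + vn (y - D.x k') := by
        have e : D.x k - D.x k' = (y - D.x k') - (y - D.x k) := by abel
        rw [e]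
        have := vn_sub_le (y - D.x k') (y - D.x k)
        linarith
      have h5 : 3 * r < vn (y - D.x k') := by linarith
      nlinarith
    have hbval : ∀ i, bpot D r i y = D.eta k i := by
      intro i
      unfold bpot
      rw [Finset.sum_eq_single k]
      · rw [bump_one hr (by nlinarith [sq_nonneg r]), mul_one]
      · intro k' _ hk'
        rw [bump_zero hr (hother k' hk').le, mul_zero]
      · intro h; exact absurd (Finset.mem_univ k) h
    have hgrad : ∀ i, grd (bpot D r i) y = 0 := by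
      intro i
      rw [grd_bpot]
      apply Finset.sum_eq_zero
      intro k' _
      by_cases hk' : k' = k
      · rw [hk', bump_deriv_in hr (by nlinarith [sq_nonneg r])]; simp
      · rw [bump_deriv_out hr (hother k' hk')]; simp
    have hloc1 := hloc k (s ^ 7 • (y - D.x k)) (by
      intro i hi
      have h1 := hGle i
      rw [hG, hbval] at h1
      have h2 : ip (D.p i) (s ^ 7 • (y - D.x k)) = s ^ 7 * (ip (D.p i) y - D.h i) := by
        rw [ip_smul, ip_sub, hi]
      rw [h2]
      have h3 : s * (s ^ 7 * (ip (D.p i) y - D.h i) - D.eta k i) ≤ s * d1 := by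
        rw [hT] at h1; nlinarith
      exact (le_of_mul_le_mul_left h3 hs0).trans (hd1k k))
    obtain ⟨t, ht, htout⟩ := hloc1
    refine ⟨fun i => i ∈ t, ⟨k, t, ht, fun i hi => hi⟩, ?_, ?_⟩
    · intro i hi
      by_cases hact : ip (D.p i) (D.x k) = D.h i
      · have h1 := htout i hact hi
        have h2 : ip (D.p i) (s ^ 7 • (y - D.x k)) = s ^ 7 * (ip (D.p i) y - D.h i) := by
          rw [ip_smul, ip_sub, hact]
        rw [h2] at h1
        rw [hG, hbval]
        have h3 := hd1k k
        have h4 := mul_le_mul_of_nonneg_left h1 hs0.le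
        have h5 := mul_le_mul_of_nonneg_left h3 hs0.le
        rw [hT]
        nlinarith
      · exact hfar i (hna i hact)
    · intro i j _ _
      rw [hgrad]
      simp only [ip_zero, abs_zero, mul_zero]
      positivity
  · -- away from the vertices
    refine ⟨fun i => i ∈ s₀ ∧ -(d1 * s) < Gp D r s i y, ⟨k, t, ht, fun i hi => hs₀t hi.1⟩, ?_, ?_⟩
    · intro i hi
      by_cases his : i ∈ s₀
      · by_contra hcon
        push Not at hcon
        exact hi ⟨his, hcon⟩
      · exact hfar i (hs₀ i his)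
    · intro i j hi hj
      have hTi : s ^ 8 * |ip (D.p i) y - D.h i| ≤ 3 * C0 * s := by
        rw [← abs_of_pos hT0, ← abs_mul]
        have h1 := hG i
        have h2 : s ^ 8 * (ip (D.p i) y - D.h i) = Gp D r s i y + s * bpot D r i y := by linarith
        rw [h2]
        have h3 := hGle i
        have h4 := hi.2
        have h5 := abs_le.1 (hbi i)
        have h6 := mul_le_mul_of_nonneg_left h5.1 hs0.le
        have h7 := mul_le_mul_of_nonneg_left h5.2 hs0.le
        have h8 : d1 * s ≤ 1 * s := mul_le_mul_of_nonneg_right hd11 hs0.le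
        have h9 : s ≤ C0 * s := by nlinarith
        rw [abs_le]; constructor <;> nlinarith
      have hterm : ∀ k', s ^ 8 * |(D.eta k' j * (2 * deriv (bump r) (nsq (y - D.x k'))))
          * ip (D.p i) (y - D.x k')| ≤ C0 * (3 * C0 * s) := by
        intro k'
        by_cases hk' : nsq (y - D.x k') < (2 * r) ^ 2
        · have h1 := hact k' hk' i hi.1
          rw [ip_sub, h1, abs_mul]
          have h2 := (hb j y hy).2.2.2 k'
          calc _ = |D.eta k' j * (2 * deriv (bump r) (nsq (y - D.x k')))|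
              * (s ^ 8 * |ip (D.p i) y - D.h i|) := by ring
            _ ≤ C0 * (3 * C0 * s) := mul_le_mul h2 hTi (by positivity) (by linarith)
        · push Not at hk'
          rw [bump_deriv_out hr (by nlinarith [sq_nonneg r, pow_pos hr 2])]
          simp only [mul_zero, zero_mul, abs_zero]
          positivity
      rw [grd_bpot, ip_sum]
      have h1 : |∑ k', ip (D.p i) ((D.eta k' j * (2 * deriv (bump r) (nsq (y - D.x k'))))
          • (y - D.x k'))| ≤ ∑ k', |(D.eta k' j * (2 * deriv (bump r) (nsq (y - D.x k'))))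
          * ip (D.p i) (y - D.x k')| := by
        refine (Finset.abs_sum_le_sum_abs _ _).trans (le_of_eq ?_)
        refine Finset.sum_congr rfl (fun k' _ => ?_)
        rw [ip_smul]
      have h2 := mul_le_mul_of_nonneg_left h1 hT0.le
      refine h2.trans ?_
      rw [Finset.mul_sum]
      refine (Finset.sum_le_sum (fun k' _ => hterm k')).trans ?_
      rw [Finset.sum_const, Finset.card_univ, nsmul_eq_mul]
      have h3 : 0 ≤ C0 * s := by positivity
      have h4 : (Fintype.card K : ℝ) * (C0 * (3 * C0 * s)) = 3 * NK * C0 ^ 2 * s := by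
        rw [hNK]; ring
      rw [h4]
      nlinarith

end

end N9
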