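import Pool.Agent.Helper66.N9.An5a

/-! The auxiliary vector fields `Y0`, `Y_i`. -/

namespace N9

open scoped Quaternion

theorem vec_eq_sum (f : V3) : f = ∑ i, f i • (Pi.single i 1 : V3) := by
  funext j
  simp [Pi.single_apply]

theorem dv_smul_const {ψ : V3 → ℝ} {y : V3} (hψ : DifferentiableAt ℝ ψ y) (f : V3) :
    dv (fun y => ψ y • f) y = fderiv ℝ ψ y f := by
  conv_rhs => rw [vec_eq_sum f, map_sum]
  unfold dv
  refine Finset.sum_congr rfl (fun i _ => ?_)
  have e1 : (fun y => (ψ y • f) i) = fun y => ψ y * (fun _ : V3 => f i) y := by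
    funext y; simp
  rw [e1, pd_mul hψ (differentiableAt_const _), pd_const, mul_zero, zero_add, map_smul]
  simp only [pd, smul_eq_mul]; ring

/-- derivative along `f` of a function given along the line -/
theorem fderiv_line {u : V3 → ℝ} {y : V3} (hu : DifferentiableAt ℝ u y) (f : V3) {φ : ℝ → ℝ}
    {c : ℝ} (hφ : HasDerivAt φ c 0) (h : ∀ t, u (y + t • f) = φ t) : fderiv ℝ u y f = c := by
  have h1 : HasDerivAt (fun t : ℝ => u (y + t • f)) (fderiv ℝ u y f) 0 := by
    have hl : HasDerivAt (fun t : ℝ => y + t • f) f 0 := by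
      have := ((hasDerivAt_id (0 : ℝ)).smul_const f).const_add y
      simpa using this
    have hg0 : HasFDerivAt u (fderiv ℝ u y) (y + (0 : ℝ) • f) := by
      simpa using hu.hasFDerivAt
    exact hg0.comp_hasDerivAt (0 : ℝ) hl
  have h2 : (fun t : ℝ => u (y + t • f)) = φ := funext h
  rw [h2] at h1
  exact h1.unique hφ

/-- outer cut-off -/
noncomputable def zt (R1 : ℝ) (y : V3) : ℝ :=
  1 - Real.smoothTransition ((nsq y - R1 ^ 2) / R1 ^ 2)

theorem zt_contDiff (R1 : ℝ) {n : ℕ∞} : ContDiff ℝ n (zt R1) := by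
  unfold zt
  exact contDiff_const.sub (Real.smoothTransition.contDiff.comp
    ((nsq_contDiff.sub contDiff_const).div_const _))

theorem zt_one {R1 : ℝ} (hR : 0 < R1) {y : V3} (h : nsq y ≤ R1 ^ 2) : zt R1 y = 1 := by
  unfold zt
  rw [Real.smoothTransition.zero_of_nonpos, sub_zero]
  exact div_nonpos_of_nonpos_of_nonneg (by linarith) (by positivity)

theorem zt_zero {R1 : ℝ} (hR : 0 < R1) {y : V3} (h : 2 * R1 ^ 2 ≤ nsq y) : zt R1 y = 0 := by
  unfold zt
  rw [Real.smoothTransition.one_of_one_le, sub_self]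
  rw [le_div_iff₀ (by positivity)]; linarith

theorem zt_nonneg (R1 : ℝ) (y : V3) : 0 ≤ zt R1 y := by
  unfold zt; have := Real.smoothTransition.le_one ((nsq y - R1 ^ 2) / R1 ^ 2); linarith

theorem zt_le_one (R1 : ℝ) (y : V3) : zt R1 y ≤ 1 := by
  unfold zt; have := Real.smoothTransition.nonneg ((nsq y - R1 ^ 2) / R1 ^ 2); linarith

theorem zt_event {R1 : ℝ} (hR : 0 < R1) {y : V3} (h : nsq y < R1 ^ 2) :
    ∀ᶠ z in nhds y, zt R1 z = 1 := by
  have : ∀ᶠ z in nhds y, nsq z < R1 ^ 2 :=
    (nsq_continuous.continuousAt).eventually_lt_const h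
  filter_upwards [this] with z hz
  exact zt_one hR hz.le

theorem face_nsq {R1 : ℝ} {i : Fin 3} {y : V3} (h : |y i| = 2 * R1) : 4 * R1 ^ 2 ≤ nsq y := by
  unfold nsq
  have h1 : y i ^ 2 = (2 * R1) ^ 2 := by rw [← sq_abs, h]
  have h2 := Finset.single_le_sum (f := fun j => y j ^ 2) (fun j _ => sq_nonneg _)
    (Finset.mem_univ i)
  rw [h1] at h2
  linarith

theorem dv_radial {f : ℝ → ℝ} {y : V3} (hf : DifferentiableAt ℝ f (nsq y)) :
    dv (fun y => f (nsq y) • y) y = 3 * f (nsq y) + 2 * nsq y * deriv f (nsq y) := by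
  have hn : DifferentiableAt ℝ nsq y := (nsq_contDiff (n := 1)).differentiable (by norm_num) y
  have hfn : DifferentiableAt ℝ (fun y => f (nsq y)) y := hf.comp y hn
  have hpn : ∀ i, pd i nsq y = 2 * y i := by
    intro i
    have := pd_nsq_sub 0 i y
    simpa using this
  have h1 : ∀ i, pd i (fun y => (f (nsq y) • y) i) y
      = f (nsq y) + deriv f (nsq y) * (2 * y i) * y i := by
    intro i
    have e1 : (fun y : V3 => (f (nsq y) • y) i) = fun y => (fun y => f (nsq y)) y
        * (fun y : V3 => y i) y := by funext y; simp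
    rw [e1, pd_mul hfn ((contDiff_apply ℝ ℝ i (n := 1)).differentiable (by norm_num) y),
      pd_coord, pd_comp_real hf hn, hpn]
    simp
  unfold dv
  simp_rw [h1]
  rw [Finset.sum_add_distrib]
  simp only [nsq, Fin.sum_univ_three]
  ring

/-- the radial field -/
theorem Y0_exists (R1 r1 : ℝ) (hR1 : 0 < R1) (hr1 : 0 < r1) :
    ∃ Y : V3 → V3, ContDiff ℝ 1 Y ∧ (∀ i y, |y i| = 2 * R1 → Y y i = 0) ∧
      ∃ c1 : ℝ, 0 < c1 ∧ ∃ C1 : ℝ, 1 ≤ C1 ∧
        (∀ y ∈ cube (2 * R1), |dv Y y| ≤ C1 ∧ nsq (Y y) ≤ C1) ∧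
        (∀ y, nsq y < R1 ^ 2 → r1 ^ 2 ≤ nsq y → c1 ≤ dv Y y) ∧
        (∀ y, nsq y < R1 ^ 2 → ∃ φ : ℝ, c1 ≤ φ ∧ φ ≤ 1 ∧ Y y = -(φ • y)) := by
  set t0 := r1 ^ 2 / 4 with ht0
  have ht0p : 0 < t0 := by positivity
  set f : ℝ → ℝ := fun t => -(((1 + t / t0) ^ 2)⁻¹) with hf
  set Y : V3 → V3 := fun y => zt R1 y • (f (nsq y) • y) with hY
  have hpos : ∀ y : V3, 0 < 1 + nsq y / t0 := by
    intro y
    have := nsq_nonneg y
    positivity
  have hfc : ContDiff ℝ 1 (fun y : V3 => f (nsq y)) := by
    simp only [hf]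
    apply ContDiff.neg
    apply ContDiff.inv
    · exact (contDiff_const.add (nsq_contDiff.div_const _)).pow 2
    · intro y
      exact (pow_pos (hpos y) 2).ne'
  have hYc : ContDiff ℝ 1 Y := (zt_contDiff R1 (n := 1)).smul (hfc.smul contDiff_id)
  have hYface : ∀ i y, |y i| = 2 * R1 → Y y i = 0 := by
    intro i y hy
    have h1 : zt R1 y = 0 := zt_zero hR1 (by have := face_nsq hy; nlinarith [sq_nonneg R1])
    simp [hY, h1]
  obtain ⟨Ca, hCa1, hCa⟩ := common_bound (fun _ : Unit => dv Y) (fun _ => dv_cont hYc) (2 * R1)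
  obtain ⟨Cb, hCb1, hCb⟩ := common_bound (fun _ : Unit => fun y => nsq (Y y))
    (fun _ => nsq_continuous.comp hYc.continuous) (2 * R1)
  set M := 1 + R1 ^ 2 / t0 with hM
  have hMp : 1 ≤ M := by
    have : 0 ≤ R1 ^ 2 / t0 := by positivity
    linarith
  refine ⟨Y, hYc, hYface, (M ^ 3)⁻¹, by positivity, Ca + Cb, by linarith, ?_, ?_, ?_⟩
  · intro y hy
    have h1 := hCa () y hy
    have h2 := hCb () y hy
    have h3 := le_abs_self (nsq (Y y))
    constructor
    · linarith
    · linarith
  · intro y hy hy1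
    have hYe : Y =ᶠ[nhds y] fun y => f (nsq y) • y := by
      filter_upwards [zt_event hR1 hy] with z hz
      simp only [hY]
      rw [hz, one_smul]
    have hd : HasDerivAt f (-(-(2 * (1 + nsq y / t0) * (1 / t0)) / ((1 + nsq y / t0) ^ 2) ^ 2))
        (nsq y) := by
      have h1 : HasDerivAt (fun t : ℝ => 1 + t / t0) (1 / t0) (nsq y) := by
        have := ((hasDerivAt_id (nsq y)).div_const t0).const_add 1
        simpa using this
      have h2 := h1.pow 2
      have h3 := (h2.inv (pow_pos (hpos y) 2).ne').neg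
      refine HasDerivAt.congr_deriv (f := f) h3 ?_
      simp
    rw [dv_congr hYe, dv_radial hd.differentiableAt, hd.deriv]
    show _ ≤ 3 * -(((1 + nsq y / t0) ^ 2)⁻¹) + 2 * nsq y * _
    set τ := nsq y / t0 with hτ
    have hn : nsq y = τ * t0 := by rw [hτ]; field_simp
    have hτ4 : 4 ≤ τ := by
      rw [hτ, le_div_iff₀ ht0p, ht0]; linarith
    have hτM : 1 + τ ≤ M := by
      have : τ ≤ R1 ^ 2 / t0 := div_le_div_of_nonneg_right hy.le ht0p.le
      linarith
    have hτp : 0 < 1 + τ := by linarith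
    have e1 : 3 * -(((1 + τ) ^ 2)⁻¹) + 2 * nsq y * -(-(2 * (1 + τ) * (1 / t0)) / ((1 + τ) ^ 2) ^ 2)
        = (τ - 3) / (1 + τ) ^ 3 := by
      rw [hn]
      field_simp
      ring
    rw [e1, inv_eq_one_div, div_le_div_iff₀ (by positivity) (by positivity)]
    have h5 : (1 + τ) ^ 3 ≤ M ^ 3 := pow_le_pow_left₀ hτp.le hτM 3
    have h6 : 0 < M ^ 3 := by positivity
    nlinarith
  · intro y hy
    refine ⟨((1 + nsq y / t0) ^ 2)⁻¹, ?_, ?_, ?_⟩
    rotate_left
    · have h2 : 0 ≤ nsq y / t0 := div_nonneg (nsq_nonneg y) ht0p.le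
      apply inv_le_one_of_one_le₀
      nlinarith
    rotate_left
    · have h1 : 1 + nsq y / t0 ≤ M := by
        have : nsq y / t0 ≤ R1 ^ 2 / t0 := div_le_div_of_nonneg_right hy.le ht0p.le
        linarith
      have h2 := hpos y
      rw [inv_le_inv₀ (by positivity) (by positivity)]
      have h3 : (1 + nsq y / t0) ^ 2 ≤ M ^ 2 := pow_le_pow_left₀ h2.le h1 2
      have h4 : M ^ 2 ≤ M ^ 3 := pow_le_pow_right₀ hMp (by norm_num)
      linarith
    · simp only [hY, hf]
      rw [zt_one hR1 hy.le, one_smul, neg_smul]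

/-- the tube fields -/
theorem tube_exists {I : Type} [Fintype I] (p : I → V3) (hp : ∀ i, nsq (p i) = 1) (h : I → ℝ)
    (hh : ∀ i, 0 < h i) (i : I) (f : V3) (hf : ip (p i) f = h i)
    (hfj : ∀ j, j ≠ i → ip (p j) f < h j) (R1 : ℝ) (hR1 : 0 < R1) :
    ∃ V : V3 → V3, ContDiff ℝ 1 V ∧ (∀ l y, |y l| = 2 * R1 → V y l = 0) ∧
      ∃ r1 : ℝ, 0 < r1 ∧ ∃ d2 : ℝ, 0 < d2 ∧ ∃ κ1 : ℝ, 0 < κ1 ∧ ∃ C1 : ℝ, 1 ≤ C1 ∧
        (∀ y ∈ cube (2 * R1), |dv V y| ≤ C1 ∧ vn (V y) ≤ C1) ∧
        (∀ y, nsq y < R1 ^ 2 → κ1 * nsq (V y) ≤ dv V y ∧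
          (nsq y ≤ r1 ^ 2 → 1 / 2 ≤ dv V y - κ1 * nsq (V y)) ∧
          ∃ ψ : ℝ, 0 ≤ ψ ∧ V y = ψ • f ∧ (ψ ≠ 0 →
            (∀ j, j ≠ i → ip (p j) y ≤ h j - d2) ∨ h i + d2 ≤ ip (p i) y)) := by
  classical
  -- a margin
  obtain ⟨d0, hd0, hd01, hd0j⟩ := exists_pos_le
    (fun j => if j = i then h j else min (h j) (h j - ip (p j) f)) (by
      intro j
      by_cases hj : j = i
      · simp only [hj, if_true]; exact hh i
      · simp only [hj, if_false]
        exact lt_min (hh j) (by have := hfj j hj; linarith))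
  have hd0i : d0 ≤ h i := by have := hd0j i; simpa using this
  have hd0a : ∀ j, j ≠ i → d0 ≤ h j ∧ d0 ≤ h j - ip (p j) f := by
    intro j hj
    have := hd0j j
    simp only [hj, if_false] at this
    exact ⟨this.trans (min_le_left _ _), this.trans (min_le_right _ _)⟩
  set L := 1 + vn f with hL
  have hLp : 0 < L := by have := vn_nonneg f; linarith
  have hL1 : 1 ≤ L := by have := vn_nonneg f; linarith
  set δ := d0 / (8 * L) with hδ
  have hδp : 0 < δ := by positivity
  have hδL : 8 * L * δ = d0 := by rw [hδ]; field_simp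
  have hδ8 : δ ≤ 1 / 8 := by
    rw [hδ, div_le_iff₀ (by positivity)]; nlinarith
  have hip1 : ∀ j v, |ip (p j) v| ≤ vn v := by
    intro j v
    have h1 : vn (p j) = 1 := by rw [vn_eq_sqrt, hp]; simp
    have := abs_ip_le (p j) v
    rwa [h1, one_mul] at this
  -- coordinates
  set t : V3 → ℝ := fun y => ip (p i) y / h i with ht
  have htc : ContDiff ℝ 1 t := (ip_contDiff (p i)).div_const _
  set w : V3 → V3 := fun y => y - t y • f with hw
  have hwc : ContDiff ℝ 1 w := contDiff_id.sub (htc.smul contDiff_const)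
  set b : V3 → ℝ := fun y => bump δ (nsq (w y)) with hb
  have hbc : ContDiff ℝ 1 b := (bump_contDiff δ (n := 1)).comp (nsq_contDiff.comp hwc)
  set g : ℝ → ℝ := fun t => Real.smoothTransition (t / δ + 2) with hg
  have hgc : ContDiff ℝ 1 g :=
    (Real.smoothTransition.contDiff (n := 1)).comp ((contDiff_id.div_const _).add contDiff_const)
  set βl : ℝ → ℝ := fun t => g t * (t + 2) with hβl
  have hβlc : ContDiff ℝ 1 βl := hgc.mul (contDiff_id.add contDiff_const)
  set ψ : V3 → ℝ := fun y => b y * βl (t y) with hψ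
  have hψc : ContDiff ℝ 1 ψ := hbc.mul (hβlc.comp htc)
  set V : V3 → V3 := fun y => zt R1 y • (ψ y • f) with hV
  have hVc : ContDiff ℝ 1 V := (zt_contDiff R1 (n := 1)).smul (hψc.smul contDiff_const)
  have hVface : ∀ l y, |y l| = 2 * R1 → V y l = 0 := by
    intro l y hy
    have h1 : zt R1 y = 0 := zt_zero hR1 (by have := face_nsq hy; nlinarith [sq_nonneg R1])
    simp [hV, h1]
  obtain ⟨Ca, hCa1, hCa⟩ := common_bound (fun _ : Unit => dv V) (fun _ => dv_cont hVc) (2 * R1)
  obtain ⟨Cb, hCb1, hCb⟩ := common_bound (fun _ : Unit => fun y => vn (V y))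
    (fun _ => vn_continuous.comp hVc.continuous) (2 * R1)
  -- properties of the pieces
  have hb0 : ∀ y, 0 ≤ b y := by
    intro y; simp only [hb]; unfold bump
    have := Real.smoothTransition.le_one ((nsq (w y) - 3 / 2 * δ ^ 2) / δ ^ 2); linarith
  have hb1 : ∀ y, b y ≤ 1 := by
    intro y; simp only [hb]; unfold bump
    have := Real.smoothTransition.nonneg ((nsq (w y) - 3 / 2 * δ ^ 2) / δ ^ 2); linarith
  have hg0 : ∀ t, 0 ≤ g t := fun t => Real.smoothTransition.nonneg _
  have hg1 : ∀ t, g t ≤ 1 := fun t => Real.smoothTransition.le_one _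
  have hgz : ∀ t, t ≤ -(2 * δ) → g t = 0 := by
    intro t ht
    simp only [hg]
    apply Real.smoothTransition.zero_of_nonpos
    have : t / δ ≤ -2 := by rw [div_le_iff₀ hδp]; linarith
    linarith
  have hgo : ∀ t, -δ ≤ t → g t = 1 := by
    intro t ht
    simp only [hg]
    apply Real.smoothTransition.one_of_one_le
    have : -1 ≤ t / δ := by rw [le_div_iff₀ hδp]; linarith
    linarith
  have hgmono : Monotone g := by
    intro a c hac
    simp only [hg]
    apply Real.smoothTransition.monotone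
    have := div_le_div_of_nonneg_right hac hδp.le
    linarith
  have hβnn : ∀ t, 0 ≤ βl t := by
    intro t
    by_cases ht : t ≤ -(2 * δ)
    · simp only [hβl]; rw [hgz t ht]; simp
    · push Not at ht
      simp only [hβl]
      exact mul_nonneg (hg0 t) (by linarith)
  have hβd : ∀ t, g t ≤ deriv βl t := by
    intro t
    have hgd : DifferentiableAt ℝ g t := hgc.differentiable (by norm_num) t
    have e : deriv βl t = deriv g t * (t + 2) + g t * 1 := by
      have h1 : HasDerivAt (fun t : ℝ => t + 2) 1 t := (hasDerivAt_id t).add_const 2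
      exact (hgd.hasDerivAt.mul h1).deriv
    rw [e, mul_one]
    have h2 : 0 ≤ deriv g t := hgmono.deriv_nonneg
    by_cases ht : t < -(2 * δ)
    · have : deriv g t = 0 := by
        have : g =ᶠ[nhds t] fun _ => 0 := by
          filter_upwards [gt_mem_nhds ht] with y hy
          exact hgz y (le_of_lt hy)
        rw [this.deriv_eq]; simp
      rw [this]; linarith
    · push Not at ht
      have : 0 ≤ t + 2 := by linarith
      nlinarith [mul_nonneg h2 this]
  -- derivative of ψ along f
  have htf : ∀ (y : V3) (τ : ℝ), t (y + τ • f) = t y + τ := by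
    intro y τ
    simp only [ht]
    rw [ip_add, ip_smul, hf]
    have := (hh i).ne'
    field_simp
  have hwf : ∀ (y : V3) (τ : ℝ), w (y + τ • f) = w y := by
    intro y τ
    simp only [hw]
    rw [htf, add_smul]; abel
  have hdψ : ∀ y, fderiv ℝ ψ y f = b y * deriv βl (t y) := by
    intro y
    apply fderiv_line (hψc.differentiable (by norm_num) y) f
      (φ := fun τ => b y * βl (t y + τ))
    · have h1 : HasDerivAt βl (deriv βl (t y)) (t y + 0) := by
        rw [add_zero]; exact (hβlc.differentiable (by norm_num) (t y)).hasDerivAt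
      have h2 : HasDerivAt (fun τ : ℝ => t y + τ) 1 0 := (hasDerivAt_id (0:ℝ)).const_add (t y)
      have h3 := (h1.comp (0:ℝ) h2).const_mul (b y)
      simpa using h3
    · intro τ
      simp only [hψ, hb]
      rw [htf, hwf]
  set κ1 := 1 / (2 * (L ^ 2 * (R1 / h i + 2) ^ 2)) with hκ1
  have hhi := hh i
  have hRh : 0 < R1 / h i + 2 := by positivity
  have hκp : 0 < κ1 := by rw [hκ1]; positivity
  set r1 := min R1 (min (δ * h i) (δ / (1 + vn f / h i))) with hr1
  have hvf : 0 ≤ vn f / h i := div_nonneg (vn_nonneg f) hhi.le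
  have hr1p : 0 < r1 := by
    rw [hr1]; apply lt_min hR1; apply lt_min <;> positivity
  refine ⟨V, hVc, hVface, r1 / 2, by positivity, min (d0 / 2) (δ * h i), by
      apply lt_min <;> positivity, κ1, hκp, Ca + Cb, by linarith, ?_, ?_⟩
  · intro y hy
    have h1 := hCa () y hy
    have h2 := hCb () y hy
    have h3 := le_abs_self (vn (V y))
    exact ⟨by linarith, by linarith⟩
  intro y hy
  have hVe : V =ᶠ[nhds y] (fun y : V3 => ψ y • f : V3 → V3) := by
    filter_upwards [zt_event hR1 hy] with z hz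
    simp only [hV]
    rw [hz, one_smul]
  have hVy : V y = ψ y • f := by
    simp only [hV]; rw [zt_one hR1 hy.le, one_smul]
  have hdv : dv V y = b y * deriv βl (t y) := by
    rw [dv_congr hVe, dv_smul_const (hψc.differentiable (by norm_num) y), hdψ]
  have hyn : vn y ≤ R1 := by
    have : vn y ^ 2 ≤ R1 ^ 2 := by rw [vn_sq]; exact hy.le
    exact le_of_sq_le_sq this hR1.le
  have hty : |t y| ≤ R1 / h i := by
    simp only [ht]
    rw [abs_div, abs_of_pos hhi]
    exact div_le_div_of_nonneg_right ((hip1 i y).trans hyn) hhi.le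
  have hnV : nsq (V y) ≤ b y * g (t y) * ((R1 / h i + 2) ^ 2 * L ^ 2) := by
    rw [hVy, nsq_smul]
    have h1 : nsq f ≤ L ^ 2 := by
      rw [← vn_sq]; exact pow_le_pow_left₀ (vn_nonneg _) (by linarith) 2
    have h2 : ψ y ^ 2 ≤ b y * g (t y) * (R1 / h i + 2) ^ 2 := by
      have e : ψ y ^ 2 = (b y * b y) * (g (t y) * g (t y)) * (t y + 2) ^ 2 := by
        simp only [hψ, hβl]; ring
      rw [e]
      have h3 : b y * b y ≤ b y := by nlinarith [hb0 y, hb1 y]
      have h4 : g (t y) * g (t y) ≤ g (t y) := by nlinarith [hg0 (t y), hg1 (t y)]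
      have h5 : (t y + 2) ^ 2 ≤ (R1 / h i + 2) ^ 2 := by
        have := abs_le.1 hty
        have h6 : 0 ≤ R1 / h i := by positivity
        nlinarith
      have h6 : (b y * b y) * (g (t y) * g (t y)) ≤ b y * g (t y) :=
        mul_le_mul h3 h4 (mul_nonneg (hg0 _) (hg0 _)) (hb0 y)
      exact mul_le_mul h6 h5 (sq_nonneg _) (mul_nonneg (hb0 y) (hg0 _))
    calc ψ y ^ 2 * nsq f ≤ (b y * g (t y) * (R1 / h i + 2) ^ 2) * L ^ 2 :=
          mul_le_mul h2 h1 (nsq_nonneg _) (by
            have := mul_nonneg (hb0 y) (hg0 (t y)); positivity)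
      _ = _ := by ring
  have hκn : κ1 * nsq (V y) ≤ b y * g (t y) / 2 := by
    have h1 := mul_le_mul_of_nonneg_left hnV hκp.le
    have h2 : κ1 * (b y * g (t y) * ((R1 / h i + 2) ^ 2 * L ^ 2)) = b y * g (t y) / 2 := by
      rw [hκ1]; field_simp
    linarith
  have hbg : b y * g (t y) ≤ dv V y := by
    rw [hdv]; exact mul_le_mul_of_nonneg_left (hβd _) (hb0 y)
  have hbg0 : 0 ≤ b y * g (t y) := mul_nonneg (hb0 y) (hg0 _)
  refine ⟨by linarith, ?_, ψ y, mul_nonneg (hb0 y) (hβnn _), hVy, ?_⟩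
  · intro hyr
    have hyr1 : vn y ≤ r1 / 2 := by
      have : vn y ^ 2 ≤ (r1 / 2) ^ 2 := by rw [vn_sq]; exact hyr
      exact le_of_sq_le_sq this (by positivity)
    have hr1a : r1 ≤ δ * h i := (min_le_right _ _).trans (min_le_left _ _)
    have hr1b : r1 ≤ δ / (1 + vn f / h i) := (min_le_right _ _).trans (min_le_right _ _)
    have ht1 : |t y| ≤ δ := by
      simp only [ht]
      rw [abs_div, abs_of_pos hhi, div_le_iff₀ hhi]
      have := hip1 i y
      linarith
    have hgt : g (t y) = 1 := hgo _ (abs_le.1 ht1).1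
    have hwy : vn (w y) ≤ δ := by
      simp only [hw]
      refine (vn_sub_le _ _).trans ?_
      rw [vn_smul]
      have h1 : |t y| ≤ vn y / h i := by
        simp only [ht]
        rw [abs_div, abs_of_pos hhi]
        exact div_le_div_of_nonneg_right (hip1 i y) hhi.le
      have h2 : |t y| * vn f ≤ vn y / h i * vn f := mul_le_mul_of_nonneg_right h1 (vn_nonneg _)
      have h3 : vn y + vn y / h i * vn f = vn y * (1 + vn f / h i) := by ring
      have h4 : vn y * (1 + vn f / h i) ≤ δ := by
        rw [← le_div_iff₀ (by positivity)]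
        linarith
      linarith
    have hbt : b y = 1 := by
      simp only [hb]
      apply bump_one hδp
      rw [← vn_sq]
      have := pow_le_pow_left₀ (vn_nonneg (w y)) hwy 2
      nlinarith [sq_nonneg δ]
    rw [hbt, hgt] at hκn hbg
    linarith
  · intro hne
    have hbne : b y ≠ 0 := fun h0 => hne (by simp only [hψ]; rw [h0, zero_mul])
    have hgne : g (t y) ≠ 0 := fun h0 => hne (by simp only [hψ, hβl]; rw [h0]; ring)
    have htl : -(2 * δ) < t y := by
      by_contra hcon
      push Not at hcon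
      exact hgne (hgz _ hcon)
    have hwl : vn (w y) < 2 * δ := by
      by_contra hcon
      push Not at hcon
      apply hbne
      simp only [hb]
      apply bump_zero hδp
      rw [← vn_sq]
      have := pow_le_pow_left₀ (by positivity) hcon 2
      nlinarith [sq_nonneg δ]
    by_cases ht1 : t y ≤ 1 + δ
    · left
      intro j hj
      obtain ⟨ha, hb'⟩ := hd0a j hj
      have hyw : y = w y + t y • f := by simp only [hw]; abel
      have e1 : ip (p j) y = ip (p j) (w y) + t y * ip (p j) f := by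
        conv_lhs => rw [hyw]
        rw [ip_add, ip_smul]
      have h1 : ip (p j) (w y) ≤ 2 * δ :=
        ((le_abs_self _).trans (hip1 j _)).trans hwl.le
      have hfL : |ip (p j) f| ≤ L := (hip1 j f).trans (by linarith)
      have h2 : t y * ip (p j) f ≤ h j - d0 + 2 * δ * L := by
        have hδL0 : 0 ≤ 2 * δ * L := by positivity
        rcases le_total 0 (t y) with h0 | h0
        · rcases le_total (t y) 1 with h3 | h3
          · rcases le_total 0 (ip (p j) f) with h4 | h4
            · have : t y * ip (p j) f ≤ 1 * ip (p j) f := mul_le_mul_of_nonneg_right h3 h4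
              linarith
            · have : t y * ip (p j) f ≤ 0 := mul_nonpos_of_nonneg_of_nonpos h0 h4
              linarith
          · have h4 : (t y - 1) * ip (p j) f ≤ δ * L := by
              have h5 : (t y - 1) * ip (p j) f ≤ (t y - 1) * L :=
                mul_le_mul_of_nonneg_left ((le_abs_self _).trans hfL) (by linarith)
              have h6 : (t y - 1) * L ≤ δ * L := mul_le_mul_of_nonneg_right (by linarith) hLp.le
              linarith
            have h7 : 0 ≤ δ * L := by positivity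
            linarith
        · have h4 : t y * ip (p j) f ≤ 2 * δ * L := by
            have h5 : (-t y) * (-ip (p j) f) ≤ (-t y) * L := by
              apply mul_le_mul_of_nonneg_left _ (by linarith)
              have := (abs_le.1 hfL).1
              linarith
            have h6 : (-t y) * L ≤ 2 * δ * L := mul_le_mul_of_nonneg_right (by linarith) hLp.le
            linarith
          linarith
      have h3 : min (d0 / 2) (δ * h i) ≤ d0 / 2 := min_le_left _ _
      have h4 : 2 * δ ≤ 2 * δ * L := by nlinarith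
      rw [e1]
      nlinarith
    · right
      push Not at ht1
      have h1 : ip (p i) y = t y * h i := by simp only [ht]; field_simp
      rw [h1]
      have h3 : min (d0 / 2) (δ * h i) ≤ δ * h i := min_le_right _ _
      nlinarith

end N9
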