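import Pool.Agent.Helper66.N9.An5

/-! Far region of AN: statement `ST_FAR` (to be proved in An7). -/

namespace N9

open scoped Quaternion

section

variable {I K : Type} [Fintype I] [Fintype K]

/-- classification of active indices (output of `classify`) -/
def Cls (D : AData I K) (r c om C s0 R : ℝ) : Prop :=
  ∀ s : ℝ, s0 ≤ s → ∀ y ∈ cube R, Real.log (Zf (Gp D r s) y) ≤ 2 * c * s →
    ∃ S : I → Prop, (∃ k, ∃ t ∈ D.tri k, ∀ i, S i → i ∈ t) ∧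
      (∀ i, ¬ S i → Gp D r s i y ≤ -(om * s)) ∧
      (∀ i j, S i → S j → s ^ 8 * |ip (D.p i) (grd (bpot D r j) y)| ≤ C * s)

/-- bounds of the offsets -/
def Bds (D : AData I K) (r C R : ℝ) : Prop :=
  ∀ i, ∀ y ∈ cube R, |bpot D r i y| ≤ C ∧ vn (grd (bpot D r i) y) ≤ C ∧
    |dv (grd (bpot D r i)) y| ≤ C

end

/-- the far field -/
def ST_FAR : Prop :=
  ∀ (I K : Type) [Fintype I] [Fintype K] (D : AData I K), D.A0 → D.A6 →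
  ∀ R1 : ℝ, 0 < R1 → (∀ y, R1 ^ 2 ≤ nsq y → ∃ i, 1 ≤ ip (D.p i) y - D.h i) →
  ∀ r c om C s0 : ℝ, 0 < r → 0 < c → c ≤ 1 / 2 → 0 < om → om ≤ 1 → 1 ≤ C → 1 ≤ s0 →
  Cls D r c om C s0 (2 * R1) → Bds D r C (2 * R1) →
  ∃ lam0 : ℝ, 1 ≤ lam0 ∧ ∀ lam, lam0 ≤ lam → ∃ s1 : ℝ, 1 ≤ s1 ∧ ∀ s, s1 ≤ s →
    ∃ F : V3 → V3, ContDiff ℝ 1 F ∧
      (∀ y ∈ cube (2 * R1), Real.log (Zf (Gp D r s) y) < c * s →
        F =ᶠ[nhds y] avg (Gp D r s) lam (fun i _ => s ^ 8 • D.q i)) ∧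
      (∀ y ∈ cube (2 * R1), c * s ≤ Real.log (Zf (Gp D r s) y) → ∀ a : ℍ[ℝ],
        s ^ 16 * ‖a‖ ^ 2 ≤ nsq (F y) * ‖a‖ ^ 2 - cr F y a) ∧
      (∀ i, ∀ y ∈ cube (2 * R1), |y i| = 2 * R1 → 0 ≤ y i * F y i)

/-
PROOF of ST_FAR.  T := s^8, M := log Z, a_i := aw G (some i) y, a_0 = e^{-M}.
Compact Δ := {a : I → ℝ | 0 ≤ a i, ∑ a i ≤ 1}.  D.real is compact (finite union of closed subsets
of Δ) and nonempty (else Cls with y = 0 fails).  Tietze: extend H to a continuous H' on ℝ × (I → ℝ)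
(ContinuousMap.exists_restrict_eq, target V3 = pi).  cH := min of ‖H'‖ on [0,1] × D.real > 0.
Uniform continuity of H' and of a ↦ ∑ a q, ∑ a p on [0,1] × Δ: there is η > 0 such that for a ∈ Δ with
∃ k, t ∈ tri k, 1 - ∑_{i∈t} a i ≤ η one has ‖H'(θ,a)‖ ≥ cH/2, ‖H'(0,a) - ∑ a q‖ ≤ cH/8,
‖H'(1,a) - ∑ a p‖ ≤ cH/8 (compare a with a' = a restricted to t and normalised).
Smooth Ht : ℝ × (I → ℝ) → V3 with ‖Ht - H'‖ < cH/8 everywhere: exists_contMDiffMap_forall_mem_convex_of_local_const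
(balls), or Stone-Weierstrass on the compact set.
Γ : (Fin 4 → ℝ) × (I → ℝ) × V3 → V3,
 Γ(τ,a,y) = (1-τ 3)•((1-τ 0)•∑ a q + τ 0•((1-τ 2)•Ht(τ 1,a) + τ 2•∑ a p)) + τ 3•y      (C^1)
 τ 0 = ST(3(M/(cs)-1)), τ 1 = ST(3(M/(cs)-1)-1), τ 2 = ST(3(M/(cs)-1)-2), τ 3 = ST((nsq y - R1^2)/R1^2), ST = Real.smoothTransition.
F := (lam T)•Γ(τ,a,y).
* M < cs: nsq y < R1^2 for s large (else some G_i ≥ T - sC > cs), so near y all τ = 0: F = lam T ∑ a q = avg.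
* M ≥ cs: ‖Γ‖ ≥ c0 > 0 with c0 independent of s, lam: (i) cs ≤ M ≤ 2cs: nsq y < R1^2, Cls gives t with a_i ≤ e^{-om s} for i ∉ t and
  a_0 ≤ e^{-cs}, so 1-∑_t a ≤ (N+1)e^{-c''s} ≤ η; Γ is within cH/4 of H'(τ 1,a) (if τ 1 > 0 then τ 0 = 1; if τ 2 > 0 then τ 1 = 1);
  (ii) M ≥ 2cs: Γ = (1-τ 3)∑ a p + τ 3 y; ip(∑ a p, y) ≥ hmin/8: indices with G_i ≥ -T h_i/2 have ip(p i,y) ≥ h_i/4, the others have
  a_i ≤ e^{-T hmin/2}; ∑_{good} a_i ≥ 1/2; and nsq y ≥ R1^2 where τ 3 > 0; so ip(Γ,y) ≥ min(...), |y| ≤ 4 R1.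
* |∂_l Γ(τ,a,y)| ≤ C1 T on the cube with C1 independent of s, lam: fderiv Γ bounded on the compact set [0,1]^4 × Δ × cube,
  ∂_l M = ∑ a_i (∂_l G_i) ≤ C'T, ∂_l a_i = a_i(∂_l G_i - ∂_l M) (pd_aw, pd_logZ), |ST'| bounded.
* nsq F |a|^2 - cr F y a ≥ (lam^2 T^2 c0^2 - 3·lam T·C1' T)|a|^2 ≥ T^2 |a|^2 for lam ≥ lam0(c0,C1').   (|inner (e i * a) (a * im v)| ≤ vn v ‖a‖^2)
* faces: |y i| = 2R1 → nsq y ≥ 4R1^2 → τ 3 = 1 → F = lam T y.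
-/

end N9
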