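import Pool.Agent.Helper66.N9.An7Stmt

/-! Weights estimates and formulas for `DD`. -/

namespace N9

open scoped Quaternion

section

variable {ι : Type} [Fintype ι] (G : ι → V3 → ℝ)

/-- gradient of `log Z` -/
noncomputable def W0 (y : V3) : V3 := ∑ u, aw G (some u) y • grd (G u) y

theorem avg_W0 (lam : ℝ) (y : V3) : avg G lam (fun u => grd (G u)) y = lam • W0 G y := rfl

theorem aw_none_contDiff (hG : ∀ u, ContDiff ℝ 1 (G u)) :
    ContDiff ℝ 1 (fun y => aw G none y) := by
  have : (fun y => aw G none y) = fun y => 1 / Zf G y := rfl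
  rw [this]
  exact contDiff_const.div (Zf_contDiff G hG) (fun y => (Zf_pos G y).ne')

theorem aw_none_eq (y : V3) : aw G none y = Real.exp (-Real.log (Zf G y)) := by
  rw [Real.exp_neg, Real.exp_log (Zf_pos G y)]
  simp [aw]

theorem pd_aw_none (hG : ∀ u, ContDiff ℝ 1 (G u)) (y : V3) (l : Fin 3) :
    pd l (fun y => aw G none y) y = -(aw G none y * W0 G y l) := by
  have hl : DifferentiableAt ℝ (fun y => Real.log (Zf G y)) y :=
    (logZ_contDiff G hG).differentiable (by norm_num) y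
  have e1 : (fun y => aw G none y) = fun y => Real.exp ((fun y => -Real.log (Zf G y)) y) := by
    funext y; exact aw_none_eq G y
  rw [e1, pd_exp (g := fun y => -Real.log (Zf G y)) hl.neg, pd_neg, pd_logZ G hG]
  have e2 : W0 G y l = ∑ u, aw G (some u) y * pd l (G u) y := by
    simp [W0, grd, Finset.sum_apply]
  rw [e2, ← aw_none_eq]
  ring

theorem ip_W0 (y v : V3) : ip (W0 G y) v = ∑ u, aw G (some u) y * ip (grd (G u) y) v := by
  unfold W0
  rw [sum_ip]
  exact Finset.sum_congr rfl (fun u _ => smul_ip _ _ _)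

theorem dv_smul_fun {u : V3 → ℝ} {V : V3 → V3} {y : V3} (hu : DifferentiableAt ℝ u y)
    (hV : DifferentiableAt ℝ V y) :
    dv (fun y => u y • V y) y = u y * dv V y + ∑ l, pd l u y * V y l := by
  unfold dv
  rw [Finset.mul_sum, ← Finset.sum_add_distrib]
  refine Finset.sum_congr rfl (fun l _ => ?_)
  have hVl : DifferentiableAt ℝ (fun y => V y l) y := (differentiableAt_pi.1 hV) l
  have e1 : (fun y => (u y • V y) l) = fun y => u y * (fun y => V y l) y := by
    funext y; simp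
  rw [e1, pd_mul hu hVl]

theorem DD_smul (W Y : V3 → V3) (κ : ℝ) (y : V3) (hY : DifferentiableAt ℝ Y y) :
    DD W (fun y => κ • Y y) y = κ * dv Y y - 2 * κ * ip (W y) (Y y) - κ ^ 2 * nsq (Y y) := by
  unfold DD
  rw [dv_smul_fun (differentiableAt_const _) hY, nsq_smul, ip_smul]
  simp only [pd_const, zero_mul, Finset.sum_const_zero, add_zero]
  ring

theorem DD_tube (hG : ∀ u, ContDiff ℝ 1 (G u)) (W V : V3 → V3) (κ : ℝ) (y : V3)
    (hV : DifferentiableAt ℝ V y) :
    DD W (fun y => κ • (aw G none y • V y)) y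
      = κ * (aw G none y * dv V y - aw G none y * ip (W0 G y) (V y))
        - 2 * κ * (aw G none y * ip (W y) (V y)) - κ ^ 2 * (aw G none y ^ 2 * nsq (V y)) := by
  have ha : DifferentiableAt ℝ (fun y => aw G none y) y :=
    (aw_none_contDiff G hG).differentiable (by norm_num) y
  have hs : DifferentiableAt ℝ (fun y => aw G none y • V y) y := ha.smul hV
  rw [DD_smul W (fun y => aw G none y • V y) κ y hs, dv_smul_fun ha hV, nsq_smul, ip_smul]
  simp_rw [pd_aw_none G hG]
  have e1 : ∑ l, -(aw G none y * W0 G y l) * V y l = -(aw G none y * ip (W0 G y) (V y)) := by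
    unfold ip
    rw [Finset.mul_sum, ← Finset.sum_neg_distrib]
    exact Finset.sum_congr rfl (fun l _ => by ring)
  rw [e1]
  ring

theorem vn_W0 (y : V3) (B : ℝ) (hB : ∀ u, vn (grd (G u) y) ≤ B) (hB0 : 0 ≤ B) :
    vn (W0 G y) ≤ B := by
  unfold W0
  refine (vn_sum_le _ _).trans ?_
  have h1 : ∑ u, vn (aw G (some u) y • grd (G u) y) ≤ ∑ u, aw G (some u) y * B := by
    refine Finset.sum_le_sum (fun u _ => ?_)
    rw [vn_smul, abs_of_pos (aw_pos G (some u) y)]
    exact mul_le_mul_of_nonneg_left (hB u) (aw_pos G (some u) y).le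
  refine h1.trans ?_
  rw [← Finset.sum_mul, aw_some_sum]
  have := (aw_pos G none y).le
  nlinarith

end

section

variable {I K : Type} [Fintype I] [Fintype K] (D : AData I K) (r s C R hm om : ℝ)

theorem cube_vn {R : ℝ} {y : V3} (hy : y ∈ cube R) : vn y ≤ 3 * R := by
  refine (vn_le_sum y).trans ?_
  have h := fun i => hy i
  rw [Fin.sum_univ_three]
  have := h 0; have := h 1; have := h 2
  linarith

theorem P_bound (hs : 1 ≤ s) (hC : 1 ≤ C) (hp : ∀ i, nsq (D.p i) = 1) (hB : Bds D r C R)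
    (y : V3) (hy : y ∈ cube R) (i : I) : vn (grd (Gp D r s i) y) ≤ 2 * C * s ^ 8 := by
  rw [grd_Gp]
  refine (vn_sub_le _ _).trans ?_
  have h1 : vn (D.p i) = 1 := by rw [vn_eq_sqrt, hp]; simp
  rw [vn_smul, vn_smul, h1, abs_of_nonneg (by positivity), abs_of_nonneg (by linarith)]
  have h2 := (hB i y hy).2.1
  have h3 : s ≤ s ^ 8 := by
    have : s ^ 1 ≤ s ^ 8 := pow_le_pow_right₀ hs (by norm_num)
    simpa using this
  have h4 : s * vn (grd (bpot D r i) y) ≤ s ^ 8 * C :=
    mul_le_mul h3 h2 (vn_nonneg _) (by positivity)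
  have h5 : s ^ 8 * 1 ≤ s ^ 8 * C := mul_le_mul_of_nonneg_left hC (by positivity)
  linarith

theorem dvP_bound (hs : 1 ≤ s) (hB : Bds D r C R) (y : V3) (hy : y ∈ cube R) (i : I) :
    |dv (grd (Gp D r s i)) y| ≤ s * C := by
  rw [dv_grd_Gp, abs_neg, abs_mul, abs_of_nonneg (by linarith)]
  exact mul_le_mul_of_nonneg_left (hB i y hy).2.2 (by linarith)

/-- far below the plane: tiny weight -/
theorem w_tiny (hs : 1 ≤ s) (hB : Bds D r C R) (y : V3) (hy : y ∈ cube R) (i : I) (d : ℝ)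
    (hd : 0 < d) (h : ip (D.p i) y - D.h i ≤ -d) (hsd : 2 * C ≤ s ^ 7 * d) (hom : om ≤ d / 2) :
    aw (Gp D r s) (some i) y ≤ Real.exp (-(om * s)) := by
  refine (aw_le_exp (Gp D r s) i y).trans (Real.exp_le_exp.2 ?_)
  have hT : s ^ 8 = s * s ^ 7 := by ring
  have h1 : Gp D r s i y = s ^ 8 * (ip (D.p i) y - D.h i) - s * bpot D r i y := rfl
  rw [h1]
  have h2 : s ^ 8 * (ip (D.p i) y - D.h i) ≤ s ^ 8 * (-d) :=
    mul_le_mul_of_nonneg_left h (by positivity)
  have h3 : -(s * C) ≤ s * bpot D r i y := by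
    have := mul_le_mul_of_nonneg_left (abs_le.1 (hB i y hy).1).1 (by linarith : 0 ≤ s)
    linarith
  have h4 : s * (2 * C) ≤ s * (s ^ 7 * d) := mul_le_mul_of_nonneg_left hsd (by linarith)
  have h5 : om * s ≤ d / 2 * s := mul_le_mul_of_nonneg_right hom (by linarith)
  have h6 : s * (d / 2) ≤ s * s ^ 7 * (d / 2) := by
    have : 1 ≤ s ^ 7 := one_le_pow₀ hs
    have h7 : s * 1 ≤ s * s ^ 7 := mul_le_mul_of_nonneg_left this (by linarith)
    have := mul_le_mul_of_nonneg_right h7 (by positivity : 0 ≤ d / 2)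
    linarith
  rw [hT] at h2 ⊢
  nlinarith

/-- far outside: `a_0` is tiny -/
theorem a0_tiny (hs : 1 ≤ s) (hB : Bds D r C R) (y : V3) (hy : y ∈ cube R) (i : I) (d : ℝ)
    (hd : 0 < d) (h : d ≤ ip (D.p i) y - D.h i) (hsd : 2 * C ≤ s ^ 7 * d) (hom : om ≤ d / 2) :
    aw (Gp D r s) none y ≤ Real.exp (-(om * s)) := by
  rw [aw_none_eq]
  refine Real.exp_le_exp.2 ?_
  have hG := G_le_log (Gp D r s) i y
  have hT : s ^ 8 = s * s ^ 7 := by ring
  have h1 : Gp D r s i y = s ^ 8 * (ip (D.p i) y - D.h i) - s * bpot D r i y := rfl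
  rw [h1] at hG
  have h2 : s ^ 8 * d ≤ s ^ 8 * (ip (D.p i) y - D.h i) :=
    mul_le_mul_of_nonneg_left h (by positivity)
  have h3 : s * bpot D r i y ≤ s * C :=
    mul_le_mul_of_nonneg_left (abs_le.1 (hB i y hy).1).2 (by linarith : 0 ≤ s)
  have h4 : s * (2 * C) ≤ s * (s ^ 7 * d) := mul_le_mul_of_nonneg_left hsd (by linarith)
  have h5 : om * s ≤ d / 2 * s := mul_le_mul_of_nonneg_right hom (by linarith)
  have h6 : s * (d / 2) ≤ s * s ^ 7 * (d / 2) := by
    have : 1 ≤ s ^ 7 := one_le_pow₀ hs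
    have h7 : s * 1 ≤ s * s ^ 7 := mul_le_mul_of_nonneg_left this (by linarith)
    have := mul_le_mul_of_nonneg_right h7 (by positivity : 0 ≤ d / 2)
    linarith
  rw [hT] at h2 hG
  nlinarith

/-- lower bound of `⟨W0, y⟩` -/
theorem W0_low (hs : 1 ≤ s) (hC : 1 ≤ C) (hR : 0 < R) (hp : ∀ i, nsq (D.p i) = 1)
    (hB : Bds D r C R) (hm0 : 0 < hm) (hmh : ∀ i, hm ≤ D.h i)
    (hs7 : 12 * C * (R + 1) ≤ s ^ 7 * hm) (hom : om ≤ hm / 4) (y : V3) (hy : y ∈ cube R) :
    hm / 4 * s ^ 8 * (1 - aw (Gp D r s) none y)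
      - Fintype.card I * (hm / 4 + 6 * C * R) * s ^ 8 * Real.exp (-(om * s))
      ≤ ip (W0 (Gp D r s) y) y := by
  rw [ip_W0, ← aw_some_sum]
  have hyv := cube_vn hy
  have hT : s ^ 8 = s * s ^ 7 := by ring
  have hterm : ∀ i, aw (Gp D r s) (some i) y * (hm / 4 * s ^ 8)
      - (hm / 4 + 6 * C * R) * s ^ 8 * Real.exp (-(om * s))
      ≤ aw (Gp D r s) (some i) y * ip (grd (Gp D r s i) y) y := by
    intro i
    have hw := aw_pos (Gp D r s) (some i) y
    have hvp := P_bound D r s C R hs hC hp hB y hy i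
    have hexp := Real.exp_pos (-(om * s))
    by_cases hi : D.h i / 2 ≤ ip (D.p i) y
    · -- good index
      have h1 : hm / 4 * s ^ 8 ≤ ip (grd (Gp D r s i) y) y := by
        rw [grd_Gp, sub_ip, smul_ip, smul_ip]
        have h2 : s ^ 8 * (hm / 2) ≤ s ^ 8 * ip (D.p i) y :=
          mul_le_mul_of_nonneg_left (by have := hmh i; linarith) (by positivity)
        have h3 : ip (grd (bpot D r i) y) y ≤ C * (3 * R) :=
          (ip_le _ _).trans (mul_le_mul (hB i y hy).2.1 hyv (vn_nonneg _) (by linarith))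
        have h4 : s * ip (grd (bpot D r i) y) y ≤ s * (C * (3 * R)) :=
          mul_le_mul_of_nonneg_left h3 (by linarith)
        have h5 : s * (12 * C * (R + 1)) ≤ s * (s ^ 7 * hm) :=
          mul_le_mul_of_nonneg_left hs7 (by linarith)
        have h6 : 0 ≤ s * C := by positivity
        rw [hT] at h2 ⊢
        nlinarith
      have h2 := mul_le_mul_of_nonneg_left h1 hw.le
      have h3 : 0 ≤ (hm / 4 + 6 * C * R) * s ^ 8 * Real.exp (-(om * s)) := by positivity
      linarith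
    · push Not at hi
      have hh := hmh i
      have h1 : aw (Gp D r s) (some i) y ≤ Real.exp (-(om * s)) := by
        apply w_tiny D r s C R om hs hB y hy i (hm / 2) (by positivity) (by linarith)
        · nlinarith
        · linarith
      have h2 : -(2 * C * s ^ 8 * (3 * R)) ≤ ip (grd (Gp D r s i) y) y := by
        have := (abs_le.1 (abs_ip_le (grd (Gp D r s i) y) y)).1
        have h3 : vn (grd (Gp D r s i) y) * vn y ≤ 2 * C * s ^ 8 * (3 * R) :=
          mul_le_mul hvp hyv (vn_nonneg _) (by positivity)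
        linarith
      have h3 := mul_le_mul_of_nonneg_left h2 hw.le
      have h4 : aw (Gp D r s) (some i) y * ((hm / 4 + 6 * C * R) * s ^ 8)
          ≤ Real.exp (-(om * s)) * ((hm / 4 + 6 * C * R) * s ^ 8) :=
        mul_le_mul_of_nonneg_right h1 (by positivity)
      nlinarith
  have := Finset.sum_le_sum (fun i (_ : i ∈ (Finset.univ : Finset I)) => hterm i)
  rw [Finset.sum_sub_distrib, ← Finset.sum_mul] at this
  simp only [Finset.sum_const, Finset.card_univ, nsmul_eq_mul] at this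
  nlinarith

end

end N9
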