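import Pool.Agent.Helper66.N9.An6
import Pool.Agent.Helper66.N9.An8

/-! The main pointwise inequality. -/

namespace N9

open scoped Quaternion

theorem exists_delta {I : Type} [Fintype I] (p q : I → V3)
    (hno : ∀ y : ℍ[ℝ], y ≠ 0 → ∃ i, im (p i) * y ≠ y * im (q i)) :
    ∃ δ : ℝ, 0 < δ ∧ ∀ a : ℍ[ℝ], δ * ‖a‖ ^ 2 ≤ ∑ i, ‖im (p i) * a - a * im (q i)‖ ^ 2 := by
  have : ProperSpace ℍ[ℝ] := FiniteDimensional.proper ℝ ℍ[ℝ]
  set f : ℍ[ℝ] → ℝ := fun a => ∑ i, ‖im (p i) * a - a * im (q i)‖ ^ 2 with hf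
  have hfc : Continuous f := continuous_finsetSum _ (fun i _ =>
    ((continuous_const.mul continuous_id).sub (continuous_id.mul continuous_const)).norm.pow 2)
  have hcomp : IsCompact (Metric.sphere (0 : ℍ[ℝ]) 1) := isCompact_sphere _ _
  have hne : (Metric.sphere (0 : ℍ[ℝ]) 1).Nonempty := ⟨1, by simp⟩
  obtain ⟨a0, ha0, hmin⟩ := hcomp.exists_isMinOn hne hfc.continuousOn
  have ha0n : ‖a0‖ = 1 := by simpa using ha0
  have hpos : 0 < f a0 := by
    have hne0 : a0 ≠ 0 := by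
      intro h; rw [h] at ha0n; simp at ha0n
    obtain ⟨i, hi⟩ := hno a0 hne0
    simp only [hf]
    apply Finset.sum_pos' (fun i _ => sq_nonneg _)
    refine ⟨i, Finset.mem_univ i, ?_⟩
    have : im (p i) * a0 - a0 * im (q i) ≠ 0 := sub_ne_zero.2 hi
    positivity
  refine ⟨f a0, hpos, ?_⟩
  intro a
  by_cases ha : a = 0
  · subst ha; simp
  · have hna : 0 < ‖a‖ := norm_pos_iff.2 ha
    have h1 : ‖a‖⁻¹ • a ∈ Metric.sphere (0 : ℍ[ℝ]) 1 := by
      simp only [Metric.mem_sphere, dist_zero_right]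
      rw [norm_smul, norm_inv, norm_norm]
      exact inv_mul_cancel₀ hna.ne'
    have h2 : f a0 ≤ f (‖a‖⁻¹ • a) := hmin h1
    have h3 : f (‖a‖⁻¹ • a) = (‖a‖⁻¹) ^ 2 * f a := by
      simp only [hf]
      rw [Finset.mul_sum]
      refine Finset.sum_congr rfl (fun i _ => ?_)
      rw [mul_smul_comm, smul_mul_assoc, ← smul_sub, norm_smul, mul_pow, Real.norm_eq_abs, sq_abs]
    rw [h3] at h2
    have h4 := mul_le_mul_of_nonneg_right h2 (sq_nonneg ‖a‖)
    have h5 : (‖a‖⁻¹) ^ 2 * f a * ‖a‖ ^ 2 = f a := by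
      field_simp
    rw [h5] at h4
    exact h4

section

variable {I K : Type} [Fintype I] [Fintype K] (D : AData I K)

/-- scalar product of `W0` with the tube field -/
theorem tube_ip (r s C R om CV : ℝ) (hs : 1 ≤ s) (hC : 1 ≤ C) (hCV : 0 ≤ CV)
    (hp : ∀ i, nsq (D.p i) = 1) (hB : Bds D r C R) (y : V3) (hy : y ∈ cube R) (i : I)
    (f v : V3) (ψ d : ℝ) (hv : v = ψ • f) (hvn : vn v ≤ CV) (hd : 0 < d)
    (hsd : 2 * C ≤ s ^ 7 * d) (hom : om ≤ d / 2)
    (hψ : ψ ≠ 0 → (∀ j, j ≠ i → ip (D.p j) y ≤ D.h j - d) ∨ D.h i + d ≤ ip (D.p i) y) :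
    |aw (Gp D r s) none y * ip (W0 (Gp D r s) y) v|
      ≤ 2 * C * s ^ 8 * CV * (aw (Gp D r s) none y * aw (Gp D r s) (some i) y
        + Fintype.card I * Real.exp (-(om * s))) := by
  classical
  set a0 := aw (Gp D r s) none y with ha0
  have ha0p : 0 < a0 := aw_pos _ _ _
  have ha01 : a0 ≤ 1 := aw_le_one _ _ _
  have hexp := Real.exp_pos (-(om * s))
  have hrhs : 0 ≤ 2 * C * s ^ 8 * CV * (a0 * aw (Gp D r s) (some i) y
        + Fintype.card I * Real.exp (-(om * s))) := by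
    have h1 := (aw_pos (Gp D r s) (some i) y).le
    have h2 : (0:ℝ) ≤ Fintype.card I := Nat.cast_nonneg _
    positivity
  by_cases h0 : ψ = 0
  · rw [hv, h0]; simpa using hrhs
  have hψ' := hψ h0
  have hw : ∀ j, j ≠ i → a0 * aw (Gp D r s) (some j) y ≤ Real.exp (-(om * s)) := by
    intro j hj
    have hwj0 := (aw_pos (Gp D r s) (some j) y).le
    have hwj1 := aw_le_one (Gp D r s) (some j) y
    rcases hψ' with h | h
    · have h1 := w_tiny D r s C R om hs hB y hy j d hd (by have := h j hj; linarith) hsd hom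
      calc a0 * aw (Gp D r s) (some j) y ≤ 1 * Real.exp (-(om * s)) :=
            mul_le_mul ha01 h1 hwj0 (by norm_num)
        _ = _ := one_mul _
    · have h1 := a0_tiny D r s C R om hs hB y hy i d hd (by linarith) hsd hom
      calc a0 * aw (Gp D r s) (some j) y ≤ Real.exp (-(om * s)) * 1 :=
            mul_le_mul h1 hwj1 hwj0 hexp.le
        _ = _ := mul_one _
  have hterm : ∀ j, |a0 * (aw (Gp D r s) (some j) y * ip (grd (Gp D r s j) y) v)|
      ≤ a0 * aw (Gp D r s) (some j) y * (2 * C * s ^ 8 * CV) := by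
    intro j
    have hwj0 := (aw_pos (Gp D r s) (some j) y).le
    rw [← mul_assoc, abs_mul, abs_of_nonneg (mul_nonneg ha0p.le hwj0)]
    apply mul_le_mul_of_nonneg_left _ (mul_nonneg ha0p.le hwj0)
    refine (abs_ip_le _ _).trans ?_
    exact mul_le_mul (P_bound D r s C R hs hC hp hB y hy j) hvn (vn_nonneg _) (by positivity)
  rw [ip_W0, Finset.mul_sum]
  refine (Finset.abs_sum_le_sum_abs _ _).trans ?_
  refine (Finset.sum_le_sum (fun j _ => hterm j)).trans ?_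
  rw [← Finset.sum_mul, mul_comm]
  apply mul_le_mul_of_nonneg_left _ (by positivity)
  rw [← Finset.add_sum_erase _ _ (Finset.mem_univ i)]
  have h5 : ∑ j ∈ Finset.univ.erase i, a0 * aw (Gp D r s) (some j) y
      ≤ ∑ j ∈ Finset.univ.erase i, Real.exp (-(om * s)) :=
    Finset.sum_le_sum (fun j hj => hw j (Finset.ne_of_mem_erase hj))
  have h6 : ∑ j ∈ Finset.univ.erase i, Real.exp (-(om * s))
      ≤ ∑ j : I, Real.exp (-(om * s)) :=
    Finset.sum_le_sum_of_subset_of_nonneg (Finset.erase_subset _ _) (fun _ _ _ => hexp.le)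
  have h7 : ∑ _j : I, Real.exp (-(om * s)) = (Fintype.card I : ℝ) * Real.exp (-(om * s)) := by
    rw [Finset.sum_const, Finset.card_univ, nsmul_eq_mul]
  rw [h7] at h6
  linarith

/-- main inequality in the region where `F` is the softmax field -/
theorem main_low (r s C R om : ℝ) (hs : 1 ≤ s) (hC : 1 ≤ C)
    (hR : 0 < R) (hp : ∀ i, nsq (D.p i) = 1) (hq : ∀ i, nsq (D.q i) = 1) (hB : Bds D r C R)
    (hm : ℝ) (hm0 : 0 < hm) (hmh : ∀ i, hm ≤ D.h i)
    (hs7 : 12 * C * (R + 1) ≤ s ^ 7 * hm) (homm : om ≤ hm / 4)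
    (y : V3) (hy : y ∈ cube R) (S : I → Prop)
    (hS0 : ∀ i, ¬ S i → aw (Gp D r s) (some i) y ≤ Real.exp (-(om * s)))
    (hS1 : ∀ i j, S i → S j → ip (D.p i) (D.p j) ≤ ip (D.q i) (D.q j))
    (hS2 : ∀ i j, S i → S j → s ^ 8 * |ip (D.p i) (grd (bpot D r j) y)| ≤ C * s)
    (lam eps KK : ℝ) (hlam : 1 ≤ lam) (hlK : 2 * KK ≤ lam) (heps : 0 ≤ eps)
    (hKK : ∀ t, 0 ≤ t → t * |deriv sg1 t| ≤ KK * sg1 t)
    -- radial field
    (Y0 : V3 → V3) (hY0 : ContDiff ℝ 1 Y0) (κ0 : ℝ) (hκ0 : 0 < κ0) (hκ01 : κ0 ≤ 1)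
    (c1 φ : ℝ) (hc1 : 0 < c1) (hφ : c1 ≤ φ) (hφ1 : φ ≤ 1) (hYφ : Y0 y = -(φ • y))
    -- tube fields
    (V : I → V3 → V3) (hV : ∀ i, ContDiff ℝ 1 (V i)) (f : I → V3) (ψ : I → ℝ)
    (hVψ : ∀ i, V i y = ψ i • f i) (CV : ℝ) (hCV : 1 ≤ CV) (hVn : ∀ i, vn (V i y) ≤ CV)
    (d : ℝ) (hd : 0 < d) (hsd : 2 * C ≤ s ^ 7 * d) (homd : om ≤ d / 2)
    (hψ : ∀ i, ψ i ≠ 0 → (∀ j, j ≠ i → ip (D.p j) y ≤ D.h j - d) ∨ D.h i + d ≤ ip (D.p i) y)
    (κ : ℝ) (hκ : 0 < κ) (hκ1 : κ ≤ 1) (κ1 : I → ℝ) (hκκ : ∀ i, κ ≤ κ1 i)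
    (b : ℝ) (hb : 0 < b) (hb1 : b ≤ 1) (hbN : 8 * Fintype.card I * b ≤ 1)
    (hsCV : 24 * C * CV ≤ s ^ 8)
    (F : V3 → V3) (hF : F =ᶠ[nhds y] avg (Gp D r s) lam (fun i _ => s ^ 8 • D.q i))
    (a : ℍ[ℝ]) :
    (κ0 / 2 * dv Y0 y - κ0 ^ 2 / 2 * nsq (Y0 y)
      + κ0 * (1 - sg1 (eps * Zf (Gp D r s) y)) * lam * c1 * (hm / 4) * s ^ 8
          * (1 - aw (Gp D r s) none y)
      - 16 * lam ^ 2 * C ^ 2 * s ^ 2 * (1 - aw (Gp D r s) none y)
      + sg1 (eps * Zf (Gp D r s) y) * (lam ^ 2 / 2 * nsq (W0 (Gp D r s) y)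
          - 13 * lam * C ^ 2 * s ^ 16 * (1 - aw (Gp D r s) none y))
      - (Fintype.card I * (hm / 4 + 6 * C * R) + 3 * C * CV * Fintype.card I
          + 10 * C ^ 2 * (Fintype.card I : ℝ) ^ 2) * lam ^ 2 * s ^ 16 * Real.exp (-(om * s)))
        * ‖a‖ ^ 2
      + b * κ * ∑ i, aw (Gp D r s) none y * (dv (V i) y - κ1 i * nsq (V i y))
          * ‖im (D.p i) * a - a * im (D.q i)‖ ^ 2
      ≤ 1 / 2 * (DD (Wf (Gp D r s) lam eps) (fun y => κ0 • Y0 y) y * ‖a‖ ^ 2)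
      + b * ∑ i, DD (Wf (Gp D r s) lam eps) (fun y => κ • (aw (Gp D r s) none y • V i y)) y
          * ‖im (D.p i) * a - a * im (D.q i)‖ ^ 2
      + (dv (Wf (Gp D r s) lam eps) y - nsq (Wf (Gp D r s) lam eps y) + nsq (F y)) * ‖a‖ ^ 2
      - cr F y a := by
  set G := Gp D r s with hG
  have hG2 : ∀ u, ContDiff ℝ 2 (G u) := fun u => Gp_contDiff D r s u
  have hG1 : ∀ u, ContDiff ℝ 1 (G u) := fun u => Gp_contDiff D r s u
  set A2 := ‖a‖ ^ 2 with hA2
  have hA0 : 0 ≤ A2 := sq_nonneg _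
  set ω := Real.exp (-(om * s)) with hω
  have hω0 : 0 < ω := Real.exp_pos _
  set a0 := aw G none y with ha0
  have ha0p : 0 < a0 := aw_pos G none y
  have ha01 : a0 ≤ 1 := aw_le_one G none y
  set w : I → ℝ := fun i => aw G (some i) y with hw
  have hwp : ∀ i, 0 < w i := fun i => aw_pos G (some i) y
  set g2 : I → ℝ := fun i => ‖im (D.p i) * a - a * im (D.q i)‖ ^ 2 with hg2
  have hg0 : ∀ i, 0 ≤ g2 i := fun i => sq_nonneg _
  have hg4 : ∀ i, g2 i ≤ 4 * A2 := fun i => g2_le _ _ (hp i) (hq i) a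
  set N : ℝ := (Fintype.card I : ℝ) with hN
  have hN0 : 0 ≤ N := Nat.cast_nonneg _
  set σ := sg1 (eps * Zf G y) with hσ
  have ht0 : 0 ≤ eps * Zf G y := mul_nonneg heps (Zf_pos G y).le
  have hσ0 : 0 ≤ σ := sg1_nonneg ht0
  have hσ1 : σ ≤ 1 := sg1_le_one
  have hs0 : 0 < s := by linarith
  have hT0 : 0 < s ^ 8 := by positivity
  have hsT : s ≤ s ^ 8 := by
    have : s ^ 1 ≤ s ^ 8 := pow_le_pow_right₀ hs (by norm_num)
    simpa using this
  have hT1 : 1 ≤ s ^ 8 := one_le_pow₀ hs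
  have hlam0 : 0 < lam := by linarith
  have hPb : ∀ i, vn (grd (G i) y) ≤ 2 * C * s ^ 8 := P_bound D r s C R hs hC hp hB y hy
  have hdvP : ∀ i, |dv (grd (G i)) y| ≤ s * C := dvP_bound D r s C R hs hB y hy
  -- F
  have hFy : F y = avg G lam (fun i _ => s ^ 8 • D.q i) y := hF.eq_of_nhds
  have hcr : cr F y a = cr (avg G lam (fun i _ => s ^ 8 • D.q i)) y a := by
    unfold cr
    exact Finset.sum_congr rfl (fun l _ => by rw [pd_congr hF l])
  -- V part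
  have hv1 := v1low G hG2 lam (s ^ 8) s C ω hlam hs hsT hC hω0.le D.p D.q hp hq y
    (fun i => grd (bpot D r i) y) (fun i => grd_Gp D r s i y) (fun i => (hB i y hy).2.1) hdvP S hS0
    hS1 hS2 a
  have hwc := wcut G lam eps hG2 hlam0 heps KK hKK y
  have hdA := dvA_le G lam (s ^ 8) s C hlam0.le hs hsT hC hG2 y hPb hdvP
  have hAsq : nsq (avg G lam (fun u => grd (G u)) y) = lam ^ 2 * nsq (W0 G y) := by
    rw [avg_W0, nsq_smul]
  set Q := nsq (W0 G y) with hQ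
  have hQ0 : 0 ≤ Q := nsq_nonneg _
  -- radial field
  have hDD0 := DD_smul (Wf G lam eps) Y0 κ0 y (hY0.differentiable (by norm_num) y)
  have hWy : Wf G lam eps y = ((1 - σ) * lam) • W0 G y := by
    unfold Wf; rw [avg_W0, smul_smul]
  have hipY : ip (Wf G lam eps y) (Y0 y) = -((1 - σ) * lam * φ * ip (W0 G y) y) := by
    rw [hWy, hYφ, smul_ip]
    have : ip (W0 G y) (-(φ • y)) = -(φ * ip (W0 G y) y) := by
      have e : -(φ • y) = (-φ) • y := by rw [neg_smul]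
      rw [e, ip_smul]; ring
    rw [this]; ring
  have hW0l := W0_low D r s C R hm om hs hC hR hp hB hm0 hmh hs7 homm y hy
  -- tube fields
  have htube : ∀ i, |a0 * ip (W0 G y) (V i y)| ≤ 2 * C * s ^ 8 * CV * (a0 * w i + N * ω) := by
    intro i
    exact tube_ip D r s C R om CV hs hC (by linarith) hp hB y hy i (f i) (V i y) (ψ i) d (hVψ i)
      (hVn i) hd hsd homd (hψ i)
  have hDDi : ∀ i, κ * (a0 * (dv (V i) y - κ1 i * nsq (V i y)))
      - κ * (3 * lam) * (2 * C * s ^ 8 * CV * (a0 * w i + N * ω))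
      ≤ DD (Wf G lam eps) (fun y => κ • (aw G none y • V i y)) y := by
    intro i
    rw [DD_tube G hG1 (Wf G lam eps) (V i) κ y ((hV i).differentiable (by norm_num) y), hWy,
      smul_ip]
    have h1 := htube i
    have h2 := abs_le.1 h1
    set X := a0 * ip (W0 G y) (V i y) with hX
    have hn := nsq_nonneg (V i y)
    have h3 : κ ^ 2 * (a0 ^ 2 * nsq (V i y)) ≤ κ * (a0 * (κ1 i * nsq (V i y))) := by
      have h4 : κ * a0 ≤ κ1 i := (mul_le_of_le_one_right hκ.le ha01).trans (hκκ i)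
      have h5 : κ * a0 * (κ * a0 * nsq (V i y)) ≤ κ * a0 * (κ1 i * nsq (V i y)) := by
        apply mul_le_mul_of_nonneg_left _ (mul_nonneg hκ.le ha0p.le)
        exact mul_le_mul_of_nonneg_right h4 hn
      linarith
    have h6 : κ * X + 2 * κ * ((1 - σ) * lam * X) ≤ κ * (3 * lam) * (2 * C * s ^ 8 * CV * (a0 * w i + N * ω)) := by
      have h7 : κ * X + 2 * κ * ((1 - σ) * lam * X) = κ * (1 + 2 * ((1 - σ) * lam)) * X := by ring
      rw [h7]
      have h8 : 0 ≤ 1 + 2 * ((1 - σ) * lam) := by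
        have := mul_nonneg (by linarith : 0 ≤ 1 - σ) hlam0.le
        linarith
      have h9 : 1 + 2 * ((1 - σ) * lam) ≤ 3 * lam := by
        have : (1 - σ) * lam ≤ 1 * lam := mul_le_mul_of_nonneg_right (by linarith) hlam0.le
        linarith
      have h10 : κ * (1 + 2 * ((1 - σ) * lam)) * X
          ≤ κ * (1 + 2 * ((1 - σ) * lam)) * (2 * C * s ^ 8 * CV * (a0 * w i + N * ω)) :=
        mul_le_mul_of_nonneg_left h2.2 (mul_nonneg hκ.le h8)
      have h11 : 0 ≤ 2 * C * s ^ 8 * CV * (a0 * w i + N * ω) := (abs_nonneg _).trans h1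
      have h12 : κ * (1 + 2 * ((1 - σ) * lam)) * (2 * C * s ^ 8 * CV * (a0 * w i + N * ω))
          ≤ κ * (3 * lam) * (2 * C * s ^ 8 * CV * (a0 * w i + N * ω)) :=
        mul_le_mul_of_nonneg_right (mul_le_mul_of_nonneg_left h9 hκ.le) h11
      linarith
    have h13 : aw G none y * ((1 - σ) * lam * ip (W0 G y) (V i y)) = (1 - σ) * lam * X := by
      rw [hX, ha0]; ring
    rw [h13, ← ha0]
    linarith
  -- sum of the tube terms
  have hsumi : b * κ * ∑ i, a0 * (dv (V i) y - κ1 i * nsq (V i y)) * g2 i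
      - ∑ i, lam * (a0 * w i) * ((s ^ 8) ^ 2 / 4) * g2 i
      - 3 * C * CV * N * lam ^ 2 * s ^ 16 * ω * A2
      ≤ b * ∑ i, DD (Wf G lam eps) (fun y => κ • (aw G none y • V i y)) y * g2 i := by
    have hi : ∀ i, b * κ * (a0 * (dv (V i) y - κ1 i * nsq (V i y)) * g2 i)
        - lam * (a0 * w i) * ((s ^ 8) ^ 2 / 4) * g2 i
        - b * (3 * lam) * (2 * C * s ^ 8 * CV * (N * ω)) * (4 * A2)
        ≤ b * (DD (Wf G lam eps) (fun y => κ • (aw G none y • V i y)) y * g2 i) := by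
      intro i
      have h1 := mul_le_mul_of_nonneg_left (mul_le_mul_of_nonneg_right (hDDi i) (hg0 i)) hb.le
      have haw : 0 ≤ a0 * w i := mul_nonneg ha0p.le (hwp i).le
      have h2 : b * (κ * (3 * lam) * (2 * C * s ^ 8 * CV * (a0 * w i)) * g2 i)
          ≤ lam * (a0 * w i) * ((s ^ 8) ^ 2 / 4) * g2 i := by
        have h3 : b * κ * (24 * C * CV) ≤ 1 * s ^ 8 := by
          have h4 : b * κ ≤ 1 := mul_le_one₀ hb1 hκ.le hκ1
          exact mul_le_mul h4 hsCV (by positivity) (by norm_num)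
        have h5 : 0 ≤ lam * (a0 * w i) * (s ^ 8 / 4) * g2 i := by
          have := hg0 i; positivity
        have h6 := mul_le_mul_of_nonneg_left h3 h5
        calc _ = lam * (a0 * w i) * (s ^ 8 / 4) * g2 i * (b * κ * (24 * C * CV)) := by ring
          _ ≤ lam * (a0 * w i) * (s ^ 8 / 4) * g2 i * (1 * s ^ 8) := h6
          _ = _ := by ring
      have h3 : b * (κ * (3 * lam) * (2 * C * s ^ 8 * CV * (N * ω)) * g2 i)
          ≤ b * (3 * lam) * (2 * C * s ^ 8 * CV * (N * ω)) * (4 * A2) := by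
        have h4 : κ * g2 i ≤ 1 * (4 * A2) := mul_le_mul hκ1 (hg4 i) (hg0 i) (by norm_num)
        have h5 : 0 ≤ b * (3 * lam) * (2 * C * s ^ 8 * CV * (N * ω)) := by positivity
        have := mul_le_mul_of_nonneg_left h4 h5
        linarith
      linarith
    have hs' := Finset.sum_le_sum (fun i (_ : i ∈ (Finset.univ : Finset I)) => hi i)
    have hc : ∑ _i : I, b * (3 * lam) * (2 * C * s ^ 8 * CV * (N * ω)) * (4 * A2)
        = N * (b * (3 * lam) * (2 * C * s ^ 8 * CV * (N * ω)) * (4 * A2)) := by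
      rw [Finset.sum_const, Finset.card_univ, nsmul_eq_mul]
    have e1 : ∑ i, b * κ * (a0 * (dv (V i) y - κ1 i * nsq (V i y)) * g2 i)
        = b * κ * ∑ i, a0 * (dv (V i) y - κ1 i * nsq (V i y)) * g2 i := by
      rw [Finset.mul_sum]
    have e2 : ∑ i, b * (DD (Wf G lam eps) (fun y => κ • (aw G none y • V i y)) y * g2 i)
        = b * ∑ i, DD (Wf G lam eps) (fun y => κ • (aw G none y • V i y)) y * g2 i := by
      rw [Finset.mul_sum]
    rw [Finset.sum_sub_distrib, Finset.sum_sub_distrib, hc, e1, e2] at hs'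
    have h7 : N * (b * (3 * lam) * (2 * C * s ^ 8 * CV * (N * ω)) * (4 * A2))
        ≤ 3 * C * CV * N * lam ^ 2 * s ^ 16 * ω * A2 := by
      have h8 : (8 * N * b) * (3 * lam * C * s ^ 8 * CV * N * ω * A2)
          ≤ 1 * (3 * lam * C * s ^ 8 * CV * N * ω * A2) :=
        mul_le_mul_of_nonneg_right hbN (by positivity)
      have h9 : lam * s ^ 8 ≤ lam ^ 2 * s ^ 16 := by
        have e1 : lam ≤ lam ^ 2 := le_self_pow₀ hlam (by norm_num)
        have e2 : s ^ 8 ≤ s ^ 16 := pow_le_pow_right₀ hs (by norm_num)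
        exact mul_le_mul e1 e2 hT0.le (by positivity)
      have h10 := mul_le_mul_of_nonneg_left h9 (by positivity : 0 ≤ 3 * C * CV * N * ω * A2)
      linarith
    linarith
  -- radial lower bound
  have hrad : (κ0 / 2 * dv Y0 y - κ0 ^ 2 / 2 * nsq (Y0 y)
      + κ0 * (1 - σ) * lam * c1 * (hm / 4) * s ^ 8 * (1 - a0)
      - N * (hm / 4 + 6 * C * R) * lam ^ 2 * s ^ 16 * ω) * A2
      ≤ 1 / 2 * (DD (Wf G lam eps) (fun y => κ0 • Y0 y) y * A2) := by
    rw [hDD0, hipY]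
    set B0 := ip (W0 G y) y with hB0
    set C5 := N * (hm / 4 + 6 * C * R) with hC5
    have hC50 : 0 ≤ C5 := by positivity
    have h1 : c1 * (hm / 4 * s ^ 8 * (1 - a0)) - C5 * s ^ 8 * ω ≤ φ * B0 := by
      have h2 := mul_le_mul_of_nonneg_left hW0l (by linarith : 0 ≤ φ)
      have h3 : 0 ≤ hm / 4 * s ^ 8 * (1 - a0) := by
        have : 0 ≤ 1 - a0 := by linarith
        positivity
      have h4 := mul_le_mul_of_nonneg_right hφ h3
      have h5 : φ * (C5 * s ^ 8 * ω) ≤ 1 * (C5 * s ^ 8 * ω) :=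
        mul_le_mul_of_nonneg_right hφ1 (by positivity)
      linarith
    have h6 : 0 ≤ κ0 * ((1 - σ) * lam) := mul_nonneg hκ0.le (mul_nonneg (by linarith) hlam0.le)
    have h7 := mul_le_mul_of_nonneg_left h1 h6
    have h8 : κ0 * ((1 - σ) * lam) * (C5 * s ^ 8 * ω) ≤ C5 * lam ^ 2 * s ^ 16 * ω := by
      have e1 : κ0 * ((1 - σ) * lam) ≤ lam ^ 2 := by
        have e2 : (1 - σ) * lam ≤ 1 * lam := mul_le_mul_of_nonneg_right (by linarith) hlam0.le
        have e3 : κ0 * ((1 - σ) * lam) ≤ 1 * lam :=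
          mul_le_mul hκ01 (by linarith) (mul_nonneg (by linarith) hlam0.le) (by norm_num)
        have e4 : lam ≤ lam ^ 2 := le_self_pow₀ hlam (by norm_num)
        linarith only [e3, e4]
      have e2 : s ^ 8 ≤ s ^ 16 := pow_le_pow_right₀ hs (by norm_num)
      have e3 : κ0 * ((1 - σ) * lam) * s ^ 8 ≤ lam ^ 2 * s ^ 16 :=
        mul_le_mul e1 e2 hT0.le (by positivity)
      have := mul_le_mul_of_nonneg_right e3 (by positivity : 0 ≤ C5 * ω)
      linarith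
    have h9 : κ0 / 2 * dv Y0 y - κ0 ^ 2 / 2 * nsq (Y0 y)
        + κ0 * (1 - σ) * lam * c1 * (hm / 4) * s ^ 8 * (1 - a0)
        - C5 * lam ^ 2 * s ^ 16 * ω
        ≤ 1 / 2 * (κ0 * dv Y0 y - 2 * κ0 * -((1 - σ) * lam * φ * B0) - κ0 ^ 2 * nsq (Y0 y)) := by
      linarith
    have := mul_le_mul_of_nonneg_right h9 hA0
    linarith
  -- V part
  have hVV : ∑ i, lam * (a0 * w i) * ((s ^ 8) ^ 2 / 4) * g2 i
      + (-(16 * lam ^ 2 * C ^ 2 * s ^ 2 * (1 - a0))
        + σ * (lam ^ 2 / 2 * Q - 13 * lam * C ^ 2 * s ^ 16 * (1 - a0))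
        - 10 * C ^ 2 * N ^ 2 * lam ^ 2 * s ^ 16 * ω) * A2
      ≤ (dv (Wf G lam eps) y - nsq (Wf G lam eps y) + nsq (F y)) * A2 - cr F y a := by
    rw [hFy, hcr]
    rw [hAsq] at hwc hv1
    have h1 : lam ^ 2 / 2 * Q ≤ (1 - KK / lam) * (lam ^ 2 * Q) := by
      have h2 : KK / lam ≤ 1 / 2 := by rw [div_le_iff₀ hlam0]; linarith
      have h3 : 0 ≤ lam ^ 2 * Q := by positivity
      have := mul_le_mul_of_nonneg_right h2 h3
      linarith
    have h4 : σ * (lam ^ 2 / 2 * Q - 13 * lam * C ^ 2 * s ^ 16 * (1 - a0))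
        ≤ (dv (Wf G lam eps) y - nsq (Wf G lam eps y))
        - (dv (avg G lam (fun u => grd (G u))) y - lam ^ 2 * Q) := by
      refine le_trans ?_ hwc
      apply mul_le_mul_of_nonneg_left _ hσ0
      have e : lam * (13 * C ^ 2 * (s ^ 8) ^ 2 * (1 - a0)) = 13 * lam * C ^ 2 * s ^ 16 * (1 - a0) := by
        ring
      rw [e] at hdA
      linarith
    have h5 := mul_le_mul_of_nonneg_right h4 hA0
    have e2 : lam ^ 2 * (16 * C ^ 2 * s ^ 2 * (1 - a0) + 10 * C ^ 2 * N ^ 2 * (s ^ 8) ^ 2 * ω) * A2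
        = (16 * lam ^ 2 * C ^ 2 * s ^ 2 * (1 - a0)
          + 10 * C ^ 2 * N ^ 2 * lam ^ 2 * s ^ 16 * ω) * A2 := by ring
    rw [e2] at hv1
    linarith
  linarith

end

end N9
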