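import Pool.Agent.Helper66.N9.Trig

/-! Density of trigonometric products of a given parity in `L^2` of the cube. -/

namespace N9

open MeasureTheory

/-- span of the trigonometric products of parity `ε` -/
noncomputable def PE (R : ℝ) (ε : Fin 3 → Bool) : Submodule ℝ (V3 → ℝ) :=
  Submodule.span ℝ (Set.range (fun k => eb R ε k))

theorem eb_mem (R : ℝ) (ε : Fin 3 → Bool) (k : Fin 3 → ℕ) : eb R ε k ∈ PE R ε :=
  Submodule.subset_span ⟨k, rfl⟩

theorem tr_cos_mul (b : Bool) (k : ℕ) (s : ℝ) :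
    Real.cos s * tr b ((k + 1 : ℕ) * s) = (tr b ((k + 2 : ℕ) * s) + tr b ((k : ℕ) * s)) / 2 := by
  cases b
  · simp only [tr, Bool.false_eq_true, if_false]
    have e1 : ((k + 2 : ℕ) : ℝ) * s = ((k + 1 : ℕ) : ℝ) * s + s := by push_cast; ring
    have e2 : ((k : ℕ) : ℝ) * s = ((k + 1 : ℕ) : ℝ) * s - s := by push_cast; ring
    rw [e1, e2, Real.sin_add, Real.sin_sub]; ring
  · simp only [tr, if_true]
    have e1 : ((k + 2 : ℕ) : ℝ) * s = ((k + 1 : ℕ) : ℝ) * s + s := by push_cast; ring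
    have e2 : ((k : ℕ) : ℝ) * s = ((k + 1 : ℕ) : ℝ) * s - s := by push_cast; ring
    rw [e1, e2, Real.cos_add, Real.cos_sub]; ring

theorem eb_update (R : ℝ) (ε : Fin 3 → Bool) (k : Fin 3 → ℕ) (i : Fin 3) (m : ℕ) (x : V3) :
    eb R ε (Function.update k i m) x
      = tr (ε i) (m * (Real.pi / R * x i))
        * ∏ j ∈ Finset.univ.erase i, tr (ε j) (Real.pi / R * k j * x j) := by
  unfold eb
  rw [← Finset.mul_prod_erase Finset.univ _ (Finset.mem_univ i)]
  congr 1
  · rw [Function.update_self]; congr 1; ring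
  · apply Finset.prod_congr rfl
    intro j hj
    rw [Function.update_of_ne (Finset.ne_of_mem_erase hj)]

theorem cos_mul_eb_mem (R : ℝ) (ε : Fin 3 → Bool) (k : Fin 3 → ℕ) (i : Fin 3) :
    (fun x : V3 => Real.cos (Real.pi / R * x i) * eb R ε k x) ∈ PE R ε := by
  obtain ⟨m, hm⟩ : ∃ m, m = k i := ⟨_, rfl⟩
  have hk : k = Function.update k i m := by rw [hm, Function.update_eq_self]
  cases m with
  | zero =>
    cases hb : ε i with
    | true =>
      have : (fun x : V3 => Real.cos (Real.pi / R * x i) * eb R ε k x)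
          = eb R ε (Function.update k i 1) := by
        funext x
        rw [hk, eb_update, Function.update_idem, eb_update, hb]
        simp [tr]
      rw [this]
      exact eb_mem R ε _
    | false =>
      have : (fun x : V3 => Real.cos (Real.pi / R * x i) * eb R ε k x) = 0 := by
        funext x
        rw [hk, eb_update, hb]
        simp [tr]
      rw [this]
      exact Submodule.zero_mem _
  | succ m =>
    have : (fun x : V3 => Real.cos (Real.pi / R * x i) * eb R ε k x)
        = (1 / 2 : ℝ) • eb R ε (Function.update k i (m + 2))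
          + (1 / 2 : ℝ) • eb R ε (Function.update k i m) := by
      funext x
      simp only [Pi.add_apply, Pi.smul_apply, smul_eq_mul]
      rw [hk, eb_update, Function.update_idem, Function.update_idem, eb_update, eb_update]
      have h := tr_cos_mul (ε i) m (Real.pi / R * x i)
      rw [← mul_assoc, h]
      ring
    rw [this]
    exact Submodule.add_mem _ (Submodule.smul_mem _ _ (eb_mem R ε _))
      (Submodule.smul_mem _ _ (eb_mem R ε _))

theorem cos_mul_mem (R : ℝ) (ε : Fin 3 → Bool) (i : Fin 3) (f : V3 → ℝ) (hf : f ∈ PE R ε) :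
    (fun x : V3 => Real.cos (Real.pi / R * x i) * f x) ∈ PE R ε := by
  induction hf using Submodule.span_induction with
  | mem f hf =>
    obtain ⟨k, rfl⟩ := hf
    exact cos_mul_eb_mem R ε k i
  | zero =>
    have : (fun x : V3 => Real.cos (Real.pi / R * x i) * (0 : V3 → ℝ) x) = 0 := by
      funext x; simp
    rw [this]; exact Submodule.zero_mem _
  | add f g _ _ hf hg =>
    have : (fun x : V3 => Real.cos (Real.pi / R * x i) * (f + g) x)
        = (fun x : V3 => Real.cos (Real.pi / R * x i) * f x)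
          + (fun x : V3 => Real.cos (Real.pi / R * x i) * g x) := by
      funext x; simp [mul_add]
    rw [this]; exact Submodule.add_mem _ hf hg
  | smul a f _ hf =>
    have : (fun x : V3 => Real.cos (Real.pi / R * x i) * (a • f) x)
        = a • (fun x : V3 => Real.cos (Real.pi / R * x i) * f x) := by
      funext x; simp; ring
    rw [this]; exact Submodule.smul_mem _ _ hf

/-- the generators of the algebra -/
noncomputable def gen (R : ℝ) (i : Fin 3) : C(box R, ℝ) :=
  ⟨fun x => Real.cos (Real.pi / R * (x : V3) i), by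
    have h : Continuous fun x : box R => (x : V3) i :=
      (continuous_apply i).comp continuous_subtype_val
    exact Real.continuous_cos.comp (continuous_const.mul h)⟩

noncomputable def AL (R : ℝ) : Subalgebra ℝ C(box R, ℝ) :=
  Algebra.adjoin ℝ (Set.range (gen R))

theorem AL_sep (R : ℝ) (hR : 0 < R) : (AL R).SeparatesPoints := by
  intro x y hxy
  have hne : (x : V3) ≠ (y : V3) := fun h => hxy (Subtype.ext h)
  have : ∃ i, (x : V3) i ≠ (y : V3) i := by
    by_contra hc
    push Not at hc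
    exact hne (funext hc)
  obtain ⟨i, hi⟩ := this
  refine ⟨gen R i, ⟨gen R i, Algebra.subset_adjoin ⟨i, rfl⟩, rfl⟩, ?_⟩
  intro h
  apply hi
  have hx : (x : V3) ∈ Set.Icc (0 : V3) (fun _ => R) := x.2
  have hy : (y : V3) ∈ Set.Icc (0 : V3) (fun _ => R) := y.2
  have hpR : 0 < Real.pi / R := div_pos Real.pi_pos hR
  have b1 : ∀ z : V3, z ∈ Set.Icc (0 : V3) (fun _ => R) →
      Real.pi / R * z i ∈ Set.Icc 0 Real.pi := by
    intro z hz
    constructor
    · exact mul_nonneg hpR.le (hz.1 i)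
    · have : z i ≤ R := hz.2 i
      calc Real.pi / R * z i ≤ Real.pi / R * R := by
            exact mul_le_mul_of_nonneg_left this hpR.le
        _ = Real.pi := by field_simp
  have h' : Real.cos (Real.pi / R * (x : V3) i) = Real.cos (Real.pi / R * (y : V3) i) := h
  have := Real.injOn_cos (b1 _ hx) (b1 _ hy) h'
  exact mul_left_cancel₀ hpR.ne' this

theorem AL_mul (R : ℝ) (ε : Fin 3 → Bool) (a : C(box R, ℝ)) (ha : a ∈ AL R) :
    ∀ f ∈ PE R ε, ∃ g ∈ PE R ε, ∀ x : box R, g (x : V3) = a x * f (x : V3) := by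
  induction ha using Algebra.adjoin_induction with
  | mem a ha =>
    obtain ⟨i, rfl⟩ := ha
    intro f hf
    exact ⟨_, cos_mul_mem R ε i f hf, fun x => rfl⟩
  | algebraMap r =>
    intro f hf
    exact ⟨r • f, Submodule.smul_mem _ _ hf, fun x => rfl⟩
  | add a b _ _ iha ihb =>
    intro f hf
    obtain ⟨g1, hg1, h1⟩ := iha f hf
    obtain ⟨g2, hg2, h2⟩ := ihb f hf
    refine ⟨g1 + g2, Submodule.add_mem _ hg1 hg2, fun x => ?_⟩
    simp only [Pi.add_apply, ContinuousMap.add_apply]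
    rw [h1, h2]; ring
  | mul a b _ _ iha ihb =>
    intro f hf
    obtain ⟨g2, hg2, h2⟩ := ihb f hf
    obtain ⟨g1, hg1, h1⟩ := iha g2 hg2
    refine ⟨g1, hg1, fun x => ?_⟩
    simp only [ContinuousMap.mul_apply]
    rw [h1, h2]; ring

/-- the basic product: `cos 0 = 1` or `sin (π x_i / R)` -/
noncomputable def S0 (R : ℝ) (ε : Fin 3 → Bool) : V3 → ℝ :=
  eb R ε (fun i => if ε i then 0 else 1)

theorem S0_ne (R : ℝ) (hR : 0 < R) (ε : Fin 3 → Bool) (x : V3) (hx : x ∈ box R)
    (h0 : ∀ i, x i ≠ 0) (h1 : ∀ i, x i ≠ R) : S0 R ε x ≠ 0 := by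
  unfold S0 eb
  rw [Finset.prod_ne_zero_iff]
  intro i _
  cases hb : ε i with
  | true => simp [tr, hb]
  | false =>
    simp only [tr, hb, Bool.false_eq_true, if_false, Nat.cast_one, mul_one]
    have hx' : x ∈ Set.Icc (0 : V3) (fun _ => R) := hx
    have hp : 0 < x i := lt_of_le_of_ne (hx'.1 i) (Ne.symm (h0 i))
    have hq : x i < R := lt_of_le_of_ne (hx'.2 i) (h1 i)
    have hpR : 0 < Real.pi / R := div_pos Real.pi_pos hR
    have : 0 < Real.sin (Real.pi / R * x i) := by
      apply Real.sin_pos_of_pos_of_lt_pi (mul_pos hpR hp)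
      calc Real.pi / R * x i < Real.pi / R * R := mul_lt_mul_of_pos_left hq hpR
        _ = Real.pi := by field_simp
    exact this.ne'

theorem S0_ae (R : ℝ) (hR : 0 < R) (ε : Fin 3 → Bool) :
    ∀ᵐ x : V3 ∂(volume.restrict (box R)), S0 R ε x ≠ 0 := by
  rw [ae_restrict_iff' (box_meas R)]
  have h0 : ∀ i : Fin 3, ∀ c : ℝ, ∀ᵐ x : V3, x i ≠ c := by
    intro i c
    have := Measure.pi_hyperplane (fun _ : Fin 3 => (volume : Measure ℝ)) i c
    rw [ae_iff, volume_pi]
    simpa using this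
  have h1 : ∀ᵐ x : V3, ∀ i : Fin 3, x i ≠ 0 := ae_all_iff.2 (fun i => h0 i 0)
  have h2 : ∀ᵐ x : V3, ∀ i : Fin 3, x i ≠ R := ae_all_iff.2 (fun i => h0 i R)
  filter_upwards [h1, h2] with x hx1 hx2 hx
  exact S0_ne R hR ε x hx hx1 hx2

theorem cut_small (R : ℝ) (hR : 0 < R) (ε : Fin 3 → Bool) (g : V3 → ℝ) (hg : Continuous g)
    (δ : ℝ) (hδ : 0 < δ) :
    ∃ d : ℝ, 0 < d ∧ ∫ x in box R, (g x * (d / ((S0 R ε x) ^ 2 + d))) ^ 2 < δ := by
  have hS : Continuous (S0 R ε) := eb_cont R ε _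
  have hlim : Filter.Tendsto (fun n : ℕ => ∫ x in box R,
      (g x * ((1 / ((n : ℝ) + 1)) / ((S0 R ε x) ^ 2 + 1 / ((n : ℝ) + 1)))) ^ 2)
      Filter.atTop (nhds (∫ x in box R, (0 : ℝ))) := by
    apply tendsto_integral_of_dominated_convergence (fun x => (g x) ^ 2)
    · intro n
      apply Continuous.aestronglyMeasurable
      have hp : ∀ x : V3, (S0 R ε x) ^ 2 + 1 / ((n : ℝ) + 1) ≠ 0 := by
        intro x; positivity
      exact (hg.mul (continuous_const.div ((hS.pow 2).add continuous_const) hp)).pow 2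
    · exact integrableOn_box (hg.pow 2) R
    · intro n
      filter_upwards with x
      have hp : 0 < 1 / ((n : ℝ) + 1) := by positivity
      rw [Real.norm_eq_abs, abs_of_nonneg (sq_nonneg _), mul_pow]
      have hq : ((1 / ((n : ℝ) + 1)) / ((S0 R ε x) ^ 2 + 1 / ((n : ℝ) + 1))) ^ 2 ≤ 1 := by
        apply pow_le_one₀ (by positivity)
        rw [div_le_one (by positivity)]
        nlinarith [sq_nonneg (S0 R ε x)]
      nlinarith [sq_nonneg (g x)]
    · filter_upwards [S0_ae R hR ε] with x hx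
      have h1 : Filter.Tendsto (fun n : ℕ => 1 / ((n : ℝ) + 1)) Filter.atTop (nhds 0) :=
        tendsto_one_div_add_atTop_nhds_zero_nat
      have hx2 : (S0 R ε x) ^ 2 + 0 ≠ 0 := by
        rw [add_zero]; exact pow_ne_zero 2 hx
      have h2 := (((h1.div (tendsto_const_nhds.add h1) hx2).const_mul (g x)).pow 2)
      simpa using h2
  rw [integral_zero] at hlim
  have := (hlim.eventually (gt_mem_nhds hδ)).exists
  obtain ⟨n, hn⟩ := this
  exact ⟨1 / ((n : ℝ) + 1), by positivity, hn⟩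

theorem PE_cont (R : ℝ) (ε : Fin 3 → Bool) (f : V3 → ℝ) (hf : f ∈ PE R ε) : Continuous f := by
  induction hf using Submodule.span_induction with
  | mem f hf => obtain ⟨k, rfl⟩ := hf; exact eb_cont R ε k
  | zero => exact continuous_const
  | add f g _ _ hf hg => exact hf.add hg
  | smul a f _ hf => exact hf.const_smul a

/-- density, first form -/
theorem dens0 (R : ℝ) (hR : 0 < R) (ε : Fin 3 → Bool) (g : V3 → ℝ) (hg : Continuous g)
    (δ : ℝ) (hδ : 0 < δ) : ∃ f ∈ PE R ε, ∫ x in box R, (g x - f x) ^ 2 < δ := by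
  have hS : Continuous (S0 R ε) := eb_cont R ε _
  obtain ⟨d, hd, hcut⟩ := cut_small R hR ε g hg (δ / 4) (by positivity)
  -- volume of the box
  set vol : ℝ := ∫ _x in box R, (1:ℝ) with hvol
  have hvol0 : 0 ≤ vol := integral_nonneg (fun _ => zero_le_one)
  set η : ℝ := Real.sqrt (δ / (4 * (vol + 1))) with hη
  have hη0 : 0 < η := Real.sqrt_pos.2 (by positivity)
  have hη2 : η ^ 2 = δ / (4 * (vol + 1)) := Real.sq_sqrt (by positivity)
  have hpos : ∀ x : V3, (S0 R ε x) ^ 2 + d ≠ 0 := by intro x; positivity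
  have hhc : Continuous (fun x : V3 => g x * S0 R ε x / ((S0 R ε x) ^ 2 + d)) :=
    (hg.mul hS).div ((hS.pow 2).add continuous_const) hpos
  let h : C(box R, ℝ) := ⟨fun x => g x * S0 R ε x / ((S0 R ε x) ^ 2 + d),
    hhc.comp continuous_subtype_val⟩
  have : CompactSpace (box R) := isCompact_iff_compactSpace.1 (box_compact R)
  obtain ⟨a, ha⟩ := ContinuousMap.exists_mem_subalgebra_near_continuousMap_of_separatesPoints
    (AL R) (AL_sep R hR) h η hη0
  obtain ⟨f, hf, hfx⟩ := AL_mul R ε a.1 a.2 (S0 R ε) (eb_mem R ε _)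
  refine ⟨f, hf, ?_⟩
  have hfc := PE_cont R ε f hf
  have hpt : ∀ x ∈ box R, (g x - f x) ^ 2
      ≤ 2 * (g x * (d / ((S0 R ε x) ^ 2 + d))) ^ 2 + 2 * η ^ 2 := by
    intro x hx
    have h1 : f x = a.1 ⟨x, hx⟩ * S0 R ε x := hfx ⟨x, hx⟩
    have h2 : |a.1 ⟨x, hx⟩ - g x * S0 R ε x / ((S0 R ε x) ^ 2 + d)| ≤ η := by
      have := ContinuousMap.norm_coe_le_norm (a.1 - h) ⟨x, hx⟩
      exact this.trans ha.le
    have h3 : |S0 R ε x| ≤ 1 := eb_abs_le R ε _ x
    have h4 : g x - f x = g x * (d / ((S0 R ε x) ^ 2 + d))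
        - (a.1 ⟨x, hx⟩ - g x * S0 R ε x / ((S0 R ε x) ^ 2 + d)) * S0 R ε x := by
      rw [h1]
      have := hpos x
      field_simp
      ring
    rw [h4]
    set A := g x * (d / ((S0 R ε x) ^ 2 + d))
    set B := (a.1 ⟨x, hx⟩ - g x * S0 R ε x / ((S0 R ε x) ^ 2 + d)) * S0 R ε x with hB
    have hB2 : B ^ 2 ≤ η ^ 2 := by
      rw [hB, mul_pow]
      have e1 : (a.1 ⟨x, hx⟩ - g x * S0 R ε x / ((S0 R ε x) ^ 2 + d)) ^ 2 ≤ η ^ 2 :=
        sq_le_sq' (by linarith [(abs_le.1 h2).1]) (abs_le.1 h2).2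
      have e2 : (S0 R ε x) ^ 2 ≤ 1 := by
        rw [← one_pow 2]
        exact sq_le_sq' (by linarith [(abs_le.1 h3).1]) (abs_le.1 h3).2
      calc _ ≤ η ^ 2 * 1 := mul_le_mul e1 e2 (sq_nonneg _) (sq_nonneg _)
        _ = η ^ 2 := mul_one _
    nlinarith [sq_nonneg (A + B)]
  have hi1 : IntegrableOn (fun x => (g x - f x) ^ 2) (box R) :=
    integrableOn_box ((hg.sub hfc).pow 2) R
  have hi2 : IntegrableOn (fun x => (g x * (d / ((S0 R ε x) ^ 2 + d))) ^ 2) (box R) :=
    integrableOn_box ((hg.mul (continuous_const.div ((hS.pow 2).add continuous_const) hpos)).pow 2) R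
  have hi3 : IntegrableOn (fun _ : V3 => (1:ℝ)) (box R) := integrableOn_box continuous_const R
  calc ∫ x in box R, (g x - f x) ^ 2
      ≤ ∫ x in box R, (2 * (g x * (d / ((S0 R ε x) ^ 2 + d))) ^ 2 + 2 * η ^ 2 * 1) := by
        apply setIntegral_mono_on hi1 ((hi2.const_mul 2).add (hi3.const_mul _)) (box_meas R)
        intro x hx
        rw [mul_one]
        exact hpt x hx
    _ = 2 * (∫ x in box R, (g x * (d / ((S0 R ε x) ^ 2 + d))) ^ 2) + 2 * η ^ 2 * vol := by
        rw [integral_add (hi2.const_mul 2) (hi3.const_mul _), integral_const_mul,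
          integral_const_mul]
    _ < 2 * (δ / 4) + 2 * η ^ 2 * vol := by linarith
    _ ≤ δ := by
        rw [hη2]
        have : 2 * (δ / (4 * (vol + 1))) * vol ≤ δ / 2 := by
          rw [show 2 * (δ / (4 * (vol + 1))) * vol = (δ / 2) * (vol / (vol + 1)) by
            field_simp; ring]
          have : vol / (vol + 1) ≤ 1 := by
            rw [div_le_one (by linarith)]; linarith
          nlinarith
        linarith

/-- the index box -/
def Bn (n : ℕ) : Finset (Fin 3 → ℕ) := Fintype.piFinset (fun _ => Finset.range (n + 1))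

theorem mem_Bn (n : ℕ) (k : Fin 3 → ℕ) : k ∈ Bn n ↔ ∀ i, k i ≤ n := by
  unfold Bn
  rw [Fintype.mem_piFinset]
  simp

/-- `k` is admissible for parity `ε`: no `sin 0` -/
def adm (ε : Fin 3 → Bool) (k : Fin 3 → ℕ) : Prop := ∀ i, ε i = false → k i ≠ 0

theorem eb_not_adm (R : ℝ) (ε : Fin 3 → Bool) (k : Fin 3 → ℕ) (h : ¬ adm ε k) (x : V3) :
    eb R ε k x = 0 := by
  unfold adm at h
  push Not at h
  obtain ⟨i, hi, hk⟩ := h
  unfold eb
  apply Finset.prod_eq_zero (Finset.mem_univ i)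
  simp [hi, hk, tr]

/-- density, final form -/
theorem dens (R : ℝ) (hR : 0 < R) (ε : Fin 3 → Bool) (g : V3 → ℝ) (hg : Continuous g)
    (δ : ℝ) (hδ : 0 < δ) : ∃ N : ℕ, ∀ n ≥ N, ∃ c : (Fin 3 → ℕ) → ℝ,
      (∀ k, ¬ adm ε k → c k = 0) ∧
      ∫ x in box R, (g x - ∑ k ∈ Bn n, c k * eb R ε k x) ^ 2 < δ := by
  classical
  obtain ⟨f, hf, hint⟩ := dens0 R hR ε g hg δ hδ
  unfold PE at hf
  rw [Finsupp.mem_span_range_iff_exists_finsupp] at hf
  obtain ⟨c, hc⟩ := hf
  refine ⟨c.support.sup (fun k => ∑ i, k i), fun n hn => ?_⟩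
  refine ⟨fun k => if adm ε k then c k else 0, fun k hk => by simp [hk], ?_⟩
  have : ∀ x, f x = ∑ k ∈ Bn n, (if adm ε k then c k else 0) * eb R ε k x := by
    intro x
    rw [← hc, Finsupp.sum, Finset.sum_apply]
    have hsub : c.support ⊆ Bn n := by
      intro k hk
      rw [mem_Bn]
      intro i
      have h1 : ∑ i, k i ≤ n := le_trans (Finset.le_sup (f := fun k : Fin 3 → ℕ => ∑ i, k i) hk) hn
      have h2 : k i ≤ ∑ i, k i := Finset.single_le_sum (fun _ _ => Nat.zero_le _)
        (Finset.mem_univ i)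
      exact h2.trans h1
    rw [← Finset.sum_subset hsub]
    · apply Finset.sum_congr rfl
      intro k _
      by_cases hk : adm ε k
      · simp [hk]
      · simp [hk, eb_not_adm R ε k hk x]
    · intro k _ hk
      have : c k = 0 := by simpa using hk
      simp [this]
  simp_rw [← this]
  exact hint

end N9
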