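import Pool.Agent.Helper66.N9.Fld

/-! The Dirac operator on trigonometric polynomials, boundary conditions. -/

namespace N9

open MeasureTheory
open scoped Quaternion

@[simp] theorem im_re (v : V3) : (im v).re = 0 := rfl
@[simp] theorem im_imI (v : V3) : (im v).imI = v 0 := rfl
@[simp] theorem im_imJ (v : V3) : (im v).imJ = v 1 := rfl
@[simp] theorem im_imK (v : V3) : (im v).imK = v 2 := rfl

theorem pd_mk4 (g : V3 → Fin 4 → ℝ) (x : V3) (hg : ∀ j, DifferentiableAt ℝ (fun y => g y j) x)
    (i : Fin 3) : pd i (fun y => mk4 (g y)) x = mk4 (fun j => pd i (fun y => g y j) x) := by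
  have h1 : HasFDerivAt g (ContinuousLinearMap.pi fun j => fderiv ℝ (fun y => g y j) x) x :=
    hasFDerivAt_pi.2 (fun j => (hg j).hasFDerivAt)
  have h2 := (mk4L.hasFDerivAt (x := g x)).comp x h1
  have h3 : (fun y => mk4 (g y)) = mk4L ∘ g := rfl
  unfold pd
  rw [h3, h2.fderiv]
  rfl

theorem Dop_mk4 (g : V3 → Fin 4 → ℝ) (x : V3)
    (hg : ∀ j, DifferentiableAt ℝ (fun y => g y j) x) :
    Dop (fun y => mk4 (g y)) x = mk4 (fun j => match j with
      | 0 => -(pd 0 (fun y => g y 1) x + pd 1 (fun y => g y 2) x + pd 2 (fun y => g y 3) x)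
      | 1 => pd 0 (fun y => g y 0) x + pd 1 (fun y => g y 3) x - pd 2 (fun y => g y 2) x
      | 2 => pd 1 (fun y => g y 0) x + pd 2 (fun y => g y 1) x - pd 0 (fun y => g y 3) x
      | 3 => pd 2 (fun y => g y 0) x + pd 0 (fun y => g y 2) x - pd 1 (fun y => g y 1) x) := by
  unfold Dop
  simp_rw [pd_mk4 g x hg]
  rw [Fin.sum_univ_three]
  ext
  · simp [e, Quaternion.re_mul]; ring
  · simp [e, Quaternion.imI_mul]; ring
  · simp [e, Quaternion.imJ_mul]; ring
  · simp [e, Quaternion.imK_mul]; ring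

theorem pd_sum_eb (R : ℝ) (ε : Fin 3 → Bool) (s : Finset (Fin 3 → ℕ)) (c : (Fin 3 → ℕ) → ℝ)
    (i : Fin 3) (x : V3) :
    pd i (fun y => ∑ k ∈ s, c k * eb R ε k y) x
      = sg (ε i) * ∑ k ∈ s, c k * (Real.pi / R * k i) * eb R (flip i ε) k x := by
  have hd : ∀ k, DifferentiableAt ℝ (eb R ε k) x := fun k =>
    (eb_contDiff R ε k).differentiable (by simp) x
  have h1 : HasFDerivAt (fun y => ∑ k ∈ s, c k * eb R ε k y)
      (∑ k ∈ s, c k • fderiv ℝ (eb R ε k) x) x :=
    HasFDerivAt.fun_sum (fun k _ => (hd k).hasFDerivAt.const_mul (c k))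
  unfold pd
  rw [h1.fderiv, _root_.sum_apply, Finset.mul_sum]
  refine Finset.sum_congr rfl (fun k _ => ?_)
  rw [_root_.smul_apply, smul_eq_mul]
  have := pd_eb R ε k i x
  unfold pd at this
  rw [this]
  ring

theorem flip_es : ∀ (i : Fin 3), flip i (es 0) = et i.succ := by
  intro i; funext l; fin_cases i <;> fin_cases l <;> rfl

theorem Dop_fld (R : ℝ) (s : Finset (Fin 3 → ℕ)) (c : Cf) (x : V3) :
    Dop (fld R es s c) x = fld R et s (dc R c) x := by
  have hd : ∀ j, DifferentiableAt ℝ (fun y => ∑ k ∈ s, c j k * eb R (es j) k y) x := by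
    intro j
    have : ContDiff ℝ ⊤ (fun y => ∑ k ∈ s, c j k * eb R (es j) k y) :=
      ContDiff.sum (fun k _ => contDiff_const.mul (eb_contDiff R (es j) k))
    exact this.differentiable (by simp) x
  have h0 : fld R es s c = fun y => mk4 ((fun y j => ∑ k ∈ s, c j k * eb R (es j) k y) y) := rfl
  rw [h0, Dop_mk4 _ x hd]
  unfold fld
  congr 1
  have f01 : flip 0 (es 1) = et 0 := by funext l; fin_cases l <;> rfl
  have f12 : flip 1 (es 2) = et 0 := by funext l; fin_cases l <;> rfl
  have f23 : flip 2 (es 3) = et 0 := by funext l; fin_cases l <;> rfl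
  have f00 : flip 0 (es 0) = et 1 := by funext l; fin_cases l <;> rfl
  have f10 : flip 1 (es 0) = et 2 := by funext l; fin_cases l <;> rfl
  have f20 : flip 2 (es 0) = et 3 := by funext l; fin_cases l <;> rfl
  have f13 : flip 1 (es 3) = et 1 := by funext l; fin_cases l <;> rfl
  have f22 : flip 2 (es 2) = et 1 := by funext l; fin_cases l <;> rfl
  have f21 : flip 2 (es 1) = et 2 := by funext l; fin_cases l <;> rfl
  have f03 : flip 0 (es 3) = et 2 := by funext l; fin_cases l <;> rfl
  have f02 : flip 0 (es 2) = et 3 := by funext l; fin_cases l <;> rfl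
  have f11 : flip 1 (es 1) = et 3 := by funext l; fin_cases l <;> rfl
  funext j
  fin_cases j
  · show -(_ + _ + _) = ∑ k ∈ s, dc R c 0 k * eb R (et 0) k x
    rw [pd_sum_eb, pd_sum_eb, pd_sum_eb, f01, f12, f23]
    simp only [Finset.mul_sum, ← Finset.sum_add_distrib, ← Finset.sum_neg_distrib]
    refine Finset.sum_congr rfl (fun k _ => ?_)
    simp only [es, sg, dc, decide_true, if_true]
    ring
  · show _ + _ - _ = ∑ k ∈ s, dc R c 1 k * eb R (et 1) k x
    rw [pd_sum_eb, pd_sum_eb, pd_sum_eb, f00, f13, f22]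
    simp only [Finset.mul_sum, ← Finset.sum_add_distrib, ← Finset.sum_sub_distrib]
    refine Finset.sum_congr rfl (fun k _ => ?_)
    simp only [es, sg, dc, if_true, show ((1 : Fin 3) = 2) = False by simp,
      show ((2 : Fin 3) = 1) = False by simp, decide_false, Bool.false_eq_true, if_false]
    ring
  · show _ + _ - _ = ∑ k ∈ s, dc R c 2 k * eb R (et 2) k x
    rw [pd_sum_eb, pd_sum_eb, pd_sum_eb, f10, f21, f03]
    simp only [Finset.mul_sum, ← Finset.sum_add_distrib, ← Finset.sum_sub_distrib]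
    refine Finset.sum_congr rfl (fun k _ => ?_)
    simp only [es, sg, dc, if_true, show ((2 : Fin 3) = 0) = False by simp,
      show ((0 : Fin 3) = 2) = False by simp, decide_false, Bool.false_eq_true, if_false]
    ring
  · show _ + _ - _ = ∑ k ∈ s, dc R c 3 k * eb R (et 3) k x
    rw [pd_sum_eb, pd_sum_eb, pd_sum_eb, f20, f02, f11]
    simp only [Finset.mul_sum, ← Finset.sum_add_distrib, ← Finset.sum_sub_distrib]
    refine Finset.sum_congr rfl (fun k _ => ?_)
    simp only [es, sg, dc, if_true, show ((0 : Fin 3) = 1) = False by simp,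
      show ((1 : Fin 3) = 0) = False by simp, decide_false, Bool.false_eq_true, if_false]
    ring

/-- the sine factor vanishes on the faces -/
theorem eb_face (R : ℝ) (hR : 0 < R) (ε : Fin 3 → Bool) (k : Fin 3 → ℕ) (i : Fin 3)
    (hi : ε i = false) (x : V3) (hx : x i = 0 ∨ x i = R) : eb R ε k x = 0 := by
  unfold eb
  apply Finset.prod_eq_zero (Finset.mem_univ i)
  simp only [tr, hi, Bool.false_eq_true, if_false]
  rcases hx with hx | hx
  · rw [hx]; simp
  · rw [hx]
    have : Real.pi / R * (k i : ℝ) * R = (k i : ℝ) * Real.pi := by field_simp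
    rw [this, Real.sin_nat_mul_pi]

theorem BC_fld (R : ℝ) (hR : 0 < R) (s : Finset (Fin 3 → ℕ)) (c : Cf) :
    BC R (fld R es s c) := by
  intro i x hx
  have hz : ∀ j, es j i = false → ∑ k ∈ s, c j k * eb R (es j) k x = 0 := by
    intro j hj
    apply Finset.sum_eq_zero
    intro k _
    rw [eb_face R hR (es j) k i hj x hx, mul_zero]
  unfold fld
  fin_cases i
  · have h2 := hz 2 rfl
    have h3 := hz 3 rfl
    ext <;> simp [e, Quaternion.re_mul, Quaternion.imI_mul, Quaternion.imJ_mul,
      Quaternion.imK_mul, h2, h3]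
  · have h1 := hz 1 rfl
    have h3 := hz 3 rfl
    ext <;> simp [e, Quaternion.re_mul, Quaternion.imI_mul, Quaternion.imJ_mul,
      Quaternion.imK_mul, h1, h3]
  · have h1 := hz 1 rfl
    have h2 := hz 2 rfl
    ext <;> simp [e, Quaternion.re_mul, Quaternion.imI_mul, Quaternion.imJ_mul,
      Quaternion.imK_mul, h1, h2]

end N9
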