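import Pool.Agent.Helper66.N9.Dir

/-! Divergence theorem on the cube, calculus of partial derivatives. -/

namespace N9

open MeasureTheory
open scoped Quaternion

/-- `im` as a continuous linear map -/
noncomputable def imL : V3 →L[ℝ] ℍ[ℝ] :=
  LinearMap.toContinuousLinearMap
    { toFun := im
      map_add' := by intro v w; ext <;> simp
      map_smul' := by intro a v; ext <;> simp }

theorem imL_apply (v : V3) : imL v = im v := rfl

theorem norm_im (v : V3) : ‖im v‖ ^ 2 = nsq v := by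
  rw [norm_sq_cmp]
  simp [cmp, nsq, Fin.sum_univ_four, Fin.sum_univ_three]

section pd

variable {E : Type*} [NormedAddCommGroup E] [NormedSpace ℝ E]

theorem pd_add {f g : V3 → E} {x : V3} (hf : DifferentiableAt ℝ f x)
    (hg : DifferentiableAt ℝ g x) (i : Fin 3) :
    pd i (fun y => f y + g y) x = pd i f x + pd i g x := by
  unfold pd
  rw [fderiv_fun_add hf hg]; rfl

theorem pd_sum {κ : Type*} (s : Finset κ) (f : κ → V3 → E) {x : V3}
    (hf : ∀ k ∈ s, DifferentiableAt ℝ (f k) x) (i : Fin 3) :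
    pd i (fun y => ∑ k ∈ s, f k y) x = ∑ k ∈ s, pd i (f k) x := by
  unfold pd
  rw [fderiv_fun_sum hf, _root_.sum_apply]

theorem pd_comp_clm {F : Type*} [NormedAddCommGroup F] [NormedSpace ℝ F] (L : E →L[ℝ] F)
    {f : V3 → E} {x : V3} (hf : DifferentiableAt ℝ f x) (i : Fin 3) :
    pd i (fun y => L (f y)) x = L (pd i f x) := by
  have h := L.hasFDerivAt.comp x hf.hasFDerivAt
  unfold pd
  have h3 : (fun y => L (f y)) = L ∘ f := rfl
  rw [h3, h.fderiv]; rfl

theorem pd_smul {r : V3 → ℝ} {f : V3 → E} {x : V3} (hr : DifferentiableAt ℝ r x)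
    (hf : DifferentiableAt ℝ f x) (i : Fin 3) :
    pd i (fun y => r y • f y) x = r x • pd i f x + pd i r x • f x := by
  unfold pd
  rw [fderiv_fun_smul hr hf]
  simp

theorem pd_contDiff {f : V3 → E} {n m : WithTop ℕ∞} (hf : ContDiff ℝ n f) (hm : m + 1 ≤ n)
    (i : Fin 3) : ContDiff ℝ m (pd i f) := by
  have h1 : ContDiff ℝ m (fderiv ℝ f) := hf.fderiv_right hm
  have : pd i f = fun x => fderiv ℝ f x (Pi.single i 1) := rfl
  rw [this]
  exact h1.clm_apply contDiff_const

theorem pd_cont {f : V3 → E} (hf : ContDiff ℝ 1 f) (i : Fin 3) : Continuous (pd i f) :=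
  (pd_contDiff (m := 0) hf (by norm_num) i).continuous

theorem pd_comm {f : V3 → E} (hf : ContDiff ℝ 2 f) (i j : Fin 3) (x : V3) :
    pd i (pd j f) x = pd j (pd i f) x := by
  have h1 : DifferentiableAt ℝ (fderiv ℝ f) x :=
    (hf.fderiv_right (m := 1) (by norm_num)).differentiable (by norm_num) x
  have hsym : IsSymmSndFDerivAt ℝ f x :=
    hf.contDiffAt.isSymmSndFDerivAt (by simp)
  have h2 : ∀ a b : Fin 3, pd a (pd b f) x
      = fderiv ℝ (fderiv ℝ f) x (Pi.single a 1) (Pi.single b 1) := by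
    intro a b
    have h3 : pd b f = fun y => fderiv ℝ f y (Pi.single b 1) := rfl
    unfold pd
    rw [fderiv_clm_apply h1 (differentiableAt_const _)]
    simp
  rw [h2, h2]
  exact hsym _ _

end pd

theorem pd_inner {f g : V3 → ℍ[ℝ]} {x : V3} (hf : DifferentiableAt ℝ f x)
    (hg : DifferentiableAt ℝ g x) (i : Fin 3) :
    pd i (fun y => (inner ℝ (f y) (g y) : ℝ)) x
      = inner ℝ (f x) (pd i g x) + inner ℝ (pd i f x) (g x) := by
  unfold pd
  rw [fderiv_inner_apply ℝ hf hg]

theorem pd_qmul {f g : V3 → ℍ[ℝ]} {x : V3} (hf : DifferentiableAt ℝ f x)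
    (hg : DifferentiableAt ℝ g x) (i : Fin 3) :
    pd i (fun y => f y * g y) x = f x * pd i g x + pd i f x * g x := by
  have h := hf.hasFDerivAt.mul' hg.hasFDerivAt
  have e0 : (fun y => f y * g y) = f * g := rfl
  unfold pd
  rw [e0, h.fderiv]
  simp

theorem pd_cmul {g : V3 → ℍ[ℝ]} {x : V3} (a : ℍ[ℝ])
    (hg : DifferentiableAt ℝ g x) (i : Fin 3) :
    pd i (fun y => a * g y) x = a * pd i g x := by
  have h := pd_comp_clm ((ContinuousLinearMap.mul ℝ ℍ[ℝ]) a) hg i
  simpa using h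

theorem pd_im {F : V3 → V3} {x : V3} (hF : DifferentiableAt ℝ F x) (i : Fin 3) :
    pd i (fun y => im (F y)) x = im (pd i F x) :=
  pd_comp_clm imL hF i

/-- divergence theorem on the cube -/
theorem div_box (R : ℝ) (hR : 0 < R) (f : Fin 3 → V3 → ℝ) (hf : ∀ i, ContDiff ℝ 1 (f i)) :
    ∫ x in box R, ∑ i, pd i (f i) x
      = ∑ i, ((∫ y in Set.Icc (0 : Fin 2 → ℝ) (fun _ => R), f i (i.insertNth R y))
        - ∫ y in Set.Icc (0 : Fin 2 → ℝ) (fun _ => R), f i (i.insertNth 0 y)) := by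
  have hle : (0 : V3) ≤ (fun _ => R) := fun i => hR.le
  have h := integral_divergence_of_hasFDerivAt_off_countable' (n := 2) (E := ℝ)
    (0 : V3) (fun _ => R) hle f (fun i x => fderiv ℝ (f i) x) ∅ Set.countable_empty
    (fun i => (hf i).continuous.continuousOn)
    (fun x _ i => ((hf i).differentiable (by norm_num) x).hasFDerivAt)
    (by
      have hc : Continuous (fun x => ∑ i, pd i (f i) x) :=
        continuous_finsetSum _ (fun i _ => pd_cont (hf i) i)
      exact integrableOn_box hc R)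
  exact h

theorem div_box_nonneg (R : ℝ) (hR : 0 < R) (f : Fin 3 → V3 → ℝ) (hf : ∀ i, ContDiff ℝ 1 (f i))
    (h1 : ∀ i x, x ∈ box R → x i = R → 0 ≤ f i x) (h0 : ∀ i x, x ∈ box R → x i = 0 → f i x ≤ 0) :
    0 ≤ ∫ x in box R, ∑ i, pd i (f i) x := by
  rw [div_box R hR f hf]
  apply Finset.sum_nonneg
  intro i _
  have hmem : ∀ (c : ℝ), 0 ≤ c → c ≤ R → ∀ y ∈ Set.Icc (0 : Fin 2 → ℝ) (fun _ => R),
      (i.insertNth c y : V3) ∈ box R := by
    intro c hc0 hcR y hy
    constructor
    · intro j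
      refine Fin.succAboveCases i ?_ ?_ j
      · simpa using hc0
      · intro k; simpa using hy.1 k
    · intro j
      refine Fin.succAboveCases i ?_ ?_ j
      · simpa using hcR
      · intro k; simpa using hy.2 k
  have e1 : 0 ≤ ∫ y in Set.Icc (0 : Fin 2 → ℝ) (fun _ => R), f i (i.insertNth R y) := by
    apply setIntegral_nonneg measurableSet_Icc
    intro y hy
    exact h1 i _ (hmem R hR.le le_rfl y hy) (by simp)
  have e2 : ∫ y in Set.Icc (0 : Fin 2 → ℝ) (fun _ => R), f i (i.insertNth 0 y) ≤ 0 := by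
    apply setIntegral_nonpos measurableSet_Icc
    intro y hy
    exact h0 i _ (hmem 0 le_rfl hR.le y hy) (by simp)
  linarith

theorem div_box_zero (R : ℝ) (hR : 0 < R) (f : Fin 3 → V3 → ℝ) (hf : ∀ i, ContDiff ℝ 1 (f i))
    (h : ∀ i x, x ∈ box R → (x i = 0 ∨ x i = R) → f i x = 0) :
    ∫ x in box R, ∑ i, pd i (f i) x = 0 := by
  apply le_antisymm
  · have := div_box_nonneg R hR (fun i x => - f i x) (fun i => (hf i).neg)
      (fun i x hx hxi => by rw [h i x hx (Or.inr hxi)]; simp)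
      (fun i x hx hxi => by rw [h i x hx (Or.inl hxi)]; simp)
    have e : ∀ x, ∑ i, pd i (fun x => - f i x) x = - ∑ i, pd i (f i) x := by
      intro x
      rw [← Finset.sum_neg_distrib]
      refine Finset.sum_congr rfl (fun i _ => ?_)
      unfold pd
      rw [fderiv_fun_neg]; rfl
    simp_rw [e] at this
    rw [integral_neg] at this
    linarith
  · exact div_box_nonneg R hR f hf (fun i x hx hxi => (h i x hx (Or.inr hxi)).ge)
      (fun i x hx hxi => (h i x hx (Or.inl hxi)).le)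

end N9
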