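import Pool.Agent.Helper66.N9.Dens

/-! Quaternion-valued trigonometric polynomials: norms and the Dirac operator. -/

namespace N9

open MeasureTheory
open scoped Quaternion

/-- quaternion from four components -/
noncomputable def mk4 (f : Fin 4 → ℝ) : ℍ[ℝ] := ⟨f 0, f 1, f 2, f 3⟩

@[simp] theorem mk4_re (f : Fin 4 → ℝ) : (mk4 f).re = f 0 := rfl
@[simp] theorem mk4_imI (f : Fin 4 → ℝ) : (mk4 f).imI = f 1 := rfl
@[simp] theorem mk4_imJ (f : Fin 4 → ℝ) : (mk4 f).imJ = f 2 := rfl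
@[simp] theorem mk4_imK (f : Fin 4 → ℝ) : (mk4 f).imK = f 3 := rfl

/-- components of a quaternion -/
noncomputable def cmp (a : ℍ[ℝ]) : Fin 4 → ℝ := ![a.re, a.imI, a.imJ, a.imK]

theorem mk4_cmp (a : ℍ[ℝ]) : mk4 (cmp a) = a := by
  ext <;> simp [mk4, cmp]

theorem cmp_mk4 (f : Fin 4 → ℝ) : cmp (mk4 f) = f := by
  funext j
  fin_cases j <;> simp [mk4, cmp]

theorem mk4_add (f g : Fin 4 → ℝ) : mk4 (f + g) = mk4 f + mk4 g := by
  ext <;> simp

theorem mk4_sub (f g : Fin 4 → ℝ) : mk4 (f - g) = mk4 f - mk4 g := by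
  ext <;> simp

theorem mk4_smul (a : ℝ) (g : Fin 4 → ℝ) : mk4 (a • g) = a • mk4 g := by
  ext <;> simp

theorem norm_mk4 (f : Fin 4 → ℝ) : ‖mk4 f‖ ^ 2 = ∑ j, f j ^ 2 := by
  rw [sq, ← Quaternion.normSq_eq_norm_mul_self, Quaternion.normSq_def']
  simp [Fin.sum_univ_four]

theorem inner_mk4 (f g : Fin 4 → ℝ) : inner ℝ (mk4 f) (mk4 g) = ∑ j, f j * g j := by
  rw [Quaternion.inner_def, Quaternion.re_mul]
  simp [Fin.sum_univ_four]

theorem norm_sq_cmp (a : ℍ[ℝ]) : ‖a‖ ^ 2 = ∑ j, cmp a j ^ 2 := by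
  rw [← norm_mk4, mk4_cmp]

theorem inner_cmp (a b : ℍ[ℝ]) : inner ℝ a b = ∑ j, cmp a j * cmp b j := by
  rw [← inner_mk4, mk4_cmp, mk4_cmp]

/-- `mk4` as a continuous linear map -/
noncomputable def mk4L : (Fin 4 → ℝ) →L[ℝ] ℍ[ℝ] :=
  LinearMap.toContinuousLinearMap
    { toFun := mk4, map_add' := mk4_add, map_smul' := mk4_smul }

theorem mk4L_apply (f : Fin 4 → ℝ) : mk4L f = mk4 f := rfl

/-- parities of the source components -/
def es (j : Fin 4) (i : Fin 3) : Bool :=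
  match j with
  | 0 => true
  | 1 => decide (i = 0)
  | 2 => decide (i = 1)
  | 3 => decide (i = 2)

/-- parities of the target components -/
def et (j : Fin 4) (i : Fin 3) : Bool :=
  match j with
  | 0 => false
  | 1 => decide (i ≠ 0)
  | 2 => decide (i ≠ 1)
  | 3 => decide (i ≠ 2)

/-- coefficient families -/
abbrev Cf := Fin 4 → (Fin 3 → ℕ) → ℝ

/-- quaternion-valued trigonometric polynomial -/
noncomputable def fld (R : ℝ) (ε : Fin 4 → Fin 3 → Bool) (s : Finset (Fin 3 → ℕ)) (c : Cf)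
    (x : V3) : ℍ[ℝ] := mk4 (fun j => ∑ k ∈ s, c j k * eb R (ε j) k x)

theorem fld_contDiff (R : ℝ) (ε : Fin 4 → Fin 3 → Bool) (s : Finset (Fin 3 → ℕ)) (c : Cf) :
    ContDiff ℝ ⊤ (fld R ε s c) := by
  have : fld R ε s c = fun x => mk4L (fun j => ∑ k ∈ s, c j k * eb R (ε j) k x) := rfl
  rw [this]
  apply mk4L.contDiff.comp
  rw [contDiff_pi]
  intro j
  exact ContDiff.sum (fun k _ => contDiff_const.mul (eb_contDiff R (ε j) k))

theorem fld_cont (R : ℝ) (ε : Fin 4 → Fin 3 → Bool) (s : Finset (Fin 3 → ℕ)) (c : Cf) :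
    Continuous (fld R ε s c) := (fld_contDiff R ε s c).continuous

theorem fld_add (R : ℝ) (ε : Fin 4 → Fin 3 → Bool) (s : Finset (Fin 3 → ℕ)) (c d : Cf)
    (x : V3) : fld R ε s (c + d) x = fld R ε s c x + fld R ε s d x := by
  unfold fld
  rw [← mk4_add]
  congr 1
  funext j
  simp only [Pi.add_apply]
  rw [← Finset.sum_add_distrib]
  exact Finset.sum_congr rfl (fun k _ => by ring)

theorem fld_smul (R : ℝ) (ε : Fin 4 → Fin 3 → Bool) (s : Finset (Fin 3 → ℕ)) (a : ℝ) (c : Cf)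
    (x : V3) : fld R ε s (a • c) x = a • fld R ε s c x := by
  unfold fld
  rw [← mk4_smul]
  congr 1
  funext j
  simp only [Pi.smul_apply, smul_eq_mul]
  rw [Finset.mul_sum]
  exact Finset.sum_congr rfl (fun k _ => by ring)

/-- L² inner products -/
theorem int_fld (R : ℝ) (hR : 0 < R) (ε : Fin 4 → Fin 3 → Bool) (s : Finset (Fin 3 → ℕ))
    (c : Cf) : ∫ x in box R, ‖fld R ε s c x‖ ^ 2 = ∑ j, ∑ k ∈ s, c j k ^ 2 * nu R (ε j) k := by
  classical
  have h1 : ∀ x, ‖fld R ε s c x‖ ^ 2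
      = ∑ j, ∑ k ∈ s, ∑ l ∈ s, (c j k * c j l) * (eb R (ε j) k x * eb R (ε j) l x) := by
    intro x
    unfold fld
    rw [norm_mk4]
    refine Finset.sum_congr rfl (fun j _ => ?_)
    rw [sq, Finset.sum_mul_sum]
    exact Finset.sum_congr rfl (fun k _ => Finset.sum_congr rfl (fun l _ => by ring))
  simp_rw [h1]
  have hi : ∀ (j : Fin 4) (k l : Fin 3 → ℕ),
      IntegrableOn (fun x => (c j k * c j l) * (eb R (ε j) k x * eb R (ε j) l x)) (box R) :=
    fun j k l => integrableOn_box (continuous_const.mul ((eb_cont R _ k).mul (eb_cont R _ l))) R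
  rw [integral_finsetSum _ (fun j _ => integrable_finsetSum _ (fun k _ =>
    integrable_finsetSum _ (fun l _ => hi j k l)))]
  refine Finset.sum_congr rfl (fun j _ => ?_)
  rw [integral_finsetSum _ (fun k _ => integrable_finsetSum _ (fun l _ => hi j k l))]
  refine Finset.sum_congr rfl (fun k hk => ?_)
  rw [integral_finsetSum _ (fun l _ => hi j k l)]
  have h2 : ∀ l ∈ s, ∫ x in box R, (c j k * c j l) * (eb R (ε j) k x * eb R (ε j) l x)
      = if k = l then c j k ^ 2 * nu R (ε j) k else 0 := by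
    intro l _
    rw [integral_const_mul, int_eb R hR]
    by_cases hkl : k = l
    · subst hkl; simp [sq]
    · simp [hkl]
  rw [Finset.sum_congr rfl h2, Finset.sum_ite_eq s k]
  simp [hk]

/-- weight for admissible indices -/
noncomputable def nu0 (R : ℝ) (k : Fin 3 → ℕ) : ℝ := ∏ i, (if k i = 0 then R else R / 2)

theorem nu_adm (R : ℝ) (ε : Fin 3 → Bool) (k : Fin 3 → ℕ) (h : adm ε k) :
    nu R ε k = nu0 R k := by
  unfold nu nu0
  refine Finset.prod_congr rfl (fun i _ => ?_)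
  unfold I1
  cases hb : ε i with
  | true =>
    by_cases hk : k i = 0
    · simp [hk]; ring
    · simp [hk]
  | false =>
    have hk : k i ≠ 0 := h i hb
    simp [hk]

theorem nu0_ge (R : ℝ) (hR : 0 < R) (k : Fin 3 → ℕ) : (R / 2) ^ 3 ≤ nu0 R k := by
  unfold nu0
  have : (R / 2) ^ 3 = ∏ _i : Fin 3, (R / 2) := by
    rw [Finset.prod_const, Finset.card_univ, Fintype.card_fin]
  rw [this]
  apply Finset.prod_le_prod
  · intro i _; positivity
  · intro i _
    split_ifs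
    · linarith
    · exact le_refl _

theorem nu0_pos (R : ℝ) (hR : 0 < R) (k : Fin 3 → ℕ) : 0 < nu0 R k :=
  lt_of_lt_of_le (by positivity) (nu0_ge R hR k)

/-- `c` is supported on admissible indices -/
def sup4 (ε : Fin 4 → Fin 3 → Bool) (c : Cf) : Prop := ∀ j k, ¬ adm (ε j) k → c j k = 0

theorem int_fld' (R : ℝ) (hR : 0 < R) (ε : Fin 4 → Fin 3 → Bool) (s : Finset (Fin 3 → ℕ))
    (c : Cf) (hc : sup4 ε c) :
    ∫ x in box R, ‖fld R ε s c x‖ ^ 2 = ∑ k ∈ s, nu0 R k * ∑ j, c j k ^ 2 := by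
  rw [int_fld R hR, Finset.sum_comm]
  refine Finset.sum_congr rfl (fun k _ => ?_)
  rw [Finset.mul_sum]
  refine Finset.sum_congr rfl (fun j _ => ?_)
  by_cases h : adm (ε j) k
  · rw [nu_adm R _ k h]; ring
  · rw [hc j k h]; ring

/-- coefficients of `D` -/
noncomputable def dc (R : ℝ) (c : Cf) : Cf := fun j k =>
  match j with
  | 0 => Real.pi / R * (k 0 * c 1 k + k 1 * c 2 k + k 2 * c 3 k)
  | 1 => Real.pi / R * (-(k 0 * c 0 k) + k 1 * c 3 k - k 2 * c 2 k)
  | 2 => Real.pi / R * (-(k 1 * c 0 k) + k 2 * c 1 k - k 0 * c 3 k)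
  | 3 => Real.pi / R * (-(k 2 * c 0 k) + k 0 * c 2 k - k 1 * c 1 k)

theorem dc_sup (R : ℝ) (c : Cf) (hc : sup4 es c) : sup4 et (dc R c) := by
  intro j k hk
  have H : ∀ j k, (∃ i, es j i = false ∧ k i = 0) → c j k = 0 := by
    intro j k ⟨i, hi, hk⟩
    apply hc
    intro h
    exact h i hi hk
  unfold adm at hk
  push Not at hk
  obtain ⟨i, hi, hki⟩ := hk
  fin_cases j
  · -- j = 0
    have h1 : (k 0 : ℝ) * c 1 k = 0 := by
      by_cases h : k 0 = 0
      · simp [h]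
      · rw [H 1 k ⟨i, by
          fin_cases i
          · exact absurd hki h
          · rfl
          · rfl, hki⟩, mul_zero]
    have h2 : (k 1 : ℝ) * c 2 k = 0 := by
      by_cases h : k 1 = 0
      · simp [h]
      · rw [H 2 k ⟨i, by
          fin_cases i
          · rfl
          · exact absurd hki h
          · rfl, hki⟩, mul_zero]
    have h3 : (k 2 : ℝ) * c 3 k = 0 := by
      by_cases h : k 2 = 0
      · simp [h]
      · rw [H 3 k ⟨i, by
          fin_cases i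
          · rfl
          · rfl
          · exact absurd hki h, hki⟩, mul_zero]
    show Real.pi / R * (k 0 * c 1 k + k 1 * c 2 k + k 2 * c 3 k) = 0
    rw [h1, h2, h3]; ring
  · have h0 : k 0 = 0 := by
      fin_cases i
      · exact hki
      · simp [et] at hi
      · simp [et] at hi
    show Real.pi / R * (-(k 0 * c 0 k) + k 1 * c 3 k - k 2 * c 2 k) = 0
    rw [H 3 k ⟨0, rfl, h0⟩, H 2 k ⟨0, rfl, h0⟩, h0]; simp
  · have h0 : k 1 = 0 := by
      fin_cases i
      · simp [et] at hi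
      · exact hki
      · simp [et] at hi
    show Real.pi / R * (-(k 1 * c 0 k) + k 2 * c 1 k - k 0 * c 3 k) = 0
    rw [H 1 k ⟨1, rfl, h0⟩, H 3 k ⟨1, rfl, h0⟩, h0]; simp
  · have h0 : k 2 = 0 := by
      fin_cases i
      · simp [et] at hi
      · simp [et] at hi
      · exact hki
    show Real.pi / R * (-(k 2 * c 0 k) + k 0 * c 2 k - k 1 * c 1 k) = 0
    rw [H 2 k ⟨2, rfl, h0⟩, H 1 k ⟨2, rfl, h0⟩, h0]; simp

theorem dc_norm (R : ℝ) (c : Cf) (k : Fin 3 → ℕ) :
    ∑ j, dc R c j k ^ 2 = (Real.pi / R) ^ 2 * (∑ i, (k i : ℝ) ^ 2) * ∑ j, c j k ^ 2 := by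
  rw [Fin.sum_univ_four, Fin.sum_univ_four, Fin.sum_univ_three]
  simp only [dc]
  ring

theorem dc_add (R : ℝ) (c d : Cf) : dc R (c + d) = dc R c + dc R d := by
  funext j k
  fin_cases j <;> simp [dc] <;> ring

theorem dc_smul (R : ℝ) (a : ℝ) (c : Cf) : dc R (a • c) = a • dc R c := by
  funext j k
  fin_cases j <;> simp [dc] <;> ring

end N9
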