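import Pool.Agent.Helper66.N9.Dir

/-! Galerkin kernel vectors. -/

namespace N9

open MeasureTheory
open scoped Quaternion

instance (ε : Fin 3 → Bool) (k : Fin 3 → ℕ) : Decidable (adm ε k) := by
  unfold adm; infer_instance

/-- index sets -/
def SF (n : ℕ) : Finset (Fin 4 × (Fin 3 → ℕ)) :=
  (Finset.univ ×ˢ Bn n).filter (fun σ => adm (es σ.1) σ.2)

def TF (n : ℕ) : Finset (Fin 4 × (Fin 3 → ℕ)) :=
  (Finset.univ ×ˢ Bn n).filter (fun σ => adm (et σ.1) σ.2)

theorem count (k : Fin 3 → ℕ) :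
    ∑ j : Fin 4, (if adm (es j) k then 1 else 0)
      = ∑ j : Fin 4, (if adm (et j) k then 1 else 0) + (if k = 0 then 1 else 0) := by
  have hk0 : k = 0 ↔ k 0 = 0 ∧ k 1 = 0 ∧ k 2 = 0 := by
    constructor
    · rintro rfl; simp
    · rintro ⟨h0, h1, h2⟩
      funext i; fin_cases i
      · exact h0
      · exact h1
      · exact h2
  rw [Fin.sum_univ_four, Fin.sum_univ_four]
  by_cases h0 : k 0 = 0 <;> by_cases h1 : k 1 = 0 <;> by_cases h2 : k 2 = 0 <;>
    simp [adm, es, et, Fin.forall_fin_succ, h0, h1, h2, hk0]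

theorem card_SF (n : ℕ) : (SF n).card = (TF n).card + 1 := by
  unfold SF TF
  rw [Finset.card_filter, Finset.card_filter, Finset.sum_product_right, Finset.sum_product_right]
  simp only
  rw [Finset.sum_congr rfl (fun k _ => count k), Finset.sum_add_distrib, Finset.sum_ite_eq']
  have : (0 : Fin 3 → ℕ) ∈ Bn n := by rw [mem_Bn]; intro i; exact Nat.zero_le _
  rw [if_pos this]

/-- extension of a coefficient vector -/
def cx (s : Finset (Fin 4 × (Fin 3 → ℕ))) (c : s → ℝ) : Cf :=
  fun j k => if h : (j, k) ∈ s then c ⟨(j, k), h⟩ else 0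

theorem cx_add (s : Finset (Fin 4 × (Fin 3 → ℕ))) (c d : s → ℝ) :
    cx s (c + d) = cx s c + cx s d := by
  funext j k
  unfold cx
  simp only [Pi.add_apply]
  split_ifs <;> simp

theorem cx_smul (s : Finset (Fin 4 × (Fin 3 → ℕ))) (a : ℝ) (c : s → ℝ) :
    cx s (a • c) = a • cx s c := by
  funext j k
  unfold cx
  simp only [Pi.smul_apply]
  split_ifs <;> simp

/-- `L` applied to a trigonometric polynomial -/
noncomputable def LF (R : ℝ) (F : V3 → V3) (n : ℕ) (c : Cf) (x : V3) : ℍ[ℝ] :=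
  fld R et (Bn n) (dc R c) x + fld R es (Bn n) c x * im (F x)

theorem LF_eq (R : ℝ) (F : V3 → V3) (n : ℕ) (c : Cf) (x : V3) :
    Lop F (fld R es (Bn n) c) x = LF R F n c x := by
  unfold Lop LF
  rw [Dop_fld]

theorem im_cont (F : V3 → V3) (hF : Continuous F) : Continuous (fun x => im (F x)) := by
  have h : (fun x => im (F x)) = fun x => mk4L (fun j => match j with
    | 0 => 0
    | 1 => F x 0
    | 2 => F x 1
    | 3 => F x 2) := by
    funext x
    rfl
  rw [h]
  apply mk4L.continuous.comp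
  apply continuous_pi
  intro j
  fin_cases j
  · exact continuous_const
  · exact (continuous_apply 0).comp hF
  · exact (continuous_apply 1).comp hF
  · exact (continuous_apply 2).comp hF

theorem LF_cont (R : ℝ) (F : V3 → V3) (hF : Continuous F) (n : ℕ) (c : Cf) :
    Continuous (LF R F n c) := by
  unfold LF
  exact (fld_cont R et _ _).add ((fld_cont R es _ _).mul (im_cont F hF))

theorem LF_add (R : ℝ) (F : V3 → V3) (n : ℕ) (c d : Cf) (x : V3) :
    LF R F n (c + d) x = LF R F n c x + LF R F n d x := by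
  unfold LF
  rw [dc_add, fld_add, fld_add, add_mul]
  abel

theorem LF_smul (R : ℝ) (F : V3 → V3) (n : ℕ) (a : ℝ) (c : Cf) (x : V3) :
    LF R F n (a • c) x = a • LF R F n c x := by
  unfold LF
  rw [dc_smul, fld_smul, fld_smul, smul_mul_assoc, smul_add]

/-- target basis vector -/
noncomputable def bt (R : ℝ) (τ : Fin 4 × (Fin 3 → ℕ)) (x : V3) : ℍ[ℝ] :=
  mk4 (Pi.single τ.1 (eb R (et τ.1) τ.2 x))

theorem bt_cont (R : ℝ) (τ : Fin 4 × (Fin 3 → ℕ)) : Continuous (bt R τ) := by
  have : bt R τ = fun x => mk4L (Pi.single τ.1 (eb R (et τ.1) τ.2 x)) := rfl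
  rw [this]
  apply mk4L.continuous.comp
  apply continuous_pi
  intro j
  by_cases hj : j = τ.1
  · subst hj
    simpa using eb_cont R _ _
  · simp only [Pi.single_eq_of_ne hj]
    exact continuous_const

theorem fld_et_eq (R : ℝ) (n : ℕ) (d : Cf) (hd : sup4 et d) (x : V3) :
    fld R et (Bn n) d x = ∑ τ ∈ TF n, d τ.1 τ.2 • bt R τ x := by
  have hb : ∀ τ : Fin 4 × (Fin 3 → ℕ), d τ.1 τ.2 • bt R τ x
      = mk4L (d τ.1 τ.2 • Pi.single τ.1 (eb R (et τ.1) τ.2 x)) := by
    intro τ
    rw [map_smul]; rfl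
  simp_rw [hb]
  rw [← map_sum]
  rw [mk4L_apply]
  unfold fld
  congr 1
  funext j
  rw [Finset.sum_apply]
  unfold TF
  rw [Finset.sum_filter, Finset.sum_product_right]
  refine Finset.sum_congr rfl (fun k _ => ?_)
  rw [Finset.sum_eq_single j]
  · by_cases h : adm (et j) k
    · simp [h]
    · simp [h, hd j k h]
  · intro j' _ hj'
    by_cases h : adm (et j') k
    · simp [h, Pi.single_eq_of_ne hj'.symm]
    · simp [h]
  · intro h; exact absurd (Finset.mem_univ j) h

/-- existence of a Galerkin kernel vector -/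
theorem galerkin (R : ℝ) (F : V3 → V3) (hF : Continuous F) (n : ℕ) :
    ∃ c : Cf, sup4 es c ∧ (∃ j, ∃ k ∈ Bn n, c j k ≠ 0) ∧ (∀ j k, k ∉ Bn n → c j k = 0) ∧
      ∀ d : Cf, sup4 et d → ∫ x in box R, inner ℝ (LF R F n c x) (fld R et (Bn n) d x) = 0 := by
  classical
  have hint : ∀ (c : Cf) (τ : Fin 4 × (Fin 3 → ℕ)),
      IntegrableOn (fun x => inner ℝ (LF R F n c x) (bt R τ x)) (box R) := fun c τ =>
    integrableOn_box ((LF_cont R F hF n c).inner (bt_cont R τ)) R
  let A : (SF n → ℝ) →ₗ[ℝ] (TF n → ℝ) :=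
    { toFun := fun c τ => ∫ x in box R, inner ℝ (LF R F n (cx (SF n) c) x) (bt R τ.1 x)
      map_add' := by
        intro c d
        funext τ
        simp only [Pi.add_apply]
        rw [← integral_add (hint _ _) (hint _ _)]
        congr 1
        funext x
        rw [cx_add, LF_add, inner_add_left]
      map_smul' := by
        intro a c
        funext τ
        simp only [Pi.smul_apply, smul_eq_mul, RingHom.id_apply]
        rw [← integral_const_mul]
        congr 1
        funext x
        rw [cx_smul, LF_smul, inner_smul_left]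
        simp }
  have hker : LinearMap.ker A ≠ ⊥ := by
    apply LinearMap.ker_ne_bot_of_finrank_lt
    simp only [Module.finrank_fintype_fun_eq_card, Fintype.card_coe]
    rw [card_SF]
    exact Nat.lt_succ_self _
  obtain ⟨c, hc, hc0⟩ := (Submodule.ne_bot_iff _).1 hker
  rw [LinearMap.mem_ker] at hc
  refine ⟨cx (SF n) c, ?_, ?_, ?_, ?_⟩
  · intro j k hk
    unfold cx
    rw [dif_neg]
    intro h
    unfold SF at h
    rw [Finset.mem_filter] at h
    exact hk h.2
  · have : ∃ σ : SF n, c σ ≠ 0 := by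
      by_contra h
      push Not at h
      exact hc0 (funext h)
    obtain ⟨⟨⟨j, k⟩, hσ⟩, hσ0⟩ := this
    refine ⟨j, k, ?_, ?_⟩
    · unfold SF at hσ
      rw [Finset.mem_filter, Finset.mem_product] at hσ
      exact hσ.1.2
    · unfold cx
      rw [dif_pos hσ]
      exact hσ0
  · intro j k hk
    unfold cx
    rw [dif_neg]
    intro h
    unfold SF at h
    rw [Finset.mem_filter, Finset.mem_product] at h
    exact hk h.1.2
  · intro d hd
    have h1 : ∀ x, inner ℝ (LF R F n (cx (SF n) c) x) (fld R et (Bn n) d x)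
        = ∑ τ ∈ TF n, d τ.1 τ.2 * inner ℝ (LF R F n (cx (SF n) c) x) (bt R τ x) := by
      intro x
      rw [fld_et_eq R n d hd, inner_sum]
      exact Finset.sum_congr rfl (fun τ _ => by rw [inner_smul_right])
    simp_rw [h1]
    rw [integral_finsetSum _ (fun τ _ => (hint _ τ).const_mul _)]
    apply Finset.sum_eq_zero
    intro τ hτ
    rw [integral_const_mul]
    have := congrFun hc ⟨τ, hτ⟩
    have h2 : ∫ x in box R, inner ℝ (LF R F n (cx (SF n) c) x) (bt R τ x) = 0 := this
    rw [h2, mul_zero]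

end N9
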