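import Mathlib

/-! MP_9b91d1_co, block KEY: statements (helper66). -/

namespace N9

open MeasureTheory
open scoped Quaternion

/-- points and vectors of 3-space -/
abbrev V3 := Fin 3 → ℝ

/-- a vector as an imaginary quaternion -/
noncomputable def im (v : V3) : ℍ[ℝ] := ⟨0, v 0, v 1, v 2⟩

/-- the imaginary units -/
noncomputable def e (i : Fin 3) : ℍ[ℝ] := im (Pi.single i 1)

/-- partial derivative -/
noncomputable def pd {E : Type*} [NormedAddCommGroup E] [NormedSpace ℝ E]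
    (i : Fin 3) (u : V3 → E) (x : V3) : E := fderiv ℝ u x (Pi.single i 1)

/-- Dirac operator `D u = ∑ e_i ∂_i u` -/
noncomputable def Dop (u : V3 → ℍ[ℝ]) (x : V3) : ℍ[ℝ] := ∑ i, e i * pd i u x

/-- `L u = D u + u F` -/
noncomputable def Lop (F : V3 → V3) (u : V3 → ℍ[ℝ]) (x : V3) : ℍ[ℝ] :=
  Dop u x + u x * im (F x)

/-- the cube `[0,R]^3` -/
def box (R : ℝ) : Set V3 := Set.Icc 0 (fun _ => R)

/-- absolute boundary conditions `N u = u N` on the faces of the cube -/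
def BC (R : ℝ) (u : V3 → ℍ[ℝ]) : Prop :=
  ∀ i x, (x i = 0 ∨ x i = R) → e i * u x = u x * e i

/-- Euclidean norm squared -/
def nsq (v : V3) : ℝ := ∑ i, (v i) ^ 2

/-- Euclidean inner product -/
def ip (v w : V3) : ℝ := ∑ i, v i * w i

/-- divergence -/
noncomputable def dv (W : V3 → V3) (x : V3) : ℝ := ∑ i, pd i (fun y => W y i) x

/-- the term `∑_i ⟨e_i u, u ∂_i F⟩` -/
noncomputable def crossT (F : V3 → V3) (u : V3 → ℍ[ℝ]) (x : V3) : ℝ :=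
  ∑ i, inner ℝ (e i * u x) (u x * im (pd i F x))

/-- KEY1: approximate kernel of `L`. -/
def ST_KEY1 : Prop :=
  ∀ (R : ℝ), 0 < R → ∀ F : V3 → V3, Continuous F → ∀ ε : ℝ, 0 < ε →
    ∃ u : V3 → ℍ[ℝ], ContDiff ℝ ⊤ u ∧ BC R u ∧ 0 < ∫ x in box R, ‖u x‖ ^ 2 ∧
      ∫ x in box R, ‖Lop F u x‖ ^ 2 < ε * ∫ x in box R, ‖u x‖ ^ 2

/-- KEY2: lower bound for `|L u|^2`. -/
def ST_KEY2 : Prop :=
  ∀ (R : ℝ), 0 < R → ∀ F : V3 → V3, ContDiff ℝ 1 F →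
    (∀ i x, x ∈ box R → x i = 0 → F x i ≤ 0) → (∀ i x, x ∈ box R → x i = R → 0 ≤ F x i) →
    ∀ u : V3 → ℍ[ℝ], ContDiff ℝ 2 u → BC R u →
    ∫ x in box R, (∑ i, ‖pd i u x‖ ^ 2 + nsq (F x) * ‖u x‖ ^ 2 - crossT F u x)
      ≤ ∫ x in box R, ‖Lop F u x‖ ^ 2

/-- KEY3: IMS localisation (pointwise). -/
def ST_KEY3 : Prop :=
  ∀ (F : V3 → V3) (u : V3 → ℍ[ℝ]) (r s : V3 → ℝ), ContDiff ℝ 1 u → ContDiff ℝ 1 r →
    ContDiff ℝ 1 s → (∀ x, r x ^ 2 + s x ^ 2 = 1) → ∀ x,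
    ‖Lop F u x‖ ^ 2 = ‖Lop F (fun y => r y • u y) x‖ ^ 2 + ‖Lop F (fun y => s y • u y) x‖ ^ 2
      - (∑ i, (pd i r x) ^ 2 + ∑ i, (pd i s x) ^ 2) * ‖u x‖ ^ 2

/-- KEY4: completion of the square with `W` (normal component 0 on the faces). -/
def ST_KEY4 : Prop :=
  ∀ (R : ℝ), 0 < R → ∀ W : V3 → V3, ContDiff ℝ 1 W →
    (∀ i x, x ∈ box R → (x i = 0 ∨ x i = R) → W x i = 0) →
    ∀ u : V3 → ℍ[ℝ], ContDiff ℝ 1 u →
    ∫ x in box R, ∑ i, ‖pd i u x‖ ^ 2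
      = ∫ x in box R, (∑ i, ‖pd i u x + W x i • u x‖ ^ 2 + (dv W x - nsq (W x)) * ‖u x‖ ^ 2)

/-- KEY5: algebra. -/
def ST_KEY5 : Prop :=
  (∀ (p q : V3) (u : ℍ[ℝ]), inner ℝ (im p * u) (u * im q)
      ≤ Real.sqrt (nsq p) * Real.sqrt (nsq q) * ‖u‖ ^ 2) ∧
  (∀ (p q : V3) (u : ℍ[ℝ]), nsq p = nsq q →
      nsq p * ‖u‖ ^ 2 - inner ℝ (im p * u) (u * im q) = ‖im p * u - u * im q‖ ^ 2 / 2) ∧
  (∀ (F : V3 → V3) (u : V3 → ℍ[ℝ]) (x : V3) (κ : Type) (s : Finset κ) (c : κ → ℝ) (q p : κ → V3),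
      (∀ i, pd i F x = ∑ k ∈ s, (c k * p k i) • q k) →
      crossT F u x = ∑ k ∈ s, c k * inner ℝ (im (p k) * u x) (u x * im (q k)))

/-- softmax weights over `Option ι`; `none` has exponent 0 -/
noncomputable def Zf {ι : Type*} [Fintype ι] (G : ι → V3 → ℝ) (x : V3) : ℝ :=
  1 + ∑ u, Real.exp (G u x)

noncomputable def aw {ι : Type*} [Fintype ι] (G : ι → V3 → ℝ) (o : Option ι) (x : V3) : ℝ :=
  match o with
  | none => 1 / Zf G x
  | some u => Real.exp (G u x) / Zf G x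

/-- extension by 0 to `Option ι` -/
def ext0 {ι : Type*} (P : ι → V3 → V3) (o : Option ι) (x : V3) : V3 :=
  match o with
  | none => 0
  | some u => P u x

noncomputable def grd (g : V3 → ℝ) (x : V3) : V3 := fun i => pd i g x

/-- the field `Λ ∑ a_u P_u` -/
noncomputable def avg {ι : Type*} [Fintype ι] (G : ι → V3 → ℝ) (lam : ℝ) (P : ι → V3 → V3)
    (x : V3) : V3 := lam • ∑ u, aw G (some u) x • P u x

/-- KEY6: softmax calculus. -/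
def ST_KEY6 : Prop :=
  ∀ (ι : Type) [Fintype ι] (G : ι → V3 → ℝ) (lam : ℝ) (Qf : ι → V3 → V3),
    (∀ u, ContDiff ℝ 2 (G u)) → (∀ u, ContDiff ℝ 1 (Qf u)) → ∀ x,
    (∀ o, 0 < aw G o x) ∧ (∑ o, aw G o x = 1) ∧
    (∀ i, pd i (fun y => Real.log (Zf G y)) x = (∑ u, aw G (some u) x • grd (G u) x) i) ∧
    (dv (avg G lam (fun u => grd (G u))) x
      = lam * (∑ u, aw G (some u) x * dv (grd (G u)) x
        + (1 / 2) * ∑ o, ∑ o', aw G o x * aw G o' x *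
            nsq (ext0 (fun u => grd (G u)) o x - ext0 (fun u => grd (G u)) o' x))) ∧
    (∀ i, pd i (avg G lam Qf) x
      = lam • (∑ u, aw G (some u) x • pd i (Qf u) x)
        + lam • ((1 / 2 : ℝ) • ∑ o, ∑ o', (aw G o x * aw G o' x *
            (ext0 (fun u => grd (G u)) o x - ext0 (fun u => grd (G u)) o' x) i) •
            (ext0 Qf o x - ext0 Qf o' x))) ∧
    (nsq (avg G lam Qf x) - nsq (avg G lam (fun u => grd (G u)) x)
      = lam ^ 2 * (∑ u, aw G (some u) x * (nsq (Qf u x) - nsq (grd (G u) x))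
        - (1 / 2) * ∑ o, ∑ o', aw G o x * aw G o' x *
            (nsq (ext0 Qf o x - ext0 Qf o' x)
              - nsq (ext0 (fun u => grd (G u)) o x - ext0 (fun u => grd (G u)) o' x))))

end N9
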