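import Pool.Agent.Helper66.N9.Div

/-! KEY2: lower bound for `|L u|^2`. -/

namespace N9

open MeasureTheory
open scoped Quaternion

/-- inner product of quaternions in components -/
theorem inner_exp (a b : ℍ[ℝ]) :
    inner ℝ a b = a.re * b.re + a.imI * b.imI + a.imJ * b.imJ + a.imK * b.imK := by
  rw [inner_cmp]; simp [cmp, Fin.sum_univ_four]

theorem nsq_exp (a : ℍ[ℝ]) : ‖a‖ ^ 2 = a.re ^ 2 + a.imI ^ 2 + a.imJ ^ 2 + a.imK ^ 2 := by
  rw [norm_sq_cmp]; simp [cmp, Fin.sum_univ_four]

theorem e_re (i : Fin 3) : (e i).re = 0 := rfl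

theorem anti (i j : Fin 3) (hij : i ≠ j) (u w : ℍ[ℝ]) :
    inner ℝ (e i * u) (e j * w) + inner ℝ (e j * u) (e i * w) = 0 := by
  rw [inner_exp, inner_exp]
  fin_cases i <;> fin_cases j <;>
    first
      | exact absurd rfl hij
      | (simp [e, Quaternion.re_mul, Quaternion.imI_mul, Quaternion.imJ_mul, Quaternion.imK_mul]; ring)

theorem swapF (i : Fin 3) (u w : ℍ[ℝ]) (F : V3) :
    inner ℝ (e i * u) (w * im F) = inner ℝ (e i * w) (u * im F) := by
  rw [inner_exp, inner_exp]
  fin_cases i <;>
    (simp [e, Quaternion.re_mul, Quaternion.imI_mul, Quaternion.imJ_mul, Quaternion.imK_mul]; ring)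

theorem norm_e_mul (i : Fin 3) (w : ℍ[ℝ]) : ‖e i * w‖ ^ 2 = ‖w‖ ^ 2 := by
  rw [norm_mul, mul_pow]
  have : ‖e i‖ ^ 2 = 1 := by
    unfold e; rw [norm_im]; fin_cases i <;> simp [nsq, Fin.sum_univ_three]
  rw [this, one_mul]

/-- tangential part vanishes on the faces -/
theorem face1 (i j : Fin 3) (hij : j ≠ i) (u w : ℍ[ℝ]) (hu : e i * u = u * e i)
    (hw : e i * w = w * e i) : inner ℝ (e i * u) (e j * w) = (0 : ℝ) := by
  rw [Quaternion.ext_iff] at hu hw
  obtain ⟨_, hu1, hu2, hu3⟩ := hu
  obtain ⟨_, hw1, hw2, hw3⟩ := hw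
  rw [inner_exp]
  fin_cases i <;> fin_cases j <;>
    first
      | exact absurd rfl hij
      | (simp [e, Quaternion.re_mul, Quaternion.imI_mul, Quaternion.imJ_mul,
          Quaternion.imK_mul] at hu1 hu2 hu3 hw1 hw2 hw3 ⊢
         first
          | (have a1 : u.imI = 0 := by linarith
             have a2 : u.imJ = 0 := by linarith
             have a3 : w.imI = 0 := by linarith
             have a4 : w.imJ = 0 := by linarith
             rw [a1, a2, a3, a4]; ring)
          | (have a1 : u.imI = 0 := by linarith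
             have a2 : u.imK = 0 := by linarith
             have a3 : w.imI = 0 := by linarith
             have a4 : w.imK = 0 := by linarith
             rw [a1, a2, a3, a4]; ring)
          | (have a1 : u.imJ = 0 := by linarith
             have a2 : u.imK = 0 := by linarith
             have a3 : w.imJ = 0 := by linarith
             have a4 : w.imK = 0 := by linarith
             rw [a1, a2, a3, a4]; ring))

theorem face2 (i : Fin 3) (u : ℍ[ℝ]) (F : V3) (hu : e i * u = u * e i) :
    inner ℝ (e i * u) (u * im F) = ‖u‖ ^ 2 * F i := by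
  rw [hu, inner_exp, nsq_exp]
  fin_cases i <;>
    (simp [e, Quaternion.re_mul, Quaternion.imI_mul, Quaternion.imJ_mul, Quaternion.imK_mul]; ring)

theorem tang (R : ℝ) (u : V3 → ℍ[ℝ]) (hu : Differentiable ℝ u) (hbc : BC R u) (i j : Fin 3)
    (hij : j ≠ i) (x : V3) (hx : x i = 0 ∨ x i = R) : e i * pd j u x = pd j u x * e i := by
  set g : V3 → ℍ[ℝ] := fun y => e i * u y - u y * e i with hg
  have hgd : DifferentiableAt ℝ g x := by
    apply DifferentiableAt.sub
    · exact (differentiableAt_const _).mul (hu x)
    · exact (hu x).mul (differentiableAt_const _)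
  have h1 : HasDerivAt (fun t : ℝ => g (x + t • Pi.single j 1))
      (fderiv ℝ g x (Pi.single j 1)) 0 := by
    have hl : HasDerivAt (fun t : ℝ => x + t • (Pi.single j 1 : V3)) (Pi.single j 1) 0 := by
      have := ((hasDerivAt_id (0 : ℝ)).smul_const (Pi.single j 1 : V3)).const_add x
      simpa using this
    have hg0 : HasFDerivAt g (fderiv ℝ g x) (x + (0 : ℝ) • (Pi.single j 1 : V3)) := by
      simpa using hgd.hasFDerivAt
    exact hg0.comp_hasDerivAt (0 : ℝ) hl
  have h2 : (fun t : ℝ => g (x + t • Pi.single j 1)) = fun _ => (0 : ℍ[ℝ]) := by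
    funext t
    have hxi : (x + t • (Pi.single j 1 : V3)) i = x i := by
      simp [Ne.symm hij]
    have := hbc i (x + t • Pi.single j 1) (by rw [hxi]; exact hx)
    simp only [hg]
    rw [this, sub_self]
  rw [h2] at h1
  have h3 : fderiv ℝ g x (Pi.single j 1) = 0 := h1.unique (hasDerivAt_const _ _)
  have h4 : pd j g x = e i * pd j u x - pd j u x * e i := by
    have ea : g = fun y => ((ContinuousLinearMap.mul ℝ ℍ[ℝ]) (e i)
        - (ContinuousLinearMap.mul ℝ ℍ[ℝ]).flip (e i)) (u y) := by
      funext y; simp [hg]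
    rw [ea, pd_comp_clm _ (hu x)]
    simp
  have h5 : pd j g x = 0 := h3
  rw [h4] at h5
  exact sub_eq_zero.1 h5

theorem key2 : ST_KEY2 := by
  intro R hR F hF hF0 hF1 u hu hbc
  have hu1 : ContDiff ℝ 1 u := hu.of_le (by norm_num)
  have hud : Differentiable ℝ u := hu1.differentiable (by norm_num)
  have hFd : Differentiable ℝ F := hF.differentiable (by norm_num)
  have hpu : ∀ i, ContDiff ℝ 1 (pd i u) := fun i => pd_contDiff hu (by norm_num) i
  have hpud : ∀ i, Differentiable ℝ (pd i u) := fun i => (hpu i).differentiable (by norm_num)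
  have himF : ContDiff ℝ 1 (fun y => im (F y)) := imL.contDiff.comp hF
  have himFd : Differentiable ℝ (fun y => im (F y)) := himF.differentiable (by norm_num)
  have heu : ∀ i, ContDiff ℝ 1 (fun y => e i * u y) := fun i => contDiff_const.mul hu1
  have hepu : ∀ j, ContDiff ℝ 1 (fun y => e j * pd j u y) := fun j => contDiff_const.mul (hpu j)
  have huF : ContDiff ℝ 1 (fun y => u y * im (F y)) := hu1.mul himF
  set f : Fin 3 → V3 → ℝ := fun i x =>
    ∑ j, (if j = i then (0 : ℝ) else inner ℝ (e i * u x) (e j * pd j u x))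
      + inner ℝ (e i * u x) (u x * im (F x)) with hfdef
  have hf : ∀ i, ContDiff ℝ 1 (f i) := by
    intro i
    apply ContDiff.add
    · apply ContDiff.sum
      intro j _
      by_cases h : j = i
      · simp only [h, if_true]; exact contDiff_const
      · simp only [h, if_false]
        exact (heu i).inner ℝ (hepu j)
    · exact (heu i).inner ℝ huF
  have hpd : ∀ i x, pd i (f i) x
      = ∑ j, (if j = i then (0 : ℝ) else inner ℝ (e i * pd i u x) (e j * pd j u x)
          + inner ℝ (e i * u x) (e j * pd i (pd j u) x))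
        + (2 * inner ℝ (e i * pd i u x) (u x * im (F x))
          + inner ℝ (e i * u x) (u x * im (pd i F x))) := by
    intro i x
    have d1 : DifferentiableAt ℝ (fun y => e i * u y) x := (heu i).differentiable (by norm_num) x
    have d2 : ∀ j, DifferentiableAt ℝ (fun y => e j * pd j u y) x :=
      fun j => (hepu j).differentiable (by norm_num) x
    have d3 : DifferentiableAt ℝ (fun y => u y * im (F y)) x := huF.differentiable (by norm_num) x
    have t1 : ∀ j, DifferentiableAt ℝ
        (fun y => if j = i then (0 : ℝ) else inner ℝ (e i * u y) (e j * pd j u y)) x := by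
      intro j
      by_cases h : j = i
      · simp only [h, if_true]; exact differentiableAt_const _
      · simp only [h, if_false]
        exact d1.inner ℝ (d2 j)
    have t2 : DifferentiableAt ℝ (fun y => (inner ℝ (e i * u y) (u y * im (F y)) : ℝ)) x :=
      d1.inner ℝ d3
    have e1 : pd i (f i) x
        = pd i (fun y => ∑ j, (if j = i then (0 : ℝ) else inner ℝ (e i * u y) (e j * pd j u y))) x
          + pd i (fun y => (inner ℝ (e i * u y) (u y * im (F y)) : ℝ)) x := by
      simp only [hfdef]
      rw [pd_add (DifferentiableAt.fun_sum (fun j _ => t1 j)) t2]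
    rw [e1, pd_sum _ _ (fun j _ => t1 j)]
    congr 1
    · refine Finset.sum_congr rfl (fun j _ => ?_)
      by_cases h : j = i
      · simp only [h, if_true]; simp [pd]
      · simp only [h, if_false]
        rw [pd_inner d1 (d2 j), pd_cmul _ (hud x), pd_cmul _ (hpud j x)]
        ring
    · rw [pd_inner d1 d3, pd_cmul _ (hud x), pd_qmul (hud x) (himFd x), pd_im (hFd x),
        inner_add_right, swapF i (u x) (pd i u x) (F x)]
      ring
  have hnn : 0 ≤ ∫ x in box R, ∑ i, pd i (f i) x := by
    have hface : ∀ i x, (x i = 0 ∨ x i = R) → f i x = ‖u x‖ ^ 2 * F x i := by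
      intro i x hx
      have hbx := hbc i x hx
      simp only [hfdef]
      rw [face2 i (u x) (F x) hbx]
      have : ∑ j, (if j = i then (0 : ℝ) else inner ℝ (e i * u x) (e j * pd j u x)) = 0 := by
        apply Finset.sum_eq_zero
        intro j _
        by_cases h : j = i
        · simp [h]
        · rw [if_neg h]
          exact face1 i j h (u x) (pd j u x) hbx (tang R u hud hbc i j h x hx)
      rw [this, zero_add]
    apply div_box_nonneg R hR f hf
    · intro i x hx hxi
      rw [hface i x (Or.inr hxi)]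
      exact mul_nonneg (sq_nonneg _) (hF1 i x hx hxi)
    · intro i x hx hxi
      rw [hface i x (Or.inl hxi)]
      exact mul_nonpos_of_nonneg_of_nonpos (sq_nonneg _) (hF0 i x hx hxi)
  have hpt : ∀ x, ‖Lop F u x‖ ^ 2
      = (∑ i, ‖pd i u x‖ ^ 2 + nsq (F x) * ‖u x‖ ^ 2 - crossT F u x)
        + ∑ i, pd i (f i) x := by
    intro x
    have a01 := anti 0 1 (by decide) (u x) (pd 0 (pd 1 u) x)
    have a02 := anti 0 2 (by decide) (u x) (pd 0 (pd 2 u) x)
    have a12 := anti 1 2 (by decide) (u x) (pd 1 (pd 2 u) x)
    have c01 := pd_comm hu 0 1 x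
    have c02 := pd_comm hu 0 2 x
    have c12 := pd_comm hu 1 2 x
    simp_rw [hpd]
    unfold Lop Dop crossT
    rw [norm_add_sq_real, norm_mul, mul_pow, norm_im]
    simp only [Fin.sum_univ_three]
    rw [norm_add_sq_real, norm_add_sq_real]
    simp only [inner_add_left, norm_e_mul]
    have n10 : ((1 : Fin 3) = 0) = False := by simp
    have n20 : ((2 : Fin 3) = 0) = False := by simp
    have n01 : ((0 : Fin 3) = 1) = False := by simp
    have n21 : ((2 : Fin 3) = 1) = False := by simp
    have n02 : ((0 : Fin 3) = 2) = False := by simp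
    have n12 : ((1 : Fin 3) = 2) = False := by simp
    simp only [n10, n20, n01, n21, n02, n12, if_true, if_false]
    rw [← c01, ← c02, ← c12]
    rw [real_inner_comm (e 0 * pd 0 u x) (e 1 * pd 1 u x),
      real_inner_comm (e 0 * pd 0 u x) (e 2 * pd 2 u x),
      real_inner_comm (e 1 * pd 1 u x) (e 2 * pd 2 u x)]
    linarith
  simp_rw [hpt]
  have hnx : Continuous (fun x => nsq (F x)) := by
    unfold nsq
    exact continuous_finsetSum _ (fun i _ => ((continuous_apply i).comp hF.continuous).pow 2)
  have hcx : Continuous (fun x => crossT F u x) := by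
    unfold crossT
    refine continuous_finsetSum _ (fun i _ => ?_)
    apply Continuous.inner
    · exact continuous_const.mul hu1.continuous
    · exact hu1.continuous.mul (imL.continuous.comp (pd_cont hF i))
  have c1 : Continuous (fun x => ∑ i, ‖pd i u x‖ ^ 2 + nsq (F x) * ‖u x‖ ^ 2 - crossT F u x) :=
    ((continuous_finsetSum _ (fun i _ => (pd_cont hu1 i).norm.pow 2)).add
      (hnx.mul (hu1.continuous.norm.pow 2))).sub hcx
  have c2 : Continuous (fun x => ∑ i, pd i (f i) x) :=
    continuous_finsetSum _ (fun i _ => pd_cont (hf i) i)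
  rw [integral_add (integrableOn_box c1 R) (integrableOn_box c2 R)]
  linarith

end N9
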