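import Pool.Agent.Helper66.N9.Div

/-! KEY3: IMS localisation. -/

namespace N9

open MeasureTheory
open scoped Quaternion

theorem im_grd (v : V3) : im v = ∑ i, v i • e i := by
  rw [Fin.sum_univ_three]
  ext <;> simp [e]

theorem Lop_smul (F : V3 → V3) (u : V3 → ℍ[ℝ]) (r : V3 → ℝ) (x : V3)
    (hu : DifferentiableAt ℝ u x) (hr : DifferentiableAt ℝ r x) :
    Lop F (fun y => r y • u y) x = r x • Lop F u x + im (grd r x) * u x := by
  unfold Lop Dop
  simp_rw [pd_smul hr hu]
  rw [im_grd (grd r x), smul_add, Finset.smul_sum, Finset.sum_mul]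
  simp only [grd, mul_add, Finset.sum_add_distrib, mul_smul_comm, smul_mul_assoc]
  abel

theorem norm_qmul_sq (a b : ℍ[ℝ]) : ‖a * b‖ ^ 2 = ‖a‖ ^ 2 * ‖b‖ ^ 2 := by
  rw [norm_mul, mul_pow]

theorem key3 : ST_KEY3 := by
  intro F u r s hu hr hs hrs x
  have hud : DifferentiableAt ℝ u x := hu.differentiable (by norm_num) x
  have hrd : DifferentiableAt ℝ r x := hr.differentiable (by norm_num) x
  have hsd : DifferentiableAt ℝ s x := hs.differentiable (by norm_num) x
  rw [Lop_smul F u r x hud hrd, Lop_smul F u s x hud hsd]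
  have hz : ∀ i, r x * pd i r x + s x * pd i s x = 0 := by
    intro i
    have h1 : (fun y => r y • r y + s y • s y) = fun _ => (1 : ℝ) := by
      funext y
      have := hrs y
      simp only [smul_eq_mul]
      nlinarith
    have h2 : pd i (fun y => r y • r y + s y • s y) x = 0 := by
      rw [h1]; simp [pd]
    rw [pd_add (f := fun y => r y • r y) (g := fun y => s y • s y) (hrd.smul hrd)
      (hsd.smul hsd), pd_smul hrd hrd, pd_smul hsd hsd] at h2
    simp only [smul_eq_mul] at h2
    linarith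
  have hv : r x • im (grd r x) + s x • im (grd s x) = 0 := by
    have e1 : r x • im (grd r x) + s x • im (grd s x)
        = im (fun i => r x * pd i r x + s x * pd i s x) := by
      ext <;> simp [grd]
    rw [e1]
    have : (fun i => r x * pd i r x + s x * pd i s x) = (0 : V3) := by
      funext i; exact hz i
    rw [this]; ext <;> simp
  have hc : inner ℝ (Lop F u x) ((r x • im (grd r x) + s x • im (grd s x)) * u x) = (0 : ℝ) := by
    rw [hv]; simp
  rw [add_mul, smul_mul_assoc, smul_mul_assoc, inner_add_right, inner_smul_right,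
    inner_smul_right] at hc
  rw [norm_add_sq_real, norm_add_sq_real, inner_smul_left, inner_smul_left, norm_qmul_sq,
    norm_qmul_sq, norm_im, norm_im, norm_smul, norm_smul, mul_pow, mul_pow, Real.norm_eq_abs,
    Real.norm_eq_abs, sq_abs, sq_abs]
  simp only [RCLike.conj_to_real]
  have h1 := hrs x
  have e2 : nsq (grd r x) = ∑ i, (pd i r x) ^ 2 := rfl
  have e3 : nsq (grd s x) = ∑ i, (pd i s x) ^ 2 := rfl
  rw [e2, e3]
  have h3 : ‖Lop F u x‖ ^ 2 = (r x ^ 2 + s x ^ 2) * ‖Lop F u x‖ ^ 2 := by rw [h1]; ring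
  rw [show ‖Lop F u x‖ ^ 2 = (r x ^ 2 + s x ^ 2) * ‖Lop F u x‖ ^ 2 from h3]
  rw [h1]
  have h4 : r x ^ 2 * ‖Lop F u x‖ ^ 2 + s x ^ 2 * ‖Lop F u x‖ ^ 2 = ‖Lop F u x‖ ^ 2 := by
    rw [← add_mul, h1, one_mul]
  linarith

end N9
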