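import Pool.Agent.Helper66.N9.Key

/-! Trigonometric products on the cube: orthogonality and derivatives. -/

namespace N9

open MeasureTheory

/-- `cos` or `sin` -/
noncomputable def tr (b : Bool) (t : ℝ) : ℝ := if b then Real.cos t else Real.sin t

/-- sign in the derivative: `tr b' = sg b * tr (!b)` -/
def sg (b : Bool) : ℝ := if b then -1 else 1

theorem tr_hasDeriv (b : Bool) (t : ℝ) : HasDerivAt (tr b) (sg b * tr (!b) t) t := by
  cases b
  · have h : tr false = Real.sin := by funext s; simp [tr]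
    rw [h]
    simpa [sg, tr] using Real.hasDerivAt_sin t
  · have h : tr true = Real.cos := by funext s; simp [tr]
    rw [h]
    simpa [sg, tr] using Real.hasDerivAt_cos t

theorem tr_contDiff (b : Bool) : ContDiff ℝ ⊤ (tr b) := by
  cases b
  · have h : tr false = Real.sin := by funext s; simp [tr]
    rw [h]; exact Real.contDiff_sin
  · have h : tr true = Real.cos := by funext s; simp [tr]
    rw [h]; exact Real.contDiff_cos

theorem tr_cont (b : Bool) : Continuous (tr b) := (tr_contDiff b).continuous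

theorem tr_abs_le (b : Bool) (t : ℝ) : |tr b t| ≤ 1 := by
  cases b
  · simpa [tr] using Real.abs_sin_le_one t
  · simpa [tr] using Real.abs_cos_le_one t

theorem tr_mul (b : Bool) (s t : ℝ) :
    tr b s * tr b t = (Real.cos (s - t) + (if b then 1 else -1) * Real.cos (s + t)) / 2 := by
  cases b
  · simp only [tr, Bool.false_eq_true, if_false]
    rw [Real.cos_sub, Real.cos_add]; ring
  · simp only [tr, if_true]
    rw [Real.cos_sub, Real.cos_add]; ring

/-- `∫_0^R cos(π m t / R)` -/
theorem int_cos (R : ℝ) (hR : 0 < R) (m : ℤ) :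
    ∫ t in (0:ℝ)..R, Real.cos (Real.pi / R * m * t) = if m = 0 then R else 0 := by
  by_cases hm : m = 0
  · subst hm
    simp
  · have hc : Real.pi / R * (m : ℝ) ≠ 0 :=
      mul_ne_zero (div_ne_zero Real.pi_ne_zero hR.ne') (by exact_mod_cast hm)
    rw [if_neg hm, intervalIntegral.integral_comp_mul_left (fun y => Real.cos y) hc,
      integral_cos]
    have : Real.pi / R * (m : ℝ) * R = (m : ℝ) * Real.pi := by field_simp
    rw [this, Real.sin_int_mul_pi]
    simp

/-- 1-D inner products -/
noncomputable def I1 (R : ℝ) (b : Bool) (k l : ℕ) : ℝ :=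
  (R / 2) * ((if k = l then 1 else 0) + (if b then 1 else -1) * (if k + l = 0 then 1 else 0))

theorem int_tr (R : ℝ) (hR : 0 < R) (b : Bool) (k l : ℕ) :
    ∫ t in (0:ℝ)..R, tr b (Real.pi / R * k * t) * tr b (Real.pi / R * l * t) = I1 R b k l := by
  have h1 : ∀ t : ℝ, tr b (Real.pi / R * k * t) * tr b (Real.pi / R * l * t)
      = Real.cos (Real.pi / R * (((k : ℤ) - (l : ℤ) : ℤ) : ℝ) * t) / 2
        + (if b then 1 else -1) / 2 * Real.cos (Real.pi / R * (((k : ℤ) + (l : ℤ) : ℤ) : ℝ) * t) := by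
    intro t
    rw [tr_mul]
    have e1 : Real.pi / R * (k:ℝ) * t - Real.pi / R * (l:ℝ) * t
        = Real.pi / R * (((k : ℤ) - (l : ℤ) : ℤ) : ℝ) * t := by push_cast; ring
    have e2 : Real.pi / R * (k:ℝ) * t + Real.pi / R * (l:ℝ) * t
        = Real.pi / R * (((k : ℤ) + (l : ℤ) : ℤ) : ℝ) * t := by push_cast; ring
    rw [e1, e2]; ring
  rw [intervalIntegral.integral_congr (fun t _ => h1 t)]
  rw [intervalIntegral.integral_add, intervalIntegral.integral_div,
    intervalIntegral.integral_const_mul, int_cos R hR, int_cos R hR]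
  · unfold I1
    have e1 : ((k : ℤ) - (l : ℤ) = 0) ↔ k = l := by omega
    have e2 : ((k : ℤ) + (l : ℤ) = 0) ↔ k + l = 0 := by omega
    simp only [e1, e2]
    split_ifs <;> ring
  · exact (by fun_prop : Continuous fun t : ℝ =>
      Real.cos (Real.pi / R * (((k : ℤ) - (l : ℤ) : ℤ) : ℝ) * t) / 2).intervalIntegrable _ _
  · exact (by fun_prop : Continuous fun t : ℝ => (if b then (1:ℝ) else -1) / 2 *
      Real.cos (Real.pi / R * (((k : ℤ) + (l : ℤ) : ℤ) : ℝ) * t)).intervalIntegrable _ _

/-- trigonometric product -/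
noncomputable def eb (R : ℝ) (ε : Fin 3 → Bool) (k : Fin 3 → ℕ) (x : V3) : ℝ :=
  ∏ i, tr (ε i) (Real.pi / R * k i * x i)

theorem eb_contDiff (R : ℝ) (ε : Fin 3 → Bool) (k : Fin 3 → ℕ) : ContDiff ℝ ⊤ (eb R ε k) := by
  unfold eb
  apply contDiff_prod
  intro i _
  exact (tr_contDiff (ε i)).comp (by fun_prop)

theorem eb_cont (R : ℝ) (ε : Fin 3 → Bool) (k : Fin 3 → ℕ) : Continuous (eb R ε k) :=
  (eb_contDiff R ε k).continuous

theorem eb_abs_le (R : ℝ) (ε : Fin 3 → Bool) (k : Fin 3 → ℕ) (x : V3) : |eb R ε k x| ≤ 1 := by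
  unfold eb
  rw [Finset.abs_prod]
  exact Finset.prod_le_one (fun i _ => abs_nonneg _) (fun i _ => tr_abs_le _ _)

/-- flip one parity -/
def flip (i : Fin 3) (ε : Fin 3 → Bool) : Fin 3 → Bool := fun j => if j = i then !(ε j) else ε j

theorem box_eq (R : ℝ) : box R = Set.univ.pi (fun _ : Fin 3 => Set.Icc (0:ℝ) R) := by
  unfold box
  rw [Set.pi_univ_Icc]
  rfl

theorem box_compact (R : ℝ) : IsCompact (box R) := by
  unfold box
  exact isCompact_Icc

theorem box_meas (R : ℝ) : MeasurableSet (box R) := by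
  unfold box
  exact measurableSet_Icc

theorem integrableOn_box {E : Type*} [NormedAddCommGroup E] {f : V3 → E} (hf : Continuous f)
    (R : ℝ) : IntegrableOn f (box R) :=
  hf.continuousOn.integrableOn_compact (box_compact R)

theorem int_box_prod (R : ℝ) (hR : 0 < R) (f : Fin 3 → ℝ → ℝ) :
    ∫ x in box R, ∏ i, f i (x i) = ∏ i, ∫ t in (0:ℝ)..R, f i t := by
  rw [box_eq, volume_pi, Measure.restrict_pi_pi, integral_fintype_prod_eq_prod]
  refine Finset.prod_congr rfl (fun i _ => ?_)
  rw [intervalIntegral.integral_of_le hR.le, integral_Icc_eq_integral_Ioc]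

/-- weight -/
noncomputable def nu (R : ℝ) (ε : Fin 3 → Bool) (k : Fin 3 → ℕ) : ℝ := ∏ i, I1 R (ε i) (k i) (k i)

theorem int_eb (R : ℝ) (hR : 0 < R) (ε : Fin 3 → Bool) (k l : Fin 3 → ℕ) :
    ∫ x in box R, eb R ε k x * eb R ε l x = if k = l then nu R ε k else 0 := by
  set f : Fin 3 → ℝ → ℝ := fun i t => tr (ε i) (Real.pi / R * k i * t)
          * tr (ε i) (Real.pi / R * l i * t) with hf
  have h : (fun x : V3 => eb R ε k x * eb R ε l x) = fun x => ∏ i, f i (x i) := by
    funext x
    unfold eb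
    rw [← Finset.prod_mul_distrib]
  rw [h, int_box_prod R hR f]
  have h2 : ∀ i : Fin 3, ∫ t in (0:ℝ)..R, f i t
      = I1 R (ε i) (k i) (l i) := fun i => int_tr R hR (ε i) (k i) (l i)
  rw [Finset.prod_congr rfl (fun i _ => h2 i)]
  by_cases hkl : k = l
  · subst hkl
    rw [if_pos rfl]; rfl
  · rw [if_neg hkl]
    have : ∃ i, k i ≠ l i := by
      by_contra hc
      push Not at hc
      exact hkl (funext hc)
    obtain ⟨i, hi⟩ := this
    apply Finset.prod_eq_zero (Finset.mem_univ i)
    unfold I1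
    have h0 : ¬ (k i + l i = 0) := by
      intro h0
      apply hi
      omega
    rw [if_neg hi, if_neg h0]
    simp

/-- derivative of a trigonometric product -/
theorem pd_eb (R : ℝ) (ε : Fin 3 → Bool) (k : Fin 3 → ℕ) (i : Fin 3) (x : V3) :
    pd i (eb R ε k) x = sg (ε i) * (Real.pi / R * k i) * eb R (flip i ε) k x := by
  have hd : ∀ j : Fin 3, HasFDerivAt (fun y : V3 => tr (ε j) (Real.pi / R * k j * y j))
      ((sg (ε j) * tr (!(ε j)) (Real.pi / R * k j * x j) * (Real.pi / R * k j)) •
        (ContinuousLinearMap.proj j : V3 →L[ℝ] ℝ)) x := by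
    intro j
    have h1 : HasFDerivAt (fun y : V3 => Real.pi / R * k j * y j)
        ((Real.pi / R * k j) • (ContinuousLinearMap.proj j : V3 →L[ℝ] ℝ)) x := by
      have := (ContinuousLinearMap.proj (R := ℝ) (φ := fun _ : Fin 3 => ℝ) j).hasFDerivAt
        (x := x)
      exact this.const_mul (Real.pi / R * k j)
    have h2 := (tr_hasDeriv (ε j) (Real.pi / R * k j * x j)).comp_hasFDerivAt x h1
    rw [smul_smul] at h2
    exact h2
  have hp := HasFDerivAt.finsetProd (u := (Finset.univ : Finset (Fin 3)))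
    (g := fun j (y : V3) => tr (ε j) (Real.pi / R * k j * y j)) (fun j _ => hd j)
  have he : eb R ε k = fun y : V3 => ∏ j, tr (ε j) (Real.pi / R * k j * y j) := by
    funext y; rfl
  unfold pd
  rw [he, hp.fderiv]
  simp only [_root_.sum_apply, _root_.smul_apply,
    ContinuousLinearMap.proj_apply, smul_eq_mul]
  rw [Finset.sum_eq_single i]
  · rw [Pi.single_eq_same]
    unfold eb
    rw [← Finset.mul_prod_erase Finset.univ _ (Finset.mem_univ i)]
    have : ∏ j ∈ Finset.univ.erase i, tr (flip i ε j) (Real.pi / R * k j * x j)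
        = ∏ j ∈ Finset.univ.erase i, tr (ε j) (Real.pi / R * k j * x j) := by
      apply Finset.prod_congr rfl
      intro j hj
      have hji : j ≠ i := Finset.ne_of_mem_erase hj
      simp [flip, hji]
    rw [this]
    simp only [flip, if_true]
    ring
  · intro j _ hj
    rw [Pi.single_eq_of_ne hj]
    ring
  · intro h
    exact absurd (Finset.mem_univ i) h

end N9
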